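import Pool.Agent.SerreT.GDefs3
import Pool.Agent.SerreK.GENPOS

/-!
# GENPOS3: generic base points
-/

namespace SerreT

open SerreK (V InC Hit Gen6)

open SerreK.GP hiding oo

namespace GP3

theorem RR3 (v : V) : RR (RR (RR v)) = v := by
  have hs : Real.sqrt 3 * Real.sqrt 3 = 3 := Real.mul_self_sqrt (by norm_num)
  have hs3 : Real.sqrt 3 ^ 3 = 3 * Real.sqrt 3 := by
    rw [pow_succ, pow_two, hs]
  have hs2 : Real.sqrt 3 ^ 2 = 3 := by rw [pow_two, hs]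
  ext i
  fin_cases i
  · simp [RR]
  · simp [RR]
  · simp [RR]
    ring_nf
    rw [hs3, hs2]
    ring
  · simp [RR]
    ring_nf
    rw [hs3, hs2]
    ring

theorem li_of_det {a b c d : V} (h : det4 a b c d ≠ 0) : LI4 a b c d := by
  intro x y z t hr
  have h1 := Matrix.eq_zero_of_vecMul_eq_zero (M := (![a, b, c, d] : Matrix (Fin 4) (Fin 4) ℝ))
    (v := ![x, y, z, t]) h (by
      rw [← hr]
      ext i
      simp [Matrix.vecMul, dotProduct, Fin.sum_univ_four])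
  exact ⟨congrFun h1 0, congrFun h1 1, congrFun h1 2, congrFun h1 3⟩

theorem li_r1 {a b c d : V} (h : LI4 a b c d) : LI4 b c d a := by
  intro x y z t hr
  obtain ⟨h1, h2, h3, h4⟩ := h t x y z (by rw [← hr]; abel)
  exact ⟨h2, h3, h4, h1⟩

theorem li_sw {a b c d : V} (h : LI4 a b c d) : LI4 b a c d := by
  intro x y z t hr
  obtain ⟨h1, h2, h3, h4⟩ := h y x z t (by rw [← hr]; abel)
  exact ⟨h2, h1, h3, h4⟩

/-- the quadratic form `x ↦ det (x, RR x, w, z)` -/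
noncomputable def QT (w z x : V) : ℝ :=
  - (x 0 * w 1 - x 1 * w 0) *
      ((-(3 / 2) * x 2 + Real.sqrt 3 / 2 * x 3) * z 3 - (-(Real.sqrt 3 / 2) * x 2 - 3 / 2 * x 3) * z 2)
  + (x 0 * z 1 - x 1 * z 0) *
      ((-(3 / 2) * x 2 + Real.sqrt 3 / 2 * x 3) * w 3 - (-(Real.sqrt 3 / 2) * x 2 - 3 / 2 * x 3) * w 2)
  - Real.sqrt 3 / 2 * (x 2 ^ 2 + x 3 ^ 2) * (w 0 * z 1 - w 1 * z 0)

theorem det_QT (w z x : V) : det4 x (RR x) w z = QT w z x := by
  unfold det4 QT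
  simp [Matrix.det_succ_row_zero, Fin.sum_univ_succ, RR, Fin.succAbove, Matrix.submatrix]
  ring

theorem poly2_QT (w z : V) : Poly2 (QT w z) := by
  constructor
  · unfold QT
    fun_prop
  · intro y v
    refine ⟨QT w z y, QT w z (y + v) - QT w z y - QT w z v, QT w z v, fun t => ?_⟩
    simp only [QT, Pi.add_apply, Pi.smul_apply, smul_eq_mul]
    ring

theorem exists_QT {w z : V} (hw : InC w) (hz : InC z) (hli : ∀ l : ℝ, z ≠ l • w) :
    ∃ x, QT w z x ≠ 0 := by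
  by_contra hcon
  push Not at hcon
  have hs0 : 0 < Real.sqrt 3 := Real.sqrt_pos.2 (by norm_num)
  have hs : Real.sqrt 3 * Real.sqrt 3 = 3 := Real.mul_self_sqrt (by norm_num)
  set s := Real.sqrt 3 with hsdef
  have h1 := hcon ![0, 0, 1, 0]
  simp [QT] at h1
  have h2 : w 0 * z 1 - w 1 * z 0 = 0 := h1
  have h3 := hcon ![1, 0, 1, 0]
  have h4 := hcon ![1, 0, 0, 1]
  simp [QT, h2] at h3 h4
  have hw0 : 0 < w 0 := hw.1
  have hw1 : 0 < w 1 := by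
    have := hw.2
    nlinarith [sq_nonneg (w 2), sq_nonneg (w 3)]
  have e1 : (z 1 * w 3 - w 1 * z 3) = 0 := by
    have : 3 * (z 1 * w 3 - w 1 * z 3) = 0 := by
      linear_combination (-3 / 2) * h3 + (s / 2) * h4 + (- (z 1 * w 3 - w 1 * z 3) / 4) * hs
    linarith
  have e2 : (z 1 * w 2 - w 1 * z 2) = 0 := by
    have : 3 * (z 1 * w 2 - w 1 * z 2) = 0 := by
      linear_combination (s / 2) * h3 + (3 / 2) * h4 + (- (z 1 * w 2 - w 1 * z 2) / 4) * hs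
    linarith
  apply hli (z 1 / w 1)
  ext i
  fin_cases i
  · simp; field_simp; linarith
  · simp; field_simp
  · simp; field_simp; linarith
  · simp; field_simp; linarith

theorem LI4_span {x w : V} (h1 : x 0 * w 1 - x 1 * w 0 ≠ 0) (h2 : x 2 ≠ 0) :
    LI4 x (RR x) (RR (RR x)) w := by
  have hs0 : 0 < Real.sqrt 3 := Real.sqrt_pos.2 (by norm_num)
  have hs : Real.sqrt 3 * Real.sqrt 3 = 3 := Real.mul_self_sqrt (by norm_num)
  apply li_of_det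
  have e : det4 x (RR x) (RR (RR x)) w
      = -(3 * Real.sqrt 3 / 2) * (x 2 ^ 2 + x 3 ^ 2) * (x 0 * w 1 - x 1 * w 0) := by
    rw [det_QT]
    have hs2 : Real.sqrt 3 ^ 2 = 3 := by rw [pow_two, hs]
    have hs3 : Real.sqrt 3 ^ 3 = 3 * Real.sqrt 3 := by
      rw [pow_succ, pow_two, hs]
    simp [QT, RR]
    ring_nf
    rw [hs3]
    ring
  rw [e]
  have h3 : 0 < x 2 ^ 2 := by positivity
  have h4 : 0 < x 2 ^ 2 + x 3 ^ 2 := by positivity
  have h5 : (3 * Real.sqrt 3 / 2) ≠ 0 := by positivity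
  exact mul_ne_zero (mul_ne_zero (neg_ne_zero.2 h5) h4.ne') h1

end GP3

open GP3

theorem genpos3 {Γ : Type} [Group Γ] [Countable Γ] (ρ : Γ →* (V →ₗ[ℝ] V))
    (hC : ∀ g v, InC v → InC (ρ g v)) (θ η : Γ) (hθ : ∀ v, ρ θ v = RR v) (hηθ : η * θ = θ * η)
    (l : ℝ) (hl : 1 < l) (hη : ∀ v, ρ η v 0 = l * v 0 ∧ ρ η v 1 = l⁻¹ * v 1) :
    ∃ x1 x2 x3 y1 y2 y3 : V,
      (InC x1 ∧ InC x2 ∧ InC x3 ∧ InC y1 ∧ InC y2 ∧ InC y3) ∧
      (∀ g, ρ g x1 2 ≠ 0 ∨ ρ g x1 3 ≠ 0) ∧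
      (∀ n : ℤ, x1 0 / x1 1 ≠ l ^ (2 * n)) ∧
      (∀ a b c p q r, XT ρ θ x1 x2 x3 a b c → PT ρ η y1 y2 y3 p q r → Gen6 a b c p q r) := by
  have hoC : InC oo := SerreK.GP.InC_oo
  have hoD : ∀ g, InC (ρ g oo) := fun g => hC g oo hoC
  have hηli : ∀ m : ℝ, ρ η oo ≠ m • oo := by
    intro m hm
    have h0 := congrFun hm 0
    have h1 := congrFun hm 1
    rw [(hη oo).1] at h0
    rw [(hη oo).2] at h1
    simp [oo] at h0 h1
    have hl0 : (0 : ℝ) < l := by linarith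
    have : l * l⁻¹ = 1 := mul_inv_cancel₀ hl0.ne'
    rw [h1, h0] at this
    nlinarith
  -- the point `x1`
  obtain ⟨x1, hx1, hgen⟩ := exists_generic (ι := Γ ⊕ (Γ ⊕ (ℤ ⊕ Γ)))
    (fun i v => Sum.elim (fun g => (ρ g v) 2) (Sum.elim
      (fun g => v 0 * (ρ g oo) 1 - v 1 * (ρ g oo) 0)
      (Sum.elim (fun n : ℤ => v 0 - l ^ (2 * n) * v 1)
        (fun g => QT (ρ g oo) (ρ g (ρ η oo)) v))) i)
    (by
      rintro (g | g | n | g)
      · exact poly2_linear ((LinearMap.proj 2).comp (ρ g))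
      · have h := poly2_linear (((ρ g oo) 1) • (LinearMap.proj 0 : V →ₗ[ℝ] ℝ)
          - ((ρ g oo) 0) • (LinearMap.proj 1 : V →ₗ[ℝ] ℝ))
        have e : (fun v : V => v 0 * (ρ g oo) 1 - v 1 * (ρ g oo) 0)
            = ⇑(((ρ g oo) 1) • (LinearMap.proj 0 : V →ₗ[ℝ] ℝ)
          - ((ρ g oo) 0) • (LinearMap.proj 1 : V →ₗ[ℝ] ℝ)) := by
          ext v; simp; ring
        simp only [Sum.elim_inr, Sum.elim_inl]
        rw [e]; exact h
      · have h := poly2_linear ((LinearMap.proj 0 : V →ₗ[ℝ] ℝ)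
          - (l ^ (2 * n)) • (LinearMap.proj 1 : V →ₗ[ℝ] ℝ))
        have e : (fun v : V => v 0 - l ^ (2 * n) * v 1)
            = ⇑((LinearMap.proj 0 : V →ₗ[ℝ] ℝ)
          - (l ^ (2 * n)) • (LinearMap.proj 1 : V →ₗ[ℝ] ℝ)) := by
          ext v; simp
        simp only [Sum.elim_inr, Sum.elim_inl]
        rw [e]; exact h
      · exact poly2_QT _ _)
    (by
      rintro (g | g | n | g)
      · refine ⟨ρ g⁻¹ ![0, 0, 1, 0], ?_⟩
        simp only [Sum.elim_inl]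
        rw [rho_inv]; simp
      · refine ⟨![1, 0, 0, 0], ?_⟩
        simp only [Sum.elim_inr, Sum.elim_inl]
        have h := (hoD g).1
        have h2 := (hoD g).2
        have h3 : (ρ g oo) 1 ≠ 0 := by
          intro h4
          rw [h4, mul_zero] at h2
          nlinarith [sq_nonneg ((ρ g oo) 2), sq_nonneg ((ρ g oo) 3)]
        simpa using h3
      · refine ⟨![1, 0, 0, 0], ?_⟩
        simp
      · simp only [Sum.elim_inr]
        apply exists_QT (hoD g) (hC _ _ (hC _ _ hoC))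
        intro m hm
        apply hηli m
        have h2 : ρ g⁻¹ (ρ g (ρ η oo)) = ρ g⁻¹ (m • ρ g oo) := by rw [hm]
        rwa [rho_inv', map_smul, rho_inv'] at h2)
  have g1 : ∀ g, (ρ g x1) 2 ≠ 0 := fun g => hgen (Sum.inl g)
  have g2 : ∀ g, x1 0 * (ρ g oo) 1 - x1 1 * (ρ g oo) 0 ≠ 0 := fun g => hgen (Sum.inr (Sum.inl g))
  have g3 : ∀ n : ℤ, x1 0 - l ^ (2 * n) * x1 1 ≠ 0 := fun n =>
    hgen (Sum.inr (Sum.inr (Sum.inl n)))
  have g4 : ∀ g, QT (ρ g oo) (ρ g (ρ η oo)) x1 ≠ 0 := fun g =>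
    hgen (Sum.inr (Sum.inr (Sum.inr g)))
  have gx : x1 2 ≠ 0 := by
    have := g1 1
    rwa [rho_one] at this
  -- independence of the base families, before translation
  have A0 : ∀ h, LI4 x1 (RR x1) (RR (RR x1)) (ρ h oo) := fun h => LI4_span (g2 h) gx
  have B0 : ∀ h, LI4 x1 (RR x1) (ρ h oo) (ρ h (ρ η oo)) := fun h => by
    apply li_of_det
    rw [det_QT]
    exact g4 h
  have B1 : ∀ h, LI4 (RR x1) (RR (RR x1)) (ρ h oo) (ρ h (ρ η oo)) := fun h => by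
    have h1 := (B0 (θ⁻¹ * h)).rho ρ θ
    rw [← rho_mul, ← rho_mul, mul_inv_cancel_left, hθ, hθ] at h1
    exact h1
  have B2 : ∀ h, LI4 (RR (RR x1)) x1 (ρ h oo) (ρ h (ρ η oo)) := fun h => by
    have h1 := (B1 (θ⁻¹ * h)).rho ρ θ
    rw [← rho_mul, ← rho_mul, mul_inv_cancel_left, hθ, hθ, RR3] at h1
    exact h1
  -- and after translation
  have A : ∀ g, LI4 (ρ g x1) (ρ g (RR x1)) (ρ g (RR (RR x1))) oo := fun g => by
    have h1 := (A0 g⁻¹).rho ρ g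
    rwa [rho_inv] at h1
  have C0 : ∀ g, LI4 (ρ g x1) (ρ g (RR x1)) oo (ρ η oo) := fun g => by
    have h1 := (B0 g⁻¹).rho ρ g
    rwa [rho_inv, rho_inv] at h1
  have C1 : ∀ g, LI4 (ρ g (RR x1)) (ρ g (RR (RR x1))) oo (ρ η oo) := fun g => by
    have h1 := (B1 g⁻¹).rho ρ g
    rwa [rho_inv, rho_inv] at h1
  have C2 : ∀ g, LI4 (ρ g (RR (RR x1))) (ρ g x1) oo (ρ η oo) := fun g => by
    have h1 := (B2 g⁻¹).rho ρ g
    rwa [rho_inv, rho_inv] at h1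
  have A' : ∀ g, LI4 (ρ g x1) (ρ g (RR x1)) (ρ g (RR (RR x1))) (ρ η oo) := fun g => by
    have h1 := (A0 (g⁻¹ * η)).rho ρ g
    rwa [← rho_mul, mul_inv_cancel_left] at h1
  -- free letters
  let Orb : V → Set V := fun w => Set.range fun g => ρ g w
  have hOrb : ∀ w, (Orb w).Countable := fun w => Set.countable_range _
  set W0 : Set V := Orb oo ∪ Orb x1 with hW0
  have cW0 : W0.Countable := (hOrb oo).union (hOrb x1)
  obtain ⟨x2, hx2, fx2⟩ := exists_free ρ cW0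
  set W1 : Set V := W0 ∪ Orb x2 with hW1
  have cW1 : W1.Countable := cW0.union (hOrb x2)
  obtain ⟨x3, hx3, fx3⟩ := exists_free ρ cW1
  set W2 : Set V := W1 ∪ Orb x3 with hW2
  have cW2 : W2.Countable := cW1.union (hOrb x3)
  obtain ⟨y1, hy1, fy1⟩ := exists_free ρ cW2
  set W3 : Set V := W2 ∪ Orb y1 with hW3
  have cW3 : W3.Countable := cW2.union (hOrb y1)
  obtain ⟨y2, hy2, fy2⟩ := exists_free ρ cW3
  set W4 : Set V := W3 ∪ Orb y2 with hW4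
  have cW4 : W4.Countable := cW3.union (hOrb y2)
  obtain ⟨y3, hy3, fy3⟩ := exists_free ρ cW4
  have fy3' : Free W4 y3 := by
    have := fy3 1
    rwa [rho_one] at this
  have m_o : ∀ g, ρ g oo ∈ W0 := fun g => Or.inl ⟨g, rfl⟩
  have m_o' : oo ∈ W0 := by
    have := m_o 1
    rwa [rho_one] at this
  have m_x1 : ∀ g, ρ g x1 ∈ W0 := fun g => Or.inr ⟨g, rfl⟩
  have m_x1R : ∀ g, ρ g (RR x1) ∈ W0 := fun g => by rw [← hθ, ← rho_mul]; exact m_x1 _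
  have m_x1RR : ∀ g, ρ g (RR (RR x1)) ∈ W0 := fun g => by
    rw [← hθ (RR x1), ← rho_mul]; exact m_x1R _
  have m_x2 : ∀ g, ρ g x2 ∈ W1 := fun g => Or.inr ⟨g, rfl⟩
  have m_x3 : ∀ g, ρ g x3 ∈ W2 := fun g => Or.inr ⟨g, rfl⟩
  have m_y1 : ∀ g, ρ g y1 ∈ W3 := fun g => Or.inr ⟨g, rfl⟩
  have m_y2 : ∀ g, ρ g y2 ∈ W4 := fun g => Or.inr ⟨g, rfl⟩
  have i01 : W0 ⊆ W1 := Set.subset_union_left
  have i12 : W1 ⊆ W2 := Set.subset_union_left
  have i23 : W2 ⊆ W3 := Set.subset_union_left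
  have i34 : W3 ⊆ W4 := Set.subset_union_left
  have ec : ∀ {n : ℕ} {f : Fin n → V} {v : V} {W : Set V}, v ∈ W → (∀ i, f i ∈ W) →
      ∀ i, (Matrix.vecCons v f) i ∈ W := by
    intro n f v W hv hf i
    refine Fin.cases ?_ (fun j => ?_) i
    · simpa using hv
    · simpa using hf j
  have e0 : ∀ {W : Set V}, ∀ i, (![] : Fin 0 → V) i ∈ W := fun i => i.elim0
  -- the three ways of completing a base family
  -- `x2`, `x3`
  have addX : ∀ {n : ℕ} {f : Fin n → V}, GF f → (∀ i, f i ∈ W0) → ∀ g g' : Γ,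
      GF (Matrix.vecCons (ρ g x3) (Matrix.vecCons (ρ g' x2) f)) ∧
      ∀ i, (Matrix.vecCons (ρ g x3) (Matrix.vecCons (ρ g' x2) f)) i ∈ W2 := by
    intro n f hf hw g g'
    have h1 := hf.cons hw (fx2 g')
    have w1 := ec (m_x2 g') (fun i => i01 (hw i))
    have h2 := h1.cons w1 (fx3 g)
    exact ⟨h2, ec (m_x3 g) (fun i => i12 (w1 i))⟩
  have addX2 : ∀ {n : ℕ} {f : Fin n → V}, GF f → (∀ i, f i ∈ W0) → ∀ g' : Γ,
      GF (Matrix.vecCons (ρ g' x2) f) ∧ ∀ i, (Matrix.vecCons (ρ g' x2) f) i ∈ W2 := by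
    intro n f hf hw g'
    have h1 := hf.cons hw (fx2 g')
    have w1 := ec (m_x2 g') (fun i => i01 (hw i))
    exact ⟨h1, fun i => i12 (w1 i)⟩
  have addP3 : ∀ {n : ℕ} {f : Fin n → V}, GF f → (∀ i, f i ∈ W2) → ∀ d e : Γ,
      GF (Matrix.vecCons y3 (Matrix.vecCons (ρ e y2) (Matrix.vecCons (ρ d y1) f))) := by
    intro n f hf hw d e
    have h1 := hf.cons hw (fy1 d)
    have w1 := ec (m_y1 d) (fun i => i23 (hw i))
    have h2 := h1.cons w1 (fy2 e)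
    have w2 := ec (m_y2 e) (fun i => i34 (w1 i))
    exact h2.cons w2 fy3'
  have addP2 : ∀ {n : ℕ} {f : Fin n → V}, GF f → (∀ i, f i ∈ W2) → ∀ d e : Γ,
      GF (Matrix.vecCons (ρ e y2) (Matrix.vecCons (ρ d y1) f)) := by
    intro n f hf hw d e
    have h1 := hf.cons hw (fy1 d)
    have w1 := ec (m_y1 d) (fun i => i23 (hw i))
    exact h1.cons w1 (fy2 e)
  have addP1 : ∀ {n : ℕ} {f : Fin n → V}, GF f → (∀ i, f i ∈ W2) → ∀ d : Γ,
      GF (Matrix.vecCons (ρ d y1) f) := by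
    intro n f hf hw d
    exact hf.cons hw (fy1 d)
  have GF1 : ∀ g, GF ![ρ g x1] := by
    intro g x hx _
    rw [Fin.sum_univ_one] at hx
    have h := A g (x 0) 0 0 0 (by simpa using hx)
    ext i
    fin_cases i
    exact h.1
  let σa : Equiv.Perm (Fin 6) := ⟨![3, 5, 4, 0, 2, 1], ![3, 5, 4, 0, 2, 1], by decide, by decide⟩
  let σb : Equiv.Perm (Fin 6) := ⟨![2, 4, 3, 5, 1, 0], ![5, 4, 0, 2, 1, 3], by decide, by decide⟩
  let σc : Equiv.Perm (Fin 6) := ⟨![1, 3, 2, 4, 5, 0], ![5, 0, 2, 1, 3, 4], by decide, by decide⟩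
  let σd : Equiv.Perm (Fin 6) := ⟨![3, 4, 5, 0, 2, 1], ![3, 5, 4, 0, 1, 2], by decide, by decide⟩
  let σe : Equiv.Perm (Fin 6) := ⟨![2, 3, 4, 5, 1, 0], ![5, 4, 0, 1, 2, 3], by decide, by decide⟩
  let σf : Equiv.Perm (Fin 6) := ⟨![1, 2, 3, 4, 5, 0], ![5, 0, 1, 2, 3, 4], by decide, by decide⟩
  let σg : Equiv.Perm (Fin 6) := ⟨![4, 3, 5, 0, 2, 1], ![3, 5, 4, 1, 0, 2], by decide, by decide⟩
  let σh : Equiv.Perm (Fin 6) := ⟨![3, 2, 4, 5, 1, 0], ![5, 4, 1, 0, 2, 3], by decide, by decide⟩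
  let σi : Equiv.Perm (Fin 6) := ⟨![2, 1, 3, 4, 5, 0], ![5, 1, 0, 2, 3, 4], by decide, by decide⟩
  refine ⟨x1, x2, x3, y1, y2, y3, ⟨hx1, hx2, hx3, hy1, hy2, hy3⟩, fun g => Or.inl (g1 g), ?_, ?_⟩
  · intro n hn
    apply g3 n
    have h0 : 0 < x1 1 := by
      have := hx1.2
      have := hx1.1
      nlinarith [sq_nonneg (x1 2), sq_nonneg (x1 3)]
    rw [div_eq_iff h0.ne'] at hn
    linarith
  · intro a b c p q r hX hP
    rcases hX with ⟨g, g', g'', rfl, rfl, rfl⟩ | ⟨g, rfl, rfl, rfl⟩ | ⟨g, rfl, rfl, rfl⟩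
    · rcases hP with ⟨d, e, rfl, rfl, rfl⟩ | ⟨d, e, rfl, rfl, rfl⟩ | ⟨d, rfl, rfl, rfl⟩
      · obtain ⟨h1, w1⟩ := addX (GF1 g') (ec (m_x1 g') e0) g g''
        exact gen6_of (addP3 h1 w1 d e) σa
      · obtain ⟨h1, w1⟩ := addX (GF2 (li_sw (li_r1 (li_r1 (li_r1 (A g')))))) (ec (m_x1 g') (ec m_o' e0)) g g''
        exact gen6_of (addP2 h1 w1 d e) σb
      · have h0 : LI4 (ρ g' x1) oo (ρ η oo) (ρ g' (RR x1)) := li_r1 (li_sw (C0 g'))
        obtain ⟨h1, w1⟩ := addX (GF3 h0)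
          (ec (m_x1 g') (ec m_o' (ec (m_o η) e0))) g g''
        exact gen6_of (addP1 h1 w1 d) σc
    · rcases hP with ⟨d, e, rfl, rfl, rfl⟩ | ⟨d, e, rfl, rfl, rfl⟩ | ⟨d, rfl, rfl, rfl⟩
      · have h1 := GF3 (A g)
        have w1 := ec (m_x1 g) (ec (m_x1R g) (ec (m_x1RR g) (e0 (W := W0))))
        exact gen6_of (addP3 h1 (fun i => i12 (i01 (w1 i))) d e) σd
      · have h1 := GF4 (A g)
        have w1 := ec (m_x1 g) (ec (m_x1R g) (ec (m_x1RR g) (ec m_o' (e0 (W := W0)))))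
        exact gen6_of (addP2 h1 (fun i => i12 (i01 (w1 i))) d e) σe
      · have h1 := GF5 (C1 g) (li_sw (C2 g)) (C0 g) (A' g) (A g)
        have w1 := ec (m_x1 g) (ec (m_x1R g) (ec (m_x1RR g) (ec m_o' (ec (m_o η) (e0 (W := W0))))))
        exact gen6_of (addP1 h1 (fun i => i12 (i01 (w1 i))) d) σf
    · have eθ : ρ (g * θ) x1 = ρ g (RR x1) := by rw [rho_mul, hθ]
      rw [eθ]
      rcases hP with ⟨d, e, rfl, rfl, rfl⟩ | ⟨d, e, rfl, rfl, rfl⟩ | ⟨d, rfl, rfl, rfl⟩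
      · obtain ⟨h1, w1⟩ := addX2 (GF2 (A g)) (ec (m_x1 g) (ec (m_x1R g) e0)) g
        exact gen6_of (addP3 h1 w1 d e) σg
      · obtain ⟨h1, w1⟩ := addX2 (GF3 (C0 g)) (ec (m_x1 g) (ec (m_x1R g) (ec m_o' e0))) g
        exact gen6_of (addP2 h1 w1 d e) σh
      · obtain ⟨h1, w1⟩ := addX2 (GF4 (C0 g))
          (ec (m_x1 g) (ec (m_x1R g) (ec m_o' (ec (m_o η) e0)))) g
        exact gen6_of (addP1 h1 w1 d) σi

end SerreT
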