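import Pool.Agent.SerreT.AXT3
import Pool.Agent.SerreT.GENPOS3

/-!
# AXT: the dichotomy in characteristic three for a group acting on the cone of positive
hermitian matrices
-/

namespace SerreT

open SerreK (V InC Hit Gen6)

section
variable {Γ : Type} [Group Γ] (ρ : Γ →* (V →ₗ[ℝ] V)) {k : Type} [Field k] (ψ : Γ →* kˣ)

/-- the relation of cocycles for the character `ψ⁻¹` -/
noncomputable def relz (ψ : Γ →* kˣ) (x : Γ × Γ) : Γ →₀ k :=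
  Finsupp.single (x.1 * x.2) 1 - Finsupp.single x.1 1 -
    (((ψ x.1)⁻¹ : kˣ) : k) • Finsupp.single x.2 1

/-- the chain attached to a pair of elements. -/
noncomputable def G2 (x1 x2 x3 : V) (x : Γ × Γ) (p q : V) : k :=
  -Fs ρ ψ x3 (ρ x.1 x1) x2 p q + Fs ρ ψ x3 (ρ x.1 x1) (ρ x.1 x2) p q -
    Fs ρ ψ x3 (ρ (x.1 * x.2) x1) (ρ x.1 x2) p q + Fs ρ ψ x3 (ρ (x.1 * x.2) x1) x2 p q

/-- the cycle -/
noncomputable def Zc (θ : Γ) (x1 x2 x3 : V) (c : (Γ × Γ) →₀ k) (p q : V) : k :=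
  c.sum (fun x a => a * G2 ρ ψ x1 x2 x3 x p q) + Fs ρ ψ x1 x2 (ρ θ x1) p q +
    Ds θ ρ ψ x1 p q

end

section
variable {Γ : Type} [Group Γ] {ρ : Γ →* (V →ₗ[ℝ] V)} {k : Type} [Field k] (ψ : Γ →* kˣ)
  {θ : Γ} {x1 x2 x3 : V} (c : (Γ × Γ) →₀ k)

theorem zc_swap (p q : V) : Zc ρ ψ θ x1 x2 x3 c q p = -Zc ρ ψ θ x1 x2 x3 c p q := by
  unfold Zc G2
  rw [ds_swap, fs_swap]
  simp only [fs_swap ψ _ _ _ p q]
  have e : (c.sum fun x a => a * (- -Fs ρ ψ x3 (ρ x.1 x1) x2 p q +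
      -Fs ρ ψ x3 (ρ x.1 x1) (ρ x.1 x2) p q - -Fs ρ ψ x3 (ρ (x.1 * x.2) x1) (ρ x.1 x2) p q +
      -Fs ρ ψ x3 (ρ (x.1 * x.2) x1) x2 p q)) =
      -(c.sum fun x a => a * (-Fs ρ ψ x3 (ρ x.1 x1) x2 p q +
      Fs ρ ψ x3 (ρ x.1 x1) (ρ x.1 x2) p q - Fs ρ ψ x3 (ρ (x.1 * x.2) x1) (ρ x.1 x2) p q +
      Fs ρ ψ x3 (ρ (x.1 * x.2) x1) x2 p q)) := by
    rw [Finsupp.sum, Finsupp.sum, ← Finset.sum_neg_distrib]
    exact Finset.sum_congr rfl fun x _ => by ring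
  rw [e]
  ring

theorem zc_equi (hdet : ∀ g, 0 < LinearMap.det (ρ g)) (hθ : ∀ v, ρ θ v = RR v)
    (hθ3 : θ * (θ * θ) = 1) (hψθ : ψ θ = 1) (g : Γ) (p q : V) :
    Zc ρ ψ θ x1 x2 x3 c (ρ g p) (ρ g q) = (ψ g : k) * Zc ρ ψ θ x1 x2 x3 c p q := by
  unfold Zc G2
  rw [ds_equi ψ hdet hθ hθ3 hψθ, fs_equi ψ hdet]
  simp only [fs_equi ψ hdet]
  rw [mul_add, mul_add, Finsupp.sum, Finsupp.sum, Finset.mul_sum]
  congr 2
  exact Finset.sum_congr rfl fun x _ => by ring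

theorem zc_tri (hC : ∀ g v, InC v → InC (ρ g v))
    (hP : ∀ a b c p q : V, InC a → InC b → InC c → InC p → InC q →
      {g | Hit (ρ g a) (ρ g b) (ρ g c) p q}.Finite)
    (hθ : ∀ v, ρ θ v = RR v) (hθ3 : θ * (θ * θ) = 1) (hψθ : ψ θ = 1)
    (hx1 : InC x1) (hx2 : InC x2) (hx3 : InC x3)
    (hc : c.sum (fun x a => a • relz ψ x) = Finsupp.single θ 1)
    {p q r : V} (hp : InC p) (hq : InC q) (hr : InC r)
    (hg : ∀ a b c, XT ρ θ x1 x2 x3 a b c → Gen6 a b c p q r) :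
    Zc ρ ψ θ x1 x2 x3 c p q + Zc ρ ψ θ x1 x2 x3 c q r + Zc ρ ψ θ x1 x2 x3 c r p = 0 := by
  have hθ1 : θ ≠ 1 := theta_ne_one hθ
  -- the cochain
  set ep : Γ → k := fun g => Es ρ ψ p q r x1 x2 - Es ρ ψ p q r (ρ g x1) x2 with hep
  have hF : ∀ γ δ : Γ, Fs ρ ψ x3 (ρ γ x1) (ρ δ x2) p q + Fs ρ ψ x3 (ρ γ x1) (ρ δ x2) q r +
      Fs ρ ψ x3 (ρ γ x1) (ρ δ x2) r p = Es ρ ψ p q r x3 (ρ γ x1) +
        Es ρ ψ p q r (ρ γ x1) (ρ δ x2) + Es ρ ψ p q r (ρ δ x2) x3 := by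
    intro γ δ
    refine fs_tri ψ hP hx3 (hC _ _ hx1) (hC _ _ hx2) hp hq hr fun d => ?_
    apply hg
    left
    exact ⟨d, d * γ, d * δ, rfl, (rho_mul ρ d γ x1).symm, (rho_mul ρ d δ x2).symm⟩
  have hF1 : ∀ γ : Γ, Fs ρ ψ x3 (ρ γ x1) x2 p q + Fs ρ ψ x3 (ρ γ x1) x2 q r +
      Fs ρ ψ x3 (ρ γ x1) x2 r p = Es ρ ψ p q r x3 (ρ γ x1) +
        Es ρ ψ p q r (ρ γ x1) x2 + Es ρ ψ p q r x2 x3 := by
    intro γ
    have := hF γ 1
    rwa [rho_one] at this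
  have hG : ∀ x : Γ × Γ, G2 ρ ψ x1 x2 x3 x p q + G2 ρ ψ x1 x2 x3 x q r +
      G2 ρ ψ x1 x2 x3 x r p = ep x.1 + (((ψ x.1)⁻¹ : kˣ) : k) * ep x.2 - ep (x.1 * x.2) := by
    intro x
    have h1 := hF1 x.1
    have h2 := hF x.1 x.1
    have h3 := hF (x.1 * x.2) x.1
    have h4 := hF1 (x.1 * x.2)
    have e1 := es_equi ψ (ρ := ρ) x.1 p q r x1 x2
    have e2 := es_equi ψ (ρ := ρ) x.1 p q r (ρ x.2 x1) x2
    rw [← rho_mul] at e2
    rw [e1] at h2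
    rw [e2] at h3
    simp only [G2, hep]
    linear_combination -h1 + h2 - h3 + h4
  have hE : ∀ f : Γ →₀ k, f = f := fun f => rfl
  -- apply the functional `ep`
  let L : (Γ →₀ k) →ₗ[k] k := Finsupp.lsum k (fun g => (LinearMap.id : k →ₗ[k] k).smulRight (ep g))
  have hL : ∀ g, L (Finsupp.single g 1) = ep g := by
    intro g
    simp [L]
  have hLc := congrArg L hc
  rw [hL, Finsupp.sum, map_sum] at hLc
  have hsum : (c.sum fun x a => a * G2 ρ ψ x1 x2 x3 x p q) +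
      (c.sum fun x a => a * G2 ρ ψ x1 x2 x3 x q r) +
      (c.sum fun x a => a * G2 ρ ψ x1 x2 x3 x r p) = -ep θ := by
    rw [Finsupp.sum, Finsupp.sum, Finsupp.sum, ← Finset.sum_add_distrib,
      ← Finset.sum_add_distrib, ← hLc, ← Finset.sum_neg_distrib]
    refine Finset.sum_congr rfl fun x _ => ?_
    rw [← mul_add, ← mul_add, hG, map_smul, relz, map_sub, map_sub, map_smul, hL, hL, hL,
      smul_eq_mul, smul_eq_mul]
    ring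
  have hA : Fs ρ ψ x1 x2 (ρ θ x1) p q + Fs ρ ψ x1 x2 (ρ θ x1) q r +
      Fs ρ ψ x1 x2 (ρ θ x1) r p = ep θ + Es ρ ψ p q r (ρ θ x1) x1 := by
    rw [fs_tri ψ hP hx1 hx2 (hC _ _ hx1) hp hq hr (fun d => by
      apply hg
      right; right
      exact ⟨d, rfl, rfl, (rho_mul ρ d θ x1).symm⟩)]
    rw [hep]
    have := es_swap ψ (ρ := ρ) p q r (ρ θ x1) x2
    rw [this]
    ring
  have hB := ds_tri ψ hP hθ hθ3 hθ1 hψθ hx1 hp hq hr (fun d => by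
      apply hg
      right; left
      exact ⟨d, rfl, rfl, rfl⟩)
  have hS := es_swap ψ (ρ := ρ) p q r x1 (ρ θ x1)
  unfold Zc
  linear_combination hsum + hA + hB + hS

end

theorem axis3 {Γ : Type} [Group Γ] [Countable Γ] (ρ : Γ →* (V →ₗ[ℝ] V))
    (hC : ∀ g v, InC v → InC (ρ g v)) (hdet : ∀ g, 0 < LinearMap.det (ρ g))
    (hP : ∀ a b c p q : V, InC a → InC b → InC c → InC p → InC q →
      {g | Hit (ρ g a) (ρ g b) (ρ g c) p q}.Finite)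
    (θ η : Γ) (hθ : ∀ v, ρ θ v = RR v) (hθ3 : θ * (θ * θ) = 1)
    (hηθ : η * θ = θ * η) (l : ℝ) (hl : 1 < l)
    (hη : ∀ v, ρ η v 0 = l * v 0 ∧ ρ η v 1 = l⁻¹ * v 1)
    (hZ : ∀ g, (g * θ = θ * g ∨ g * θ = θ * θ * g) → ∃ (n : ℤ) (j : ℕ), g = η ^ n * θ ^ j)
    {k : Type} [Field k] [CharP k 3] (ψ : Γ →* kˣ) (hψθ : ψ θ = 1) (hψη : ψ η = 1) :
    ∃ ψ' : Γ →* kˣ, (ψ' = ψ ∨ ψ' = ψ⁻¹) ∧ ∃ b : Γ → k,
      (∀ g h, b (g * h) = b g + ψ' g * b h) ∧ (b θ ≠ 0 ∨ b η ≠ 0) := by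
  have hθ1 : θ ≠ 1 := theta_ne_one hθ
  obtain ⟨x1, x2, x3, y1, y2, y3, ⟨x1_in, x2_in, x3_in, y1_in, y2_in, y3_in⟩, hx1', hx1g, hgen⟩ :=
    genpos3 ρ hC θ η hθ hηθ l hl hη
  by_cases hm : (Finsupp.single θ 1 : Γ →₀ k) ∈ Submodule.span k (Set.range (relz (k := k) ψ))
  · -- case B
    rw [Finsupp.mem_span_range_iff_exists_finsupp] at hm
    obtain ⟨c, hc⟩ := hm
    set Z : V → V → k := Zc ρ ψ θ x1 x2 x3 c with hZdef
    have hsw : ∀ p q, Z q p = -Z p q := fun p q => zc_swap ψ c p q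
    have heq : ∀ g p q, Z (ρ g p) (ρ g q) = (ψ g : k) * Z p q :=
      fun g p q => zc_equi ψ c hdet hθ hθ3 hψθ g p q
    have htri : ∀ p q r, InC p → InC q → InC r → PT ρ η y1 y2 y3 p q r →
        Z p q + Z q r + Z r p = 0 := by
      intro p q r hp hq hr h
      exact zc_tri ψ c hC hP hθ hθ3 hψθ x1_in x2_in x3_in hc hp hq hr
        (fun a b c' h' => hgen a b c' p q r h' h)
    have t1 : ∀ d e : Γ, Z y3 (ρ d y1) + Z (ρ d y1) (ρ e y2) + Z (ρ e y2) y3 = 0 :=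
      fun d e => htri _ _ _ y3_in (hC _ _ y1_in) (hC _ _ y2_in) (Or.inl ⟨d, e, rfl, rfl, rfl⟩)
    have t2 : ∀ d e : Γ, Z oo (ρ d y1) + Z (ρ d y1) (ρ e y2) + Z (ρ e y2) oo = 0 :=
      fun d e => htri _ _ _ inC_oo (hC _ _ y1_in) (hC _ _ y2_in)
        (Or.inr (Or.inl ⟨d, e, rfl, rfl, rfl⟩))
    have t3 : Z oo (ρ η oo) + Z (ρ η oo) (ρ η y1) + Z (ρ η y1) oo = 0 :=
      htri _ _ _ inC_oo (hC _ _ inC_oo) (hC _ _ y1_in) (Or.inr (Or.inr ⟨η, rfl, rfl, rfl⟩))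
    have hη1 : Z (ρ η oo) (ρ η y1) = Z oo y1 := by
      rw [heq, hψη, Units.val_one, one_mul]
    refine ⟨ψ, Or.inl rfl, fun g => Z y1 y2 - Z (ρ g y1) y2, ?_, Or.inr ?_⟩
    · intro g h
      have a1 := t1 1 1
      have a2 := t1 g 1
      have a3 := t1 g g
      have a4 := t1 (g * h) g
      have a5 := t1 (g * h) 1
      have q1 := heq g y1 y2
      have q2 := heq g (ρ h y1) y2
      rw [← rho_mul ρ g h] at q2
      simp only [rho_one] at a1 a2 a5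
      change Z y1 y2 - Z (ρ (g * h) y1) y2 = (Z y1 y2 - Z (ρ g y1) y2) +
        (ψ g : k) * (Z y1 y2 - Z (ρ h y1) y2)
      linear_combination -a5 + a2 - a3 + a4 + q1 - q2
    · change Z y1 y2 - Z (ρ η y1) y2 ≠ 0
      have b1 := t2 1 1
      have b2 := t2 η 1
      simp only [rho_one] at b1 b2
      have e6 : Z y1 y2 - Z (ρ η y1) y2 = Z oo (ρ η oo) := by
        linear_combination b1 - b2 - t3 + hη1 - hsw oo (ρ η y1) * (-1)
      rw [e6]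
      have hoθ : ρ θ oo = oo := by rw [hθ, RR_oo]
      have hηoθ : ρ θ (ρ η oo) = ρ η oo := by
        rw [← rho_mul, ← hηθ, rho_mul, hoθ]
      have hz : ∀ u v w, InC u → InC v → InC w → Fs ρ ψ u v w oo (ρ η oo) = 0 := by
        intro u v w hu hv hw
        exact fs_zero ψ hdet hθ3 hθ1 hψθ (fs_fin ψ hP hu hv hw inC_oo (hC _ _ inC_oo)) hoθ hηoθ
      have e7 : Z oo (ρ η oo) = Ds θ ρ ψ x1 oo (ρ η oo) := by
        rw [hZdef]
        unfold Zc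
        rw [hz _ _ _ x1_in x2_in (hC _ _ x1_in), add_zero]
        have : (c.sum fun x a => a * G2 ρ ψ x1 x2 x3 x oo (ρ η oo)) = 0 := by
          refine Finset.sum_eq_zero fun x _ => ?_
          have h0 : G2 ρ ψ x1 x2 x3 x oo (ρ η oo) = 0 := by
            unfold G2
            rw [hz _ _ _ x3_in (hC _ _ x1_in) x2_in, hz _ _ _ x3_in (hC _ _ x1_in) (hC _ _ x2_in),
              hz _ _ _ x3_in (hC _ _ x1_in) (hC _ _ x2_in), hz _ _ _ x3_in (hC _ _ x1_in) x2_in]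
            ring
          change c x * G2 ρ ψ x1 x2 x3 x oo (ρ η oo) = 0
          rw [h0, mul_zero]
        rw [this, zero_add]
      rw [e7]
      exact ds_axis ψ hC hdet hP hθ hθ3 hηθ l hl hη hZ hψθ hψη x1_in hx1' hx1g
  · -- case A
    obtain ⟨φ, hφ1, hφ2⟩ := Submodule.exists_le_ker_of_notMem hm
    refine ⟨ψ⁻¹, Or.inr rfl, fun g => φ (Finsupp.single g 1), ?_, Or.inl hφ1⟩
    intro g h
    have h1 : φ (relz ψ (g, h)) = 0 := hφ2 (Submodule.subset_span ⟨(g, h), rfl⟩)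
    unfold relz at h1
    simp only [map_sub, map_smul, smul_eq_mul] at h1
    rw [MonoidHom.inv_apply]
    linear_combination h1

end SerreT
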