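import Mathlib

/-!
# ORB3: sums over the orbits of a map of order three, in characteristic three
The support is finite and stable under `j`; the part of it that is not fixed is a disjoint union
of sets `{x, j x, j (j x)}`, each of which contributes `3 φ x = 0`.
-/

namespace SerreT

theorem orb3_aux {X : Type*} {k : Type*} [Field k] [CharP k 3] [DecidableEq X] (j : X → X)
    (hj : ∀ x, j (j (j x)) = x) (φ : X → k) (hφ : ∀ x, φ (j x) = φ x) :
    ∀ (n : ℕ) (S : Finset X), S.card = n → (∀ x ∈ S, j x ∈ S) → (∀ x ∈ S, j x ≠ x) →
      ∑ x ∈ S, φ x = 0 := by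
  intro n
  induction n using Nat.strong_induction_on with
  | _ n ih =>
    intro S hS hst hne
    rcases S.eq_empty_or_nonempty with rfl | ⟨x, hx⟩
    · simp
    · have h1 : x ≠ j x := (hne x hx).symm
      have h2 : j x ≠ j (j x) := by
        intro e
        apply h1
        have := congrArg j (congrArg j e)
        rw [hj] at this
        exact this
      have h3 : x ≠ j (j x) := by
        intro e
        apply h1
        have := congrArg j e
        rw [hj] at this
        exact this.symm
      set T : Finset X := {x, j x, j (j x)} with hT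
      have hTS : T ⊆ S := by
        intro y hy
        simp only [hT, Finset.mem_insert, Finset.mem_singleton] at hy
        rcases hy with rfl | rfl | rfl
        · exact hx
        · exact hst _ hx
        · exact hst _ (hst _ hx)
      have hsumT : ∑ y ∈ T, φ y = 0 := by
        rw [hT, Finset.sum_insert (by simp [h1, h3]), Finset.sum_insert (by simp [h2]),
          Finset.sum_singleton, hφ (j x), hφ x]
        have h30 : (3 : k) = 0 := by
          have := CharP.cast_eq_zero k 3
          exact_mod_cast this
        linear_combination φ x * h30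
      rw [← Finset.sum_sdiff hTS, hsumT, add_zero]
      refine ih _ ?_ (S \ T) rfl ?_ ?_
      · rw [← hS]
        apply Finset.card_lt_card
        refine Finset.sdiff_ssubset hTS ⟨x, by simp [hT]⟩
      · intro y hy
        rw [Finset.mem_sdiff] at hy ⊢
        refine ⟨hst y hy.1, fun h => hy.2 ?_⟩
        simp only [hT, Finset.mem_insert, Finset.mem_singleton] at h ⊢
        rcases h with h | h | h
        · right; right
          rw [← h, hj]
        · left
          have := congrArg j (congrArg j h)
          rw [hj, hj] at this
          exact this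
        · right; left
          have := congrArg j (congrArg j h)
          rw [hj, hj] at this
          exact this
      · intro y hy
        exact hne y (Finset.mem_sdiff.1 hy).1

theorem orb3 {X : Type*} {k : Type*} [Field k] [CharP k 3] (j : X → X)
    (hj : ∀ x, j (j (j x)) = x) (φ : X → k) (hφ : ∀ x, φ (j x) = φ x)
    (hfin : (Function.support φ).Finite) (hfix : ∀ x, j x = x → φ x = 0) :
    ∑ᶠ x, φ x = 0 := by
  classical
  rw [finsum_eq_sum_of_support_subset (s := hfin.toFinset) φ (by simp)]
  refine orb3_aux j hj φ hφ _ _ rfl ?_ ?_
  · intro x hx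
    simp only [Set.Finite.mem_toFinset, Function.mem_support] at hx ⊢
    rw [hφ]; exact hx
  · intro x hx h
    simp only [Set.Finite.mem_toFinset, Function.mem_support] at hx
    exact hx (hfix x h)

/-- only the fixed points contribute. -/
theorem orb3_fix {X : Type*} {k : Type*} [Field k] [CharP k 3] (j : X → X)
    (hj : ∀ x, j (j (j x)) = x) (φ : X → k) (hφ : ∀ x, φ (j x) = φ x)
    (hfin : (Function.support φ).Finite) {Y : Type*} (e : Y → X) (he : Function.Injective e)
    (hfix : ∀ x, j x = x → φ x ≠ 0 → ∃ y, e y = x) (hY : ∀ y, j (e y) = e y) :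
    ∑ᶠ x, φ x = ∑ᶠ y, φ (e y) := by
  classical
  have hjinj : ∀ x, j (j x) = j x ↔ j x = x := by
    intro x
    constructor
    · intro h
      have := congrArg j (congrArg j h)
      rw [hj, hj] at this
      exact this
    · intro h; rw [h]; exact h
  let ψ : X → k := fun x => if j x = x then 0 else φ x
  let χ : X → k := fun x => if j x = x then φ x else 0
  have hsum : ∀ x, φ x = ψ x + χ x := by
    intro x
    by_cases h : j x = x
    · simp [ψ, χ, h]
    · simp [ψ, χ, h]
  have hψfin : (Function.support ψ).Finite := by
    refine hfin.subset fun x hx => ?_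
    simp only [Function.mem_support, ψ, ne_eq, ite_eq_left_iff, not_forall] at hx ⊢
    obtain ⟨-, h⟩ := hx
    exact h
  have hχfin : (Function.support χ).Finite := by
    refine hfin.subset fun x hx => ?_
    simp only [Function.mem_support, χ, ne_eq, ite_eq_right_iff, not_forall] at hx ⊢
    obtain ⟨-, h⟩ := hx
    exact h
  have h1 : ∑ᶠ x, φ x = ∑ᶠ x, ψ x + ∑ᶠ x, χ x := by
    rw [← finsum_add_distrib hψfin hχfin]
    exact finsum_congr hsum
  have h2 : ∑ᶠ x, ψ x = 0 := by
    refine orb3 j hj ψ ?_ hψfin ?_
    · intro x
      simp only [ψ, hjinj, hφ]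
    · intro x hx
      simp [ψ, hx]
  have h3 : ∑ᶠ x, χ x = ∑ᶠ y, χ (e y) := by
    rw [← finsum_mem_range he, ← finsum_mem_univ χ]
    refine finsum_mem_inter_support_eq χ _ _ ?_
    ext x
    simp only [Set.mem_inter_iff, Set.mem_univ, true_and, Function.mem_support]
    constructor
    · intro hx
      refine ⟨?_, hx⟩
      by_cases h : j x = x
      · have h' : φ x ≠ 0 := by
          simpa [χ, h] using hx
        obtain ⟨y, hy⟩ := hfix x h h'
        exact ⟨y, hy⟩
      · exact absurd (by simp [χ, h]) hx
    · exact fun hx => hx.2
  rw [h1, h2, h3, zero_add]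
  refine finsum_congr fun y => ?_
  simp [χ, hY y]

end SerreT
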