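import Pool.Agent.SerreT.PARITY3
import Pool.Agent.SerreT.ORB3

/-!
# AXT1: intersection sums over a group
-/

namespace SerreT

open SerreK (V InC Hit Gen6)

theorem hit_map (L : V →ₗ[ℝ] V) {a b c p q : V} (h : Hit a b c p q) :
    Hit (L a) (L b) (L c) (L p) (L q) := by
  obtain ⟨x, y, z, s, t, hx, hy, hz, hs, ht, e⟩ := h
  refine ⟨x, y, z, s, t, hx, hy, hz, hs, ht, ?_⟩
  have := congrArg L e
  simpa only [map_add, map_smul] using this

section
variable {Γ : Type} [Group Γ] (ρ : Γ →* (V →ₗ[ℝ] V))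

theorem rho_mul (g h : Γ) (v : V) : ρ (g * h) v = ρ g (ρ h v) := by
  rw [map_mul]; rfl

theorem rho_one (v : V) : ρ 1 v = v := by
  rw [map_one]; rfl

variable {k : Type} [Field k] (ψ : Γ →* kˣ)

/-- the sum of the crossings of the translates of the triangle `u v w` with the segment `p q`. -/
noncomputable def Fs (u v w p q : V) : k := ∑ᶠ d : Γ, (ψ d : k) * sI k (ρ d u) (ρ d v) (ρ d w) p q

/-- the sum of the crossings of the triangle `p q r` with the translates of the segment `u v`. -/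
noncomputable def Es (p q r u v : V) : k := ∑ᶠ d : Γ, (ψ d : k) * sI k p q r (ρ d u) (ρ d v)

variable {ρ} (hC : ∀ g v, InC v → InC (ρ g v))
    (hP : ∀ a b c p q : V, InC a → InC b → InC c → InC p → InC q →
      {g | Hit (ρ g a) (ρ g b) (ρ g c) p q}.Finite)

include hP in
theorem fs_fin {u v w p q : V} (hu : InC u) (hv : InC v) (hw : InC w) (hp : InC p) (hq : InC q) :
    (Function.support fun d : Γ => (ψ d : k) * sI k (ρ d u) (ρ d v) (ρ d w) p q).Finite := by
  refine (hP u v w p q hu hv hw hp hq).subset fun d hd => ?_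
  exact sI_hit k (right_ne_zero_of_mul hd)

include hP in
theorem es_fin {p q r u v : V} (hp : InC p) (hq : InC q) (hr : InC r) (hu : InC u) (hv : InC v) :
    (Function.support fun d : Γ => (ψ d : k) * sI k p q r (ρ d u) (ρ d v)).Finite := by
  refine ((hP p q r u v hp hq hr hu hv).image (fun d => d⁻¹)).subset fun d hd => ?_
  have h1 := hit_map (ρ d⁻¹) (sI_hit k (right_ne_zero_of_mul hd))
  refine ⟨d⁻¹, ?_, inv_inv d⟩
  have e : ∀ x, ρ d⁻¹ (ρ d x) = x := fun x => by rw [← rho_mul, inv_mul_cancel, rho_one]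
  rw [e, e] at h1
  exact h1

theorem fs_swap (u v w p q : V) : Fs ρ ψ u v w q p = -Fs ρ ψ u v w p q := by
  unfold Fs
  rw [← finsum_neg_distrib]
  refine finsum_congr fun d => ?_
  rw [sI_swap]
  ring

theorem es_swap (p q r u v : V) : Es ρ ψ p q r v u = -Es ρ ψ p q r u v := by
  unfold Es
  rw [← finsum_neg_distrib]
  refine finsum_congr fun d => ?_
  rw [sI_swap]
  ring

theorem fs_equi (hdet : ∀ g, 0 < LinearMap.det (ρ g)) (g : Γ) (u v w p q : V) :
    Fs ρ ψ u v w (ρ g p) (ρ g q) = (ψ g : k) * Fs ρ ψ u v w p q := by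
  unfold Fs
  rw [mul_finsum, ← finsum_comp_equiv (Equiv.mulLeft g)]
  refine finsum_congr fun d => ?_
  rw [Equiv.coe_mulLeft, map_mul, Units.val_mul, rho_mul, rho_mul, rho_mul,
    sI_map k _ (hdet g)]
  ring

theorem es_equi (g : Γ) (p q r u v : V) :
    Es ρ ψ p q r (ρ g u) (ρ g v) = ((ψ g)⁻¹ : kˣ) * Es ρ ψ p q r u v := by
  unfold Es
  rw [mul_finsum, ← finsum_comp_equiv (Equiv.mulRight g⁻¹)]
  refine finsum_congr fun d => ?_
  have e : ∀ x, ρ (d * g⁻¹) (ρ g x) = ρ d x := fun x => by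
    rw [← rho_mul, mul_assoc, inv_mul_cancel, mul_one]
  rw [Equiv.coe_mulRight, e, e, map_mul, map_inv, Units.val_mul]
  ring

include hP in
/-- the parity lemma, summed over the group. -/
theorem fs_tri {u v w p q r : V} (hu : InC u) (hv : InC v) (hw : InC w) (hp : InC p) (hq : InC q)
    (hr : InC r) (hg : ∀ d : Γ, Gen6 (ρ d u) (ρ d v) (ρ d w) p q r) :
    Fs ρ ψ u v w p q + Fs ρ ψ u v w q r + Fs ρ ψ u v w r p =
      Es ρ ψ p q r u v + Es ρ ψ p q r v w + Es ρ ψ p q r w u := by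
  unfold Fs Es
  rw [← finsum_add_distrib (fs_fin ψ hP hu hv hw hp hq) (fs_fin ψ hP hu hv hw hq hr),
    ← finsum_add_distrib _ (fs_fin ψ hP hu hv hw hr hp),
    ← finsum_add_distrib (es_fin ψ hP hp hq hr hu hv) (es_fin ψ hP hp hq hr hv hw),
    ← finsum_add_distrib _ (es_fin ψ hP hp hq hr hw hu)]
  · refine finsum_congr fun d => ?_
    rw [← mul_add, ← mul_add, ← mul_add, ← mul_add, parity3 k _ _ _ _ _ _ (hg d)]
  · refine ((es_fin ψ hP hp hq hr hu hv).union (es_fin ψ hP hp hq hr hv hw)).subset ?_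
    exact Function.support_add _ _
  · refine ((fs_fin ψ hP hu hv hw hp hq).union (fs_fin ψ hP hu hv hw hq hr)).subset ?_
    exact Function.support_add _ _

/-- the sum vanishes on segments fixed by an element of order three. -/
theorem fs_zero [CharP k 3] (hdet : ∀ g, 0 < LinearMap.det (ρ g)) {θ : Γ}
    (hθ3 : θ * (θ * θ) = 1) (hθ1 : θ ≠ 1) (hψθ : ψ θ = 1) {u v w p q : V}
    (hfin : (Function.support fun d : Γ => (ψ d : k) * sI k (ρ d u) (ρ d v) (ρ d w) p q).Finite)
    (hp : ρ θ p = p) (hq : ρ θ q = q) : Fs ρ ψ u v w p q = 0 := by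
  refine orb3 (fun d => θ * d) (fun d => ?_) _ (fun d => ?_) hfin (fun d hd => ?_)
  · rw [← mul_assoc θ, ← mul_assoc (θ * θ), mul_assoc θ θ θ, hθ3, one_mul]
  · simp only [map_mul, hψθ, one_mul]
    have := sI_map k (ρ θ) (hdet θ) (ρ d u) (ρ d v) (ρ d w) p q
    rw [hp, hq] at this
    rw [← this]
    rfl
  · exfalso
    exact hθ1 (mul_eq_right.mp hd)

end

end SerreT
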