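import Pool.Agent.SerreT.GDefs3

/-!
# COUNT3
* `hit_disc`: the `(v 2, v 3)` part of `α x + β R x + γ R² x` vanishes iff `α = β = γ` (as
  `x⁻ ≠ 0`; `x⁻ + R x⁻ + R² x⁻ = 0` and `x⁻, R x⁻` are independent), and then the sum is
  `3 α (x 0, x 1, 0, 0)`; the open cone on `(1, 1)` and `(l, l⁻¹)` is `1 < v0 / v1 < l²`, `v1 > 0`
  (`l > 1`).
* `det_disc`: the determinant is `c * |x⁻|² * (x 0 * l⁻¹ - x 1 * l)` with `c ≠ 0` explicit
  (`3 * √3 / 2` up to sign); non zero when the ratio is not `l²`.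
* `count_disc`: there is exactly one integer `n` with `1 < l^(2n) * t < l²` (`0 < t`, `t ≠ l^(2m)`).
-/

namespace SerreT

open SerreK (V InC Hit Gen6)

theorem inC_pos1 {v : V} (h : InC v) : 0 < v 1 := by
  obtain ⟨h0, h1⟩ := h
  have : 0 < v 0 * v 1 := lt_of_le_of_lt (by positivity) h1
  exact (pos_iff_pos_of_mul_pos this).1 h0

theorem RR_RR (v : V) : RR (RR v) =
    ![v 0, v 1, -(v 2) / 2 - Real.sqrt 3 / 2 * v 3, Real.sqrt 3 / 2 * v 2 - v 3 / 2] := by
  have h3 : Real.sqrt 3 * Real.sqrt 3 = 3 := Real.mul_self_sqrt (by norm_num)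
  ext i
  fin_cases i
  · simp [RR]
  · simp [RR]
  · simp [RR]
    linear_combination (-(v 2) / 4) * h3
  · simp [RR]
    linear_combination (-(v 3) / 4) * h3

theorem minus_pos {x : V} (hx' : x 2 ≠ 0 ∨ x 3 ≠ 0) : 0 < x 2 ^ 2 + x 3 ^ 2 := by
  rcases hx' with h | h
  · have := pow_pos (abs_pos.2 h) 2
    rw [sq_abs] at this
    nlinarith [sq_nonneg (x 3)]
  · have := pow_pos (abs_pos.2 h) 2
    rw [sq_abs] at this
    nlinarith [sq_nonneg (x 2)]

theorem hit_disc (x : V) (hx : InC x) (hx' : x 2 ≠ 0 ∨ x 3 ≠ 0) (l : ℝ) (hl : 1 < l) :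
    Hit x (RR x) (RR (RR x)) oo ![l, l⁻¹, 0, 0] ↔ 1 < x 0 / x 1 ∧ x 0 / x 1 < l ^ 2 := by
  have p0 := hx.1
  have p1 := inC_pos1 hx
  have hl0 : 0 < l := by linarith
  have hsq := minus_pos hx'
  have hl2 : 1 < l ^ 2 := by nlinarith
  rw [RR_RR, lt_div_iff₀ p1, div_lt_iff₀ p1]
  constructor
  · rintro ⟨α, β, γ, s, t, hα, hβ, hγ, hs, ht, he⟩
    have e0 := congrFun he 0
    have e1 := congrFun he 1
    have e2 := congrFun he 2
    have e3 := congrFun he 3
    simp [RR, oo, Matrix.vecHead, Matrix.vecTail] at e0 e1 e2 e3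
    have hA : (α - (β + γ) / 2) = 0 := by
      have : (α - (β + γ) / 2) * (x 2 ^ 2 + x 3 ^ 2) = 0 := by
        linear_combination x 2 * e2 + x 3 * e3
      rcases mul_eq_zero.1 this with h | h
      · exact h
      · exact absurd h hsq.ne'
    have f0 : (3 * α) * x 0 = s + t * l := by linear_combination e0 + 2 * x 0 * hA
    have f1 : (3 * α) * x 1 = s + t * l⁻¹ := by linear_combination e1 + 2 * x 1 * hA
    have hli : l⁻¹ < l := by
      rw [inv_lt_iff_one_lt_mul₀ hl0]; nlinarith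
    constructor
    · have : (3 * α) * x 1 < (3 * α) * x 0 := by
        rw [f0, f1]
        have := mul_lt_mul_of_pos_left hli ht
        linarith
      have := lt_of_mul_lt_mul_left this (by linarith)
      linarith
    · have : (3 * α) * x 0 < (3 * α) * (l ^ 2 * x 1) := by
        have e : (3 * α) * (l ^ 2 * x 1) = l ^ 2 * s + t * l := by
          have : (3 * α) * (l ^ 2 * x 1) = l ^ 2 * ((3 * α) * x 1) := by ring
          rw [this, f1]
          field_simp
        rw [f0, e]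
        have := mul_lt_mul_of_pos_right hl2 hs
        linarith
      exact lt_of_mul_lt_mul_left this (by linarith)
  · rintro ⟨h1, h2⟩
    have hd : 0 < l ^ 2 - 1 := by linarith
    refine ⟨1 / 3, 1 / 3, 1 / 3, (l ^ 2 * x 1 - x 0) / (l ^ 2 - 1), l * (x 0 - x 1) / (l ^ 2 - 1),
      by norm_num, by norm_num, by norm_num, div_pos (by linarith) hd,
      div_pos (mul_pos hl0 (by linarith)) hd, ?_⟩
    have hd' : l ^ 2 - 1 ≠ 0 := hd.ne'
    have hl' : l ≠ 0 := hl0.ne'
    ext i
    fin_cases i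
    · simp [RR, oo, Matrix.vecHead, Matrix.vecTail]
      field_simp
      ring
    · simp [RR, oo, Matrix.vecHead, Matrix.vecTail]
      field_simp
      ring
    · simp [RR, oo, Matrix.vecHead, Matrix.vecTail]
      ring
    · simp [RR, oo, Matrix.vecHead, Matrix.vecTail]
      ring

theorem det_eq (x : V) (l : ℝ) : det4 x (RR x) (RR (RR x)) ![l, l⁻¹, 0, 0] =
    3 * Real.sqrt 3 / 2 * (x 2 ^ 2 + x 3 ^ 2) * (x 1 * l - x 0 * l⁻¹) := by
  have h3 : Real.sqrt 3 * Real.sqrt 3 = 3 := Real.mul_self_sqrt (by norm_num)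
  rw [RR_RR]
  unfold det4 RR
  simp [Matrix.det_succ_row_zero, Fin.sum_univ_succ, Fin.succAbove]
  ring_nf

theorem det_disc (x : V) (hx : InC x) (hx' : x 2 ≠ 0 ∨ x 3 ≠ 0) (l : ℝ) (hl : 1 < l)
    (h : x 0 / x 1 ≠ l ^ 2) : det4 x (RR x) (RR (RR x)) ![l, l⁻¹, 0, 0] ≠ 0 := by
  have p1 := inC_pos1 hx
  have hl0 : 0 < l := by linarith
  have hsq := minus_pos hx'
  have h3 : 0 < Real.sqrt 3 := Real.sqrt_pos.2 (by norm_num)
  rw [det_eq]
  refine mul_ne_zero (mul_ne_zero (by positivity) hsq.ne') ?_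
  intro h0
  apply h
  rw [div_eq_iff p1.ne']
  have : l * (x 1 * l - x 0 * l⁻¹) = 0 := by rw [h0, mul_zero]
  have e : l * l⁻¹ = 1 := mul_inv_cancel₀ hl0.ne'
  linear_combination -this - x 0 * e

/-- `x n` = the translates of a point along the axis. -/
theorem count_disc (k : Type*) [Field k] (l : ℝ) (hl : 1 < l) (x : ℤ → V)
    (hx : ∀ n, InC (x n)) (hx' : ∀ n, x n 2 ≠ 0 ∨ x n 3 ≠ 0)
    (h0 : ∀ n, x n 0 = l ^ n * x 0 0) (h1 : ∀ n, x n 1 = (l ^ n)⁻¹ * x 0 1)
    (hgen : ∀ n : ℤ, x 0 0 / x 0 1 ≠ l ^ (2 * n)) :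
    ∑ᶠ n : ℤ, sI k (x n) (RR (x n)) (RR (RR (x n))) oo ![l, l⁻¹, 0, 0] ≠ 0 := by
  classical
  have hl0 : 0 < l := by linarith
  have hl2 : 1 < l ^ 2 := by nlinarith
  have p0 := (hx 0).1
  have p1 := inC_pos1 (hx 0)
  set t : ℝ := x 0 0 / x 0 1 with ht
  have ht0 : 0 < t := div_pos p0 p1
  have hrat : ∀ n : ℤ, x n 0 / x n 1 = (l ^ 2) ^ n * t := by
    intro n
    have hn : (l : ℝ) ^ n ≠ 0 := (zpow_pos hl0 n).ne'
    rw [h0, h1, ht, ← zpow_natCast, ← zpow_mul, mul_comm ((2 : ℕ) : ℤ) n, zpow_mul]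
    have : ((l : ℝ) ^ n) ^ ((2 : ℕ) : ℤ) = l ^ n * l ^ n := by
      rw [zpow_natCast, sq]
    rw [this]
    field_simp
  obtain ⟨m, hm1, hm2⟩ := exists_mem_Ico_zpow ht0 hl2
  have hpw : ∀ n : ℤ, 0 < (l ^ 2) ^ n := fun n => zpow_pos (by positivity) n
  have hm1' : (l ^ 2) ^ m < t := by
    refine lt_of_le_of_ne hm1 ?_
    intro h
    apply hgen m
    rw [← h, zpow_mul]
    norm_cast
  have hval : ∀ n : ℤ, sI k (x n) (RR (x n)) (RR (RR (x n))) oo ![l, l⁻¹, 0, 0] =
      if n = -m then 1 else 0 := by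
    intro n
    have hiff : Hit (x n) (RR (x n)) (RR (RR (x n))) oo ![l, l⁻¹, 0, 0] ↔ n = -m := by
      rw [hit_disc (x n) (hx n) (hx' n) l hl, hrat]
      constructor
      · rintro ⟨g1, g2⟩
        have a1 : -m ≤ n := by
          by_contra hcon
          have hle : n ≤ -m - 1 := by omega
          have : (l ^ 2) ^ n * t ≤ 1 := by
            calc (l ^ 2) ^ n * t ≤ (l ^ 2) ^ (-m - 1) * (l ^ 2) ^ (m + 1) := by
                  apply mul_le_mul (zpow_le_zpow_right₀ hl2.le hle) hm2.le ht0.le (hpw _).le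
              _ = 1 := by
                  rw [← zpow_add₀ (by positivity)]
                  have : -m - 1 + (m + 1) = 0 := by ring
                  rw [this, zpow_zero]
          linarith
        have a2 : n ≤ -m := by
          by_contra hcon
          have hle : -m + 1 ≤ n := by omega
          have : l ^ 2 ≤ (l ^ 2) ^ n * t := by
            calc l ^ 2 = (l ^ 2) ^ (-m + 1) * (l ^ 2) ^ m := by
                  rw [← zpow_add₀ (by positivity)]
                  have : -m + 1 + m = 1 := by ring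
                  rw [this, zpow_one]
              _ ≤ (l ^ 2) ^ n * t := by
                  apply mul_le_mul (zpow_le_zpow_right₀ hl2.le hle) hm1 (hpw _).le (hpw _).le
          linarith
        omega
      · rintro rfl
        have b1 : (1 : ℝ) = (l ^ 2) ^ (-m) * (l ^ 2) ^ m := by
          rw [← zpow_add₀ (by positivity)]
          have : -m + m = 0 := by ring
          rw [this, zpow_zero]
        have b2 : l ^ 2 = (l ^ 2) ^ (-m) * (l ^ 2) ^ (m + 1) := by
          rw [← zpow_add₀ (by positivity)]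
          have : -m + (m + 1) = 1 := by ring
          rw [this, zpow_one]
        constructor
        · rw [b1]
          exact mul_lt_mul_of_pos_left hm1' (hpw _)
        · nth_rewrite 2 [b2]
          exact mul_lt_mul_of_pos_left hm2 (hpw _)
    unfold sI
    by_cases hn : n = -m
    · rw [if_pos (hiff.2 hn), if_pos hn]
      have hH := (hit_disc (x n) (hx n) (hx' n) l hl).1 (hiff.2 hn)
      have q1 := inC_pos1 (hx n)
      have hpos : 0 < det4 (x n) (RR (x n)) (RR (RR (x n))) ![l, l⁻¹, 0, 0] := by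
        rw [det_eq]
        have h3 : 0 < Real.sqrt 3 := Real.sqrt_pos.2 (by norm_num)
        refine mul_pos (mul_pos (by positivity) (minus_pos (hx' n))) ?_
        have g2 := hH.2
        rw [div_lt_iff₀ q1] at g2
        have e : l * l⁻¹ = 1 := mul_inv_cancel₀ hl0.ne'
        have : 0 < l * (x n 1 * l - x n 0 * l⁻¹) := by
          have : l * (x n 1 * l - x n 0 * l⁻¹) = l ^ 2 * x n 1 - x n 0 := by
            linear_combination (-(x n 0)) * e
          rw [this]; linarith
        exact (pos_iff_pos_of_mul_pos this).1 hl0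
      rw [sign_pos hpos]
      simp
    · rw [if_neg (fun h => hn (hiff.1 h)), if_neg hn]
  simp_rw [hval]
  rw [finsum_eq_single _ (-m) (fun n hn => if_neg hn)]
  simp

end SerreT
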