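import Pool.Agent.SerreT.AXT1
import Pool.Agent.SerreT.COUNT3

/-!
# AXT2: the discs
-/

namespace SerreT

open SerreK (V InC Hit Gen6)

theorem RR_cube (v : V) : RR (RR (RR v)) = v := by
  have h3 : Real.sqrt 3 * Real.sqrt 3 = 3 := Real.mul_self_sqrt (by norm_num)
  ext i
  fin_cases i
  · simp [RR]
  · simp [RR]
  · simp [RR]
    linear_combination (3 / 8 * v 2 + Real.sqrt 3 / 8 * v 3 * (-1) ) * h3
  · simp [RR]
    linear_combination (3 / 8 * v 3 + Real.sqrt 3 / 8 * v 2) * h3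

section quot

variable {Γ : Type} [Group Γ] {θ : Γ}

/-- `Γ / ⟨θ⟩` -/
abbrev QG (θ : Γ) := Γ ⧸ Subgroup.zpowers θ

theorem mem_zp (hθ3 : θ * (θ * θ) = 1) (g : Γ) :
    g ∈ Subgroup.zpowers θ ↔ g = 1 ∨ g = θ ∨ g = θ * θ := by
  classical
  constructor
  · intro hg
    have h3 : θ ^ 3 = 1 := by rw [pow_succ, pow_two, mul_assoc]; exact hθ3
    have hf : IsOfFinOrder θ := isOfFinOrder_iff_pow_eq_one.mpr ⟨3, by norm_num, h3⟩
    rw [hf.mem_zpowers_iff_mem_range_orderOf, Finset.mem_image] at hg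
    obtain ⟨n, hn, rfl⟩ := hg
    have hle : orderOf θ ≤ 3 := orderOf_le_of_pow_eq_one (by norm_num) h3
    have hn3 : n < 3 := lt_of_lt_of_le (by simpa using hn) hle
    interval_cases n
    · left; simp
    · right; left; simp
    · right; right; rw [pow_two]
  · rintro (rfl | rfl | rfl)
    · exact Subgroup.one_mem _
    · exact Subgroup.mem_zpowers _
    · exact Subgroup.mul_mem _ (Subgroup.mem_zpowers _) (Subgroup.mem_zpowers _)

theorem out_cases (hθ3 : θ * (θ * θ) = 1) (d : Γ) :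
    d = (QuotientGroup.mk d : QG θ).out ∨ d = (QuotientGroup.mk d : QG θ).out * θ ∨
      d = (QuotientGroup.mk d : QG θ).out * (θ * θ) := by
  have h1 : (QuotientGroup.mk ((QuotientGroup.mk d : QG θ).out) : QG θ) = QuotientGroup.mk d :=
    Quotient.out_eq _
  rw [QuotientGroup.eq, mem_zp hθ3] at h1
  rcases h1 with h | h | h
  · left
    exact (inv_mul_eq_one.mp h).symm
  · right; left
    exact (inv_mul_eq_iff_eq_mul.mp h)
  · right; right
    exact (inv_mul_eq_iff_eq_mul.mp h)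

/-- a right invariant function at a representative -/
theorem out_eq_of_inv {α : Type*} (hθ3 : θ * (θ * θ) = 1) (h : Γ → α)
    (hinv : ∀ d, h (d * θ) = h d) (d : Γ) : h (QuotientGroup.mk d : QG θ).out = h d := by
  rcases out_cases hθ3 d with e | e | e
  · rw [← e]
  · conv_rhs => rw [e]
    rw [hinv]
  · conv_rhs => rw [e]
    rw [← mul_assoc, hinv, hinv]

/-- decomposition of a sum over the group. -/
theorem sum_fiber {k : Type*} [AddCommMonoid k] (hθ3 : θ * (θ * θ) = 1) (hθ1 : θ ≠ 1) (f : Γ → k)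
    (hf : (Function.support f).Finite) :
    ∑ᶠ d, f d = ∑ᶠ D : QG θ, (f D.out + f (D.out * θ) + f (D.out * (θ * θ))) := by
  have hθ2 : θ * θ ≠ 1 := by
    intro h
    rw [h, mul_one] at hθ3
    exact hθ1 hθ3
  let e : QG θ × Fin 3 → Γ := fun x => x.1.out * ![1, θ, θ * θ] x.2
  have hmem : ∀ i : Fin 3, (![1, θ, θ * θ] i : Γ) ∈ Subgroup.zpowers θ := by
    intro i
    rw [mem_zp hθ3]
    fin_cases i
    · left; rfl
    · right; left; rfl
    · right; right; rfl
  have hinj1 : Function.Injective (![1, θ, θ * θ] : Fin 3 → Γ) := by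
    intro i j hij
    fin_cases i <;> fin_cases j
    · rfl
    · exact absurd hij.symm hθ1
    · exact absurd hij.symm hθ2
    · exact absurd hij hθ1
    · rfl
    · exfalso
      have h1 : θ = θ * θ := hij
      exact hθ1 (left_eq_mul.mp h1)
    · exact absurd hij hθ2
    · exfalso
      have h1 : θ * θ = θ := hij
      exact hθ1 (mul_eq_left.mp h1)
    · rfl
  have hbij : Function.Bijective e := by
    constructor
    · rintro ⟨D, i⟩ ⟨D', i'⟩ h
      have h0 : D.out * ![1, θ, θ * θ] i = D'.out * ![1, θ, θ * θ] i' := h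
      have h1 : D = D' := by
        rw [← Quotient.out_eq D, ← Quotient.out_eq D']
        change (QuotientGroup.mk D.out : QG θ) = QuotientGroup.mk D'.out
        rw [QuotientGroup.eq]
        have h2 : D.out⁻¹ * D'.out = ![1, θ, θ * θ] i * (![1, θ, θ * θ] i')⁻¹ := by
          rw [inv_mul_eq_iff_eq_mul, ← mul_assoc, h0, mul_inv_cancel_right]
        rw [h2]
        exact Subgroup.mul_mem _ (hmem i) (Subgroup.inv_mem _ (hmem i'))
      subst h1
      have h3 := mul_left_cancel h0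
      rw [hinj1 h3]
    · intro d
      rcases out_cases hθ3 d with h | h | h
      · exact ⟨(QuotientGroup.mk d, 0), by change _ * 1 = d; rw [mul_one]; exact h.symm⟩
      · exact ⟨(QuotientGroup.mk d, 1), h.symm⟩
      · exact ⟨(QuotientGroup.mk d, 2), h.symm⟩
  rw [← finsum_comp e hbij, finsum_curry _ (hf.preimage hbij.1.injOn)]
  refine finsum_congr fun D => ?_
  rw [finsum_eq_sum_of_fintype, Fin.sum_univ_three]
  change f (D.out * 1) + f (D.out * θ) + f (D.out * (θ * θ)) = _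
  rw [mul_one]

end quot

section discs

variable {Γ : Type} [Group Γ] {ρ : Γ →* (V →ₗ[ℝ] V)} {k : Type} [Field k] (ψ : Γ →* kˣ)
  {θ η : Γ}

/-- the crossing of the translated disc with a segment. -/
noncomputable def dsc (ρ : Γ →* (V →ₗ[ℝ] V)) (ψ : Γ →* kˣ) (x p q : V) (d : Γ) : k :=
  (ψ d : k) * sI k (ρ d x) (ρ d (RR x)) (ρ d (RR (RR x))) p q

theorem dsc_inv (hθ : ∀ v, ρ θ v = RR v) (hψθ : ψ θ = 1) (x p q : V) (d : Γ) :
    dsc ρ ψ x p q (d * θ) = dsc ρ ψ x p q d := by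
  unfold dsc
  rw [map_mul, hψθ, mul_one, rho_mul, rho_mul, rho_mul, hθ, hθ, hθ, RR_cube, sI_cyc]

/-- the sum of the crossings of the discs with a segment. -/
noncomputable def Ds (θ : Γ) (ρ : Γ →* (V →ₗ[ℝ] V)) (ψ : Γ →* kˣ) (x p q : V) : k :=
  ∑ᶠ D : QG θ, dsc ρ ψ x p q D.out

theorem ds_swap (x p q : V) : Ds θ ρ ψ x q p = -Ds θ ρ ψ x p q := by
  unfold Ds dsc
  rw [← finsum_neg_distrib]
  refine finsum_congr fun d => ?_
  rw [sI_swap]
  ring

theorem ds_equi (hdet : ∀ g, 0 < LinearMap.det (ρ g)) (hθ : ∀ v, ρ θ v = RR v)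
    (hθ3 : θ * (θ * θ) = 1) (hψθ : ψ θ = 1) (g : Γ) (x p q : V) :
    Ds θ ρ ψ x (ρ g p) (ρ g q) = (ψ g : k) * Ds θ ρ ψ x p q := by
  unfold Ds
  rw [mul_finsum, ← finsum_comp_equiv (MulAction.toPerm g : Equiv.Perm (QG θ))]
  refine finsum_congr fun D => ?_
  have h1 : (MulAction.toPerm g : Equiv.Perm (QG θ)) D = QuotientGroup.mk (g * D.out) := by
    conv_lhs => rw [← Quotient.out_eq D]
    rfl
  rw [h1, out_eq_of_inv hθ3 (dsc ρ ψ x (ρ g p) (ρ g q)) (dsc_inv ψ hθ hψθ x _ _)]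
  unfold dsc
  rw [map_mul, Units.val_mul, rho_mul, rho_mul, rho_mul, sI_map k _ (hdet g)]
  ring

variable (hP : ∀ a b c p q : V, InC a → InC b → InC c → InC p → InC q →
      {g | Hit (ρ g a) (ρ g b) (ρ g c) p q}.Finite)

theorem RR_inC {v : V} (h : InC v) : InC (RR v) := by
  have h3 : Real.sqrt 3 * Real.sqrt 3 = 3 := Real.mul_self_sqrt (by norm_num)
  obtain ⟨h1, h2⟩ := h
  refine ⟨h1, ?_⟩
  change (-(v 2) / 2 + Real.sqrt 3 / 2 * v 3) ^ 2 + (-(Real.sqrt 3 / 2) * v 2 - v 3 / 2) ^ 2 <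
    v 0 * v 1
  have e : (-(v 2) / 2 + Real.sqrt 3 / 2 * v 3) ^ 2 + (-(Real.sqrt 3 / 2) * v 2 - v 3 / 2) ^ 2 =
      v 2 ^ 2 + v 3 ^ 2 := by
    linear_combination (v 3 ^ 2 / 4 + v 2 ^ 2 / 4) * h3
  rw [e]
  exact h2

include hP in
theorem dsc_fin {x p q : V} (hx : InC x) (hp : InC p) (hq : InC q) :
    (Function.support (dsc ρ ψ x p q)).Finite := by
  refine (hP x (RR x) (RR (RR x)) p q hx (RR_inC hx) (RR_inC (RR_inC hx)) hp hq).subset
    fun d hd => ?_
  exact sI_hit k (right_ne_zero_of_mul hd)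

theorem out_inj : Function.Injective (fun D : QG θ => D.out) := by
  intro a b h
  rw [← Quotient.out_eq a, ← Quotient.out_eq b]
  exact congrArg _ h

include hP in
theorem ds_fin {x p q : V} (hx : InC x) (hp : InC p) (hq : InC q) :
    (Function.support fun D : QG θ => dsc ρ ψ x p q D.out).Finite :=
  (dsc_fin ψ hP hx hp hq).preimage out_inj.injOn

include hP in
/-- the parity lemma for the discs: the boundary is `E(x, θ x)`. -/
theorem ds_tri (hθ : ∀ v, ρ θ v = RR v)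
    (hθ3 : θ * (θ * θ) = 1) (hθ1 : θ ≠ 1) (hψθ : ψ θ = 1)
    {x p q r : V} (hx : InC x) (hp : InC p) (hq : InC q) (hr : InC r)
    (hg : ∀ d : Γ, Gen6 (ρ d x) (ρ d (RR x)) (ρ d (RR (RR x))) p q r) :
    Ds θ ρ ψ x p q + Ds θ ρ ψ x q r + Ds θ ρ ψ x r p = Es ρ ψ p q r x (ρ θ x) := by
  unfold Ds Es
  rw [sum_fiber hθ3 hθ1 _ (es_fin ψ hP hp hq hr hx (by rw [hθ]; exact RR_inC hx)),
    ← finsum_add_distrib (ds_fin ψ hP hx hp hq) (ds_fin ψ hP hx hq hr),
    ← finsum_add_distrib _ (ds_fin ψ hP hx hr hp)]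
  · refine finsum_congr fun D => ?_
    unfold dsc
    simp only [map_mul, hψθ, mul_one, Module.End.mul_apply]
    rw [← mul_add, ← mul_add, ← mul_add, ← mul_add, parity3 k _ _ _ _ _ _ (hg D.out)]
    simp only [hθ, RR_cube]
  · refine ((ds_fin ψ hP hx hp hq).union (ds_fin ψ hP hx hq hr)).subset ?_
    exact Function.support_add _ _

end discs

end SerreT
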