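import Pool.Agent.SerreT.AXT2

/-!
# AXT3: the discs cross the axis
-/

namespace SerreT

open SerreK (V InC Hit Gen6)

section
variable {Γ : Type} [Group Γ] {ρ : Γ →* (V →ₗ[ℝ] V)} {k : Type} [Field k] (ψ : Γ →* kˣ)
  {θ η : Γ}

theorem RR_oo : RR oo = oo := by
  ext i
  fin_cases i <;> simp [RR, oo]

theorem inC_oo : InC oo := by
  constructor <;> simp [oo]

theorem theta_ne_one (hθ : ∀ v, ρ θ v = RR v) : θ ≠ 1 := by
  intro h
  have h1 := congrFun (hθ ![0, 0, 1, 0]) 2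
  rw [h, rho_one] at h1
  simp [RR] at h1
  norm_num at h1

/-- fixed vectors of the rotation -/
theorem fixed_RR {v : V} (h : RR v = v) : v 2 = 0 ∧ v 3 = 0 := by
  have h3 : Real.sqrt 3 * Real.sqrt 3 = 3 := Real.mul_self_sqrt (by norm_num)
  have e2 : -(v 2) / 2 + Real.sqrt 3 / 2 * v 3 = v 2 := congrFun h 2
  have e3 : -(Real.sqrt 3 / 2) * v 2 - v 3 / 2 = v 3 := congrFun h 3
  constructor
  · linear_combination (-1 / 2) * e2 - Real.sqrt 3 / 6 * e3 - v 2 / 12 * h3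
  · linear_combination Real.sqrt 3 / 6 * e2 - 1 / 2 * e3 - v 3 / 12 * h3

theorem rho_comm_RR (hθ : ∀ v, ρ θ v = RR v) {g : Γ} (hg : g * θ = θ * g) (v : V) :
    ρ g (RR v) = RR (ρ g v) := by
  rw [← hθ, ← hθ, ← rho_mul, ← rho_mul, hg]

theorem eta_oo (hθ : ∀ v, ρ θ v = RR v) (hηθ : η * θ = θ * η) {l : ℝ}
    (hη : ∀ v, ρ η v 0 = l * v 0 ∧ ρ η v 1 = l⁻¹ * v 1) : ρ η oo = ![l, l⁻¹, 0, 0] := by
  have h1 : RR (ρ η oo) = ρ η oo := by
    rw [← rho_comm_RR hθ hηθ, RR_oo]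
  obtain ⟨h2, h3⟩ := fixed_RR h1
  ext i
  fin_cases i
  · simpa [oo] using (hη oo).1
  · simpa [oo] using (hη oo).2
  · simpa using h2
  · simpa using h3

theorem rho_zpow {l : ℝ} (hl : 1 < l) (hη : ∀ v, ρ η v 0 = l * v 0 ∧ ρ η v 1 = l⁻¹ * v 1)
    (n : ℤ) (v : V) : ρ (η ^ n) v 0 = l ^ n * v 0 ∧ ρ (η ^ n) v 1 = (l ^ n)⁻¹ * v 1 := by
  have hl0 : l ≠ 0 := by positivity
  have hinv : ∀ v, ρ η⁻¹ v 0 = l⁻¹ * v 0 ∧ ρ η⁻¹ v 1 = l * v 1 := by
    intro v
    have h1 := hη (ρ η⁻¹ v)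
    rw [← rho_mul, mul_inv_cancel, rho_one] at h1
    constructor
    · rw [h1.1, inv_mul_cancel_left₀ hl0]
    · rw [h1.2, mul_inv_cancel_left₀ hl0]
  induction n using Int.induction_on generalizing v with
  | zero => simp [rho_one]
  | succ n ih =>
    rw [zpow_add_one, rho_mul]
    obtain ⟨a, b⟩ := ih (ρ η v)
    rw [a, b, (hη v).1, (hη v).2, zpow_add_one₀ hl0]
    constructor
    · ring
    · rw [mul_inv]; ring
  | pred n ih =>
    rw [zpow_sub_one, rho_mul]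
    obtain ⟨a, b⟩ := ih (ρ η⁻¹ v)
    rw [a, b, (hinv v).1, (hinv v).2, zpow_sub_one₀ hl0]
    constructor
    · ring
    · rw [mul_inv, inv_inv]; ring

theorem eta_zpow_ne {l : ℝ} (hl : 1 < l) (hη : ∀ v, ρ η v 0 = l * v 0 ∧ ρ η v 1 = l⁻¹ * v 1)
    {n : ℤ} (h : ρ (η ^ n) oo = oo) : n = 0 := by
  have h1 := (rho_zpow hl hη n oo).1
  rw [h] at h1
  have h2 : l ^ n = 1 := by simpa [oo] using h1.symm
  have h3 : (n : ℝ) * Real.log l = 0 := by rw [← Real.log_zpow, h2, Real.log_one]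
  have h4 : Real.log l ≠ 0 := (Real.log_pos hl).ne'
  exact_mod_cast (mul_eq_zero.mp h3).resolve_right h4

theorem ds_axis [CharP k 3] (hC : ∀ g v, InC v → InC (ρ g v))
    (hdet : ∀ g, 0 < LinearMap.det (ρ g))
    (hP : ∀ a b c p q : V, InC a → InC b → InC c → InC p → InC q →
      {g | Hit (ρ g a) (ρ g b) (ρ g c) p q}.Finite)
    (hθ : ∀ v, ρ θ v = RR v) (hθ3 : θ * (θ * θ) = 1)
    (hηθ : η * θ = θ * η) (l : ℝ) (hl : 1 < l)
    (hη : ∀ v, ρ η v 0 = l * v 0 ∧ ρ η v 1 = l⁻¹ * v 1)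
    (hZ : ∀ g, (g * θ = θ * g ∨ g * θ = θ * θ * g) → ∃ (n : ℤ) (j : ℕ), g = η ^ n * θ ^ j)
    (hψθ : ψ θ = 1) (hψη : ψ η = 1) {x : V} (hx : InC x)
    (hx' : ∀ g, ρ g x 2 ≠ 0 ∨ ρ g x 3 ≠ 0) (hxg : ∀ n : ℤ, x 0 / x 1 ≠ l ^ (2 * n)) :
    Ds θ ρ ψ x oo (ρ η oo) ≠ 0 := by
  have hηn : ∀ n : ℤ, η ^ n * θ = θ * η ^ n := fun n => (Commute.zpow_left hηθ n).eq
  have hoθ : ρ θ oo = oo := by rw [hθ, RR_oo]
  have hηoθ : ρ θ (ρ η oo) = ρ η oo := by
    rw [← rho_mul, ← hηθ, rho_mul, hoθ]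
  have hleft : ∀ d, dsc ρ ψ x oo (ρ η oo) (θ * d) = dsc ρ ψ x oo (ρ η oo) d := by
    intro d
    unfold dsc
    have := sI_map k (ρ θ) (hdet θ) (ρ d x) (ρ d (RR x)) (ρ d (RR (RR x))) oo (ρ η oo)
    rw [hoθ, hηoθ] at this
    rw [map_mul, hψθ, one_mul, rho_mul, rho_mul, rho_mul, this]
  have hθ1 : θ ≠ 1 := theta_ne_one hθ
  have key := orb3_fix (k := k) (fun D : QG θ => (θ • D : QG θ))
    (fun D => by
      have h : (θ • θ • θ • D : QG θ) = (θ * (θ * θ)) • D := by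
        rw [mul_smul, mul_smul]
      rw [h, hθ3, one_smul])
    (fun D => dsc ρ ψ x oo (ρ η oo) D.out)
    (fun D => by
      have h1 : (θ • D : QG θ) = QuotientGroup.mk (θ * D.out) := by
        conv_lhs => rw [← Quotient.out_eq D]
        rfl
      change dsc ρ ψ x oo (ρ η oo) (θ • D : QG θ).out = _
      rw [h1, out_eq_of_inv hθ3 _ (dsc_inv ψ hθ hψθ x _ _), hleft])
    (ds_fin ψ hP hx inC_oo (hC η _ inC_oo))
    (fun n : ℤ => (QuotientGroup.mk (η ^ n) : QG θ))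
    (fun n m hnm => by
      have h1 : (QuotientGroup.mk (η ^ n) : QG θ) = QuotientGroup.mk (η ^ m) := hnm
      rw [QuotientGroup.eq, ← zpow_neg, ← zpow_add] at h1
      have h2 : ρ (η ^ (-n + m)) oo = oo := by
        rw [mem_zp hθ3] at h1
        rcases h1 with h | h | h
        · rw [h, rho_one]
        · rw [h, hoθ]
        · rw [h, rho_mul, hoθ, hoθ]
      have := eta_zpow_ne hl hη h2
      omega)
    (fun D hD _ => by
      have h1 : (θ • D : QG θ) = QuotientGroup.mk (θ * D.out) := by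
        conv_lhs => rw [← Quotient.out_eq D]
        rfl
      have h2 : (QuotientGroup.mk D.out : QG θ) = QuotientGroup.mk (θ * D.out) := by
        rw [← h1]
        exact (Quotient.out_eq D).trans hD.symm
      rw [QuotientGroup.eq, mem_zp hθ3] at h2
      set g := D.out with hg
      have h3 : g * θ = θ * g ∨ g * θ = θ * θ * g := by
        rcases h2 with h | h | h
        · exfalso
          have h4 : θ * g = g := (inv_mul_eq_one.mp h).symm
          exact hθ1 (mul_eq_right.mp h4)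
        · left
          exact (inv_mul_eq_iff_eq_mul.mp h).symm
        · right
          have h4 : θ * g = g * (θ * θ) := inv_mul_eq_iff_eq_mul.mp h
          calc g * θ = g * (θ * θ) * (θ * θ) := by
                rw [mul_assoc, mul_assoc θ, hθ3, mul_one]
            _ = θ * g * (θ * θ) := by rw [h4]
            _ = θ * (g * (θ * θ)) := by rw [mul_assoc]
            _ = θ * θ * g := by rw [← h4, mul_assoc]
      obtain ⟨n, j, hnj⟩ := hZ g h3
      refine ⟨n, ?_⟩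
      have h5 : (QuotientGroup.mk g : QG θ) = D := Quotient.out_eq D
      rw [← h5, QuotientGroup.eq, hnj, inv_mul_cancel_left]
      exact Subgroup.npow_mem_zpowers θ j)
    (fun n => by
      change (QuotientGroup.mk (θ * η ^ n) : QG θ) = QuotientGroup.mk (η ^ n)
      rw [← hηn]
      exact (QuotientGroup.mk_mul_of_mem _ (Subgroup.mem_zpowers θ)))
  unfold Ds
  rw [key]
  have e1 : ∀ n : ℤ, dsc ρ ψ x oo (ρ η oo) (QuotientGroup.mk (η ^ n) : QG θ).out =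
      sI k (ρ (η ^ n) x) (RR (ρ (η ^ n) x)) (RR (RR (ρ (η ^ n) x))) oo ![l, l⁻¹, 0, 0] := by
    intro n
    rw [out_eq_of_inv hθ3 _ (dsc_inv ψ hθ hψθ x _ _)]
    unfold dsc
    rw [map_zpow, hψη, one_zpow, Units.val_one, one_mul, rho_comm_RR hθ (hηn n),
      rho_comm_RR hθ (hηn n), rho_comm_RR hθ (hηn n), eta_oo hθ hηθ hη]
  rw [finsum_congr e1]
  refine count_disc k l hl (fun n => ρ (η ^ n) x) (fun n => hC _ _ hx) (fun n => hx' _)
    (fun n => ?_) (fun n => ?_) ?_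
  · simp only [zpow_zero, rho_one]
    exact (rho_zpow hl hη n x).1
  · simp only [zpow_zero, rho_one]
    exact (rho_zpow hl hη n x).2
  · intro n
    simp only [zpow_zero, rho_one]
    exact hxg n

end

end SerreT
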