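import Pool.Agent.SerreT.GDefs3
import Pool.Agent.SerreK.ACT

/-!
# DET3: `act M` preserves the orientation
-/

open Complex

namespace SerreT

open SerreK (V act ACT_form ACT_0 ACT_1 ACT_2 ACT_3)

/-- the real matrix of `act`. -/
def DET3_mat (a b c d a' b' c' d' : ℝ) : Matrix (Fin 4) (Fin 4) ℝ :=
  !![a * a + a' * a', b * b + b' * b', 2 * (a * b + a' * b'), -2 * (a' * b - a * b');
     c * c + c' * c', d * d + d' * d', 2 * (c * d + c' * d'), -2 * (c' * d - c * d');
     a * c + a' * c', b * d + b' * d', a * d + a' * d' + (b * c + b' * c'),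
       -(a' * d - a * d') + (b' * c - b * c');
     a' * c - a * c', b' * d - b * d', (a' * d - a * d') + (b' * c - b * c'),
       (a * d + a' * d') - (b * c + b' * c')]

theorem DET3_det (a b c d a' b' c' d' : ℝ) :
    (DET3_mat a b c d a' b' c' d').det =
      ((a * d - a' * d' - (b * c - b' * c')) ^ 2 +
        (a * d' + a' * d - (b * c' + b' * c)) ^ 2) ^ 2 := by
  unfold DET3_mat
  rw [Matrix.det_succ_row_zero]
  simp only [Fin.sum_univ_succ, Matrix.det_fin_three, Matrix.submatrix_apply, Matrix.of_apply]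
  simp [Fin.succAbove]
  ring

theorem DET3_act (M : Matrix (Fin 2) (Fin 2) ℂ) :
    act M = Matrix.toLin' (DET3_mat (M 0 0).re (M 0 1).re (M 1 0).re (M 1 1).re
      (M 0 0).im (M 0 1).im (M 1 0).im (M 1 1).im) := by
  apply LinearMap.ext
  intro v
  rw [Matrix.toLin'_apply]
  funext i
  fin_cases i
  · change act M v 0 = _
    rw [ACT_0]
    simp [DET3_mat, ACT_form, Matrix.mulVec, dotProduct, Fin.sum_univ_four, normSq_apply]
    ring
  · change act M v 1 = _
    rw [ACT_1]
    simp [DET3_mat, ACT_form, Matrix.mulVec, dotProduct, Fin.sum_univ_four, normSq_apply]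
    ring
  · change act M v 2 = _
    rw [ACT_2]
    simp [DET3_mat, Matrix.mulVec, dotProduct, Fin.sum_univ_four]
    ring
  · change act M v 3 = _
    rw [ACT_3]
    simp [DET3_mat, Matrix.mulVec, dotProduct, Fin.sum_univ_four]
    ring

theorem act_det_pos (M : Matrix (Fin 2) (Fin 2) ℂ) (hM : M.det ≠ 0) :
    0 < LinearMap.det (act M) := by
  rw [DET3_act, LinearMap.det_toLin', DET3_det]
  have h : 0 < normSq M.det := normSq_pos.2 hM
  have e : normSq M.det = ((M 0 0).re * (M 1 1).re - (M 0 0).im * (M 1 1).im -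
      ((M 0 1).re * (M 1 0).re - (M 0 1).im * (M 1 0).im)) ^ 2 +
      ((M 0 0).re * (M 1 1).im + (M 0 0).im * (M 1 1).re -
        ((M 0 1).re * (M 1 0).im + (M 0 1).im * (M 1 0).re)) ^ 2 := by
    rw [Matrix.det_fin_two, normSq_apply]
    simp only [sub_re, sub_im, mul_re, mul_im]
    ring
  rw [← e]
  positivity

end SerreT
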