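import Pool.Agent.SerreT.EIG
import Pool.Agent.Serre.COMPAT
import Pool.Agent.Serre.VCRT

/-!
# The functions `h_a` vanish on elements of finite order (characteristic `3`)
-/

open Matrix
open scoped QuadraticAlgebra

namespace SerreT

open SerreE (mk2 sc dg dgl red compat_diag_eq compat_sc_comm compat_dg_mul compat_dg_one
  compat_dg_inv compat_finsum_diag)

/-- the sum of a function over a finite abelian group vanishes if its sums over the orbits of the
translation by `z` vanish. -/
theorem sum_orbit_zero {G : Type*} [CommGroup G] [Fintype G] {k : Type*} [AddCommMonoid k] (z : G)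
    (g : G → k) (h : ∀ r, ∑ j ∈ Finset.range (orderOf z), g (z ^ j * r) = 0) :
    ∑ r, g r = 0 := by
  classical
  refine (Finset.sum_fiberwise (Finset.univ : Finset G)
    (fun r : G => (r : G ⧸ Subgroup.zpowers z)) g).symm.trans ?_
  apply Finset.sum_eq_zero
  intro q _
  obtain ⟨r0, rfl⟩ := QuotientGroup.mk_surjective q
  rw [← h r0]
  symm
  refine Finset.sum_bij (fun j _ => z ^ j * r0) ?_ ?_ ?_ (fun j _ => rfl)
  · intro j _
    rw [Finset.mem_filter]
    refine ⟨Finset.mem_univ _, ?_⟩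
    rw [QuotientGroup.eq]
    have : (z ^ j * r0)⁻¹ * r0 = (z ^ j)⁻¹ := by
      rw [mul_inv, mul_assoc, inv_mul_cancel, mul_one]
    rw [this]
    exact Subgroup.inv_mem _ (Subgroup.npow_mem_zpowers z j)
  · intro i hi j hj hij
    have h1 : z ^ i = z ^ j := mul_right_cancel hij
    exact pow_injOn_Iio_orderOf (by simpa using hi) (by simpa using hj) h1
  · intro r hr
    rw [Finset.mem_filter, QuotientGroup.eq] at hr
    have h1 := Subgroup.inv_mem _ hr.2
    rw [mul_inv, inv_inv] at h1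
    rw [mem_zpowers_iff_mem_range_orderOf, Finset.mem_image] at h1
    obtain ⟨j, hj, hj'⟩ := h1
    refine ⟨j, hj, ?_⟩
    rw [hj', mul_assoc, inv_mul_cancel, mul_one]

section cube

variable {O : Type*} [CommRing O] [IsDomain O]

theorem cube_trace (hroot : ∀ z : O, z ^ 2 + z + 1 ≠ 0) (E : GL (Fin 2) O) (h3 : E ^ 3 = 1)
    (h1 : E ≠ 1) : E.val.trace = -1 ∧ E.val.det = 1 := by
  have hdet : E.val.det = 1 := by
    have h := congrArg (fun g : GL (Fin 2) O => g.val.det) h3
    simp only [Units.val_pow_eq_pow_val, Matrix.det_pow, Units.val_one, Matrix.det_one] at h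
    have h' : (E.val.det - 1) * (E.val.det ^ 2 + E.val.det + 1) = 0 := by linear_combination h
    rcases mul_eq_zero.mp h' with h | h
    · linear_combination h
    · exact absurd h (hroot _)
  refine ⟨?_, hdet⟩
  have hM : E.val * E.val * E.val = 1 := by
    have := congrArg Units.val h3
    rw [Units.val_pow_eq_pow_val, Units.val_one] at this
    rw [← this, pow_succ, pow_two]
  have e00 := congrFun (congrFun hM 0) 0
  have e01 := congrFun (congrFun hM 0) 1
  have e10 := congrFun (congrFun hM 1) 0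
  have e11 := congrFun (congrFun hM 1) 1
  simp only [Matrix.mul_apply, Fin.sum_univ_two, Matrix.one_apply_eq] at e00 e11
  rw [Matrix.one_apply_ne (by decide)] at e01 e10
  simp only [Matrix.mul_apply, Fin.sum_univ_two] at e01 e10
  rw [Matrix.det_fin_two] at hdet
  rw [Matrix.trace_fin_two]
  set a := E.val 0 0
  set b := E.val 0 1
  set c := E.val 1 0
  set d := E.val 1 1
  have f01 : b * ((a + d) ^ 2 - 1) = 0 := by linear_combination e01 + b * hdet
  have f10 : c * ((a + d) ^ 2 - 1) = 0 := by linear_combination e10 + c * hdet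
  have f00 : ((a + d) ^ 2 - 1) * a - (a + d) = 1 := by
    linear_combination e00 + (2 * a + d) * hdet
  have f11 : ((a + d) ^ 2 - 1) * d - (a + d) = 1 := by
    linear_combination e11 + (2 * d + a) * hdet
  by_cases ht : (a + d) ^ 2 - 1 = 0
  · rw [ht] at f00
    linear_combination -f00
  · exfalso
    apply h1
    have hb : b = 0 := (mul_eq_zero.mp f01).resolve_right ht
    have hc : c = 0 := (mul_eq_zero.mp f10).resolve_right ht
    have had : a = d := by
      have : ((a + d) ^ 2 - 1) * (a - d) = 0 := by linear_combination f00 - f11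
      exact sub_eq_zero.mp ((mul_eq_zero.mp this).resolve_left ht)
    have ha : a = 1 := by
      rw [hb, ← had] at hdet
      rw [← had] at f00
      linear_combination f00 - 4 * a * hdet
    apply Matrix.GeneralLinearGroup.ext
    intro i j
    fin_cases i <;> fin_cases j
    · exact ha
    · exact hb
    · exact hc
    · exact had.symm.trans ha

end cube

section
variable {O : Type*} [CommRing O] {k : Type*} [Field k]

theorem sc_eq_iota {R : Type*} [CommRing R] (u : Rˣ) : (sc u : GL (Fin 2) R) = iota (tiC u) := by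
  apply Matrix.GeneralLinearGroup.ext
  intro i j
  fin_cases i <;> fin_cases j <;> simp [tiC, iota_val]

/-- invariance of a cocycle under left multiplication of the argument by scalars. -/
theorem sc_left {f : O} {χ : (Ti (O ⧸ Ideal.span {f}))ˣ →* kˣ}
    {C : GL (Fin 2) O → GL (Fin 2) (O ⧸ Ideal.span {f}) → k} (hC : IsCoc f χ C)
    (hscal : ∀ u, χ (tiC u) = 1) (γ : GL (Fin 2) O) (u : (O ⧸ Ideal.span {f})ˣ)
    (y : GL (Fin 2) (O ⧸ Ideal.span {f})) : C γ (sc u * y) = C γ y := by
  rw [compat_sc_comm, sc_eq_iota, hC.equi, hscal]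
  simp

/-- iterating the cocycle identity. -/
theorem coc_pow {f : O} {χ : (Ti (O ⧸ Ideal.span {f}))ˣ →* kˣ}
    {C : GL (Fin 2) O → GL (Fin 2) (O ⧸ Ideal.span {f}) → k} (hC : IsCoc f χ C)
    (D : GL (Fin 2) O) (n : ℕ) (y : GL (Fin 2) (O ⧸ Ideal.span {f})) :
    C (D ^ n) y = ∑ j ∈ Finset.range n, C D (((red f D) ^ j)⁻¹ * y) := by
  induction n with
  | zero => simp [eig_coc_one hC]
  | succ n ih =>
    rw [pow_succ, hC.coc, Finset.sum_range_succ, ih, map_pow]

theorem red_diag {f : O} {D : GL (Fin 2) O} (h01 : f ∣ D.val 0 1) (h10 : f ∣ D.val 1 0) :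
    (red f D).val 0 1 = 0 ∧ (red f D).val 1 0 = 0 := by
  constructor
  · change Ideal.Quotient.mk (Ideal.span {f}) (D.val 0 1) = 0
    rw [Ideal.Quotient.eq_zero_iff_mem, Ideal.mem_span_singleton]
    exact h01
  · change Ideal.Quotient.mk (Ideal.span {f}) (D.val 1 0) = 0
    rw [Ideal.Quotient.eq_zero_iff_mem, Ideal.mem_span_singleton]
    exact h10

theorem scdg_pow {R : Type*} [CommRing R] (u v : Rˣ) (n : ℕ) :
    ((sc u * dg v : GL (Fin 2) R)) ^ n = sc (u ^ n) * dg (v ^ n) := by
  induction n with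
  | zero => simp [compat_dg_one]
  | succ n ih =>
    have hsc : (sc (u ^ n * u) : GL (Fin 2) R) = sc (u ^ n) * sc u := map_mul _ _ _
    rw [pow_succ, ih, pow_succ, pow_succ, compat_dg_mul, hsc]
    have := compat_sc_comm u (dg (v ^ n))
    rw [mul_assoc, mul_assoc, ← mul_assoc (dg (v ^ n)), ← this, mul_assoc]

theorem scdg_off {R : Type*} [CommRing R] (u v : Rˣ) :
    (sc u * dg v : GL (Fin 2) R).val 0 1 = 0 ∧ (sc u * dg v : GL (Fin 2) R).val 1 0 = 0 := by
  constructor <;> simp [Matrix.mul_apply, Fin.sum_univ_two, dg]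

theorem scdg_val {R : Type*} [CommRing R] (u v : Rˣ) :
    (sc u * dg v : GL (Fin 2) R).val 0 0 = u ∧ (sc u * dg v : GL (Fin 2) R).val 1 1 = u * v := by
  constructor <;> simp [Matrix.mul_apply, Fin.sum_univ_two, dg]

theorem fino [IsDomain O] (hroot : ∀ z : O, z ^ 2 + z + 1 ≠ 0) [CharP k 3]
    (f : O) (hf : ¬ IsUnit f) (hf3 : IsCoprime f 3) [Finite (O ⧸ Ideal.span {f})]
    (χ : (Ti (O ⧸ Ideal.span {f}))ˣ →* kˣ) (hscal : ∀ u, χ (tiC u) = 1)
    (C : GL (Fin 2) O → GL (Fin 2) (O ⧸ Ideal.span {f}) → k) (hC : IsCoc f χ C)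
    (D : GL (Fin 2) O) (h01 : f ∣ D.val 0 1) (h10 : f ∣ D.val 1 0) (hD : IsOfFinOrder D)
    (a : GL (Fin 2) (O ⧸ Ideal.span {f})) :
    ∑ᶠ r : (O ⧸ Ideal.span {f})ˣ, C D (dg r * a) = 0 := by
  classical
  have := Fintype.ofFinite (O ⧸ Ideal.span {f})ˣ
  have hnt : Nontrivial (O ⧸ Ideal.span {f}) := by
    rw [Ideal.Quotient.nontrivial_iff]
    intro h
    exact hf (Ideal.span_singleton_eq_top.mp h)
  obtain ⟨u, v, huv⟩ := compat_diag_eq (red f D) (red_diag h01 h10).1 (red_diag h01 h10).2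
  -- powers
  have hpow : ∀ n : ℕ, ∑ᶠ r : (O ⧸ Ideal.span {f})ˣ, C (D ^ n) (dg r * a) =
      (n : k) * ∑ᶠ r : (O ⧸ Ideal.span {f})ˣ, C D (dg r * a) := by
    intro n
    rw [finsum_eq_sum_of_fintype, finsum_eq_sum_of_fintype]
    simp_rw [coc_pow hC]
    rw [Finset.sum_comm]
    rw [Finset.sum_congr rfl (g := fun _ => ∑ r : (O ⧸ Ideal.span {f})ˣ, C D (dg r * a))]
    · rw [Finset.sum_const, Finset.card_range, nsmul_eq_mul]
    · intro j _
      have h := compat_finsum_diag ((red f D) ^ j) (by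
          rw [huv, scdg_pow]; exact (scdg_off _ _).1) (by
          rw [huv, scdg_pow]; exact (scdg_off _ _).2)
        (fun y => C D y) (fun u y => sc_left hC hscal D u y) a
      rw [finsum_eq_sum_of_fintype, finsum_eq_sum_of_fintype] at h
      exact h
  obtain ⟨s, m, hm, hsm⟩ := Nat.exists_eq_pow_mul_and_not_dvd (orderOf_pos_iff.mpr hD).ne' 3
    (by norm_num)
  have hmk : ((m : ℕ) : k) ≠ 0 := by
    rw [Ne, CharP.cast_eq_zero_iff k 3]
    exact hm
  have h1 := hpow m
  suffices h2 : ∑ᶠ r : (O ⧸ Ideal.span {f})ˣ, C (D ^ m) (dg r * a) = 0 by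
    rw [h2] at h1
    exact (mul_eq_zero.mp h1.symm).resolve_left hmk
  set D1 := D ^ m with hD1
  have hD1s : D1 ^ (3 ^ s) = 1 := by
    rw [hD1, ← pow_mul, mul_comm, ← hsm]
    exact pow_orderOf_eq_one D
  rcases s with _ | s
  · have : D1 = 1 := by simpa using hD1s
    rw [this]
    simp [eig_coc_one hC]
  · have hE3 : (D1 ^ (3 ^ s)) ^ 3 = 1 := by
      rw [← pow_mul, ← pow_succ]; exact hD1s
    have hE1 : D1 ^ (3 ^ s) ≠ 1 := by
      intro h
      rw [hD1, ← pow_mul] at h
      have h3 := orderOf_dvd_of_pow_eq_one h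
      have hm0 : 0 < m := Nat.pos_of_ne_zero (by rintro rfl; exact hm (dvd_zero _))
      have h4 := Nat.le_of_dvd (by positivity) h3
      rw [hsm, pow_succ] at h4
      have h5 : 0 < m * 3 ^ s := by positivity
      nlinarith
    obtain ⟨htr, hdt⟩ := cube_trace hroot _ hE3 hE1
    have hr1 : red f D1 = sc (u ^ m) * dg (v ^ m) := by
      rw [hD1, map_pow, huv, scdg_pow]
    set u1 := u ^ m
    set v1 := v ^ m
    have hrE : red f (D1 ^ (3 ^ s)) = sc (u1 ^ (3 ^ s)) * dg (v1 ^ (3 ^ s)) := by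
      rw [map_pow, hr1, scdg_pow]
    have hv3 : v1 ^ (3 ^ (s + 1)) = 1 := by
      have h := congrArg (red f) hD1s
      rw [map_pow, hr1, scdg_pow, map_one] at h
      have e := scdg_val (u1 ^ 3 ^ (s + 1)) (v1 ^ 3 ^ (s + 1))
      rw [h] at e
      simp only [Units.val_one, Matrix.one_apply_eq] at e
      apply Units.ext
      rw [Units.val_one]
      have e1 := e.1
      have e2 := e.2
      rw [← e1, one_mul] at e2
      exact e2.symm
    have hv1 : ¬ v1 ^ (3 ^ s) = 1 := by
      intro h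
      have e := scdg_val (u1 ^ (3 ^ s)) (v1 ^ (3 ^ s))
      rw [← hrE, h, Units.val_one, mul_one] at e
      -- the trace and determinant modulo `f`
      have t1 := congrArg (Ideal.Quotient.mk (Ideal.span {f})) htr
      have t2 := congrArg (Ideal.Quotient.mk (Ideal.span {f})) hdt
      rw [Matrix.trace_fin_two, map_add, map_neg, map_one] at t1
      have hoff : (red f (D1 ^ (3 ^ s))).val 0 1 = 0 := by
        rw [hrE]; exact (scdg_off _ _).1
      rw [Matrix.det_fin_two, map_sub, map_mul, map_mul, map_one] at t2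
      have c00 : (red f (D1 ^ (3 ^ s))).val 0 0 =
        Ideal.Quotient.mk (Ideal.span {f}) ((D1 ^ (3 ^ s)).val 0 0) := rfl
      have c11 : (red f (D1 ^ (3 ^ s))).val 1 1 =
        Ideal.Quotient.mk (Ideal.span {f}) ((D1 ^ (3 ^ s)).val 1 1) := rfl
      have c01 : (red f (D1 ^ (3 ^ s))).val 0 1 =
        Ideal.Quotient.mk (Ideal.span {f}) ((D1 ^ (3 ^ s)).val 0 1) := rfl
      rw [← c00, ← c11, e.1, e.2] at t1
      rw [← c00, ← c11, ← c01, e.1, e.2, hoff, zero_mul, sub_zero] at t2
      have h30 : (3 : O ⧸ Ideal.span {f}) = 0 := by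
        linear_combination (2 * ((u1 ^ 3 ^ s : (O ⧸ Ideal.span {f})ˣ) :
          O ⧸ Ideal.span {f}) - 1) * t1 - 4 * t2
      have hu3 : IsUnit (3 : O ⧸ Ideal.span {f}) := by
        have := SerreE.isUnit_mk_of_coprime hf3.symm
        rwa [map_ofNat] at this
      rw [h30] at hu3
      exact not_isUnit_zero hu3
    have hord : orderOf v1⁻¹ = 3 ^ (s + 1) := by
      rw [orderOf_inv]
      have : Fact (Nat.Prime 3) := ⟨Nat.prime_three⟩
      exact orderOf_eq_prime_pow hv1 hv3
    rw [finsum_eq_sum_of_fintype]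
    apply sum_orbit_zero v1⁻¹
    intro r
    rw [hord]
    have key := coc_pow hC D1 (3 ^ (s + 1)) (dg r * a)
    rw [hD1s, eig_coc_one hC] at key
    rw [key]
    refine Finset.sum_congr rfl fun j _ => ?_
    rw [hr1, scdg_pow, _root_.mul_inv_rev, compat_dg_inv, mul_assoc]
    have e2 : ((sc (u1 ^ j))⁻¹ : GL (Fin 2) (O ⧸ Ideal.span {f})) = sc (u1 ^ j)⁻¹ := by
      rw [← map_inv]
    rw [e2, ← mul_assoc, ← compat_sc_comm, mul_assoc, sc_left hC hscal, ← mul_assoc,
      ← compat_dg_mul, inv_pow]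

end

end SerreT
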