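import Pool.Agent.Serre.HFORM

/-!
# Definitions for `p = 3`, `L = K(√-3)`

`Ti R = R[ζ]`, `ζ² = -1 - ζ`, the torus `(Ti R)ˣ → GL₂(R)`, `x + y ζ ↦ [[x, -y], [y, x - y]]`.
-/

open Matrix
open scoped QuadraticAlgebra

namespace SerreT

open SerreE (mk2 sc dg dgl red Frame heckeC up low)

/-- The ring `R[ζ]`, `ζ² = -1 - ζ`. -/
abbrev Ti (R : Type*) [CommRing R] := QuadraticAlgebra R (-1) (-1)

section general

variable {R : Type*} [CommRing R]

/-- `[[0, -1], [1, -1]]`, multiplication by `ζ`. -/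
def th : GL (Fin 2) R := mk2 0 (-1) 1 (-1) 1 (by simp)

/-- the matrix `[[x, -y], [y, x - y]]` of multiplication by `x + y ζ`. -/
def iotaM : Ti R →+* Matrix (Fin 2) (Fin 2) R where
  toFun z := !![z.re, -z.im; z.im, z.re - z.im]
  map_one' := by
    ext i j; fin_cases i <;> fin_cases j <;> simp
  map_mul' z w := by
    ext i j; fin_cases i <;> fin_cases j <;>
      simp [Matrix.mul_apply, Fin.sum_univ_two] <;> ring
  map_zero' := by
    ext i j; fin_cases i <;> fin_cases j <;> simp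
  map_add' z w := by
    ext i j; fin_cases i <;> fin_cases j <;> simp <;> ring

theorem iotaM_val (t : Ti R) : iotaM t = !![t.re, -t.im; t.im, t.re - t.im] := rfl

/-- the embedding `R[ζ]ˣ → GL₂(R)`. -/
def iota : (Ti R)ˣ →* GL (Fin 2) R := Units.map (iotaM (R := R)).toMonoidHom

@[simp] theorem iota_val (t : (Ti R)ˣ) :
    (iota t).val = !![t.val.re, -t.val.im; t.val.im, t.val.re - t.val.im] := rfl

/-- the unit scalar `u` as a unit of `R[ζ]`. -/
def tiC (u : Rˣ) : (Ti R)ˣ := Units.map (algebraMap R (Ti R)).toMonoidHom u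

/-- complex conjugation on units of `R[ζ]`. -/
def tiStar : (Ti R)ˣ →* (Ti R)ˣ := Units.map (starRingEnd (Ti R)).toMonoidHom

end general

section reduction

variable {O : Type*} [CommRing O]

/-- reduction modulo `f` on `O[ζ]`. -/
def redTi (f : O) : Ti O →+* Ti (O ⧸ Ideal.span {f}) where
  toFun z := ⟨Ideal.Quotient.mk _ z.re, Ideal.Quotient.mk _ z.im⟩
  map_one' := by ext <;> simp
  map_mul' z w := by ext <;> simp
  map_zero' := by ext <;> simp
  map_add' z w := by ext <;> simp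

@[simp] theorem redTi_re (f : O) (z : Ti O) : (redTi f z).re = Ideal.Quotient.mk _ z.re := rfl
@[simp] theorem redTi_im (f : O) (z : Ti O) : (redTi f z).im = Ideal.Quotient.mk _ z.im := rfl

end reduction

section cocycles

variable {O : Type*} [CommRing O] {k : Type*} [Field k]

/-- Twisted cocycles: functions `C : GL₂(O) × GL₂(O/f) → k` with the cocycle identity, trivial on
scalars and `χ⁻¹`-equivariant on the right under the torus `(O/f)[ζ]ˣ`. -/
structure IsCoc (f : O) (χ : (Ti (O ⧸ Ideal.span {f}))ˣ →* kˣ)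
    (C : GL (Fin 2) O → GL (Fin 2) (O ⧸ Ideal.span {f}) → k) : Prop where
  coc : ∀ γ γ' y, C (γ * γ') y = C γ y + C γ' ((red f γ)⁻¹ * y)
  scal : ∀ (u : Oˣ) y, C (sc u) y = 0
  equi : ∀ γ y t, C γ (y * iota t) = ((χ t)⁻¹ : kˣ) * C γ y

/-- The property used in the joint injectivity statement, for a finite ring `R`. -/
def PropV (R : Type*) [CommRing R] (k : Type*) [Field k] : Prop :=
  ∀ χ : (Ti R)ˣ →* kˣ, (∀ u : Rˣ, χ (tiC u) = 1) →
    (∀ 𝔞 : Ideal R, 𝔞 ≠ ⊥ → ∃ t : (Ti R)ˣ, t.val.re - 1 ∈ 𝔞 ∧ t.val.im ∈ 𝔞 ∧ χ t ^ 2 ≠ 1) →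
    ∀ v : GL (Fin 2) R → k, (∀ y t, v (y * iota t) = ((χ t)⁻¹ : kˣ) * v y) →
      (∀ g a : GL (Fin 2) R, Matrix.GeneralLinearGroup.det g = 1 →
        ∑ᶠ r : Rˣ, v (g * dg r * a) = 0) → v = 0

end cocycles

end SerreT
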