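import Pool.Agent.SerreT.GDefs3
import Pool.Agent.SerreT.Defs
import Pool.Agent.SerreK.ACT
import Pool.Agent.SerreK.MM

/-!
# MM3: the representation of `GL₂(O)` on `V = ℝ⁴` adapted to `θ`
(compare SerreK/MM.lean.)  `U = [[1, z], [1, z̄]]`, `z = e^{2πi/3} = -1/2 + (√3/2) i`:
`U σ(iota w) = diag(σx + z σy, σx + z̄ σy) U` for `w = x + y ζ`.
-/

open Complex Matrix

namespace SerreT

open SerreK (V InC Hit Gen6 act ImQ act_mul act_one unit_abs)
open SerreE (sc)

/-- `e^{2πi/3}` -/
noncomputable def zc : ℂ := ⟨-1 / 2, Real.sqrt 3 / 2⟩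

/-- `U` -/
noncomputable def UU : Matrix (Fin 2) (Fin 2) ℂ := !![1, zc; 1, star zc]

/-- `U⁻¹` -/
noncomputable def UI : Matrix (Fin 2) (Fin 2) ℂ :=
  (star zc - zc)⁻¹ • !![star zc, -zc; -1, 1]

theorem zc_star : star zc = -1 - zc := by
  apply Complex.ext
  · simp [zc]; norm_num
  · simp [zc]

theorem zc_sq : zc ^ 2 = -1 - zc := by
  have h3 : Real.sqrt 3 * Real.sqrt 3 = 3 := Real.mul_self_sqrt (by norm_num)
  rw [sq]
  apply Complex.ext
  · simp [zc]
    linear_combination (-1 / 4) * h3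
  · simp [zc]
    ring

theorem zc_norm : normSq zc = 1 := by
  have h3 : Real.sqrt 3 * Real.sqrt 3 = 3 := Real.mul_self_sqrt (by norm_num)
  rw [normSq_apply]
  simp only [zc]
  linear_combination (1 / 4) * h3

theorem zc_diff_norm : normSq (star zc - zc) = 3 := by
  have h3 : Real.sqrt 3 * Real.sqrt 3 = 3 := Real.mul_self_sqrt (by norm_num)
  rw [normSq_apply]
  simp [zc]
  linear_combination h3

theorem zc_diff : star zc - zc ≠ 0 := by
  intro h
  have := zc_diff_norm
  rw [h, map_zero] at this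
  norm_num at this

theorem UU_UI : UU * UI = 1 := by
  have h := zc_diff
  ext i j
  fin_cases i <;> fin_cases j <;>
    simp only [UU, UI, Matrix.mul_apply, Fin.sum_univ_two, Fin.zero_eta, Fin.mk_one,
      Matrix.of_apply, Matrix.smul_apply, smul_eq_mul,
      Matrix.cons_val', Matrix.cons_val_zero, Matrix.cons_val_one, Matrix.cons_val_fin_one,
      Matrix.one_apply_eq]
  · field_simp; ring
  · rw [Matrix.one_apply_ne (by decide)]; ring
  · rw [Matrix.one_apply_ne (by decide)]; ring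
  · field_simp; ring

theorem UI_UU : UI * UU = 1 := mul_eq_one_comm.1 UU_UI

section
variable {O : Type} [CommRing O]

/-- `U σ(g) U⁻¹` -/
noncomputable def mT (σ : O →+* ℂ) (g : Matrix (Fin 2) (Fin 2) O) : Matrix (Fin 2) (Fin 2) ℂ :=
  UU * g.map σ * UI

theorem mT_mul (σ : O →+* ℂ) (g h : Matrix (Fin 2) (Fin 2) O) :
    mT σ (g * h) = mT σ g * mT σ h := by
  unfold mT
  rw [Matrix.map_mul]
  calc UU * (g.map σ * h.map σ) * UI = UU * g.map σ * 1 * (h.map σ * UI) := by
        simp only [Matrix.mul_one, Matrix.mul_assoc]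
    _ = UU * g.map σ * (UI * UU) * (h.map σ * UI) := by rw [UI_UU]
    _ = _ := by simp only [Matrix.mul_assoc]

theorem mT_one (σ : O →+* ℂ) : mT σ (1 : Matrix (Fin 2) (Fin 2) O) = 1 := by
  unfold mT
  rw [Matrix.map_one _ (map_zero σ) (map_one σ), Matrix.mul_one, UU_UI]

theorem mT_det (σ : O →+* ℂ) (g : Matrix (Fin 2) (Fin 2) O) : (mT σ g).det = σ g.det := by
  unfold mT
  rw [Matrix.det_mul, Matrix.det_mul]
  have h : UU.det * UI.det = 1 := by rw [← Matrix.det_mul, UU_UI, Matrix.det_one]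
  have h2 : (g.map σ).det = σ g.det := by
    rw [RingHom.map_det]; rfl
  rw [h2]
  linear_combination (σ g.det) * h

/-- the representation -/
noncomputable def rho (σ : O →+* ℂ) : GL (Fin 2) O →* (V →ₗ[ℝ] V) where
  toFun g := act (mT σ g.val)
  map_one' := by rw [Units.val_one, mT_one, act_one]
  map_mul' g h := by rw [Units.val_mul, mT_mul, act_mul]

theorem rho_def (σ : O →+* ℂ) (g : GL (Fin 2) O) : rho σ g = act (mT σ g.val) := rfl

theorem mT_det_abs {σ : O →+* ℂ} (hσ : ImQ σ) (g : GL (Fin 2) O) :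
    normSq (mT σ g.val).det = 1 := by
  rw [mT_det]
  exact unit_abs hσ (Matrix.GeneralLinearGroup.det g)

theorem rho_inC {σ : O →+* ℂ} (hσ : ImQ σ) (g : GL (Fin 2) O) (v : V) (hv : InC v) :
    InC (rho σ g v) := by
  refine SerreK.act_inC (mT σ g.val) ?_ v hv
  intro h
  have h1 := mT_det_abs hσ g
  rw [h, map_zero] at h1
  exact zero_ne_one h1

/-- the matrix of `x + y ζ` is diagonal. -/
theorem mT_diag (σ : O →+* ℂ) (x y : O) :
    mT σ !![x, -y; y, x - y] = !![σ x + zc * σ y, 0; 0, σ x + star zc * σ y] := by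
  have key : UU * (!![x, -y; y, x - y] : Matrix (Fin 2) (Fin 2) O).map σ =
      !![σ x + zc * σ y, 0; 0, σ x + star zc * σ y] * UU := by
    have hz := zc_sq
    have hs := zc_star
    ext i j
    fin_cases i <;> fin_cases j <;>
      simp only [UU, Matrix.mul_apply, Fin.sum_univ_two, Fin.zero_eta, Fin.mk_one,
        Matrix.of_apply, Matrix.map_apply,
        Matrix.cons_val', Matrix.cons_val_zero, Matrix.cons_val_one, Matrix.cons_val_fin_one,
        map_neg, map_sub, hs]
    · ring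
    · linear_combination (-(σ y)) * hz
    · ring
    · linear_combination (-(σ y)) * hz
  unfold mT
  rw [key, Matrix.mul_assoc, UU_UI, Matrix.mul_one]

theorem rho_scal {σ : O →+* ℂ} (hσ : ImQ σ) (u : Oˣ) : rho σ (sc u) = 1 := by
  have h : (sc u : GL (Fin 2) O).val = !![(u : O), -0; 0, (u : O) - 0] := by
    ext i j
    fin_cases i <;> fin_cases j <;> simp
  have h3 : (!![σ (u : O), 0; 0, σ (u : O)] : Matrix (Fin 2) (Fin 2) ℂ) = σ (u : O) • 1 := by
    ext i j
    fin_cases i <;> fin_cases j <;> simp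
  rw [rho_def, h, mT_diag, map_zero, mul_zero, mul_zero, add_zero, h3,
    SerreK.act_scalar _ (unit_abs hσ u), act_one]

theorem act_th (v : V) : act !![zc, 0; 0, star zc] v = RR v := by
  have h3 : Real.sqrt 3 * Real.sqrt 3 = 3 := Real.mul_self_sqrt (by norm_num)
  have hn := zc_norm
  have hd := SerreK.act_diag zc (star zc) v
  ext i
  fin_cases i
  · have := hd.1
    simp only [Fin.zero_eta]
    rw [this, hn, one_mul]
    simp [RR]
  · have := hd.2
    simp only [Fin.mk_one]
    have hn2 : normSq (star zc) = 1 := by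
      rw [← hn]; exact Complex.normSq_conj zc
    rw [this, hn2, one_mul]
    simp [RR]
  · show act !![zc, 0; 0, star zc] v 2 = RR v 2
    rw [SerreK.ACT_2]
    simp [RR]
    simp only [zc]
    linear_combination (-(v 2) / 4) * h3
  · show act !![zc, 0; 0, star zc] v 3 = RR v 3
    rw [SerreK.ACT_3]
    simp [RR]
    simp only [zc]
    linear_combination (-(v 3) / 4) * h3

theorem rho_th (σ : O →+* ℂ) (v : V) : rho σ th v = RR v := by
  have h : (th : GL (Fin 2) O).val = !![0, -1; 1, 0 - 1] := by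
    ext i j
    fin_cases i <;> fin_cases j <;> simp [th, SerreE.mk2]
  have h3 : (!![(0 : ℂ) + zc * 1, 0; 0, 0 + star zc * 1] : Matrix (Fin 2) (Fin 2) ℂ) =
      !![zc, 0; 0, star zc] := by
    rw [zero_add, zero_add, mul_one, mul_one]
  rw [rho_def, h, mT_diag, map_zero, map_one, h3, act_th]

/-- `|w₁|²` -/
noncomputable def ab1 (σ : O →+* ℂ) (w : Ti O) : ℝ := normSq (σ w.re + zc * σ w.im)

/-- `|w₂|²` -/
noncomputable def ab2 (σ : O →+* ℂ) (w : Ti O) : ℝ := normSq (σ w.re + star zc * σ w.im)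

theorem rho_iota (σ : O →+* ℂ) (w : (Ti O)ˣ) (v : V) :
    rho σ (iota w) v 0 = ab1 σ w * v 0 ∧ rho σ (iota w) v 1 = ab2 σ w * v 1 := by
  rw [rho_def, iota_val, mT_diag]
  exact SerreK.act_diag _ _ v

/-- the entries of `σ g` are bounded in terms of those of `mT σ g` -/
theorem entries_le {σ : O →+* ℂ} {K : ℝ} {g : Matrix (Fin 2) (Fin 2) O}
    (h : ∀ i j, normSq (mT σ g i j) ≤ K) (i j : Fin 2) : normSq (σ (g i j)) ≤ 16 / 3 * K := by
  have hI : ∀ a b, normSq (UI a b) = 1 / 3 := by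
    have hz := zc_norm
    have hd := zc_diff_norm
    have hs : normSq (star zc) = 1 := by
      rw [← hz]; exact Complex.normSq_conj zc
    intro a b
    fin_cases a <;> fin_cases b <;>
      simp only [UI, Fin.zero_eta, Fin.mk_one, Matrix.of_apply, Matrix.smul_apply, smul_eq_mul,
        Matrix.cons_val', Matrix.cons_val_zero, Matrix.cons_val_one, Matrix.cons_val_fin_one,
        map_mul, map_inv₀, normSq_neg, hz, hd, hs, map_one] <;> norm_num
  have hU : ∀ a b, normSq (UU a b) = 1 := by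
    have hz := zc_norm
    have hs : normSq (star zc) = 1 := by
      rw [← hz]; exact Complex.normSq_conj zc
    intro a b
    fin_cases a <;> fin_cases b <;>
      simp only [UU, Fin.zero_eta, Fin.mk_one, Matrix.of_apply,
        Matrix.cons_val', Matrix.cons_val_zero, Matrix.cons_val_one, Matrix.cons_val_fin_one,
        hz, hs, map_one]
  have hg : g.map σ = UI * mT σ g * UU := by
    unfold mT
    calc g.map σ = 1 * g.map σ * 1 := by rw [Matrix.one_mul, Matrix.mul_one]
      _ = (UI * UU) * g.map σ * (UI * UU) := by rw [UI_UU]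
      _ = _ := by simp only [Matrix.mul_assoc]
  have he : σ (g i j) = UI i 0 * mT σ g 0 0 * UU 0 j + UI i 1 * mT σ g 1 0 * UU 0 j +
      UI i 0 * mT σ g 0 1 * UU 1 j + UI i 1 * mT σ g 1 1 * UU 1 j := by
    have : σ (g i j) = (g.map σ) i j := rfl
    rw [this, hg]
    simp only [Matrix.mul_apply, Fin.sum_univ_two]
    ring
  rw [he]
  have h4 := SerreK.normSq_add4 (UI i 0 * mT σ g 0 0 * UU 0 j) (UI i 1 * mT σ g 1 0 * UU 0 j)
    (UI i 0 * mT σ g 0 1 * UU 1 j) (UI i 1 * mT σ g 1 1 * UU 1 j)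
  simp only [map_mul, hI, hU] at h4
  have a1 := h 0 0
  have a2 := h 1 0
  have a3 := h 0 1
  have a4 := h 1 1
  linarith

/-- proper discontinuity -/
theorem rho_proper {σ : O →+* ℂ} (hσ : ImQ σ) (a b c p q : V) (ha : InC a) (hb : InC b)
    (hc : InC c) (hp : InC p) (hq : InC q) :
    {g : GL (Fin 2) O | Hit (rho σ g a) (rho σ g b) (rho σ g c) p q}.Finite := by
  obtain ⟨K, hK⟩ := SerreK.act_proper a b c p q ha hb hc hp hq
  have hfin : {m : Fin 2 → Fin 2 → O |
      ∀ i j, m i j ∈ {x : O | normSq (σ x) ≤ 16 / 3 * K}}.Finite := by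
    have h1 : {r : Fin 2 → O | ∀ j, r j ∈ {x : O | normSq (σ x) ≤ 16 / 3 * K}}.Finite :=
      Set.Finite.pi' (fun _ => hσ.fin (16 / 3 * K))
    exact Set.Finite.pi' (fun _ => h1)
  have hinj : Set.InjOn (fun g : GL (Fin 2) O => (fun i j => g.val i j : Fin 2 → Fin 2 → O))
      ((fun g : GL (Fin 2) O => (fun i j => g.val i j : Fin 2 → Fin 2 → O)) ⁻¹'
        {m : Fin 2 → Fin 2 → O | ∀ i j, m i j ∈ {x : O | normSq (σ x) ≤ 16 / 3 * K}}) := by
    intro g _ g' _ h
    apply Units.ext
    ext i j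
    exact congrFun (congrFun h i) j
  refine (Set.Finite.preimage hinj hfin).subset ?_
  intro g hg i j
  exact entries_le (hK (mT σ g.val) (mT_det_abs hσ g) hg) i j

/-- the entries of a matrix commuting with `θ` -/
theorem comm_th_entries (g : GL (Fin 2) O) (h : g * th = th * g) :
    g.val 0 1 = -g.val 1 0 ∧ g.val 1 1 = g.val 0 0 - g.val 1 0 := by
  have h0 : g.val * th.val = th.val * g.val := by
    rw [← Units.val_mul, h, Units.val_mul]
  have hJ : (th : GL (Fin 2) O).val = !![0, -1; 1, -1] := by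
    ext i j
    fin_cases i <;> fin_cases j <;> simp [th, SerreE.mk2]
  have e1 := congrFun (congrFun h0 0) 0
  have e2 := congrFun (congrFun h0 0) 1
  rw [Matrix.mul_apply, Matrix.mul_apply, Fin.sum_univ_two, Fin.sum_univ_two, hJ] at e1 e2
  simp at e1 e2
  refine ⟨e1, ?_⟩
  rw [e1] at e2
  linear_combination e2

/-- elements commuting with `θ` are in the image of `O[ζ]ˣ`. -/
theorem comm_th (g : GL (Fin 2) O) (h : g * th = th * g) : ∃ w : (Ti O)ˣ, g = iota w := by
  have h' : g⁻¹ * th = th * g⁻¹ := by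
    rw [inv_mul_eq_iff_eq_mul, ← mul_assoc, h, mul_inv_cancel_right]
  obtain ⟨e1, e2⟩ := comm_th_entries g h
  obtain ⟨f1, f2⟩ := comm_th_entries g⁻¹ h'
  have k1 : g.val * (g⁻¹).val = 1 := by rw [← Units.val_mul, mul_inv_cancel, Units.val_one]
  have k00 := congrFun (congrFun k1 0) 0
  have k10 := congrFun (congrFun k1 1) 0
  rw [Matrix.mul_apply, Fin.sum_univ_two, Matrix.one_apply] at k00 k10
  rw [e1] at k00
  rw [e2] at k10
  simp only [if_true, one_ne_zero, if_false] at k00 k10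
  have hm : (⟨g.val 0 0, g.val 1 0⟩ : Ti O) * ⟨(g⁻¹).val 0 0, (g⁻¹).val 1 0⟩ = 1 := by
    ext
    · rw [QuadraticAlgebra.re_mul, QuadraticAlgebra.re_one]
      linear_combination k00
    · rw [QuadraticAlgebra.im_mul, QuadraticAlgebra.im_one]
      linear_combination k10
  refine ⟨⟨⟨g.val 0 0, g.val 1 0⟩, ⟨(g⁻¹).val 0 0, (g⁻¹).val 1 0⟩, hm, by rw [mul_comm]; exact hm⟩,
    ?_⟩
  apply Units.ext
  rw [iota_val]
  ext i j
  fin_cases i <;> fin_cases j
  · rfl
  · exact e1
  · rfl
  · exact e2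

end

end SerreT
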