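import Pool.Agent.SerreT.FIX
import Pool.Agent.Serre.FRAME
import Pool.Agent.Serre.EIG

/-!
# The eigenvalue identity: in characteristic `3` the points not fixed by `θ` cancel
-/

open Matrix
open scoped QuadraticAlgebra

namespace SerreT

open SerreE (mk2 sc dg dgl red Frame PM heckeC eigK eig_heckeC)

section sums

variable {X : Type} [Fintype X] {k : Type*} [Field k]

/-- a system of weights for the orbits of a map of order three -/
theorem eig_weight (j : X → X) (hj : ∀ x, j (j (j x)) = x) :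
    ∃ r : X → k, ∀ x, j x ≠ x → r x + r (j x) + r (j (j x)) = 1 := by
  classical
  let e := Fintype.equivFin X
  refine ⟨fun x => if e x < e (j x) ∧ e x < e (j (j x)) then 1 else 0, fun x hx => ?_⟩
  have h1 : e x ≠ e (j x) := fun h => hx (e.injective h).symm
  have h2 : e (j x) ≠ e (j (j x)) := by
    intro h
    apply hx
    have h' := e.injective h
    have := congrArg (fun y => j (j y)) h'
    simp only [hj] at this
    exact this.symm
  have h3 : e (j (j x)) ≠ e x := by
    intro h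
    apply hx
    have h' := e.injective h
    have := congrArg j h'
    rw [hj] at this
    exact this.symm
  simp only [hj]
  rcases lt_trichotomy (e x) (e (j x)) with a | a | a
  · rcases lt_trichotomy (e x) (e (j (j x))) with b | b | b
    · rw [if_pos ⟨a, b⟩, if_neg (fun h => absurd h.2 (not_lt.2 a.le)),
        if_neg (fun h => absurd h.1 (not_lt.2 b.le))]
      ring
    · exact absurd b.symm h3
    · rw [if_neg (fun h => absurd h.2 (not_lt.2 b.le)),
        if_neg (fun h => absurd h.2 (not_lt.2 a.le)), if_pos ⟨b, b.trans a⟩]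
      ring
  · exact absurd a h1
  · rcases lt_trichotomy (e (j x)) (e (j (j x))) with b | b | b
    · rw [if_neg (fun h => absurd h.1 (not_lt.2 a.le)), if_pos ⟨b, a⟩,
        if_neg (fun h => absurd h.2 (not_lt.2 b.le))]
      ring
    · exact absurd b h2
    · rw [if_neg (fun h => absurd h.1 (not_lt.2 a.le)),
        if_neg (fun h => absurd h.1 (not_lt.2 b.le)), if_pos ⟨b.trans a, b⟩]
      ring

/-- folding a sum along the orbits of a map of order three -/
theorem eig_fold (j : X → X) (hj : ∀ x, j (j (j x)) = x) (S : Finset X)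
    (hS : ∀ x, x ∈ S ↔ j x ∈ S) (r : X → k)
    (hr : ∀ x ∈ S, r x + r (j x) + r (j (j x)) = 1) (G : X → k) :
    ∑ x ∈ S, G x = ∑ x ∈ S, r x * (G x + G (j x) + G (j (j x))) := by
  have hre : ∀ H : X → k, ∑ x ∈ S, H (j x) = ∑ x ∈ S, H x := by
    intro H
    refine Finset.sum_bij (fun x _ => j x) (fun x hx => (hS x).1 hx) ?_ ?_ (fun x _ => rfl)
    · intro x _ y _ hxy
      rw [← hj x, hxy, hj]
    · intro y hy
      exact ⟨j (j y), (hS _).1 ((hS y).1 hy), hj y⟩
  have e1 : ∑ x ∈ S, r x * G (j x) = ∑ x ∈ S, r (j (j x)) * G x := by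
    rw [← hre (fun x => r (j (j x)) * G x)]
    refine Finset.sum_congr rfl fun x _ => ?_
    rw [hj]
  have e2 : ∑ x ∈ S, r x * G (j (j x)) = ∑ x ∈ S, r (j x) * G x := by
    rw [← hre (fun x => r (j x) * G x), ← hre (fun x => r (j (j x)) * G (j x))]
    refine Finset.sum_congr rfl fun x _ => ?_
    rw [hj]
  calc ∑ x ∈ S, G x = ∑ x ∈ S, (r x + r (j x) + r (j (j x))) * G x := by
        refine Finset.sum_congr rfl fun x hx => ?_
        rw [hr x hx, one_mul]
    _ = ∑ x ∈ S, r x * (G x + G (j x) + G (j (j x))) := by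
        simp only [add_mul, mul_add, Finset.sum_add_distrib]
        rw [e1, e2]
        ring

/-- the sum over the points which are not fixed by the map `j` of order three -/
theorem eig_sum_nonfixed [CharP k 3]
    (j u : X → X) (hj : ∀ x, j (j (j x)) = x) (hu : Function.Bijective u)
    (hju : ∀ x, u (j x) = j (u x)) (κ b : X → k) (hb : ∀ x, b x + b (j x) + b (j (j x)) = 0)
    (h : ∀ x, κ (j x) + b x = b (u x) + κ x) (P : X → Prop) [DecidablePred P]
    (hP : ∀ x, P x ↔ j x ≠ x) :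
    ∑ x ∈ Finset.univ.filter P, κ x = 0 := by
  classical
  have h3 : (3 : k) = 0 := CharP.cast_eq_zero k 3
  set S := Finset.univ.filter P with hS
  have hmem : ∀ x, x ∈ S ↔ j x ≠ x := fun x => by simp [hS, hP]
  have hji : Function.Injective j := fun x y hxy => by rw [← hj x, hxy, hj]
  have hjS : ∀ x, x ∈ S ↔ j x ∈ S := by
    intro x
    rw [hmem, hmem]
    exact not_congr hji.eq_iff.symm
  have huS : ∀ x, x ∈ S ↔ u x ∈ S := by
    intro x
    rw [hmem, hmem, ← hju]
    exact not_congr hu.1.eq_iff.symm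
  obtain ⟨r, hr0⟩ := eig_weight (k := k) j hj
  have hr : ∀ x ∈ S, r x + r (j x) + r (j (j x)) = 1 := fun x hx => hr0 x ((hmem x).1 hx)
  have hreu : ∀ F : X → k, ∑ x ∈ S, F (u x) = ∑ x ∈ S, F x := by
    intro F
    refine Finset.sum_bij (fun x _ => u x) (fun x hx => (huS x).1 hx) ?_ ?_ (fun x _ => rfl)
    · intro x _ y _ hxy
      exact hu.1 hxy
    · intro y hy
      obtain ⟨x, rfl⟩ := hu.2 y
      exact ⟨x, (huS x).2 hy, rfl⟩
  let β : X → k := fun x => 2 * b x + b (j x)
  have hβ : ∀ x, β (j x) = β x := by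
    intro x
    simp only [β]
    linear_combination hb x - b x * h3
  have hκ : ∀ x, κ x + κ (j x) + κ (j (j x)) = β (u x) - β x := by
    intro x
    have h1 := h x
    have h2 := h (j x)
    simp only [β]
    rw [← hju]
    linear_combination 2 * h1 + h2 + κ x * h3
  let ue := Equiv.ofBijective u hu
  have huinv : ∀ x, u (ue.symm x) = x := fun x => ue.apply_symm_apply x
  have huj : ∀ x, ue.symm (j x) = j (ue.symm x) := by
    intro x
    apply hu.1
    rw [huinv, hju, huinv]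
  have huS' : ∀ x ∈ S, ue.symm x ∈ S := by
    intro x hx
    rw [huS, huinv]
    exact hx
  have e1 : ∑ x ∈ S, κ x = ∑ x ∈ S, (r (ue.symm x) - r x) * β x := by
    rw [eig_fold j hj S hjS r hr κ]
    simp only [hκ, mul_sub, sub_mul, Finset.sum_sub_distrib]
    congr 1
    rw [← hreu (fun x => r (ue.symm x) * β x)]
    refine Finset.sum_congr rfl fun x _ => ?_
    have : ue.symm (u x) = x := ue.symm_apply_apply x
    rw [this]
  rw [e1, eig_fold j hj S hjS r hr (fun x => (r (ue.symm x) - r x) * β x)]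
  refine Finset.sum_eq_zero fun x hx => ?_
  have a1 := hr x hx
  have a2 := hr _ (huS' x hx)
  simp only [huj, hβ]
  linear_combination r x * β x * (a2 - a1)

end sums

section
variable {O : Type*} [CommRing O] [IsDomain O] {π : O} {X : Type} [Fintype X] (F : Frame π X)
variable {k : Type*} [Field k]

omit [Fintype X] in
theorem eig_coc (hπ : π ≠ 0) {f : O} {ϖ : (O ⧸ Ideal.span {f})ˣ}
    (hϖ : (ϖ : O ⧸ Ideal.span {f}) = Ideal.Quotient.mk _ π)
    {χ : (Ti (O ⧸ Ideal.span {f}))ˣ →* kˣ}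
    {C : GL (Fin 2) O → GL (Fin 2) (O ⧸ Ideal.span {f}) → k} (hC : IsCoc f χ C)
    (γ γ' : GL (Fin 2) O) (t : (Ti (O ⧸ Ideal.span {f}))ˣ) (ht : iota t = red f γ)
    (hχ : χ t = 1) (x : X) :
    eigK F f ϖ C (γ * γ') x = eigK F f ϖ C γ (F.act γ' x) + eigK F f ϖ C γ' x := by
  unfold eigK
  obtain ⟨e1, e2⟩ := F.act_mul hπ γ γ' x
  rw [e1, e2, hC.coc]
  congr 1
  have h1 := F.step_red ϖ hϖ (F.step_act hπ γ (F.act γ' x))
  have h2 : (red f (F.gam γ (F.act γ' x)))⁻¹ *
      (red f (F.s (F.act γ (F.act γ' x))) * dgl ϖ)⁻¹ =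
      (red f (F.s (F.act γ' x)) * dgl ϖ)⁻¹ * iota t⁻¹ := by
    rw [map_inv, ht, ← _root_.mul_inv_rev, ← _root_.mul_inv_rev, h1]
  rw [h2, hC.equi, map_inv, hχ]
  simp

omit [IsDomain O] in
theorem eig_coc_one {f : O} {χ : (Ti (O ⧸ Ideal.span {f}))ˣ →* kˣ}
    {C : GL (Fin 2) O → GL (Fin 2) (O ⧸ Ideal.span {f}) → k} (hC : IsCoc f χ C)
    (y : GL (Fin 2) (O ⧸ Ideal.span {f})) : C 1 y = 0 := by
  have h1 : (sc (1 : Oˣ) : GL (Fin 2) O) = 1 := map_one (Matrix.GeneralLinearGroup.scalar (Fin 2))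
  have := hC.scal 1 y
  rwa [h1] at this

omit [Fintype X] in
/-- the contribution of a fixed point -/
theorem eig_fixed (hπ : π ≠ 0) {f : O} {ϖ : (O ⧸ Ideal.span {f})ˣ}
    (hϖ : (ϖ : O ⧸ Ideal.span {f}) = Ideal.Quotient.mk _ π)
    {χ : (Ti (O ⧸ Ideal.span {f}))ˣ →* kˣ}
    {C : GL (Fin 2) O → GL (Fin 2) (O ⧸ Ideal.span {f}) → k} (hC : IsCoc f χ C)
    (u : GL (Fin 2) O) (tu : (Ti (O ⧸ Ideal.span {f}))ˣ)
    (htu : iota tu = red f u) (hχu : χ tu = 1) (z : Ti O) (tz : (Ti (O ⧸ Ideal.span {f}))ˣ)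
    (htz : tz.val = redTi f z) (x : X) (ep : GL (Fin 2) O)
    (hs : (F.s x).val * PM π = iotaM z * ep.val) (hcomm : u.val * iotaM z = iotaM z * u.val) :
    F.act u x = x ∧ eigK F f ϖ C u x = (χ tz : k) * C u 1 := by
  have hstep : F.Step u x x (ep⁻¹ * u * ep) := by
    unfold Frame.Step
    have h1 : ep.val * (ep⁻¹ * u * ep).val = u.val * ep.val := by
      rw [← Units.val_mul, ← Units.val_mul]
      congr 1
      group
    rw [mul_assoc, hs, ← mul_assoc, hcomm, mul_assoc, mul_assoc, h1]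
  obtain ⟨e1, e2⟩ := F.act_eq hπ hstep
  refine ⟨e1, ?_⟩
  unfold eigK
  rw [e1, e2]
  have hd : red f (F.s x) * dgl ϖ = iota tz * red f ep := by
    apply Units.ext
    have h1 : (red f (F.s x)).val * (dgl ϖ).val =
        ((F.s x).val * PM π).map (Ideal.Quotient.mk (Ideal.span {f})) := by
      rw [Matrix.map_mul]
      congr 1
      ext i j
      fin_cases i <;> fin_cases j <;> simp [dgl, mk2, PM, hϖ]
    have h2 : (iota tz).val * (red f ep).val =
        (iotaM z * ep.val).map (Ideal.Quotient.mk (Ideal.span {f})) := by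
      rw [Matrix.map_mul]
      congr 1
      change iotaM tz.val = _
      rw [htz]
      ext i j
      fin_cases i <;> fin_cases j <;> simp [iotaM]
    rw [Units.val_mul, Units.val_mul, h1, h2, hs]
  rw [hd, _root_.mul_inv_rev]
  set τ := (iota tz)⁻¹ with hτ
  have a1 : C (ep⁻¹ * u * ep) ((red f ep)⁻¹ * τ) = C ep⁻¹ ((red f ep)⁻¹ * τ) +
      (C u τ + C ep ((red f u)⁻¹ * τ)) := by
    rw [mul_assoc, hC.coc, hC.coc]
    congr 2
    · congr 1
      rw [map_inv, inv_inv, ← mul_assoc, mul_inv_cancel, one_mul]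
    · congr 1
      rw [map_inv, inv_inv, ← mul_assoc (red f ep), mul_inv_cancel, one_mul]
  have a2 : C ep ((red f u)⁻¹ * τ) = C ep τ := by
    have h3 : (red f u)⁻¹ * τ = τ * iota tu⁻¹ := by
      rw [hτ, ← htu, ← map_inv, ← map_inv, ← map_mul, ← map_mul, mul_comm]
    rw [h3, hC.equi, map_inv, hχu]
    simp
  have a3 : C ep τ + C ep⁻¹ ((red f ep)⁻¹ * τ) = 0 := by
    rw [← hC.coc, mul_inv_cancel]
    exact eig_coc_one hC _
  have a4 : C u τ = (χ tz : k) * C u 1 := by
    have h4 : τ = 1 * iota tz⁻¹ := by rw [one_mul, map_inv]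
    rw [h4, hC.equi, map_inv, inv_inv]
  rw [a1, a2, ← a4]
  linear_combination a3

end

theorem eig_tiStar {R : Type*} [CommRing R] {k : Type*} [Field k] (χ : (Ti R)ˣ →* kˣ)
    (hscal : ∀ u, χ (tiC u) = 1) (t : (Ti R)ˣ) : χ (tiStar t) = (χ t)⁻¹ := by
  have h1 : t * tiStar t =
      tiC (Units.map (QuadraticAlgebra.norm (R := R) (a := -1) (b := -1)) t) := by
    apply Units.ext
    change t.val * star t.val = algebraMap R (Ti R) (QuadraticAlgebra.norm t.val)
    rw [QuadraticAlgebra.algebraMap_norm_eq_mul_star]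
  have h2 : χ t * χ (tiStar t) = 1 := by rw [← map_mul, h1, hscal]
  exact eq_inv_of_mul_eq_one_right h2

/-- `ζ` as a unit -/
def tz (R : Type*) [CommRing R] : (Ti R)ˣ :=
  ⟨⟨0, 1⟩, ⟨-1, -1⟩, by ext <;> simp, by ext <;> simp⟩

theorem tz_val (R : Type*) [CommRing R] : (tz R).val = ⟨0, 1⟩ := rfl

theorem iota_tz {O : Type*} [CommRing O] (f : O) :
    iota (tz (O ⧸ Ideal.span {f})) = red f th := by
  apply Units.ext
  ext i j
  fin_cases i <;> fin_cases j <;> simp [tz, th, mk2]

theorem th_cube {R : Type*} [CommRing R] : (th : GL (Fin 2) R) * (th * th) = 1 := by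
  apply Units.ext
  ext i j
  fin_cases i <;> fin_cases j <;> simp [th, mk2, Matrix.mul_apply, Fin.sum_univ_two]

section
variable {O : Type*} [CommRing O] [IsDomain O] [IsPrincipalIdealRing O] {π : O} {X : Type}
  [Fintype X] (F : Frame π X)
variable {k : Type*} [Field k] [CharP k 3]

omit [IsPrincipalIdealRing O] in
open Classical in
/-- the sum over the points which are not fixed by `θ` vanishes -/
theorem eig_nonfixed (hπ : π ≠ 0) (f : O) (ϖ : (O ⧸ Ideal.span {f})ˣ)
    (hϖ : (ϖ : O ⧸ Ideal.span {f}) = Ideal.Quotient.mk _ π)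
    (χ : (Ti (O ⧸ Ideal.span {f}))ˣ →* kˣ)
    (hJ : ∀ t, iota t = red f th → χ t = 1)
    (C : GL (Fin 2) O → GL (Fin 2) (O ⧸ Ideal.span {f}) → k) (hC : IsCoc f χ C)
    (u : GL (Fin 2) O) (hu : u * th = th * u) (tu : (Ti (O ⧸ Ideal.span {f}))ˣ)
    (htu : iota tu = red f u) (hχu : χ tu = 1) :
    ∑ x ∈ Finset.univ.filter (fun x => F.act th x ≠ x), eigK F f ϖ C u x = 0 := by
  have hti := iota_tz f
  have hχi := hJ _ hti
  have hact : ∀ x, F.act th (F.act th (F.act th x)) = x := by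
    intro x
    rw [← (F.act_mul hπ th th x).1, ← (F.act_mul hπ th (th * th) x).1, th_cube]
    exact (F.act_one hπ x).1
  have hK : ∀ x, eigK F f ϖ C th x + eigK F f ϖ C th (F.act th x) +
      eigK F f ϖ C th (F.act th (F.act th x)) = 0 := by
    intro x
    have h1 := eig_coc F hπ hϖ hC th th _ hti hχi x
    have h2 := eig_coc F hπ hϖ hC th (th * th) _ hti hχi x
    have h3 : eigK F f ϖ C (th * (th * th)) x = 0 := by
      unfold eigK
      rw [th_cube, (F.act_one hπ x).2]
      exact eig_coc_one hC _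
    rw [h3, (F.act_mul hπ th th x).1] at h2
    linear_combination -h1 - h2
  refine eig_sum_nonfixed (F.act th) (F.act u) hact (F.act_bijective hπ u) ?_ (eigK F f ϖ C u)
    (eigK F f ϖ C th) hK ?_ (fun x => F.act th x ≠ x) (fun x => Iff.rfl)
  · intro x
    rw [← (F.act_mul hπ u th x).1, ← (F.act_mul hπ th u x).1, hu]
  · intro x
    have h1 := eig_coc F hπ hϖ hC u th tu htu hχu x
    have h2 := eig_coc F hπ hϖ hC th u _ hti hχi x
    rw [← hu] at h2
    exact h1.symm.trans h2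

theorem eig_split (hπ : Prime π) (h3 : ¬ π ∣ 3) (f : O) (ϖ : (O ⧸ Ideal.span {f})ˣ)
    (hϖ : (ϖ : O ⧸ Ideal.span {f}) = Ideal.Quotient.mk _ π)
    (χ : (Ti (O ⧸ Ideal.span {f}))ˣ →* kˣ) (hscal : ∀ u, χ (tiC u) = 1)
    (hJ : ∀ t, iota t = red f th → χ t = 1)
    (C : GL (Fin 2) O → GL (Fin 2) (O ⧸ Ideal.span {f}) → k) (hC : IsCoc f χ C)
    (u : GL (Fin 2) O) (hu : u * th = th * u) (tu : (Ti (O ⧸ Ideal.span {f}))ˣ)
    (htu : iota tu = red f u) (hχu : χ tu = 1)
    (w : Ti O) (hw : Associated w.norm π) (t : (Ti (O ⧸ Ideal.span {f}))ˣ)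
    (ht : t.val = redTi f w) :
    heckeC F f ϖ C u 1 = ((χ t : k) + ((χ t)⁻¹ : kˣ)) * C u 1 := by
  classical
  have hπ0 : π ≠ 0 := hπ.ne_zero
  have hp : ∀ z : Ti O, z.re • (1 : Matrix (Fin 2) (Fin 2) O) +
      z.im • (th : GL (Fin 2) O).val = iotaM z := by
    intro z
    ext i j
    fin_cases i <;> fin_cases j <;> simp [th, mk2, iotaM, sub_eq_add_neg]
  have hm : (w.re - w.im) • (1 : Matrix (Fin 2) (Fin 2) O) - w.im • (th : GL (Fin 2) O).val =
      iotaM (star w) := by
    ext i j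
    fin_cases i <;> fin_cases j <;> simp [th, mk2, iotaM] <;> ring
  have htr : (th : GL (Fin 2) O).val.trace = -1 := by
    simp [th, mk2, Matrix.trace, Fin.sum_univ_two]
  have hdt : (th : GL (Fin 2) O).val.det = 1 := by
    simp [th, mk2, Matrix.det_fin_two]
  obtain ⟨xp, xm, ep, em, hne, hxp, hxm, hall⟩ := fix_points F hπ h3 th htr hdt w.re w.im (by
    rw [hp]
    have : (iotaM w).det = w.norm := by
      rw [Matrix.det_fin_two, QuadraticAlgebra.norm_def]
      simp [iotaM]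
      ring
    rw [this]
    exact hw)
  rw [hp] at hxp
  rw [hm] at hxm
  have huJ : u.val * (th : GL (Fin 2) O).val = (th : GL (Fin 2) O).val * u.val := by
    rw [← Units.val_mul, ← Units.val_mul, hu]
  have hcomm : ∀ z : Ti O, u.val * iotaM z = iotaM z * u.val := by
    intro z
    rw [← hp z, mul_add, add_mul, Matrix.mul_smul, Matrix.mul_smul, Matrix.smul_mul,
      Matrix.smul_mul, huJ, mul_one, one_mul]
  have hcommJ : ∀ z : Ti O,
      (th : GL (Fin 2) O).val * iotaM z = iotaM z * (th : GL (Fin 2) O).val := by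
    intro z
    rw [← hp z, mul_add, add_mul, Matrix.mul_smul, Matrix.mul_smul, Matrix.smul_mul,
      Matrix.smul_mul, mul_one, one_mul]
  have ht' : (tiStar t).val = redTi f (star w) := by
    change star t.val = _
    rw [ht]
    ext <;> simp
  have hp' := eig_fixed F hπ0 hϖ hC u tu htu hχu w t ht xp ep hxp (hcomm w)
  have hm' := eig_fixed F hπ0 hϖ hC u tu htu hχu (star w) (tiStar t) ht' xm em hxm (hcomm _)
  have hti := iota_tz f
  have hpJ := (eig_fixed F hπ0 hϖ hC th _ hti (hJ _ hti) w t ht xp ep hxp (hcommJ w)).1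
  have hmJ := (eig_fixed F hπ0 hϖ hC th _ hti (hJ _ hti) (star w) (tiStar t) ht' xm em hxm
    (hcommJ _)).1
  have hfix : Finset.univ.filter (fun x => ¬ (F.act th x ≠ x)) = {xp, xm} := by
    ext x
    simp only [Finset.mem_filter, Finset.mem_univ, true_and, not_not, Finset.mem_insert,
      Finset.mem_singleton]
    constructor
    · intro hx
      have h3 := F.step_act hπ0 th x
      rw [hx] at h3
      exact hall x _ h3
    · rintro (rfl | rfl)
      · exact hpJ
      · exact hmJ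
  rw [eig_heckeC, ← Finset.sum_filter_add_sum_filter_not Finset.univ (fun x => F.act th x ≠ x),
    eig_nonfixed F hπ0 f ϖ hϖ χ hJ C hC u hu tu htu hχu, zero_add, hfix,
    Finset.sum_pair hne, hp'.2, hm'.2, eig_tiStar χ hscal]
  ring

omit [IsPrincipalIdealRing O] in
theorem eig_inert (hπ : Prime π) (f : O) (ϖ : (O ⧸ Ideal.span {f})ˣ)
    (hϖ : (ϖ : O ⧸ Ideal.span {f}) = Ideal.Quotient.mk _ π)
    (χ : (Ti (O ⧸ Ideal.span {f}))ˣ →* kˣ)
    (hJ : ∀ t, iota t = red f th → χ t = 1)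
    (C : GL (Fin 2) O → GL (Fin 2) (O ⧸ Ideal.span {f}) → k) (hC : IsCoc f χ C)
    (u : GL (Fin 2) O) (hu : u * th = th * u) (tu : (Ti (O ⧸ Ideal.span {f}))ˣ)
    (htu : iota tu = red f u) (hχu : χ tu = 1)
    (hl : ∀ l : O, ¬ π ∣ l ^ 2 + l + 1) :
    heckeC F f ϖ C u 1 = 0 := by
  classical
  have hπ0 : π ≠ 0 := hπ.ne_zero
  have htr : (th : GL (Fin 2) O).val.trace = -1 := by
    simp [th, mk2, Matrix.trace, Fin.sum_univ_two]
  have hdt : (th : GL (Fin 2) O).val.det = 1 := by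
    simp [th, mk2, Matrix.det_fin_two]
  have hfix : Finset.univ.filter (fun x => ¬ (F.act th x ≠ x)) = ∅ := by
    rw [Finset.filter_eq_empty_iff]
    intro x _ hx
    rw [not_not] at hx
    have h3 := F.step_act hπ0 th x
    rw [hx] at h3
    obtain ⟨l, hl'⟩ := fix_eig F th htr hdt x _ h3
    exact hl l hl'
  rw [eig_heckeC, ← Finset.sum_filter_add_sum_filter_not Finset.univ (fun x => F.act th x ≠ x),
    eig_nonfixed F hπ0 f ϖ hϖ χ hJ C hC u hu tu htu hχu, zero_add, hfix, Finset.sum_empty]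

end

end SerreT
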