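import Pool.Agent.SerreT.MM3
import Pool.Agent.SerreT.EIG

/-!
# UNITS3: the unit group of `O[ζ]`
-/

open Complex

namespace SerreT

open SerreK (V InC Hit Gen6 act ImQ)

theorem units3_zc_sum : zc + star zc = -1 := by
  apply Complex.ext
  · simp [zc]
  · simp [zc]

theorem units3_zc_prod : zc * star zc = 1 := by
  have h3 : Real.sqrt 3 * Real.sqrt 3 = 3 := Real.mul_self_sqrt (by norm_num)
  apply Complex.ext
  · simp [zc]
    nlinarith
  · simp [zc]
    ring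

theorem units3_zc_sq : zc * zc = -1 - zc := by
  have h1 := units3_zc_sum
  have h2 := units3_zc_prod
  have h3 : star zc = -1 - zc := by linear_combination h1
  rw [h3] at h2
  linear_combination -h2

section
variable {O : Type} [CommRing O]

theorem units3_ab1_mul (σ : O →+* ℂ) (w z : Ti O) : ab1 σ (w * z) = ab1 σ w * ab1 σ z := by
  unfold ab1
  rw [← normSq_mul]
  congr 1
  rw [QuadraticAlgebra.re_mul, QuadraticAlgebra.im_mul]
  simp only [map_add, map_mul, map_neg, map_one]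
  linear_combination (-(σ w.im * σ z.im)) * units3_zc_sq

theorem units3_ab1_one (σ : O →+* ℂ) : ab1 σ (1 : Ti O) = 1 := by
  unfold ab1
  rw [QuadraticAlgebra.re_one, QuadraticAlgebra.im_one, map_one, map_zero, mul_zero, add_zero,
    normSq_one]

/-- `ab1` as a homomorphism -/
noncomputable def units3_ab1H (σ : O →+* ℂ) : Ti O →* ℝ where
  toFun := ab1 σ
  map_one' := units3_ab1_one σ
  map_mul' := units3_ab1_mul σ

theorem units3_ab_sum (σ : O →+* ℂ) (w : Ti O) :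
    ab1 σ w + ab2 σ w = normSq (σ w.re) + normSq (σ w.im) + normSq (σ (w.re - w.im)) := by
  unfold ab1 ab2
  rw [map_sub]
  have h3 : Real.sqrt 3 * Real.sqrt 3 = 3 := Real.mul_self_sqrt (by norm_num)
  simp only [normSq_apply, add_re, add_im, sub_re, sub_im, mul_re, mul_im, zc, star_def, conj_re,
    conj_im]
  linear_combination ((σ w.im).re ^ 2 + (σ w.im).im ^ 2) / 2 * h3

theorem units3_ab_prod (σ : O →+* ℂ) (w : Ti O) : ab1 σ w * ab2 σ w = normSq (σ w.norm) := by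
  unfold ab1 ab2
  rw [← normSq_mul]
  congr 1
  rw [QuadraticAlgebra.norm_def]
  simp only [map_add, map_sub, map_mul, map_neg, map_one]
  linear_combination (σ w.re * σ w.im) * units3_zc_sum + (σ w.im * σ w.im) * units3_zc_prod

variable {σ : O →+* ℂ}

theorem units3_normSq_unit (hσ : ImQ σ) {u : O} (hu : IsUnit u) : normSq (σ u) = 1 := by
  obtain ⟨v, hv⟩ := hu.exists_right_inv
  obtain ⟨a, ha⟩ := hσ.int u
  obtain ⟨b, hb⟩ := hσ.int v
  have h : normSq (σ u) * normSq (σ v) = 1 := by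
    rw [← normSq_mul, ← map_mul, hv, map_one, normSq_one]
  rw [ha, hb] at h
  have h2 : a * b = 1 := by exact_mod_cast h
  rw [ha, Nat.eq_one_of_mul_eq_one_right h2]
  simp

theorem units3_ab1_pos (w : (Ti O)ˣ) : 0 < ab1 σ w := by
  have h : ab1 σ w * ab1 σ (w⁻¹ : (Ti O)ˣ) = 1 := by
    rw [← units3_ab1_mul, ← Units.val_mul, mul_inv_cancel, Units.val_one, units3_ab1_one]
  have h0 : 0 ≤ ab1 σ w := normSq_nonneg _
  refine lt_of_le_of_ne h0 fun h' => ?_
  rw [← h', zero_mul] at h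
  exact zero_ne_one h

theorem units3_norm_unit (w : (Ti O)ˣ) : IsUnit (w : Ti O).norm :=
  QuadraticAlgebra.isUnit_iff_norm_isUnit.mp w.isUnit

end

section
variable {O : Type} [CommRing O] [IsDomain O]

theorem ab_unit (σ : O →+* ℂ) (hσ : ImQ σ) (w : (Ti O)ˣ) :
    0 < ab1 σ w ∧ ab2 σ w = (ab1 σ w)⁻¹ := by
  have h := units3_ab1_pos (σ := σ) w
  refine ⟨h, ?_⟩
  have h2 : ab1 σ w * ab2 σ w = 1 := by
    rw [units3_ab_prod, units3_normSq_unit hσ (units3_norm_unit w)]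
  exact eq_inv_of_mul_eq_one_right h2

/-- units with bounded `ab1` in a range `≥ 1` are finite in number -/
theorem units3_fin (σ : O →+* ℂ) (hσ : ImQ σ) (B : ℝ) :
    {w : (Ti O)ˣ | 1 < ab1 σ w ∧ ab1 σ w ≤ B}.Finite := by
  have hf := hσ.fin (B + 1)
  have hfin : ({x : O | normSq (σ x) ≤ B + 1} ×ˢ
      {x : O | normSq (σ x) ≤ B + 1}).Finite := hf.prod hf
  refine Set.Finite.of_finite_image (f := fun w : (Ti O)ˣ => ((w : Ti O).re, (w : Ti O).im))
    (hfin.subset ?_) ?_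
  · rintro _ ⟨w, ⟨h1, h2⟩, rfl⟩
    obtain ⟨h3, h4⟩ := ab_unit σ hσ w
    have h5 := units3_ab_sum σ (w : Ti O)
    have h6 : (ab1 σ w)⁻¹ ≤ 1 := inv_le_one_of_one_le₀ h1.le
    have h7 : 0 ≤ normSq (σ (w : Ti O).re) := normSq_nonneg _
    have h8 : 0 ≤ normSq (σ (w : Ti O).im) := normSq_nonneg _
    have h9 : 0 ≤ normSq (σ ((w : Ti O).re - (w : Ti O).im)) := normSq_nonneg _
    refine ⟨?_, ?_⟩
    · change normSq (σ (w : Ti O).re) ≤ B + 1
      linarith
    · change normSq (σ (w : Ti O).im) ≤ B + 1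
      linarith
  · intro w _ z _ h
    simp only [Prod.mk.injEq] at h
    exact Units.ext (QuadraticAlgebra.ext h.1 h.2)

theorem units3_one (σ : O →+* ℂ) (hσ : ImQ σ) (w : (Ti O)ˣ)
    (h : ab1 σ w = 1) : ∃ (j : ℕ) (u : Oˣ), w = tiC u * tz O ^ j := by
  obtain ⟨h3, h4⟩ := ab_unit σ hσ w
  have h5 := units3_ab_sum σ (w : Ti O)
  rw [h4, h, inv_one] at h5
  obtain ⟨a, ha⟩ := hσ.int (w : Ti O).re
  obtain ⟨b, hb⟩ := hσ.int (w : Ti O).im
  obtain ⟨c, hc⟩ := hσ.int ((w : Ti O).re - (w : Ti O).im)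
  rw [ha, hb, hc] at h5
  have h6 : (a : ℝ) + b + c = 2 := by linarith
  have h7 : a + b + c = 2 := by exact_mod_cast h6
  have hzero : ∀ x : O, normSq (σ x) = 0 → x = 0 := by
    intro x hx
    apply hσ.inj
    rw [map_zero]
    exact normSq_eq_zero.mp hx
  have hn := units3_norm_unit w
  rw [QuadraticAlgebra.norm_def] at hn
  have hcase : a = 0 ∨ b = 0 ∨ c = 0 := by omega
  rcases hcase with h8 | h8 | h8
  · have hre : (w : Ti O).re = 0 := hzero _ (by rw [ha, h8]; simp)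
    have hu : IsUnit (w : Ti O).im := by
      rw [hre] at hn
      have e : (0 : O) * 0 + -1 * 0 * (w : Ti O).im - -1 * (w : Ti O).im * (w : Ti O).im =
        (w : Ti O).im * (w : Ti O).im := by ring
      rw [e] at hn
      exact isUnit_of_mul_isUnit_left hn
    refine ⟨1, hu.unit, ?_⟩
    apply Units.ext
    apply QuadraticAlgebra.ext
    · rw [hre]
      simp [tiC, tz]
    · simp [tiC, tz]
  · have him : (w : Ti O).im = 0 := hzero _ (by rw [hb, h8]; simp)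
    have hu : IsUnit (w : Ti O).re := by
      rw [him] at hn
      have e : (w : Ti O).re * (w : Ti O).re + -1 * (w : Ti O).re * 0 - -1 * 0 * 0 =
        (w : Ti O).re * (w : Ti O).re := by ring
      rw [e] at hn
      exact isUnit_of_mul_isUnit_left hn
    refine ⟨0, hu.unit, ?_⟩
    apply Units.ext
    apply QuadraticAlgebra.ext
    · simp [tiC]
    · rw [him]
      simp [tiC]
  · have heq : (w : Ti O).re = (w : Ti O).im := sub_eq_zero.mp (hzero _ (by rw [hc, h8]; simp))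
    have hu : IsUnit (-(w : Ti O).im) := by
      rw [heq] at hn
      have e : (w : Ti O).im * (w : Ti O).im + -1 * (w : Ti O).im * (w : Ti O).im -
          -1 * (w : Ti O).im * (w : Ti O).im = (-(w : Ti O).im) * (-(w : Ti O).im) := by ring
      rw [e] at hn
      exact isUnit_of_mul_isUnit_left hn
    refine ⟨2, hu.unit, ?_⟩
    apply Units.ext
    apply QuadraticAlgebra.ext
    · rw [heq]
      simp [tiC, tz, pow_two]
    · simp [tiC, tz, pow_two]

theorem unit_structure (σ : O →+* ℂ) (hσ : ImQ σ) (hnt : ∃ w : (Ti O)ˣ, ab1 σ w ≠ 1) :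
    ∃ η : (Ti O)ˣ, 1 < ab1 σ η ∧ ∀ w : (Ti O)ˣ, ∃ (n : ℤ) (j : ℕ) (u : Oˣ),
      w = tiC u * tz O ^ j * η ^ n := by
  set φ : (Ti O)ˣ →* ℝˣ := Units.map (units3_ab1H σ) with hφ
  have hφv : ∀ w, ((φ w : ℝˣ) : ℝ) = ab1 σ w := fun w => rfl
  have hinv : ∀ w : (Ti O)ˣ, ab1 σ (w⁻¹ : (Ti O)ˣ) = (ab1 σ w)⁻¹ := by
    intro w
    rw [← hφv, map_inv, Units.val_inv_eq_inv_val, hφv]
  have hzpow : ∀ (w : (Ti O)ˣ) (n : ℤ), ab1 σ (w ^ n : (Ti O)ˣ) = (ab1 σ w) ^ n := by
    intro w n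
    rw [← hφv, map_zpow, Units.val_zpow_eq_zpow_val, hφv]
  obtain ⟨w0, hw0⟩ : ∃ w : (Ti O)ˣ, 1 < ab1 σ w := by
    obtain ⟨w, hw⟩ := hnt
    rcases lt_or_gt_of_ne hw with h | h
    · refine ⟨w⁻¹, ?_⟩
      rw [hinv]
      exact (one_lt_inv₀ (units3_ab1_pos w)).mpr h
    · exact ⟨w, h⟩
  obtain ⟨η, ⟨hη1, hη2⟩, hηmin⟩ := Set.exists_min_image _ (fun w : (Ti O)ˣ => ab1 σ w)
    (units3_fin σ hσ (ab1 σ w0)) ⟨w0, hw0, le_rfl⟩
  have hmin : ∀ w : (Ti O)ˣ, 1 < ab1 σ w → ab1 σ η ≤ ab1 σ w := by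
    intro w hw
    rcases le_total (ab1 σ w) (ab1 σ w0) with h | h
    · exact hηmin w ⟨hw, h⟩
    · exact hη2.trans h
  refine ⟨η, hη1, fun w => ?_⟩
  obtain ⟨n, hn1, hn2⟩ := exists_mem_Ico_zpow (units3_ab1_pos (σ := σ) w) hη1
  set z : (Ti O)ˣ := w * η ^ (-n) with hz
  have hηpos := units3_ab1_pos (σ := σ) η
  have hzv : ab1 σ z = ab1 σ w / (ab1 σ η) ^ n := by
    rw [hz, Units.val_mul, units3_ab1_mul, hzpow, zpow_neg, div_eq_mul_inv]
  have hpn : 0 < (ab1 σ η) ^ n := zpow_pos hηpos n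
  have h1 : 1 ≤ ab1 σ z := by
    rw [hzv, le_div_iff₀ hpn, one_mul]
    exact hn1
  have h2 : ab1 σ z < ab1 σ η := by
    rw [hzv, div_lt_iff₀ hpn]
    rw [zpow_add_one₀ hηpos.ne'] at hn2
    rw [mul_comm]
    exact hn2
  have h3 : ab1 σ z = 1 := by
    by_contra h
    have h4 : 1 < ab1 σ z := lt_of_le_of_ne h1 (Ne.symm h)
    exact absurd (hmin z h4) (not_le.mpr h2)
  obtain ⟨j, u, hu⟩ := units3_one σ hσ z h3
  have hw : w = z * η ^ n := by
    rw [hz, mul_assoc, ← zpow_add, neg_add_cancel, zpow_zero, mul_one]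
  exact ⟨n, j, u, by rw [hw, hu]⟩

end

end SerreT
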