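import Pool.Agent.SerreT.AXT
import Pool.Agent.SerreT.MM3
import Pool.Agent.SerreT.UNITS3
import Pool.Agent.SerreT.DET3
import Pool.Agent.SerreT.FINO

/-!
# DICHK3: the dichotomy for the congruence group `Γ_T = {γ ∈ GL₂(O) | red f γ ∈ iota T}`

`Γ_T` is a subgroup; `iota` is injective, so `γ ↦ t`, `iota t = red f γ`, is a homomorphism
`Γ_T →* T`, and `ψ = χ ∘ it`; `Z ≤ Γ_T` is the (normal) subgroup of scalars `sc u`.  We apply `axis3`
to `Γ = Γ_T ⧸ Z`.
-/

open Matrix hiding mul_inv_rev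
open scoped QuadraticAlgebra

namespace SerreT

open SerreK (V InC Hit Gen6 act ImQ countable_of_imQ)
open SerreE (sc red mk2)

section general

/-- representatives for the right cosets of a subgroup, `1` for the subgroup itself. -/
theorem exists_rep {G : Type*} [Group G] (H : Subgroup G) :
    ∃ r : G → G, (∀ A, A * (r A)⁻¹ ∈ H) ∧ (∀ γ ∈ H, ∀ A, r (γ * A) = r A) ∧
      ∀ γ ∈ H, r γ = 1 := by
  classical
  refine ⟨fun A => if A ∈ H then 1 else (Quotient.mk (QuotientGroup.rightRel H) A).out, ?_, ?_, ?_⟩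
  · intro A
    by_cases h : A ∈ H
    · simp [h]
    · simp only [h, if_false]
      have h1 : (QuotientGroup.rightRel H) (Quotient.mk (QuotientGroup.rightRel H) A).out A :=
        Quotient.exact (Quotient.out_eq _)
      rwa [QuotientGroup.rightRel_apply] at h1
  · intro γ hγ A
    have h1 : γ * A ∈ H ↔ A ∈ H := Subgroup.mul_mem_cancel_left H hγ
    have h2 : Quotient.mk (QuotientGroup.rightRel H) (γ * A) =
        Quotient.mk (QuotientGroup.rightRel H) A := by
      apply Quotient.sound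
      change (QuotientGroup.rightRel H) (γ * A) A
      rw [QuotientGroup.rightRel_apply, mul_inv_rev, mul_inv_cancel_left]
      exact H.inv_mem hγ
    simp only [h1, h2]
  · intro γ hγ
    simp [hγ]

theorem iota_inj (R : Type*) [CommRing R] : Function.Injective (iota (R := R)) := by
  intro a b h
  have h1 := congrArg (fun m : GL (Fin 2) R => m.val 0 0) h
  have h2 := congrArg (fun m : GL (Fin 2) R => m.val 1 0) h
  simp only [iota_val, Matrix.of_apply, Matrix.cons_val', Matrix.cons_val_zero,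
    Matrix.cons_val_one, Matrix.cons_val_fin_one] at h1 h2
  apply Units.ext
  exact QuadraticAlgebra.ext h1 h2

theorem iota_tiC {R : Type*} [CommRing R] (u : Rˣ) : iota (tiC u) = sc u := by
  apply Matrix.GeneralLinearGroup.ext
  intro i j
  fin_cases i <;> fin_cases j <;> simp [iota_val, tiC]

theorem iota_tzz (R : Type) [CommRing R] : iota (tz R) = th := by
  apply Matrix.GeneralLinearGroup.ext
  intro i j
  fin_cases i <;> fin_cases j <;> simp [iota_val, tz, th]

theorem sc_comm {R : Type*} [CommRing R] (u : Rˣ) (g : GL (Fin 2) R) : sc u * g = g * sc u := by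
  apply Units.ext
  exact (Matrix.scalar_commute (u : R) (fun r => mul_comm _ _) _).eq

theorem red_iota {O : Type*} [CommRing O] (f : O) (w : (Ti O)ˣ) :
    red f (iota w) = iota (Units.map (redTi f).toMonoidHom w) := by
  apply Matrix.GeneralLinearGroup.ext
  intro i j
  fin_cases i <;> fin_cases j <;> simp [iota_val, redTi]

end general

section main

variable {O : Type} [CommRing O] (f : O)

/-- `Γ_T` -/
def GT : Subgroup (GL (Fin 2) O) := (iota (R := O ⧸ Ideal.span {f})).range.comap (red f)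

theorem mem_GT (γ : GL (Fin 2) O) : γ ∈ GT f ↔ ∃ t, iota t = red f γ := Iff.rfl

theorem iota_mem_GT (w : (Ti O)ˣ) : iota w ∈ GT f := ⟨_, (red_iota f w).symm⟩

theorem sc_mem_GT (u : Oˣ) : (sc u : GL (Fin 2) O) ∈ GT f := iota_tiC u ▸ iota_mem_GT f _

theorem th_mem_GT : (th : GL (Fin 2) O) ∈ GT f := iota_tzz O ▸ iota_mem_GT f _

/-- the map `Γ_T → T` -/
noncomputable def tauFun (γ : GT f) : (Ti (O ⧸ Ideal.span {f}))ˣ := Classical.choose γ.2

theorem tauFun_spec (γ : GT f) : iota (tauFun f γ) = red f γ.val := Classical.choose_spec γ.2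

theorem tauFun_mul (a b : GT f) : tauFun f (a * b) = tauFun f a * tauFun f b := by
  apply iota_inj
  rw [tauFun_spec, map_mul, tauFun_spec, tauFun_spec, Subgroup.coe_mul, map_mul]

/-- the homomorphism `Γ_T → T` -/
noncomputable def tau : GT f →* (Ti (O ⧸ Ideal.span {f}))ˣ := MonoidHom.mk' (tauFun f) (tauFun_mul f)

theorem tau_spec (γ : GT f) : iota (tau f γ) = red f γ.val := tauFun_spec f γ

theorem tau_eq (γ : GT f) (t) (h : iota t = red f γ.val) : tau f γ = t :=
  iota_inj _ ((tau_spec f γ).trans h.symm)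

/-- the scalars in `Γ_T` -/
def ZT : Subgroup (GT f) :=
  (Matrix.GeneralLinearGroup.scalar (R := O) (Fin 2)).range.subgroupOf (GT f)

theorem mem_ZT (γ : GT f) : γ ∈ ZT f ↔ ∃ u : Oˣ, sc u = γ.val := Iff.rfl

instance : (ZT f).Normal := by
  constructor
  intro n hn g
  obtain ⟨u, hu⟩ := (mem_ZT f n).mp hn
  rw [mem_ZT]
  refine ⟨u, ?_⟩
  rw [Subgroup.coe_mul, Subgroup.coe_mul, ← hu, ← sc_comm, mul_assoc, Subgroup.coe_inv,
    mul_inv_cancel, mul_one]

/-- `Γ = Γ_T ⧸ Z` -/
abbrev QT : Type := GT f ⧸ ZT f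

/-- the class of an element of `Γ_T` -/
def qt (γ : GL (Fin 2) O) (h : γ ∈ GT f) : QT f := QuotientGroup.mk' (ZT f) ⟨γ, h⟩

theorem qt_mul {a b : GL (Fin 2) O} (ha : a ∈ GT f) (hb : b ∈ GT f) (hab : a * b ∈ GT f) :
    qt f (a * b) hab = qt f a ha * qt f b hb := rfl

theorem qt_sc (u : Oˣ) (h : (sc u : GL (Fin 2) O) ∈ GT f) : qt f (sc u) h = 1 := by
  change QuotientGroup.mk' (ZT f) _ = 1
  rw [← MonoidHom.mem_ker, QuotientGroup.ker_mk', mem_ZT]
  exact ⟨u, rfl⟩

theorem qt_surj (g : QT f) : ∃ γ h, g = qt f γ h := by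
  obtain ⟨⟨γ, h⟩, rfl⟩ := QuotientGroup.mk'_surjective (ZT f) g
  exact ⟨γ, h, rfl⟩

theorem qt_eq {a b : GL (Fin 2) O} (ha : a ∈ GT f) (hb : b ∈ GT f) (h : qt f a ha = qt f b hb) :
    ∃ u : Oˣ, b = a * sc u := by
  have h1 : (QuotientGroup.mk (⟨a, ha⟩ : GT f) : QT f) = QuotientGroup.mk (⟨b, hb⟩ : GT f) := h
  rw [QuotientGroup.eq, mem_ZT] at h1
  obtain ⟨u, hu⟩ := h1
  refine ⟨u, ?_⟩
  rw [hu]
  simp

theorem qt_congr {a b : GL (Fin 2) O} (h : a = b) (ha : a ∈ GT f) (hb : b ∈ GT f) :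
    qt f a ha = qt f b hb := by
  subst h
  rfl

variable {k : Type} [Field k]

/-- the character of the quotient group -/
noncomputable def psiT (χ : (Ti (O ⧸ Ideal.span {f}))ˣ →* kˣ) (hscal : ∀ u, χ (tiC u) = 1) :
    QT f →* kˣ :=
  QuotientGroup.lift (ZT f) (χ.comp (tau f)) (by
    intro γ hγ
    obtain ⟨u, hu⟩ := (mem_ZT f γ).mp hγ
    rw [MonoidHom.mem_ker, MonoidHom.comp_apply, tau_eq f γ (tiC (Units.map
      (Ideal.Quotient.mk (Ideal.span {f})).toMonoidHom u)) _, hscal]
    rw [iota_tiC, ← hu]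
    apply Matrix.GeneralLinearGroup.ext
    intro i j
    fin_cases i <;> fin_cases j <;> simp)

theorem psiT_qt (χ : (Ti (O ⧸ Ideal.span {f}))ˣ →* kˣ) (hscal : ∀ u, χ (tiC u) = 1)
    (γ : GL (Fin 2) O) (h : γ ∈ GT f) (t) (ht : iota t = red f γ) :
    psiT f χ hscal (qt f γ h) = χ t := by
  change χ (tau f ⟨γ, h⟩) = χ t
  rw [tau_eq f ⟨γ, h⟩ t ht]

/-- the representation of the quotient group -/
noncomputable def rhoT {σ : O →+* ℂ} (hσ : ImQ σ) : QT f →* (V →ₗ[ℝ] V) :=
  QuotientGroup.lift (ZT f) ((rho σ).comp (GT f).subtype) (by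
    intro γ hγ
    obtain ⟨u, hu⟩ := (mem_ZT f γ).mp hγ
    rw [MonoidHom.mem_ker]
    change rho σ γ.val = 1
    rw [← hu]
    exact rho_scal hσ u)

theorem rhoT_qt {σ : O →+* ℂ} (hσ : ImQ σ) (γ : GL (Fin 2) O) (h : γ ∈ GT f) :
    rhoT f hσ (qt f γ h) = rho σ γ := rfl

end main

theorem GL_countable {O : Type} [CommRing O] (h : Countable O) : Countable (GL (Fin 2) O) := by
  have : Countable (Matrix (Fin 2) (Fin 2) O) := by
    unfold Matrix; infer_instance
  exact Function.Injective.countable (f := fun g : GL (Fin 2) O => g.val)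
      (fun a b h => Units.ext h)

theorem dichK3 {O : Type} [CommRing O] [IsDomain O] (σ : O →+* ℂ) (hσ : ImQ σ)
    (η : (Ti O)ˣ) (hη1 : 1 < ab1 σ η)
    (hη2 : ∀ w : (Ti O)ˣ, ∃ (n : ℤ) (j : ℕ) (u : Oˣ), w = tiC u * tz O ^ j * η ^ n)
    {k : Type} [Field k] [CharP k 3] (f : O) (hf : ¬ IsUnit f) (hf3 : IsCoprime f 3)
    (χ : (Ti (O ⧸ Ideal.span {f}))ˣ →* kˣ) (hscal : ∀ u, χ (tiC u) = 1)
    (hJ : ∀ t, iota t = red f th → χ t = 1) (he : ∀ t, iota t = red f (iota η) → χ t = 1) :
    ∃ χ' : (Ti (O ⧸ Ideal.span {f}))ˣ →* kˣ, (χ' = χ ∨ χ' = χ⁻¹) ∧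
      ∃ a : GL (Fin 2) O → k, (∀ A (u : Oˣ), a (A * sc u) = a A) ∧
        (∀ (γ : GL (Fin 2) O) t, iota t = red f γ →
          ∀ A, a (γ * A) - χ' t * a A = a γ - χ' t * a 1) ∧
        (a th ≠ a 1 ∨ a (iota η) ≠ a 1) := by
  classical
  have hcO : Countable O := countable_of_imQ hσ
  have hcG : Countable (GL (Fin 2) O) := GL_countable hcO
  have hcT : Countable (GT f) := inferInstance
  have hcQ : Countable (QT f) := Quotient.countable
  have hJm : (th : GL (Fin 2) O) ∈ GT f := th_mem_GT f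
  have hηm : iota η ∈ GT f := iota_mem_GT f η
  have hJηc : iota η * th = th * iota η := by
    rw [← iota_tzz, ← map_mul, ← map_mul, mul_comm]
  -- the hypotheses of `axis`
  obtain ⟨ψ', hψ', b, hb, hb0⟩ := axis3 (rhoT f hσ)
    (by
      intro g v hv
      obtain ⟨γ, h, rfl⟩ := qt_surj f g
      rw [rhoT_qt]
      exact rho_inC hσ γ v hv)
    (by
      intro g
      obtain ⟨γ, h, rfl⟩ := qt_surj f g
      rw [rhoT_qt, rho_def]
      apply act_det_pos
      intro h0
      have h1 := mT_det_abs hσ γ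
      rw [h0, map_zero] at h1
      exact zero_ne_one h1)
    (by
      intro a b c p q ha hb hc hp hq
      have h1 := rho_proper hσ a b c p q ha hb hc hp hq
      have h2 := Set.Finite.preimage
        (Set.injOn_of_injective (Subtype.val_injective (p := fun γ => γ ∈ GT f))) h1
      refine (h2.image (QuotientGroup.mk' (ZT f))).subset ?_
      intro g hg
      obtain ⟨γ, h, rfl⟩ := qt_surj f g
      exact ⟨⟨γ, h⟩, hg, rfl⟩)
    (qt f th hJm) (qt f (iota η) hηm)
    (by
      intro v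
      rw [rhoT_qt]
      exact rho_th σ v)
    (by
      rw [← qt_mul f hJm hJm ((GT f).mul_mem hJm hJm),
        ← qt_mul f hJm ((GT f).mul_mem hJm hJm) ((GT f).mul_mem hJm ((GT f).mul_mem hJm hJm)),
        qt_congr f th_cube _ (GT f).one_mem]
      rfl)
    (by
      rw [← qt_mul f hηm hJm ((GT f).mul_mem hηm hJm), ← qt_mul f hJm hηm ((GT f).mul_mem hJm hηm)]
      exact qt_congr f hJηc _ _)
    (ab1 σ η) hη1
    (by
      intro v
      rw [rhoT_qt, ← (ab_unit σ hσ η).2]
      exact rho_iota σ η v)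
    (by
      intro g hg
      obtain ⟨γ, h, rfl⟩ := qt_surj f g
      have hJ2 := (GT f).mul_mem hJm hJm
      -- a power of `θ` on the right
      obtain ⟨P, hP, hP3, hPd, u, hu, hcase⟩ : ∃ P : GL (Fin 2) O, P * (P * P) = 1 ∧
          P.val.trace = -1 ∧ P.val.det = 1 ∧ ∃ u : Oˣ, P * γ = γ * th * sc u ∧
          (P = th ∨ P = th * th) := by
        have hdt : (th : GL (Fin 2) O).val.det = 1 := by
          simp [th, mk2, Matrix.det_fin_two]
        rcases hg with hg | hg
        · rw [← qt_mul f h hJm ((GT f).mul_mem h hJm),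
            ← qt_mul f hJm h ((GT f).mul_mem hJm h)] at hg
          obtain ⟨u, hu⟩ := qt_eq f _ _ hg
          refine ⟨th, th_cube, ?_, hdt, u, hu, Or.inl rfl⟩
          simp [th, mk2, Matrix.trace, Fin.sum_univ_two]
        · rw [← qt_mul f h hJm ((GT f).mul_mem h hJm), ← qt_mul f hJm hJm hJ2,
            ← qt_mul f hJ2 h ((GT f).mul_mem hJ2 h)] at hg
          obtain ⟨u, hu⟩ := qt_eq f _ _ hg
          refine ⟨th * th, ?_, ?_, ?_, u, hu, Or.inr rfl⟩
          · have e : (th * th * (th * th * (th * th)) : GL (Fin 2) O) =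
              (th * (th * th)) * (th * (th * th)) := by group
            rw [e, th_cube, one_mul]
          · simp [th, mk2, Matrix.trace, Fin.sum_univ_two, Matrix.mul_apply]
          · rw [Units.val_mul, Matrix.det_mul, hdt, one_mul]
      -- the scalar is one
      have hdt : (th : GL (Fin 2) O).val.det = 1 := by
        simp [th, mk2, Matrix.det_fin_two]
      have htr : (th : GL (Fin 2) O).val.trace = -1 := by
        simp [th, mk2, Matrix.trace, Fin.sum_univ_two]
      have hu1 : (u : O) = 1 := by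
        have h1 : P = γ * (th * sc u) * γ⁻¹ := by
          rw [eq_mul_inv_iff_mul_eq, hu, mul_assoc]
        have h2 : P.val.trace = (th * sc u : GL (Fin 2) O).val.trace := by
          rw [h1, Units.val_mul, Units.val_mul γ, Matrix.trace_mul_comm, ← mul_assoc,
            ← Units.val_mul, inv_mul_cancel, Units.val_one, one_mul]
        have h3 : (th * sc u : GL (Fin 2) O).val.trace = -(u : O) := by
          simp [th, mk2, Matrix.trace, Fin.sum_univ_two, Matrix.mul_apply]
        rw [hP3, h3] at h2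
        linear_combination h2
      have hu2 : u = 1 := Units.ext hu1
      have h3 : (sc (1 : Oˣ) : GL (Fin 2) O) = 1 := map_one _
      rw [hu2, h3, mul_one] at hu
      rcases hcase with hcase | hcase
      · rw [hcase] at hu
        obtain ⟨w, hw⟩ := comm_th γ hu.symm
        obtain ⟨n, j, v, hv⟩ := hη2 w
        refine ⟨n, j, ?_⟩
        have hm := (GT f).zpow_mem hηm n
        have hmj := (GT f).pow_mem hJm j
        have e1 : γ = sc v * (iota η ^ n * th ^ j) := by
          rw [hw, hv, map_mul, map_mul, iota_tiC, map_zpow, map_pow, iota_tzz, mul_assoc]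
          congr 1
          have hc : Commute (iota η) (th : GL (Fin 2) O) := hJηc
          exact ((hc.zpow_left n).pow_right j).eq.symm
        have hm' := (GT f).mul_mem hm hmj
        rw [qt_congr f e1 h ((GT f).mul_mem (sc_mem_GT f v) hm'), qt_mul f (sc_mem_GT f v) hm',
          qt_sc, one_mul]
        rfl
      · exfalso
        rw [hcase] at hu
        obtain ⟨t, ht⟩ := (mem_GT f γ).mp h
        obtain ⟨s, hs⟩ := (mem_GT f th).mp hJm
        have h4 := congrArg (red f) hu
        rw [map_mul, map_mul, map_mul, ← ht, ← hs, ← map_mul, ← map_mul, ← map_mul, mul_comm t s] at h4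
        have h5 := iota_inj _ h4
        have h6 : s = 1 := by
          have h7 : s * (s * t) = 1 * (s * t) := by rw [one_mul, ← mul_assoc]; exact h5
          exact mul_right_cancel h7
        rw [h6, map_one] at hs
        have h8 := congrArg (fun m : GL (Fin 2) (O ⧸ Ideal.span {f}) => m.val 1 0) hs
        have h9 : (0 : O ⧸ Ideal.span {f}) = Ideal.Quotient.mk (Ideal.span {f}) 1 := by
          simpa [th, mk2] using h8
        rw [eq_comm, Ideal.Quotient.eq_zero_iff_mem, Ideal.mem_span_singleton] at h9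
        exact hf (isUnit_of_dvd_one h9))
    (psiT f χ hscal)
    (by
      obtain ⟨s, hs⟩ := (mem_GT f th).mp hJm
      rw [psiT_qt f χ hscal th hJm s hs]
      exact hJ s hs)
    (by
      obtain ⟨s, hs⟩ := (mem_GT f (iota η)).mp hηm
      rw [psiT_qt f χ hscal _ hηm s hs]
      exact he s hs)
  -- the character
  obtain ⟨χ', hχ', hχψ⟩ : ∃ χ' : (Ti (O ⧸ Ideal.span {f}))ˣ →* kˣ, (χ' = χ ∨ χ' = χ⁻¹) ∧
      ∀ (γ : GL (Fin 2) O) (h : γ ∈ GT f) (t), iota t = red f γ → ψ' (qt f γ h) = χ' t := by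
    rcases hψ' with h | h
    · exact ⟨χ, Or.inl rfl, fun γ hγ t ht => by rw [h]; exact psiT_qt f χ hscal γ hγ t ht⟩
    · exact ⟨χ⁻¹, Or.inr rfl, fun γ hγ t ht => by
        rw [h, MonoidHom.inv_apply, MonoidHom.inv_apply, psiT_qt f χ hscal γ hγ t ht]⟩
  obtain ⟨r, hr1, hr2, hr3⟩ := exists_rep (GT f)
  have hb1 : b 1 = 0 := by
    have h1 := hb 1 1
    rw [mul_one, map_one, Units.val_one, one_mul] at h1
    exact left_eq_add.mp h1
  obtain ⟨a, ha⟩ : ∃ a : GL (Fin 2) O → k, ∀ A, a A = b (qt f (A * (r A)⁻¹) (hr1 A)) :=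
    ⟨_, fun _ => rfl⟩
  have haT : ∀ γ (h : γ ∈ GT f), a γ = b (qt f γ h) := by
    intro γ h
    rw [ha]
    congr 1
    apply qt_congr
    rw [hr3 γ h, inv_one, mul_one]
  have ha1 : a 1 = 0 := by
    rw [haT 1 (GT f).one_mem]
    exact hb1
  have haγ : ∀ γ (h : γ ∈ GT f) A, a (γ * A) = b (qt f γ h) + ψ' (qt f γ h) * a A := by
    intro γ h A
    rw [ha, ha A, ← hb, ← qt_mul f h (hr1 A) ((GT f).mul_mem h (hr1 A))]
    congr 1
    apply qt_congr
    rw [hr2 γ h, mul_assoc]
  refine ⟨χ', hχ', a, ?_, ?_, ?_⟩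
  · intro A u
    rw [← sc_comm, haγ _ (sc_mem_GT f u), qt_sc, hb1, map_one, Units.val_one, one_mul, zero_add]
  · intro γ t ht A
    have h : γ ∈ GT f := ⟨t, ht⟩
    rw [haγ γ h, haT γ h, ha1, hχψ γ h t ht]
    ring
  · rw [haT th hJm, haT _ hηm, ha1]
    exact hb0

end SerreT
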