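import Pool.Agent.SerreT.Defs
import Pool.Agent.Serre.FIX

/-!
# Fixed points of the element of order three on the neighbours of a vertex
-/

open Matrix
open scoped QuadraticAlgebra

namespace SerreT

open SerreE (mk2 sc dg dgl red Frame PM fix_inv_mul fix_mul_inv fix_cover fix_sep fix_aux)

section
variable {O : Type*} [CommRing O] [IsDomain O] {π : O} {X : Type} (F : Frame π X)

omit [IsDomain O] in
/-- data of a fixed point: the conjugate `S⁻¹ g S = [[-1-l, π b], [c, l]]`. -/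
theorem fix_data (g : GL (Fin 2) O) (tr : g.val.trace = -1) (x : X) (g' : GL (Fin 2) O)
    (h : F.Step g x x g') : ∃ l b c : O,
      ((F.s x)⁻¹).val * g.val * (F.s x).val = !![-1 - l, π * b; c, l] ∧
      (-1 - l) * l - π * b * c = g.val.det := by
  have h1 : ((F.s x)⁻¹).val * g.val * (F.s x).val * PM π = PM π * g'.val := by
    have : ((F.s x)⁻¹).val * (g.val * (F.s x).val * PM π) = PM π * g'.val := by
      rw [h, Matrix.mul_assoc, fix_inv_mul]
    rw [← this]; simp only [Matrix.mul_assoc]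
  set H := ((F.s x)⁻¹).val * g.val * (F.s x).val with hH
  have trH : H.trace = -1 := by
    rw [hH, Matrix.trace_mul_comm, ← Matrix.mul_assoc, ← Units.val_mul, mul_inv_cancel,
      Units.val_one, Matrix.one_mul, tr]
  have detH : H.det = g.val.det := by
    rw [hH, Matrix.det_mul, Matrix.det_mul, mul_comm, ← mul_assoc, ← Matrix.det_mul,
      ← Units.val_mul, mul_inv_cancel, Units.val_one, Matrix.det_one, one_mul]
  have e01 : H 0 1 = π * g'.val 0 1 := by
    have := congrFun (congrFun h1 0) 1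
    simpa [PM, Matrix.mul_apply, Fin.sum_univ_two] using this
  have tr2 : H 0 0 = - 1 - H 1 1 := by
    rw [Matrix.trace_fin_two] at trH
    linear_combination trH
  refine ⟨H 1 1, g'.val 0 1, H 1 0, ?_, ?_⟩
  · rw [← tr2, ← e01]
    exact Matrix.eta_fin_two H
  · rw [← detH, Matrix.det_fin_two, tr2, e01]

omit [IsDomain O] in
theorem fix_eig (g : GL (Fin 2) O) (tr : g.val.trace = -1) (dt : g.val.det = 1) (x : X)
    (g' : GL (Fin 2) O) (h : F.Step g x x g') : ∃ l : O, π ∣ l ^ 2 + l + 1 := by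
  obtain ⟨l, b, c, -, h2⟩ := fix_data F g tr x g' h
  exact ⟨l, -(b * c), by linear_combination -h2 - dt⟩

omit [IsDomain O] in
theorem fix_sq (M : Matrix (Fin 2) (Fin 2) O) (tr : M.trace = -1) (dt : M.det = 1) (x y : O) :
    (x • (1 : Matrix (Fin 2) (Fin 2) O) + y • M) *
        ((x - y) • (1 : Matrix (Fin 2) (Fin 2) O) - y • M) =
      (x ^ 2 - x * y + y ^ 2) • (1 : Matrix (Fin 2) (Fin 2) O) ∧
    ((x - y) • (1 : Matrix (Fin 2) (Fin 2) O) - y • M) *
        (x • (1 : Matrix (Fin 2) (Fin 2) O) + y • M) =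
      (x ^ 2 - x * y + y ^ 2) • (1 : Matrix (Fin 2) (Fin 2) O) ∧
    (x • (1 : Matrix (Fin 2) (Fin 2) O) + y • M).det = x ^ 2 - x * y + y ^ 2 ∧
    ((x - y) • (1 : Matrix (Fin 2) (Fin 2) O) - y • M).det = x ^ 2 - x * y + y ^ 2 := by
  have h11 : M 1 1 = -1 - M 0 0 := by
    rw [Matrix.trace_fin_two] at tr; linear_combination tr
  rw [Matrix.det_fin_two, h11] at dt
  refine ⟨?_, ?_, ?_, ?_⟩
  · ext i j
    fin_cases i <;> fin_cases j
    · simp [Matrix.mul_apply, Fin.sum_univ_two, h11]; linear_combination y ^ 2 * dt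
    · simp [Matrix.mul_apply, Fin.sum_univ_two, h11]; ring
    · simp [Matrix.mul_apply, Fin.sum_univ_two, h11]; ring
    · simp [Matrix.mul_apply, Fin.sum_univ_two, h11]; linear_combination y ^ 2 * dt
  · ext i j
    fin_cases i <;> fin_cases j
    · simp [Matrix.mul_apply, Fin.sum_univ_two, h11]; linear_combination y ^ 2 * dt
    · simp [Matrix.mul_apply, Fin.sum_univ_two, h11]; ring
    · simp [Matrix.mul_apply, Fin.sum_univ_two, h11]; ring
    · simp [Matrix.mul_apply, Fin.sum_univ_two, h11]; linear_combination y ^ 2 * dt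
  · simp [Matrix.det_fin_two, h11]; linear_combination y ^ 2 * dt
  · simp [Matrix.det_fin_two, h11]; linear_combination y ^ 2 * dt

theorem fix_points [IsPrincipalIdealRing O] (hπ : Prime π) (h3 : ¬ π ∣ 3) (g : GL (Fin 2) O)
    (tr : g.val.trace = -1) (dt : g.val.det = 1) (x₁ y₁ : O)
    (hdet : Associated (x₁ • (1 : Matrix (Fin 2) (Fin 2) O) + y₁ • g.val).det π) :
    ∃ (xp xm : X) (ep em : GL (Fin 2) O), xp ≠ xm ∧
      (F.s xp).val * PM π = (x₁ • (1 : Matrix (Fin 2) (Fin 2) O) + y₁ • g.val) * ep.val ∧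
      (F.s xm).val * PM π = ((x₁ - y₁) • (1 : Matrix (Fin 2) (Fin 2) O) - y₁ • g.val) * em.val ∧
      ∀ x g', F.Step g x x g' → x = xp ∨ x = xm := by
  obtain ⟨ss', s's, ds, ds'⟩ := fix_sq g.val tr dt x₁ y₁
  set s := x₁ • (1 : Matrix (Fin 2) (Fin 2) O) + y₁ • g.val with hs
  set s' := (x₁ - y₁) • (1 : Matrix (Fin 2) (Fin 2) O) - y₁ • g.val with hs'
  obtain ⟨xp, ep, hp⟩ := fix_cover F hπ s hdet
  obtain ⟨xm, em, hm⟩ := fix_cover F hπ s' (by rw [ds', ← ds]; exact hdet)
  obtain ⟨u, hu⟩ := hdet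
  refine ⟨xp, xm, ep, em, ?_, hp, hm, ?_⟩
  · intro hxx
    rw [← hxx] at hm
    -- s = s' * ε
    have e1 : s = s' * (em.val * (ep⁻¹).val) := by
      rw [← Matrix.mul_assoc, ← hm, hp, Matrix.mul_assoc, ← Units.val_mul, mul_inv_cancel,
        Units.val_one, Matrix.mul_one]
    have e2 : s * s = (x₁ ^ 2 - x₁ * y₁ + y₁ ^ 2) • (em.val * (ep⁻¹).val) := by
      nth_rewrite 2 [e1]
      rw [← Matrix.mul_assoc, ss', Matrix.smul_mul, Matrix.one_mul]
    have hπδ : π ∣ x₁ ^ 2 - x₁ * y₁ + y₁ ^ 2 := by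
      rw [← ds]
      exact ⟨((u⁻¹ : Oˣ) : O), by rw [← hu, mul_assoc, Units.mul_inv, mul_one]⟩
    have h11 : g.val 1 1 = -1 - g.val 0 0 := by
      rw [Matrix.trace_fin_two] at tr; linear_combination tr
    have hdg : -(g.val 0 0) - (g.val 0 0) ^ 2 - g.val 0 1 * g.val 1 0 = 1 := by
      rw [Matrix.det_fin_two, h11] at dt; linear_combination dt
    have d0 : π ∣ (s * s) 0 0 := by
      rw [e2, Matrix.smul_apply, smul_eq_mul]; exact Dvd.dvd.mul_right hπδ _
    have d1 : π ∣ (s * s) 1 1 := by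
      rw [e2, Matrix.smul_apply, smul_eq_mul]; exact Dvd.dvd.mul_right hπδ _
    have d2 : π ∣ (2 * x₁ - y₁) ^ 2 := by
      have : (2 * x₁ - y₁) ^ 2 = (s * s) 0 0 + (s * s) 1 1 +
          (x₁ ^ 2 - x₁ * y₁ + y₁ ^ 2) * 2 := by
        simp [hs, Matrix.mul_apply, Fin.sum_univ_two, h11]
        linear_combination 2 * y₁ ^ 2 * hdg
      rw [this]; exact dvd_add (dvd_add d0 d1) (Dvd.dvd.mul_right hπδ _)
    have d3 : π ∣ 2 * x₁ - y₁ := hπ.dvd_of_dvd_pow d2
    have d5 : π ∣ y₁ := by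
      have : π ∣ 3 * y₁ ^ 2 := by
        have e : 3 * y₁ ^ 2 = (x₁ ^ 2 - x₁ * y₁ + y₁ ^ 2) * 4 - (2 * x₁ - y₁) ^ 2 := by
          ring
        rw [e]; exact dvd_sub (Dvd.dvd.mul_right hπδ _) d2
      exact hπ.dvd_of_dvd_pow ((hπ.dvd_or_dvd this).resolve_left h3)
    have d4 : π ∣ x₁ := by
      have e : x₁ ^ 2 = (x₁ ^ 2 - x₁ * y₁ + y₁ ^ 2) + y₁ * (x₁ - y₁) := by ring
      have h : π ∣ x₁ ^ 2 := by
        rw [e]; exact dvd_add hπδ (Dvd.dvd.mul_right d5 _)
      exact hπ.dvd_of_dvd_pow h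
    obtain ⟨p, hp'⟩ := d4
    obtain ⟨q, hq'⟩ := d5
    have h6 : π * (π * (p ^ 2 - p * q + q ^ 2) * u) = π * 1 := by
      rw [mul_one]
      calc π * (π * (p ^ 2 - p * q + q ^ 2) * u)
          = (x₁ ^ 2 - x₁ * y₁ + y₁ ^ 2) * u := by rw [hp', hq']; ring
        _ = π := by rw [← ds, hu]
    have h7 := mul_left_cancel₀ hπ.ne_zero h6
    exact hπ.not_isUnit (IsUnit.of_mul_eq_one ((p ^ 2 - p * q + q ^ 2) * u)
      (by linear_combination h7))
  · intro x g' hx
    obtain ⟨l, b, c, hH, hd⟩ := fix_data F g tr x g' hx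
    rw [dt] at hd
    have hgS : g.val * (F.s x).val = (F.s x).val * !![-1 - l, π * b; c, l] := by
      rw [← hH, Matrix.mul_assoc, fix_mul_inv]
    have hπδ : (x₁ ^ 2 - x₁ * y₁ + y₁ ^ 2) * u = π := by rw [← ds, hu]
    have hdvd : π ∣ (x₁ + y₁ * l) * (x₁ - y₁ - y₁ * l) := by
      refine ⟨((u⁻¹ : Oˣ) : O) + y₁ ^ 2 * b * c, ?_⟩
      have : π * ((u⁻¹ : Oˣ) : O) = x₁ ^ 2 - x₁ * y₁ + y₁ ^ 2 := by
        rw [← hπδ, mul_assoc, Units.mul_inv, mul_one]
      linear_combination -this + y₁ ^ 2 * hd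
    rcases hπ.dvd_or_dvd hdvd with h | h
    · right
      obtain ⟨m, hm'⟩ := h
      obtain ⟨e, he⟩ := fix_aux hπ s' s _ u s's hπδ ds' (F.s x)
        ((F.s x).val * !![x₁ - y₁ - y₁ * l, y₁ * b; y₁ * c, m]) (by
          have e1 : s * (F.s x).val = (F.s x).val *
              !![x₁ - y₁ - y₁ * l, π * (y₁ * b); y₁ * c, π * m] := by
            rw [hs, Matrix.add_mul, Matrix.smul_mul, Matrix.one_mul, Matrix.smul_mul, hgS,
              ← hm']
            have : (!![x₁ - y₁ - y₁ * l, π * (y₁ * b); y₁ * c, x₁ + y₁ * l] :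
                Matrix (Fin 2) (Fin 2) O) = x₁ • 1 + y₁ • !![-1 - l, π * b; c, l] := by
              ext i j
              fin_cases i <;> fin_cases j <;> simp <;> ring
            rw [this, Matrix.mul_add, Matrix.mul_smul, Matrix.mul_one, Matrix.mul_smul]
          rw [← Matrix.mul_assoc, e1, Matrix.mul_assoc, ← Matrix.mul_smul]
          congr 1
          ext i j
          fin_cases i <;> fin_cases j <;>
            simp [PM, Matrix.mul_apply, Fin.sum_univ_two] <;> ring)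
      exact fix_sep F he hm
    · left
      obtain ⟨m, hm'⟩ := h
      obtain ⟨e, he⟩ := fix_aux hπ s s' _ u ss' hπδ ds (F.s x)
        ((F.s x).val * !![x₁ + y₁ * l, -(y₁ * b); -(y₁ * c), m]) (by
          have e1 : s' * (F.s x).val = (F.s x).val *
              !![x₁ + y₁ * l, -(π * (y₁ * b)); -(y₁ * c), π * m] := by
            rw [hs', Matrix.sub_mul, Matrix.smul_mul, Matrix.one_mul, Matrix.smul_mul, hgS,
              ← hm']
            have : (!![x₁ + y₁ * l, -(π * (y₁ * b)); -(y₁ * c), x₁ - y₁ - y₁ * l] :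
                Matrix (Fin 2) (Fin 2) O) = (x₁ - y₁) • 1 - y₁ • !![-1 - l, π * b; c, l] := by
              ext i j
              fin_cases i <;> fin_cases j <;> simp <;> ring
            rw [this, Matrix.mul_sub, Matrix.mul_smul, Matrix.mul_one, Matrix.mul_smul]
          rw [← Matrix.mul_assoc, e1, Matrix.mul_assoc, ← Matrix.mul_smul]
          congr 1
          ext i j
          fin_cases i <;> fin_cases j <;>
            simp [PM, Matrix.mul_apply, Fin.sum_univ_two] <;> ring)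
      exact fix_sep F he hp
end

end SerreT
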