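import Pool.Agent.SerreK.GDefs

/-!
# Signed intersection numbers: definitions
-/

open Complex

namespace SerreT

open SerreK (V InC Hit Gen6)

/-- the determinant of four vectors -/
noncomputable def det4 (a b c d : V) : ℝ := Matrix.det ![a, b, c, d]

open Classical in
/-- the signed number of crossings (`0`, `1` or `-1`) of the open cone on `a, b, c` with the open
cone on `p, q`. -/
noncomputable def sI (k : Type*) [Field k] (a b c p q : V) : k :=
  if Hit a b c p q then ((SignType.sign (det4 a b c q) : ℤ) : k) else 0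

/-- the rotation by `4π/3` in the last two coordinates: the action of `θ`. -/
noncomputable def RR (v : V) : V :=
  ![v 0, v 1, -(v 2) / 2 + Real.sqrt 3 / 2 * v 3, -(Real.sqrt 3 / 2) * v 2 - v 3 / 2]

/-- the base point on the axis -/
def oo : V := ![1, 1, 0, 0]

/-- the triangles used on the side of the chain. -/
def XT {Γ : Type} [Group Γ] (ρ : Γ →* (V →ₗ[ℝ] V)) (θ : Γ) (x1 x2 x3 a b c : V) : Prop :=
  (∃ g g' g'' : Γ, a = ρ g x3 ∧ b = ρ g' x1 ∧ c = ρ g'' x2) ∨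
  (∃ g : Γ, a = ρ g x1 ∧ b = ρ g (RR x1) ∧ c = ρ g (RR (RR x1))) ∨
  (∃ g : Γ, a = ρ g x1 ∧ b = ρ g x2 ∧ c = ρ (g * θ) x1)

/-- the triangles used on the side of the paths. -/
def PT {Γ : Type} [Group Γ] (ρ : Γ →* (V →ₗ[ℝ] V)) (η : Γ) (y1 y2 y3 p q r : V) : Prop :=
  (∃ d e : Γ, p = y3 ∧ q = ρ d y1 ∧ r = ρ e y2) ∨
  (∃ d e : Γ, p = oo ∧ q = ρ d y1 ∧ r = ρ e y2) ∨
  (∃ d : Γ, p = oo ∧ q = ρ η oo ∧ r = ρ d y1)

end SerreT
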