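import Pool.Agent.SerreT.GDefs3
import Pool.Agent.SerreK.PARITY

/-!
# PARITY3: the signed number of crossings of two triangles
-/

namespace SerreT

open SerreK (V InC Hit Gen6 parP parG par_main)

variable (k : Type*) [Field k]

/-! ## the determinant `det4` -/

theorem det4_eq (a b c d : V) : det4 a b c d =
    a 0 * (b 1 * (c 2 * d 3 - c 3 * d 2) - b 2 * (c 1 * d 3 - c 3 * d 1) +
      b 3 * (c 1 * d 2 - c 2 * d 1)) -
    a 1 * (b 0 * (c 2 * d 3 - c 3 * d 2) - b 2 * (c 0 * d 3 - c 3 * d 0) +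
      b 3 * (c 0 * d 2 - c 2 * d 0)) +
    a 2 * (b 0 * (c 1 * d 3 - c 3 * d 1) - b 1 * (c 0 * d 3 - c 3 * d 0) +
      b 3 * (c 0 * d 1 - c 1 * d 0)) -
    a 3 * (b 0 * (c 1 * d 2 - c 2 * d 1) - b 1 * (c 0 * d 2 - c 2 * d 0) +
      b 2 * (c 0 * d 1 - c 1 * d 0)) := by
  change (Matrix.of ![a, b, c, d] : Matrix (Fin 4) (Fin 4) ℝ).det = _
  rw [Matrix.det_succ_row_zero]
  simp only [Fin.sum_univ_succ, Matrix.det_fin_three, Matrix.submatrix_apply, Matrix.of_apply]
  simp [Fin.succAbove]
  ring

theorem det4_add_smul (a b c d e : V) (s t : ℝ) :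
    det4 a b c (s • d + t • e) = s * det4 a b c d + t * det4 a b c e := by
  simp only [det4_eq, Pi.add_apply, Pi.smul_apply, smul_eq_mul]
  ring

theorem det4_lin (a b c : V) (x y z : ℝ) :
    det4 a b c (x • a + y • b + z • c) = 0 := by
  simp only [det4_eq, Pi.add_apply, Pi.smul_apply, smul_eq_mul]
  ring

theorem det4_cyc (a b c d : V) : det4 b c a d = det4 a b c d := by
  simp only [det4_eq]
  ring

theorem det4_swap (a b c d : V) : det4 b a c d = -det4 a b c d := by
  simp only [det4_eq]
  ring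

theorem det4_neg (a b c d : V) : det4 a b c (-d) = -det4 a b c d := by
  simp only [det4_eq, Pi.neg_apply]
  ring

theorem det4_neg3 (a b c d : V) : det4 (-a) (-b) (-c) d = -det4 a b c d := by
  simp only [det4_eq, Pi.neg_apply]
  ring

theorem det4_map (L : V →ₗ[ℝ] V) (a b c d : V) :
    det4 (L a) (L b) (L c) (L d) = LinearMap.det L * det4 a b c d := by
  obtain ⟨A, rfl⟩ : ∃ A : Matrix (Fin 4) (Fin 4) ℝ, L = Matrix.toLin' A :=
    ⟨LinearMap.toMatrix' L, by simp⟩
  change (Matrix.of ![Matrix.toLin' A a, Matrix.toLin' A b, Matrix.toLin' A c,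
    Matrix.toLin' A d] : Matrix (Fin 4) (Fin 4) ℝ).det =
    LinearMap.det (Matrix.toLin' A) * (Matrix.of ![a, b, c, d] : Matrix (Fin 4) (Fin 4) ℝ).det
  have : (Matrix.of ![Matrix.toLin' A a, Matrix.toLin' A b, Matrix.toLin' A c,
      Matrix.toLin' A d] : Matrix (Fin 4) (Fin 4) ℝ) =
      (Matrix.of ![a, b, c, d] : Matrix (Fin 4) (Fin 4) ℝ) * A.transpose := by
    ext i j
    rw [Matrix.mul_apply]
    fin_cases i <;> simp [Matrix.mulVec, dotProduct, mul_comm]
  rw [this, Matrix.det_mul, Matrix.det_transpose, LinearMap.det_toLin', mul_comm]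

/-! ## symmetries of `sI` -/

theorem hit_swap {a b c p q : V} : Hit a b c q p ↔ Hit a b c p q := by
  constructor <;>
  · rintro ⟨x, y, z, s, t, hx, hy, hz, hs, ht, he⟩
    exact ⟨x, y, z, t, s, hx, hy, hz, ht, hs, by rw [he, add_comm]⟩

theorem hit_sign {a b c p q : V} (h : Hit a b c p q) :
    SignType.sign (det4 a b c p) = -SignType.sign (det4 a b c q) := by
  obtain ⟨x, y, z, s, t, hx, hy, hz, hs, ht, he⟩ := h
  have h1 := det4_lin a b c x y z
  rw [he, det4_add_smul] at h1
  have h2 : s * det4 a b c p = t * (-det4 a b c q) := by linarith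
  have h3 : SignType.sign (s * det4 a b c p) = SignType.sign (t * (-det4 a b c q)) := by rw [h2]
  rw [sign_mul, sign_mul, sign_pos hs, sign_pos ht, one_mul, one_mul, Left.sign_neg] at h3
  exact h3

theorem sI_swap (a b c p q : V) : sI k a b c q p = -sI k a b c p q := by
  unfold sI
  by_cases h : Hit a b c p q
  · rw [if_pos h, if_pos (hit_swap.2 h), hit_sign h]
    simp
  · rw [if_neg h, if_neg (fun h' => h (hit_swap.1 h')), neg_zero]

theorem sI_cyc (a b c p q : V) : sI k b c a p q = sI k a b c p q := by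
  unfold sI
  have e : Hit b c a p q ↔ Hit a b c p q := by
    constructor
    · rintro ⟨x, y, z, s, t, hx, hy, hz, hs, ht, he⟩
      exact ⟨z, x, y, s, t, hz, hx, hy, hs, ht, by rw [← he]; abel⟩
    · rintro ⟨x, y, z, s, t, hx, hy, hz, hs, ht, he⟩
      exact ⟨y, z, x, s, t, hy, hz, hx, hs, ht, by rw [← he]; abel⟩
  rw [det4_cyc]
  by_cases h : Hit a b c p q
  · rw [if_pos h, if_pos (e.2 h)]
  · rw [if_neg h, if_neg (fun h' => h (e.1 h'))]

theorem sI_swap12 (a b c p q : V) : sI k b a c p q = -sI k a b c p q := by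
  unfold sI
  have e : Hit b a c p q ↔ Hit a b c p q := by
    constructor <;>
    · rintro ⟨x, y, z, s, t, hx, hy, hz, hs, ht, he⟩
      exact ⟨y, x, z, s, t, hy, hx, hz, hs, ht, by rw [← he]; abel⟩
  rw [det4_swap]
  by_cases h : Hit a b c p q
  · rw [if_pos h, if_pos (e.2 h), Left.sign_neg]
    simp
  · rw [if_neg h, if_neg (fun h' => h (e.1 h')), neg_zero]

theorem sI_map (L : V →ₗ[ℝ] V) (hL : 0 < LinearMap.det L) (a b c p q : V) :
    sI k (L a) (L b) (L c) (L p) (L q) = sI k a b c p q := by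
  unfold sI
  have hinj : Function.Injective L := by
    have hu : IsUnit (LinearMap.det L) := isUnit_iff_ne_zero.2 hL.ne'
    exact (LinearMap.equivOfDetNeZero L hL.ne').injective
  have e : Hit (L a) (L b) (L c) (L p) (L q) ↔ Hit a b c p q := by
    constructor
    · rintro ⟨x, y, z, s, t, hx, hy, hz, hs, ht, he⟩
      refine ⟨x, y, z, s, t, hx, hy, hz, hs, ht, hinj ?_⟩
      simpa only [map_add, map_smul] using he
    · rintro ⟨x, y, z, s, t, hx, hy, hz, hs, ht, he⟩
      refine ⟨x, y, z, s, t, hx, hy, hz, hs, ht, ?_⟩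
      have := congrArg L he
      simpa only [map_add, map_smul] using this
  rw [det4_map, sign_mul, sign_pos hL, one_mul]
  by_cases h : Hit a b c p q
  · rw [if_pos h, if_pos (e.2 h)]
  · rw [if_neg h, if_neg (fun h' => h (e.1 h'))]

theorem sI_hit {a b c p q : V} (h : sI k a b c p q ≠ 0) : Hit a b c p q := by
  by_contra hn
  exact h (by unfold sI; rw [if_neg hn])

/-! ## six vectors -/

/-- the matrix with the rows `(v k, δ_{k i}, δ_{k j})`. -/
def parN (v : Fin 6 → V) (i j : Fin 6) : Matrix (Fin 6) (Fin 6) ℝ :=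
  Matrix.of fun k =>
    ![v k 0, v k 1, v k 2, v k 3, if k = i then 1 else 0, if k = j then 1 else 0]

/-- its determinant -/
def parE (v : Fin 6 → V) (i j : Fin 6) : ℝ := (parN v i j).det

theorem parE_neg (v : Fin 6 → V) (i j : Fin 6) : parE v j i = -parE v i j := by
  unfold parE
  have h : parN v j i = (parN v i j).submatrix id (Equiv.swap (4 : Fin 6) 5) := by
    ext k l
    fin_cases l
    · rfl
    · rfl
    · rfl
    · rfl
    · simp [parN]
    · simp [parN]
  rw [h, Matrix.det_permute', Equiv.Perm.sign_swap (by decide)]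
  simp

theorem parE_perm (v : Fin 6 → V) (σ : Equiv.Perm (Fin 6)) (i j : Fin 6) :
    parE v (σ i) (σ j) = (Equiv.Perm.sign σ : ℤ) * parE (fun k => v (σ k)) i j := by
  unfold parE
  have h : parN (fun k => v (σ k)) i j = (parN v (σ i) (σ j)).submatrix σ id := by
    ext k l
    fin_cases l <;> simp [parN]
  rw [h, Matrix.det_permute, ← mul_assoc]
  rcases Int.units_eq_one_or (Equiv.Perm.sign σ) with h | h <;> rw [h] <;> simp

theorem parE_45 (v : Fin 6 → V) : parE v 4 5 = det4 (v 0) (v 1) (v 2) (v 3) := by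
  unfold parE
  have h : parN v 4 5 = Matrix.reindex (finSumFinEquiv (m := 4) (n := 2))
      (finSumFinEquiv (m := 4) (n := 2)) (Matrix.fromBlocks
        (Matrix.of ![v 0, v 1, v 2, v 3] : Matrix (Fin 4) (Fin 4) ℝ) 0
        (Matrix.of ![v 4, v 5] : Matrix (Fin 2) (Fin 4) ℝ) 1) := by
    ext a b
    fin_cases a <;> fin_cases b <;> rfl
  rw [h, Matrix.det_reindex_self, Matrix.det_fromBlocks_zero₁₂, Matrix.det_one, mul_one]
  rfl

theorem parE_cramer {v : Fin 6 → V} {y : Fin 6 → ℝ} (hy : ∑ j, y j • v j = 0) {i : Fin 6}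
    (hi : y i = 0) (j l : Fin 6) : y l * parE v i j = y j * parE v i l := by
  unfold parE
  have h1 := Matrix.det_updateRow_sum (parN v i j) l y
  rw [smul_eq_mul] at h1
  have h2 : ∑ k, y k • (parN v i j) k = y j • (Pi.single 5 1 : Fin 6 → ℝ) := by
    funext c
    rw [Finset.sum_apply]
    have hc : ∀ m : Fin 4, ∑ k, y k * v k m = 0 := by
      intro m
      have := congrFun hy m
      rw [Finset.sum_apply] at this
      simpa using this
    fin_cases c
    · simpa [parN] using hc 0
    · simpa [parN] using hc 1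
    · simpa [parN] using hc 2
    · simpa [parN] using hc 3
    · simp [parN, hi]
    · simp [parN]
  rw [h2, Matrix.det_updateRow_smul] at h1
  rw [← h1]
  congr 1
  have h3 : (Matrix.adjugate (parN v i j)) 5 l = ((parN v i j).updateRow l (Pi.single 5 1)).det :=
    Matrix.adjugate_apply _ _ _
  have h4 : (Matrix.adjugate (parN v i j)) 5 l = ((parN v i j).updateCol 5 (Pi.single l 1)).det := by
    have := congrFun (congrFun (Matrix.adjugate_transpose (parN v i j)) l) 5
    rw [Matrix.transpose_apply] at this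
    rw [this, Matrix.adjugate_apply, Matrix.updateRow_transpose, Matrix.det_transpose]
  rw [← h3, h4]
  congr 1
  ext a b
  fin_cases b
  · simp [parN]
  · simp [parN]
  · simp [parN]
  · simp [parN]
  · simp [parN]
  · simp [parN, Pi.single_apply]

theorem parE_sign {v : Fin 6 → V} {i : Fin 6} (hP : parP v i) {j l : Fin 6} (hj : j ≠ i)
    (hl : l ≠ i) : SignType.sign (parE v i j) = SignType.sign (parE v i l) := by
  obtain ⟨y, hy, hi, hpos⟩ := hP
  have h := parE_cramer hy hi j l
  have h1 : SignType.sign (y l * parE v i j) = SignType.sign (y j * parE v i l) := by rw [h]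
  rw [sign_mul, sign_mul, sign_pos (hpos l hl), sign_pos (hpos j hj), one_mul, one_mul] at h1
  exact h1

open Classical in
/-- the signed count of the omissible indices is zero -/
theorem parE_sum {v : Fin 6 → V} (hG : parG v) (nx : Fin 6 → Fin 6) (hnx : ∀ i, nx i ≠ i) :
    ∑ i, (if parP v i then ((SignType.sign (parE v i (nx i)) : ℤ) : k) else 0) = 0 := by
  by_cases hex : ∃ i, parP v i
  · obtain ⟨i, hi⟩ := hex
    obtain ⟨m, hm, hPm, hrest⟩ := par_main hG hi
    have h1 : ∑ j, (if parP v j then ((SignType.sign (parE v j (nx j)) : ℤ) : k) else 0) =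
        ∑ j ∈ ({i, m} : Finset (Fin 6)),
          (if parP v j then ((SignType.sign (parE v j (nx j)) : ℤ) : k) else 0) := by
      symm
      apply Finset.sum_subset (Finset.subset_univ _)
      intro j _ hj
      rw [Finset.mem_insert, Finset.mem_singleton, not_or] at hj
      rw [if_neg (hrest j hj.1 hj.2)]
    rw [h1, Finset.sum_pair hm.symm, if_pos hi, if_pos hPm, parE_sign hi (hnx i) hm,
      parE_sign hPm (hnx m) hm.symm, parE_neg v i m, Left.sign_neg]
    simp
  · push Not at hex
    apply Finset.sum_eq_zero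
    intro j _
    rw [if_neg (hex j)]

theorem parE_53 (v : Fin 6 → V) : parE v 5 3 = det4 (v 0) (v 1) (v 2) (v 4) := by
  have h := parE_perm v (Equiv.swap 3 4 * Equiv.swap 4 5) 4 5
  rw [parE_45] at h
  simpa [Equiv.swap_apply_def] using h

theorem parE_34 (v : Fin 6 → V) : parE v 3 4 = det4 (v 0) (v 1) (v 2) (v 5) := by
  have h := parE_perm v (Equiv.swap 4 5 * Equiv.swap 3 4) 4 5
  rw [parE_45] at h
  simpa [Equiv.swap_apply_def] using h

theorem parE_12 (v : Fin 6 → V) : parE v 1 2 = -det4 (v 3) (v 4) (v 5) (v 0) := by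
  have h := parE_perm v (Equiv.swap 0 3 * Equiv.swap 1 4 * Equiv.swap 2 5) 4 5
  rw [parE_45] at h
  simpa [Equiv.swap_apply_def] using h

theorem parE_20 (v : Fin 6 → V) : parE v 2 0 = -det4 (v 3) (v 4) (v 5) (v 1) := by
  have h := parE_perm v (Equiv.swap 0 1 * Equiv.swap 1 2 *
    (Equiv.swap 0 3 * Equiv.swap 1 4 * Equiv.swap 2 5)) 4 5
  rw [parE_45] at h
  simpa [Equiv.swap_apply_def] using h

theorem parE_01 (v : Fin 6 → V) : parE v 0 1 = -det4 (v 3) (v 4) (v 5) (v 2) := by
  have h := parE_perm v (Equiv.swap 1 2 * Equiv.swap 0 1 *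
    (Equiv.swap 0 3 * Equiv.swap 1 4 * Equiv.swap 2 5)) 4 5
  rw [parE_45] at h
  simpa [Equiv.swap_apply_def] using h

open Classical in
/-- two triangles in general position -/
theorem parity3 (a b c p q r : V) (h : Gen6 a b c p q r) :
    sI k a b c p q + sI k a b c q r + sI k a b c r p =
      sI k p q r a b + sI k p q r b c + sI k p q r c a := by
  set v : Fin 6 → V := ![a, b, c, -p, -q, -r] with hv
  have hsum : ∀ y : Fin 6 → ℝ, ∑ j, y j • v j =
      y 0 • a + y 1 • b + y 2 • c + y 3 • -p + y 4 • -q + y 5 • -r := by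
    intro y
    rw [Fin.sum_univ_six]
    rfl
  have hG : parG v := by
    intro y hy i j hij hi hj
    rw [hsum] at hy
    have h1 := h ![y 0, y 1, y 2, -y 3, -y 4, -y 5] (by
      have : y 0 • a + y 1 • b + y 2 • c + (-y 3) • p + (-y 4) • q + (-y 5) • r =
        y 0 • a + y 1 • b + y 2 • c + y 3 • -p + y 4 • -q + y 5 • -r := by
        simp only [neg_smul, smul_neg]
      exact this.trans hy) i j hij
      (by fin_cases i <;> simp at hi ⊢ <;> exact hi) (by fin_cases j <;> simp at hj ⊢ <;> exact hj)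
    ext l
    have h2 := congrFun h1 l
    fin_cases l <;> simp at h2 ⊢ <;> exact h2
  have e5 : parP v 5 ↔ Hit a b c p q := by
    constructor
    · rintro ⟨y, hy, h0, hpos⟩
      rw [hsum, h0] at hy
      refine ⟨y 0, y 1, y 2, y 3, y 4, hpos 0 (by decide), hpos 1 (by decide), hpos 2 (by decide),
        hpos 3 (by decide), hpos 4 (by decide), ?_⟩
      simp only [smul_neg, zero_smul] at hy
      rw [← sub_eq_zero, ← hy]
      abel
    · rintro ⟨x, y, z, s, t, hx, hy, hz, hs, ht, he⟩
      refine ⟨![x, y, z, s, t, 0], ?_, rfl, ?_⟩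
      · rw [hsum]
        show x • a + y • b + z • c + s • -p + t • -q + (0 : ℝ) • -r = 0
        rw [he]
        simp only [smul_neg, zero_smul]
        abel
      · intro j hj
        fin_cases j <;> simp_all
  have e3 : parP v 3 ↔ Hit a b c q r := by
    constructor
    · rintro ⟨y, hy, h0, hpos⟩
      rw [hsum, h0] at hy
      refine ⟨y 0, y 1, y 2, y 4, y 5, hpos 0 (by decide), hpos 1 (by decide), hpos 2 (by decide),
        hpos 4 (by decide), hpos 5 (by decide), ?_⟩
      simp only [smul_neg, zero_smul] at hy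
      rw [← sub_eq_zero, ← hy]
      abel
    · rintro ⟨x, y, z, s, t, hx, hy, hz, hs, ht, he⟩
      refine ⟨![x, y, z, 0, s, t], ?_, rfl, ?_⟩
      · rw [hsum]
        show x • a + y • b + z • c + (0 : ℝ) • -p + s • -q + t • -r = 0
        rw [he]
        simp only [smul_neg, zero_smul]
        abel
      · intro j hj
        fin_cases j <;> simp_all
  have e4 : parP v 4 ↔ Hit a b c p r := by
    constructor
    · rintro ⟨y, hy, h0, hpos⟩
      rw [hsum, h0] at hy
      refine ⟨y 0, y 1, y 2, y 3, y 5, hpos 0 (by decide), hpos 1 (by decide), hpos 2 (by decide),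
        hpos 3 (by decide), hpos 5 (by decide), ?_⟩
      simp only [smul_neg, zero_smul] at hy
      rw [← sub_eq_zero, ← hy]
      abel
    · rintro ⟨x, y, z, s, t, hx, hy, hz, hs, ht, he⟩
      refine ⟨![x, y, z, s, 0, t], ?_, rfl, ?_⟩
      · rw [hsum]
        show x • a + y • b + z • c + s • -p + (0 : ℝ) • -q + t • -r = 0
        rw [he]
        simp only [smul_neg, zero_smul]
        abel
      · intro j hj
        fin_cases j <;> simp_all
  have e2 : parP v 2 ↔ Hit p q r a b := by
    constructor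
    · rintro ⟨y, hy, h0, hpos⟩
      rw [hsum, h0] at hy
      refine ⟨y 3, y 4, y 5, y 0, y 1, hpos 3 (by decide), hpos 4 (by decide), hpos 5 (by decide),
        hpos 0 (by decide), hpos 1 (by decide), ?_⟩
      simp only [smul_neg, zero_smul, add_zero] at hy
      rw [← sub_eq_zero, ← neg_eq_zero, ← hy]
      abel
    · rintro ⟨x, y, z, s, t, hx, hy, hz, hs, ht, he⟩
      refine ⟨![s, t, 0, x, y, z], ?_, rfl, ?_⟩
      · rw [hsum]
        show s • a + t • b + (0 : ℝ) • c + x • -p + y • -q + z • -r = 0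
        rw [← he]
        simp only [smul_neg, zero_smul]
        abel
      · intro j hj
        fin_cases j <;> simp_all
  have e0 : parP v 0 ↔ Hit p q r b c := by
    constructor
    · rintro ⟨y, hy, h0, hpos⟩
      rw [hsum, h0] at hy
      refine ⟨y 3, y 4, y 5, y 1, y 2, hpos 3 (by decide), hpos 4 (by decide), hpos 5 (by decide),
        hpos 1 (by decide), hpos 2 (by decide), ?_⟩
      simp only [smul_neg, zero_smul, zero_add] at hy
      rw [← sub_eq_zero, ← neg_eq_zero, ← hy]
      abel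
    · rintro ⟨x, y, z, s, t, hx, hy, hz, hs, ht, he⟩
      refine ⟨![0, s, t, x, y, z], ?_, rfl, ?_⟩
      · rw [hsum]
        show (0 : ℝ) • a + s • b + t • c + x • -p + y • -q + z • -r = 0
        rw [zero_smul, zero_add, ← he]
        simp only [smul_neg]
        abel
      · intro j hj
        fin_cases j <;> simp_all
  have e1 : parP v 1 ↔ Hit p q r a c := by
    constructor
    · rintro ⟨y, hy, h0, hpos⟩
      rw [hsum, h0] at hy
      refine ⟨y 3, y 4, y 5, y 0, y 2, hpos 3 (by decide), hpos 4 (by decide), hpos 5 (by decide),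
        hpos 0 (by decide), hpos 2 (by decide), ?_⟩
      simp only [smul_neg, zero_smul, add_zero] at hy
      rw [← sub_eq_zero, ← neg_eq_zero, ← hy]
      abel
    · rintro ⟨x, y, z, s, t, hx, hy, hz, hs, ht, he⟩
      refine ⟨![s, 0, t, x, y, z], ?_, rfl, ?_⟩
      · rw [hsum]
        show s • a + (0 : ℝ) • b + t • c + x • -p + y • -q + z • -r = 0
        rw [zero_smul, add_zero, ← he]
        simp only [smul_neg]
        abel
      · intro j hj
        fin_cases j <;> simp_all
  have hs := parE_sum k hG ![1, 2, 0, 4, 5, 3] (by decide)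
  rw [Fin.sum_univ_six] at hs
  have d0 : det4 p q r c = parE v 0 1 := by
    rw [parE_01]
    change det4 p q r c = -det4 (-p) (-q) (-r) c
    rw [det4_neg3, neg_neg]
  have d1 : det4 p q r a = parE v 1 2 := by
    rw [parE_12]
    change det4 p q r a = -det4 (-p) (-q) (-r) a
    rw [det4_neg3, neg_neg]
  have d2 : det4 p q r b = parE v 2 0 := by
    rw [parE_20]
    change det4 p q r b = -det4 (-p) (-q) (-r) b
    rw [det4_neg3, neg_neg]
  have d3 : det4 a b c r = -parE v 3 4 := by
    rw [parE_34]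
    change det4 a b c r = -det4 a b c (-r)
    rw [det4_neg, neg_neg]
  have d4 : det4 a b c p = -parE v 4 5 := by
    rw [parE_45]
    change det4 a b c p = -det4 a b c (-p)
    rw [det4_neg, neg_neg]
  have d5 : det4 a b c q = -parE v 5 3 := by
    rw [parE_53]
    change det4 a b c q = -det4 a b c (-q)
    rw [det4_neg, neg_neg]
  have e4' : parP v 4 ↔ Hit a b c r p := e4.trans hit_swap
  have e1' : parP v 1 ↔ Hit p q r c a := e1.trans hit_swap
  have key : ∀ (P Q : Prop) (x y : ℝ), (P ↔ Q) → x = y →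
      (if P then ((SignType.sign x : ℤ) : k) else 0) =
        (if Q then ((SignType.sign y : ℤ) : k) else 0) := by
    intro P Q x y hPQ hxy
    rw [hxy, propext hPQ]
  have keyn : ∀ (P Q : Prop) (x y : ℝ), (P ↔ Q) → x = -y →
      (if Q then ((SignType.sign x : ℤ) : k) else 0) =
        -(if P then ((SignType.sign y : ℤ) : k) else 0) := by
    intro P Q x y hPQ hxy
    rw [hxy, propext hPQ, Left.sign_neg]
    split_ifs <;> simp
  have t0 : sI k p q r b c = if parP v 0 then ((SignType.sign (parE v 0 1) : ℤ) : k) else 0 :=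
    (key _ _ _ _ e0 d0.symm).symm
  have t1 : sI k p q r c a = if parP v 1 then ((SignType.sign (parE v 1 2) : ℤ) : k) else 0 :=
    (key _ _ _ _ e1' d1.symm).symm
  have t2 : sI k p q r a b = if parP v 2 then ((SignType.sign (parE v 2 0) : ℤ) : k) else 0 :=
    (key _ _ _ _ e2 d2.symm).symm
  have t3 : sI k a b c q r = -if parP v 3 then ((SignType.sign (parE v 3 4) : ℤ) : k) else 0 :=
    keyn _ _ _ _ e3 d3
  have t4 : sI k a b c r p = -if parP v 4 then ((SignType.sign (parE v 4 5) : ℤ) : k) else 0 :=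
    keyn _ _ _ _ e4' d4
  have t5 : sI k a b c p q = -if parP v 5 then ((SignType.sign (parE v 5 3) : ℤ) : k) else 0 :=
    keyn _ _ _ _ e5 d5
  rw [show (![1, 2, 0, 4, 5, 3] : Fin 6 → Fin 6) 0 = 1 from rfl,
    show (![1, 2, 0, 4, 5, 3] : Fin 6 → Fin 6) 1 = 2 from rfl,
    show (![1, 2, 0, 4, 5, 3] : Fin 6 → Fin 6) 2 = 0 from rfl,
    show (![1, 2, 0, 4, 5, 3] : Fin 6 → Fin 6) 3 = 4 from rfl,
    show (![1, 2, 0, 4, 5, 3] : Fin 6 → Fin 6) 4 = 5 from rfl,
    show (![1, 2, 0, 4, 5, 3] : Fin 6 → Fin 6) 5 = 3 from rfl] at hs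
  rw [t0, t1, t2, t3, t4, t5]
  linear_combination -hs

end SerreT
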