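import Pool.Agent.SerreT.MM3
import Pool.Agent.SerreT.QDefs

/-!
# PELL3: the rings `OD a b = ℤ[ω]`, `ω² = a + b ω`, `b² + 4 a < 0`
`D = -(b² + 4 a) > 0`, `σ(ω) = (b + i √D) / 2`, `|σ(x + y ω)|² = x² + b x y - a y²`.
-/

open Complex

namespace SerreT

open SerreK (V InC Hit Gen6 act ImQ)

/-- `ℤ[ω]`, `ω² = a + b ω` -/
abbrev OD (a b : ℤ) : Type := QuadraticAlgebra ℤ a b

/-- the image of `ω` -/
noncomputable def pellW (a b : ℤ) : ℂ := ⟨b / 2, Real.sqrt (-(b ^ 2 + 4 * a)) / 2⟩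

theorem pell_sqrt (a b : ℤ) [hD : Fact (b ^ 2 + 4 * a < 0)] :
    Real.sqrt (-((b : ℝ) ^ 2 + 4 * a)) * Real.sqrt (-((b : ℝ) ^ 2 + 4 * a)) =
      -((b : ℝ) ^ 2 + 4 * a) := by
  have h : ((b : ℝ) ^ 2 + 4 * a) < 0 := by exact_mod_cast hD.out
  exact Real.mul_self_sqrt (by linarith)

theorem pellW_sq (a b : ℤ) [hD : Fact (b ^ 2 + 4 * a < 0)] :
    pellW a b * pellW a b = a + b * pellW a b := by
  have h := pell_sqrt a b
  apply Complex.ext
  · simp only [pellW, mul_re, add_re, intCast_re, intCast_im]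
    linear_combination -h / 4
  · simp only [pellW, mul_im, add_im, intCast_re, intCast_im]
    ring

variable (a b : ℤ) [hD : Fact (b ^ 2 + 4 * a < 0)]

/-- the complex embedding, `ω ↦ (b + i √(-(b² + 4a))) / 2` -/
noncomputable def sig : OD a b →+* ℂ where
  toFun x := x.re + x.im * pellW a b
  map_one' := by simp [QuadraticAlgebra.re_one, QuadraticAlgebra.im_one]
  map_zero' := by simp
  map_mul' x y := by
    have h := pellW_sq a b
    simp only [QuadraticAlgebra.re_mul, QuadraticAlgebra.im_mul]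
    push_cast
    linear_combination -(x.im * y.im : ℂ) * h
  map_add' x y := by
    simp only [QuadraticAlgebra.re_add, QuadraticAlgebra.im_add]
    push_cast
    ring

theorem sig_apply (x : OD a b) : sig a b x = x.re + x.im * pellW a b := rfl

theorem sig_normSq (x : OD a b) :
    normSq (sig a b x) = (x.re ^ 2 + b * x.re * x.im - a * x.im ^ 2 : ℤ) := by
  have h := pell_sqrt a b
  rw [sig_apply, normSq_apply]
  simp only [pellW, add_re, mul_re, add_im, mul_im, intCast_re, intCast_im]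
  push_cast
  linear_combination (x.im : ℝ) ^ 2 * h / 4

omit hD in
theorem pell_nrm4 (x : OD a b) : 4 * (x.re ^ 2 + b * x.re * x.im - a * x.im ^ 2 : ℤ) =
    (2 * x.re + b * x.im) ^ 2 + (-(b ^ 2 + 4 * a)) * x.im ^ 2 := by ring

theorem pell_nrm_zero {x : OD a b} (h : (x.re ^ 2 + b * x.re * x.im - a * x.im ^ 2 : ℤ) = 0) :
    x = 0 := by
  have h1 := pell_nrm4 a b x
  rw [h] at h1
  have hd : 1 ≤ -(b ^ 2 + 4 * a) := by have := hD.out; omega
  have h2 : (0 : ℤ) ≤ (2 * x.re + b * x.im) ^ 2 := sq_nonneg _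
  have h3 : (0 : ℤ) ≤ x.im ^ 2 := sq_nonneg _
  have h4 : x.im ^ 2 ≤ (-(b ^ 2 + 4 * a)) * x.im ^ 2 := by nlinarith
  have h5 : x.im ^ 2 = 0 := by nlinarith
  have h6 : x.im = 0 := by simpa using h5
  have h7 : (2 * x.re + b * x.im) ^ 2 = 0 := by nlinarith
  have h8 : 2 * x.re + b * x.im = 0 := by simpa using h7
  have h9 : x.re = 0 := by rw [h6] at h8; omega
  exact QuadraticAlgebra.ext h9 h6

theorem sig_imQ : ImQ (sig a b) where
  inj := by
    rw [injective_iff_map_eq_zero]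
    intro x hx
    have h1 := sig_normSq a b x
    rw [hx, map_zero] at h1
    exact pell_nrm_zero a b (by exact_mod_cast h1.symm)
  int := by
    intro x
    have h1 := sig_normSq a b x
    have h2 : (0 : ℤ) ≤ x.re ^ 2 + b * x.re * x.im - a * x.im ^ 2 := by
      have h3 : (0 : ℝ) ≤ ((x.re ^ 2 + b * x.re * x.im - a * x.im ^ 2 : ℤ) : ℝ) := by
        rw [← h1]; exact normSq_nonneg _
      exact_mod_cast h3
    obtain ⟨m, hm⟩ := Int.eq_ofNat_of_zero_le h2
    refine ⟨m, ?_⟩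
    rw [h1, hm]
    rfl
  fin := by
    intro B
    obtain ⟨M, hM⟩ := exists_nat_ge (4 * B)
    set N : ℤ := M + |b| * M with hN
    have hfin : (Set.range (fun p : Set.Icc (-N) N × Set.Icc (-(M : ℤ)) M =>
        (⟨p.1.val, p.2.val⟩ : OD a b))).Finite := Set.finite_range _
    refine hfin.subset ?_
    intro x hx
    have hx' : normSq (sig a b x) ≤ B := hx
    rw [sig_normSq] at hx'
    have h1 : (4 * (x.re ^ 2 + b * x.re * x.im - a * x.im ^ 2) : ℤ) ≤ M := by
      have : ((4 * (x.re ^ 2 + b * x.re * x.im - a * x.im ^ 2) : ℤ) : ℝ) ≤ (M : ℝ) := by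
        push_cast at hx' ⊢
        linarith
      exact_mod_cast this
    rw [pell_nrm4] at h1
    have hd : 1 ≤ -(b ^ 2 + 4 * a) := by have := hD.out; omega
    have h4 : x.im ^ 2 ≤ (-(b ^ 2 + 4 * a)) * x.im ^ 2 := by nlinarith [sq_nonneg x.im]
    have h5 : x.im ^ 2 ≤ M := by nlinarith [sq_nonneg (2 * x.re + b * x.im)]
    have h6 : (2 * x.re + b * x.im) ^ 2 ≤ M := by nlinarith [sq_nonneg x.im]
    have a1 : x.im ≤ M := by nlinarith [sq_nonneg x.im]
    have a2 : -(M : ℤ) ≤ x.im := by nlinarith [sq_nonneg x.im]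
    have b1 : 2 * x.re + b * x.im ≤ M := by nlinarith [sq_nonneg (2 * x.re + b * x.im)]
    have b2 : -(M : ℤ) ≤ 2 * x.re + b * x.im := by nlinarith [sq_nonneg (2 * x.re + b * x.im)]
    have c0 : |b * x.im| ≤ |b| * M := by
      rw [abs_mul]
      exact mul_le_mul_of_nonneg_left (abs_le.2 ⟨a2, a1⟩) (abs_nonneg b)
    have c1 := (abs_le.1 c0).1
    have c2 := (abs_le.1 c0).2
    have c3 : (0 : ℤ) ≤ |b| * M := by positivity
    have a3 : x.re ≤ N := by rw [hN]; omega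
    have a4 : -N ≤ x.re := by rw [hN]; omega
    exact ⟨(⟨x.re, a4, a3⟩, ⟨x.im, a2, a1⟩), rfl⟩

instance instDom : IsDomain (OD a b) := (sig_imQ a b).inj.isDomain (sig a b)

instance instFin : Ring.HasFiniteQuotients (OD a b) where
  finiteQuotient {I} hI := Ideal.finiteQuotientOfFreeOfNeBot I hI

theorem noroot (h3 : ¬ (3 : ℤ) ∣ b ^ 2 + 4 * a) (z : OD a b) : z ^ 2 + z + 1 ≠ 0 := by
  intro h
  have hs : (2 * z + 1) * (2 * z + 1) = -3 := by linear_combination 4 * h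
  set u : OD a b := 2 * z + 1 with hu
  have e1 := congrArg QuadraticAlgebra.re hs
  have e2 := congrArg QuadraticAlgebra.im hs
  rw [QuadraticAlgebra.re_mul] at e1
  rw [QuadraticAlgebra.im_mul] at e2
  have r3 : (-3 : OD a b).re = -3 := by
    have : (-3 : OD a b) = ((-3 : ℤ) : OD a b) := by push_cast; rfl
    rw [this, QuadraticAlgebra.re_intCast, Int.cast_id]
  have i3 : (-3 : OD a b).im = 0 := by
    have : (-3 : OD a b) = ((-3 : ℤ) : OD a b) := by push_cast; rfl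
    rw [this, QuadraticAlgebra.im_intCast]
  rw [r3] at e1
  rw [i3] at e2
  have e3 : u.im * (2 * u.re + b * u.im) = 0 := by linear_combination e2
  rcases mul_eq_zero.1 e3 with h0 | h0
  · rw [h0] at e1
    nlinarith [mul_self_nonneg u.re]
  · have e4 : (b ^ 2 + 4 * a) * u.im ^ 2 = -12 := by
      have : 2 * u.re = - (b * u.im) := by linarith
      linear_combination 4 * e1 - (2 * u.re - b * u.im) * h0
    have hp : Prime (3 : ℤ) := Int.prime_three
    have h5 : (3 : ℤ) ∣ (b ^ 2 + 4 * a) * u.im ^ 2 := by rw [e4]; norm_num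
    have h6 : (3 : ℤ) ∣ u.im := hp.dvd_of_dvd_pow ((hp.dvd_or_dvd h5).resolve_left h3)
    obtain ⟨c, hc⟩ := h6
    rw [hc] at e4
    have : (9 : ℤ) ∣ -12 := ⟨(b ^ 2 + 4 * a) * c ^ 2, by linear_combination -e4⟩
    omega

theorem pell_sig_sqrt : sig a b ⟨-b, 2⟩ = I * Real.sqrt (-((b : ℝ) ^ 2 + 4 * a)) := by
  rw [sig_apply]
  apply Complex.ext
  · simp [pellW]
    ring
  · simp [pellW]
    ring

theorem exists_unit (h3 : ¬ (3 : ℤ) ∣ b ^ 2 + 4 * a) :
    ∃ w : (Ti (OD a b))ˣ, ab1 (sig a b) w ≠ 1 := by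
  have hd := hD.out
  obtain ⟨x, y, hxy, hy⟩ := Pell.exists_of_not_isSquare (d := -3 * (b ^ 2 + 4 * a)) (by linarith) (by
    rintro ⟨r, hr⟩
    have hp : Prime (3 : ℤ) := Int.prime_three
    have h5 : (3 : ℤ) ∣ r * r := ⟨-(b ^ 2 + 4 * a), by linear_combination -hr⟩
    have h6 : (3 : ℤ) ∣ r := by
      rcases hp.dvd_or_dvd h5 with h | h <;> exact h
    obtain ⟨c, hc⟩ := h6
    apply h3
    refine ⟨-(c * c), ?_⟩
    rw [hc] at hr
    linarith)
  have hs : (⟨-b, 2⟩ : OD a b) * ⟨-b, 2⟩ = ((b ^ 2 + 4 * a : ℤ) : OD a b) := by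
    apply QuadraticAlgebra.ext
    · rw [QuadraticAlgebra.re_mul, QuadraticAlgebra.re_intCast]
      simp
      ring
    · rw [QuadraticAlgebra.im_mul, QuadraticAlgebra.im_intCast]
      simp
      ring
  have hp : ((x : OD a b) ^ 2 + 3 * ((b ^ 2 + 4 * a : ℤ) : OD a b) * (y : OD a b) ^ 2) = 1 := by
    have := congrArg (fun z : ℤ => (z : OD a b)) hxy
    push_cast at this ⊢
    linear_combination this
  set W : OD a b := ⟨-b, 2⟩ with hW
  have hu : (⟨(x : OD a b) + y * W, 2 * y * W⟩ : Ti (OD a b)) *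
      ⟨(x : OD a b) - y * W, -(2 * y * W)⟩ = 1 := by
    apply QuadraticAlgebra.ext
    · rw [QuadraticAlgebra.re_mul, QuadraticAlgebra.re_one]
      linear_combination hp + 3 * (y : OD a b) ^ 2 * hs
    · rw [QuadraticAlgebra.im_mul, QuadraticAlgebra.im_one]
      ring
  refine ⟨⟨_, _, hu, by rw [mul_comm]; exact hu⟩, ?_⟩
  change normSq (sig a b ((x : OD a b) + y * W) + zc * sig a b (2 * y * W)) ≠ 1
  set S : ℝ := Real.sqrt (-((b : ℝ) ^ 2 + 4 * a)) with hS
  have g1 : sig a b ((x : OD a b) + y * W) = (x : ℂ) + (y : ℂ) * (I * S) := by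
    rw [map_add, map_mul, map_intCast, map_intCast, hW, pell_sig_sqrt]
  have g2 : sig a b (2 * y * W) = 2 * (y : ℂ) * (I * S) := by
    rw [map_mul, map_mul, map_intCast, hW, pell_sig_sqrt, map_ofNat]
  rw [g1, g2]
  have hzc : 1 + 2 * zc = I * Real.sqrt 3 := by
    apply Complex.ext
    · simp [zc]
      norm_num
    · simp [zc]
      try ring
  have e : (x : ℂ) + (y : ℂ) * (I * S) + zc * (2 * (y : ℂ) * (I * S)) =
      ((x - y * (S * Real.sqrt 3) : ℝ) : ℂ) := by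
    push_cast
    linear_combination (y : ℂ) * (I * S) * hzc + (y : ℂ) * S * (Real.sqrt 3 : ℂ) * I_mul_I
  rw [e, normSq_ofReal]
  intro h
  have hD' := pell_sqrt a b
  rw [← hS] at hD'
  have h33 : Real.sqrt 3 * Real.sqrt 3 = 3 := Real.mul_self_sqrt (by norm_num)
  have hp' : (x : ℝ) ^ 2 - (-3 * ((b : ℝ) ^ 2 + 4 * a)) * (y : ℝ) ^ 2 = 1 := by
    exact_mod_cast hxy
  set s : ℝ := S * Real.sqrt 3 with hs'
  have hss : s * s = -3 * ((b : ℝ) ^ 2 + 4 * a) := by
    rw [hs']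
    linear_combination (Real.sqrt 3 * Real.sqrt 3) * hD' + (-((b : ℝ) ^ 2 + 4 * a)) * h33
  have h1 : ((x : ℝ) - y * s) * (x + y * s) = 1 := by
    linear_combination hp' - (y : ℝ) ^ 2 * hss
  have h2 : ((x : ℝ) - y * s) ≠ 0 := left_ne_zero_of_mul_eq_one h1
  have h3' : ((x : ℝ) - y * s) = x + y * s := mul_left_cancel₀ h2 (h.trans h1.symm)
  have h4 : (y : ℝ) * s = 0 := by linarith
  rcases mul_eq_zero.mp h4 with h5 | h5
  · exact hy (by exact_mod_cast h5)
  · rw [h5] at hss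
    have : ((b : ℝ) ^ 2 + 4 * a) < 0 := by exact_mod_cast hd
    linarith

end SerreT
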