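import Pool.Agent.SerreT.QDefs
import Pool.Agent.Serre.COMPAT

/-!
# The Hecke operators of `H¹(Y₀(N))` through a system of representatives; frames
-/

open Matrix
open scoped QuadraticAlgebra

namespace SerreT

open SerreE (mk2 sc dg dgl up low red Gam0 GamUp mem_Gam0 mem_GamUp PM Frame theta_spec dconj
  dconj_spec dconjHom transfer_formula)

section
variable {O : Type} [CommRing O]

/-- the two models of `Γ₀(N)` coincide -/
def toG {N : O} (g : Gam0 N) : G N := g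

theorem toG_mul {N : O} (g h : Gam0 N) : toG (g * h) = toG g * toG h := rfl

theorem toG_inv {N : O} (g : Gam0 N) : toG g⁻¹ = (toG g)⁻¹ := rfl

theorem en_toG {N : O} (g : Gam0 N) (i j : Fin 2) : en (toG g) i j = g.val.val i j := rfl

theorem toG_surj {N : O} (g : G N) : ∃ g', toG (N := N) g' = g := ⟨g, rfl⟩

theorem toG_fin {N : O} (g : Gam0 N) : IsOfFinOrder (toG g) ↔ IsOfFinOrder g := Iff.rfl

end

section
variable {O : Type} [CommRing O] [IsDomain O] [Ring.HasFiniteQuotients O]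

/-- the Hecke operator through any system of representatives -/
theorem hecke_formula (N π : O) (hπ : π ≠ 0) {X : Type} [Fintype X] (t : X → Gam0 N)
    (hcov : ∀ g : Gam0 N, ∃ x, π ∣ ((t x)⁻¹ * g).val.val 0 1)
    (hsep : ∀ x y, π ∣ ((t x)⁻¹ * t y).val.val 0 1 → x = y)
    (h : HY N) (γ : Gam0 N) (σ : X → X) (g' : X → Gam0 N)
    (hstep : ∀ x, γ.val.val * (t x).val.val * PM π =
      (t (σ x)).val.val * PM π * (g' x).val.val) :
    (T N π hπ h).val (toG γ) = ∑ x, h.val (toG (g' x)) := by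
  have := hsub_fin N π hπ
  have hc0 : ∀ x, ((t (σ x))⁻¹ * γ * t x).val.val * PM π = PM π * (g' x).val.val := by
    intro x
    have := hstep x
    have h2 : ((t (σ x))⁻¹ * γ * t x).val.val =
      (t (σ x)).val⁻¹.val * (γ.val.val * (t x).val.val) := by
      simp [mul_assoc]
    rw [h2, mul_assoc, this, ← mul_assoc, ← mul_assoc, Units.inv_mul, one_mul]
  have hc1 : ∀ x, ((t (σ x))⁻¹ * γ * t x).val.val 0 0 = (g' x).val.val 0 0 ∧
      ((t (σ x))⁻¹ * γ * t x).val.val 0 1 = π * (g' x).val.val 0 1 ∧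
      (g' x).val.val 1 0 = π * ((t (σ x))⁻¹ * γ * t x).val.val 1 0 ∧
      ((t (σ x))⁻¹ * γ * t x).val.val 1 1 = (g' x).val.val 1 1 := by
    intro x
    have := hc0 x
    generalize ((t (σ x))⁻¹ * γ * t x).val.val = M at this ⊢
    generalize (g' x).val.val = M' at this ⊢
    have h00 := congrFun (congrFun this 0) 0
    have h01 := congrFun (congrFun this 0) 1
    have h10 := congrFun (congrFun this 1) 0
    have h11 := congrFun (congrFun this 1) 1
    simp only [PM, Matrix.mul_apply, Fin.sum_univ_two, Matrix.of_apply, Matrix.cons_val',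
      Matrix.cons_val_zero, Matrix.cons_val_one, Matrix.cons_val_fin_one, mul_zero, zero_mul,
      mul_one, one_mul, add_zero, zero_add] at h00 h01 h10 h11
    refine ⟨?_, h01, ?_, h11⟩
    · apply mul_left_cancel₀ hπ
      rw [← h00, mul_comm]
    · rw [← h10, mul_comm]
  have hmem : ∀ x, toG ((t (σ x))⁻¹ * γ * t x) ∈ Hsub N π := by
    intro x
    exact (Dvd.intro _ (hc1 x).2.1.symm : π ∣ _)
  have key := transfer_formula (H := Hsub N π)
    (h.hom.comp (theta N π hπ)) (fun x => toG (t x)) (fun g => by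
      obtain ⟨x, hx⟩ := hcov g
      exact ⟨x, hx⟩) (fun x y hxy => hsep x y hxy) (toG γ) σ
    (fun x => ⟨toG ((t (σ x))⁻¹ * γ * t x), hmem x⟩) (fun x => by
      change toG γ * toG (t x) = toG (t (σ x)) * toG ((t (σ x))⁻¹ * γ * t x)
      rw [← toG_mul, ← toG_mul, mul_assoc (t (σ x))⁻¹, mul_inv_cancel_left])
  have hth : ∀ x, theta N π hπ ⟨toG ((t (σ x))⁻¹ * γ * t x), hmem x⟩ = toG (g' x) := by
    intro x
    have h1 := thetaFun_spec N π hπ ⟨toG ((t (σ x))⁻¹ * γ * t x), hmem x⟩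
    refine h1.unique hπ ?_
    obtain ⟨b1, b2, b3, b4⟩ := hc1 x
    exact ⟨b1.symm, b2, b3, b4.symm⟩
  change Multiplicative.toAdd (MonoidHom.transfer (h.hom.comp (theta N π hπ)) (toG γ)) = _
  rw [key, toAdd_prod]
  refine Finset.sum_congr rfl fun x _ => ?_
  rw [← hth x]
  rfl

end

section frames

variable {O : Type} [CommRing O] [IsDomain O] [IsPrincipalIdealRing O]

omit [IsDomain O] in
theorem fex_coprime [IsDomain O] {π a : O} (hπ : Prime π) (ha : ¬ π ∣ a) :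
    ∃ x y : O, x * π + y * a = 1 := by
  have h := (Prime.coprime_iff_not_dvd hπ).2 ha
  obtain ⟨x, y, h⟩ := h
  exact ⟨x, y, h⟩

omit [IsDomain O] [IsPrincipalIdealRing O] in
theorem fex_up_mem (N z : O) : up z ∈ Gam0 N := by
  rw [mem_Gam0]
  simp [up]

/-- the element used for the line `(1 : 0)` -/
def fexEl (N π al be : O) (h : al * π + be * N = 1) : GL (Fin 2) O :=
  mk2 al (-be) N π 1 (by rw [Units.val_one, ← h]; ring)

omit [IsDomain O] [IsPrincipalIdealRing O] in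
theorem fexEl_mem (N π al be : O) (h : al * π + be * N = 1) : fexEl N π al be h ∈ Gam0 N := by
  rw [mem_Gam0]
  simp [fexEl]

omit [IsDomain O] [IsPrincipalIdealRing O] in
theorem fex_mul01 (a b : GL (Fin 2) O) :
    (a * b).val 0 1 = a.val 0 0 * b.val 0 1 + a.val 0 1 * b.val 1 1 := by
  rw [Units.val_mul, Matrix.mul_apply, Fin.sum_univ_two]

omit [IsDomain O] [IsPrincipalIdealRing O] in
theorem fex_up_inv (z : O) (g : GL (Fin 2) O) :
    ((up z)⁻¹ * g).val 0 1 = g.val 0 1 - z * g.val 1 1 := by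
  rw [fex_mul01]
  change ((1⁻¹ : Oˣ) : O) * 1 * g.val 0 1 + -(((1⁻¹ : Oˣ) : O) * z) * g.val 1 1 = _
  simp
  ring

omit [IsDomain O] [IsPrincipalIdealRing O] in
theorem fexEl_inv (N π al be : O) (h : al * π + be * N = 1) (g : GL (Fin 2) O) :
    ((fexEl N π al be h)⁻¹ * g).val 0 1 = π * g.val 0 1 + be * g.val 1 1 := by
  rw [fex_mul01]
  change ((1⁻¹ : Oˣ) : O) * π * g.val 0 1 + -(((1⁻¹ : Oˣ) : O) * (-be)) * g.val 1 1 = _
  simp

omit [IsDomain O] [IsPrincipalIdealRing O] in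
theorem fex_trans {π : O} {a b g : GL (Fin 2) O} (h1 : π ∣ (a⁻¹ * b).val 0 1)
    (h2 : π ∣ (b⁻¹ * g).val 0 1) : π ∣ (a⁻¹ * g).val 0 1 := by
  have h3 : (a⁻¹ * b) * (b⁻¹ * g) ∈ GamUp π :=
    mul_mem (mem_GamUp.2 h1) (mem_GamUp.2 h2)
  have h4 : (a⁻¹ * b) * (b⁻¹ * g) = a⁻¹ * g := by group
  rw [h4] at h3
  exact mem_GamUp.1 h3

/-- `Γ₀(N) ∩ Γ⁰(π)` in `Γ₀(N)` -/
def HeckeSub (N π : O) : Subgroup (Gam0 N) := (GamUp π).subgroupOf (Gam0 N)

omit [IsPrincipalIdealRing O] in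
theorem heckeSub_fin [Ring.HasFiniteQuotients O] (N π : O) (hπ : π ≠ 0) :
    (HeckeSub N π).FiniteIndex := hsub_fin N π hπ

/-- representatives in `Γ₀(N)` of `Γ₀(N)/(Γ₀(N) ∩ Γ⁰(π))` -/
noncomputable def fexT (N π : O) (x : Gam0 N ⧸ HeckeSub N π) : Gam0 N := Quotient.out x

omit [IsDomain O] [IsPrincipalIdealRing O] in
theorem fexT_mk (N π : O) (τ : Gam0 N) :
    π ∣ ((fexT N π (QuotientGroup.mk τ))⁻¹ * τ).val.val 0 1 := by
  have h : (QuotientGroup.mk (fexT N π (QuotientGroup.mk τ)) : Gam0 N ⧸ HeckeSub N π) =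
      QuotientGroup.mk τ := Quotient.out_eq _
  rw [QuotientGroup.eq] at h
  exact h

omit [IsDomain O] [IsPrincipalIdealRing O] in
theorem fexT_sep (N π : O) (x y : Gam0 N ⧸ HeckeSub N π)
    (h : π ∣ ((fexT N π x)⁻¹ * fexT N π y).val.val 0 1) : x = y := by
  have h1 : (QuotientGroup.mk (fexT N π x) : Gam0 N ⧸ HeckeSub N π) =
      QuotientGroup.mk (fexT N π y) := by
    rw [QuotientGroup.eq]
    exact h
  rw [← Quotient.out_eq x, ← Quotient.out_eq y]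
  exact h1

/-- `Γ₀(N)` acts transitively on the lines modulo `π` -/
theorem fex_cover (N π : O) (hπ : Prime π) (hN : ¬ π ∣ N) (g : GL (Fin 2) O) :
    ∃ τ : Gam0 N, π ∣ (τ.val⁻¹ * g).val 0 1 := by
  by_cases hq : π ∣ g.val 1 1
  · obtain ⟨al, be, h⟩ := fex_coprime hπ hN
    refine ⟨⟨fexEl N π al be h, fexEl_mem N π al be h⟩, ?_⟩
    rw [fexEl_inv]
    exact dvd_add (Dvd.intro _ rfl) (hq.mul_left _)
  · obtain ⟨a, b, h⟩ := fex_coprime hπ hq
    refine ⟨⟨up (g.val 0 1 * b), fex_up_mem _ _⟩, ?_⟩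
    rw [fex_up_inv]
    refine ⟨g.val 0 1 * a, ?_⟩
    linear_combination (-g.val 0 1) * h

/-- the conjugated version of `fex_cover` -/
theorem fex_coverD (f π : O) (hπ : Prime π) (hN : ¬ π ∣ f) (g : GL (Fin 2) O) :
    ∃ τ : Gam0 (f ^ 2), π ∣ ((dconj f τ)⁻¹ * g).val 0 1 := by
  have hN2 : ¬ π ∣ f ^ 2 := fun h => hN (hπ.dvd_of_dvd_pow h)
  by_cases hq : π ∣ g.val 1 1
  · obtain ⟨al, be, h⟩ := fex_coprime hπ hN2
    refine ⟨⟨fexEl (f ^ 2) π al be h, fexEl_mem _ π al be h⟩, ?_⟩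
    set τ : Gam0 (f ^ 2) := ⟨fexEl (f ^ 2) π al be h, fexEl_mem _ π al be h⟩ with hτ
    obtain ⟨-, h2, -, h4, -⟩ := dconj_spec f τ
    rw [fex_mul01]
    have e1 : ((dconj f τ)⁻¹).val 0 0 = ((Matrix.GeneralLinearGroup.det τ.val)⁻¹ : Oˣ) *
        (dconj f τ).val 1 1 := rfl
    rw [e1, h4]
    have e3 : τ.val.val 1 1 = π := rfl
    rw [e3]
    exact dvd_add ⟨(((Matrix.GeneralLinearGroup.det τ.val)⁻¹ : Oˣ) : O) * g.val 0 1, by ring⟩
      (hq.mul_left _)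
  · have hfq : ¬ π ∣ f * g.val 1 1 := fun h => (hπ.dvd_or_dvd h).elim hN hq
    obtain ⟨a, b, h⟩ := fex_coprime hπ hfq
    refine ⟨⟨up (g.val 0 1 * b), fex_up_mem _ _⟩, ?_⟩
    set τ : Gam0 (f ^ 2) := ⟨up (g.val 0 1 * b), fex_up_mem _ _⟩ with hτ
    obtain ⟨-, h2, -, h4, -⟩ := dconj_spec f τ
    rw [fex_mul01]
    have e1 : ((dconj f τ)⁻¹).val 0 0 = ((Matrix.GeneralLinearGroup.det τ.val)⁻¹ : Oˣ) *
        (dconj f τ).val 1 1 := rfl
    have e2 : ((dconj f τ)⁻¹).val 0 1 = -(((Matrix.GeneralLinearGroup.det τ.val)⁻¹ : Oˣ) *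
        (dconj f τ).val 0 1) := rfl
    rw [e1, e2, h4, h2]
    have e3 : τ.val.val 1 1 = 1 := rfl
    have e4 : τ.val.val 0 1 = g.val 0 1 * b := rfl
    rw [e3, e4]
    refine ⟨(((Matrix.GeneralLinearGroup.det τ.val)⁻¹ : Oˣ) : O) * (g.val 0 1 * a), ?_⟩
    linear_combination (-(((Matrix.GeneralLinearGroup.det τ.val)⁻¹ : Oˣ) : O) * g.val 0 1) * h

theorem frames_exist [Ring.HasFiniteQuotients O] (f π : O) (hf : f ≠ 0) (hπ : Prime π)
    (hN : ¬ π ∣ f) :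
    ∃ (X : Type) (_ : Fintype X) (t : X → Gam0 (f ^ 2)) (F FD : Frame π X),
      (∀ x, F.s x = (t x).val) ∧ (∀ x, FD.s x = dconj f (t x)) := by
  have hN2 : ¬ π ∣ f ^ 2 := fun h => hN (hπ.dvd_of_dvd_pow h)
  have hfi := heckeSub_fin (f ^ 2) π hπ.ne_zero
  have : Finite (Gam0 (f ^ 2) ⧸ HeckeSub (f ^ 2) π) := Subgroup.finite_quotient_of_finiteIndex
  have hconj : ∀ s t : Gam0 (f ^ 2), (dconj f s)⁻¹ * dconj f t = dconj f (s⁻¹ * t) := by
    intro s t
    change (dconjHom f hf s)⁻¹ * dconjHom f hf t = dconjHom f hf (s⁻¹ * t)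
    rw [map_mul, map_inv]
  refine ⟨Gam0 (f ^ 2) ⧸ HeckeSub (f ^ 2) π, Fintype.ofFinite _, fexT (f ^ 2) π,
    ⟨fun x => (fexT (f ^ 2) π x).val, ?_, ?_⟩, ⟨fun x => dconj f (fexT (f ^ 2) π x), ?_, ?_⟩,
    fun x => rfl, fun x => rfl⟩
  · intro g
    obtain ⟨τ, hτ⟩ := fex_cover (f ^ 2) π hπ hN2 g
    exact ⟨QuotientGroup.mk τ, fex_trans (fexT_mk (f ^ 2) π τ) hτ⟩
  · intro x y h
    exact fexT_sep (f ^ 2) π x y h
  · intro g
    obtain ⟨τ, hτ⟩ := fex_coverD f π hπ hN g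
    refine ⟨QuotientGroup.mk τ, fex_trans ?_ hτ⟩
    rw [hconj, (dconj_spec f _).2.1]
    exact (fexT_mk (f ^ 2) π τ).mul_left _
  · intro x y h
    rw [hconj, (dconj_spec f _).2.1] at h
    exact fexT_sep (f ^ 2) π x y ((hπ.dvd_or_dvd h).resolve_left hN)

end frames

end SerreT
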