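import Pool.Agent.SerreT.VPROD
import Pool.Agent.Serre.VCRT

/-!
# The joint injectivity statement for the quotients of a principal ideal domain
-/

open Matrix
open scoped QuadraticAlgebra

namespace SerreT

open SerreE (isUnit_mk_of_coprime isLocalRing_quot)

section
variable {O : Type*} [CommRing O] [IsDomain O] [IsPrincipalIdealRing O]

variable {k : Type*} [Field k] [CharP k 3] [IsAlgClosed k]

theorem propV_quot_of (hfin : ∀ f : O, f ≠ 0 → Finite (O ⧸ Ideal.span {f})) (f : O) (hf : f ≠ 0)
    (hf2 : IsCoprime f 3) : PropV (O ⧸ Ideal.span {f}) k := by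
  revert hf hf2
  refine UniqueFactorizationMonoid.induction_on_coprime (P := fun f : O => f ≠ 0 →
    IsCoprime f 3 → PropV (O ⧸ Ideal.span {f}) k) f ?_ ?_ ?_ ?_
  · intro h; exact absurd rfl h
  · intro x hx _ _
    have : Subsingleton (O ⧸ Ideal.span {x}) := by
      rw [Ideal.Quotient.subsingleton_iff, Ideal.span_singleton_eq_top]
      exact hx
    exact propV_subsingleton _
  · intro p i hp _ h2
    rcases i with _ | j
    · have : Subsingleton (O ⧸ Ideal.span {p ^ 0}) := by
        rw [Ideal.Quotient.subsingleton_iff, Ideal.span_singleton_eq_top, pow_zero]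
        exact isUnit_one
      exact propV_subsingleton _
    · have hloc := isLocalRing_quot hp j
      have hne : p ^ (j+1) ≠ 0 := pow_ne_zero _ hp.ne_zero
      have := hfin _ hne
      refine propV_local _ ?_ (Ideal.span {Ideal.Quotient.mk _ (p ^ j)}) ?_ ?_
      · have h3 := isUnit_mk_of_coprime h2.symm
        rwa [map_ofNat] at h3
      · rw [Ne, Ideal.span_singleton_eq_bot, Ideal.Quotient.eq_zero_iff_mem,
          Ideal.mem_span_singleton]
        intro h
        have h4 := (pow_dvd_pow_iff hp.ne_zero hp.not_isUnit).1 h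
        omega
      · intro 𝔞 h𝔞
        rw [Ideal.span_singleton_le_iff_mem]
        obtain ⟨a, ha, ha0⟩ := (Submodule.ne_bot_iff _).1 h𝔞
        obtain ⟨x, rfl⟩ := Ideal.Quotient.mk_surjective a
        have hx0 : x ≠ 0 := by
          intro h; apply ha0; rw [h, map_zero]
        obtain ⟨m, y, hy, hxy⟩ := WfDvdMonoid.max_power_factor hx0 hp.irreducible
        have hmj : m ≤ j := by
          by_contra hlt
          apply ha0
          rw [Ideal.Quotient.eq_zero_iff_mem, Ideal.mem_span_singleton, hxy]
          exact Dvd.dvd.mul_right (pow_dvd_pow _ (by omega)) _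
        have hyu : IsUnit (Ideal.Quotient.mk (Ideal.span {p ^ (j+1)}) y) := by
          apply isUnit_mk_of_coprime
          apply IsCoprime.pow_right
          rw [isCoprime_comm]
          exact (Irreducible.coprime_iff_not_dvd hp.irreducible).2 hy
        obtain ⟨z, hz⟩ := hyu.exists_right_inv
        have h5 : Ideal.Quotient.mk (Ideal.span {p ^ (j+1)}) (p ^ j) =
            Ideal.Quotient.mk (Ideal.span {p ^ (j+1)}) x *
              (z * Ideal.Quotient.mk (Ideal.span {p ^ (j+1)}) (p ^ (j - m))) := by
          have h6 : p ^ j = p ^ m * p ^ (j - m) := by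
            rw [← pow_add]; congr 1; omega
          rw [h6, map_mul, hxy, map_mul]
          linear_combination (-(Ideal.Quotient.mk (Ideal.span {p ^ (j+1)}) (p ^ m) *
            Ideal.Quotient.mk (Ideal.span {p ^ (j+1)}) (p ^ (j - m)))) * hz
        rw [h5]
        exact 𝔞.mul_mem_right _ ha
  · intro x y hxy hx hy h0 h2
    have hx0 : x ≠ 0 := left_ne_zero_of_mul h0
    have hy0 : y ≠ 0 := right_ne_zero_of_mul h0
    have := hfin x hx0
    have := hfin y hy0
    have h3 := propV_prod _ _ (hx hx0 h2.of_mul_left_left) (hy hy0 h2.of_mul_left_right)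
    have hcop : IsCoprime (Ideal.span {x}) (Ideal.span {y}) :=
      (Ideal.isCoprime_span_singleton_iff _ _).2 hxy.isCoprime
    exact propV_equiv _ _ ((Ideal.quotEquivOfEq
      (Ideal.span_singleton_mul_span_singleton x y).symm).trans
      (Ideal.quotientMulEquivQuotientProd _ _ hcop)).symm h3

end

end SerreT
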