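import Pool.Agent.SerreT.PORT1
import Pool.Agent.SerreT.FINO
import Pool.Agent.SerreT.INJ
import Pool.Agent.SerreT.VCRT
import Pool.Agent.Serre.Final

/-!
# From a twisted cocycle to an eigenform
-/

open Matrix
open scoped QuadraticAlgebra

namespace SerreT

open SerreE (mk2 sc dg dgl up low red Gam0 GamUp mem_Gam0 mem_GamUp PM Frame theta_spec dconj
  dconj_spec dconjHom mk2_10 heckeC heckeC_add heckeC_smul compat_finsum_diag
  exists_algHom_of_ker)

/-! ### an abstract lemma on eigencharacters -/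

section abstract

variable {k : Type*} [Field k] {H V : Type*} [AddCommGroup H] [Module k H] [AddCommGroup V]
  [Module k V] {A ι : Type*}

/-- If the functional `ℓ` on `V` is an eigenfunctional of all `S a` and factors through the maps
`h i : V → H` that intertwine `S a` with `T a`, then its eigenvalues define a character of the
algebra generated by the `T a`. -/
theorem exists_eigen (T : A → Module.End k H) (S : A → Module.End k V) (h : ι → V →ₗ[k] H)
    (hST : ∀ i a v, h i (S a v) = T a (h i v)) (ℓ : V →ₗ[k] k) (lam : A → k)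
    (hl : ∀ a v, ℓ (S a v) = lam a * ℓ v) (hinj : ∀ v, (∀ i, h i v = 0) → ℓ v = 0)
    (v₀ : V) (hv₀ : ℓ v₀ ≠ 0) :
    ∃ Φ : Algebra.adjoin k (Set.range T) →ₐ[k] k,
      ∀ a, Φ ⟨T a, Algebra.subset_adjoin ⟨a, rfl⟩⟩ = lam a := by
  let LT : FreeAlgebra k A →ₐ[k] Module.End k H := FreeAlgebra.lift k T
  let LS : FreeAlgebra k A →ₐ[k] Module.End k V := FreeAlgebra.lift k S
  let La : FreeAlgebra k A →ₐ[k] k := FreeAlgebra.lift k lam
  have h1 : ∀ (x : FreeAlgebra k A) (i : ι) (v : V), h i (LS x v) = LT x (h i v) := by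
    intro x
    induction x using FreeAlgebra.induction with
    | grade0 r => intro i v; simp only [AlgHom.commutes, Module.algebraMap_end_apply, map_smul]
    | grade1 a => intro i v; simp only [LS, LT, FreeAlgebra.lift_ι_apply]; exact hST i a v
    | mul x y ihx ihy =>
      intro i v
      rw [map_mul, map_mul, Module.End.mul_apply, Module.End.mul_apply, ihx, ihy]
    | add x y ihx ihy =>
      intro i v
      rw [map_add, map_add, LinearMap.add_apply, LinearMap.add_apply, map_add, ihx, ihy]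
  have h2 : ∀ (x : FreeAlgebra k A) (v : V), ℓ (LS x v) = La x * ℓ v := by
    intro x
    induction x using FreeAlgebra.induction with
    | grade0 r =>
      intro v
      simp only [AlgHom.commutes, Module.algebraMap_end_apply, map_smul, smul_eq_mul]
      rfl
    | grade1 a => intro v; simp only [LS, La, FreeAlgebra.lift_ι_apply]; exact hl a v
    | mul x y ihx ihy =>
      intro v
      rw [map_mul, map_mul, Module.End.mul_apply, ihx, ihy]; ring
    | add x y ihx ihy =>
      intro v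
      rw [map_add, map_add, LinearMap.add_apply, map_add, ihx, ihy]; ring
  have key : ∀ x y, LT x = LT y → La x = La y := by
    intro x y hxy
    have h3 : ℓ (LS x v₀ - LS y v₀) = 0 := by
      apply hinj
      intro i
      rw [map_sub, h1, h1, hxy, sub_self]
    rw [map_sub, h2, h2, ← sub_mul] at h3
    exact sub_eq_zero.mp ((mul_eq_zero.mp h3).resolve_right hv₀)
  have hmem : ∀ x, LT x ∈ Algebra.adjoin k (Set.range T) := by
    intro x
    rw [Algebra.adjoin_range_eq_range_freeAlgebra_lift]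
    exact ⟨x, rfl⟩
  let Lr : FreeAlgebra k A →ₐ[k] Algebra.adjoin k (Set.range T) := LT.codRestrict _ hmem
  have hsurj : Function.Surjective Lr := by
    rintro ⟨y, hy⟩
    have hy' := hy
    rw [Algebra.adjoin_range_eq_range_freeAlgebra_lift] at hy'
    obtain ⟨x, hx⟩ := hy'
    exact ⟨x, Subtype.ext hx⟩
  obtain ⟨Φ, hΦ⟩ := exists_algHom_of_ker Lr La hsurj
    (fun x y hxy => key x y (congrArg Subtype.val hxy))
  refine ⟨Φ, fun a => ?_⟩
  have e : (⟨T a, Algebra.subset_adjoin ⟨a, rfl⟩⟩ : Algebra.adjoin k (Set.range T)) =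
      Lr (FreeAlgebra.ι k a) := by
    apply Subtype.ext
    change T a = LT (FreeAlgebra.ι k a)
    simp [LT]
  rw [e, hΦ]
  simp [La]

end abstract

section
variable {O : Type} [CommRing O] [IsDomain O] {k : Type} [Field k]

omit [IsDomain O] in
theorem heckeC_isCoc [IsDomain O] {π : O} {X : Type} [Fintype X] (F : Frame π X) (hπ : π ≠ 0)
    (f : O) (ϖ : (O ⧸ Ideal.span {f})ˣ)
    (hϖ : (ϖ : O ⧸ Ideal.span {f}) = Ideal.Quotient.mk _ π)
    (χ : (Ti (O ⧸ Ideal.span {f}))ˣ →* kˣ)
    (C : GL (Fin 2) O → GL (Fin 2) (O ⧸ Ideal.span {f}) → k) (hC : IsCoc f χ C) :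
    IsCoc f χ (heckeC F f ϖ C) := by
  constructor
  · intro γ γ' y
    unfold heckeC
    have h1 : ∑ x, C (F.gam γ x) ((red f (F.s (F.act γ x)) * dgl ϖ)⁻¹ * y) =
        ∑ x, C (F.gam γ (F.act γ' x)) ((red f (F.s (F.act γ (F.act γ' x))) * dgl ϖ)⁻¹ * y) :=
      ((F.act_bijective hπ γ').sum_comp
        (fun x => C (F.gam γ x) ((red f (F.s (F.act γ x)) * dgl ϖ)⁻¹ * y))).symm
    rw [h1, ← Finset.sum_add_distrib]
    refine Finset.sum_congr rfl fun x _ => ?_
    rw [(F.act_mul hπ γ γ' x).1, (F.act_mul hπ γ γ' x).2, hC.coc]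
    congr 2
    have h2 := F.step_red ϖ hϖ (F.step_act hπ γ (F.act γ' x))
    rw [← mul_assoc, ← _root_.mul_inv_rev, ← h2, _root_.mul_inv_rev, mul_assoc]
  · intro u y
    unfold heckeC
    refine Finset.sum_eq_zero fun x _ => ?_
    rw [(F.act_sc hπ u x).2, hC.scal]
  · intro γ y t
    unfold heckeC
    rw [Finset.mul_sum]
    refine Finset.sum_congr rfl fun x _ => ?_
    rw [← mul_assoc, hC.equi]

end

section compat

variable {O : Type} [CommRing O] [IsDomain O] [IsPrincipalIdealRing O] [Ring.HasFiniteQuotients O]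

omit [IsPrincipalIdealRing O] [Ring.HasFiniteQuotients O] in
theorem red_dconj (f : O) (t : Gam0 (f ^ 2)) :
    (red f (dconj f t)).val 0 1 = 0 ∧ (red f (dconj f t)).val 1 0 = 0 := by
  obtain ⟨-, h2, -, -, h5⟩ := dconj_spec f t
  exact red_diag (by rw [h2]; exact Dvd.intro _ rfl) h5

/-- the function `h_a(γ) = Σ_r C(DγD⁻¹, diag(1,r) a)` on `Γ₀(f²)`. -/
noncomputable def hfun (f : O) (C : GL (Fin 2) O → GL (Fin 2) (O ⧸ Ideal.span {f}) → FF)
    (a : GL (Fin 2) (O ⧸ Ideal.span {f})) (γ : Gam0 (f ^ 2)) : FF :=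
  ∑ᶠ r : (O ⧸ Ideal.span {f})ˣ, C (dconj f γ) (dg r * a)

omit [IsPrincipalIdealRing O] in
theorem hfun_isCls (hroot : ∀ z : O, z ^ 2 + z + 1 ≠ 0) (f : O) (hf : f ≠ 0) (hfu : ¬ IsUnit f)
    (hf3 : IsCoprime f 3) (χ : (Ti (O ⧸ Ideal.span {f}))ˣ →* FFˣ) (hscal : ∀ u, χ (tiC u) = 1)
    (C : GL (Fin 2) O → GL (Fin 2) (O ⧸ Ideal.span {f}) → FF) (hC : IsCoc f χ C)
    (a : GL (Fin 2) (O ⧸ Ideal.span {f})) :
    IsCls (f ^ 2) (fun g : G (f ^ 2) => hfun f C a g) := by
  have : Finite (O ⧸ Ideal.span {f}) := fin_quot hf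
  have : Finite (O ⧸ Ideal.span {f})ˣ := inferInstance
  have hadd : ∀ γ γ' : Gam0 (f ^ 2), hfun f C a (γ * γ') = hfun f C a γ + hfun f C a γ' := by
    intro γ γ'
    have hm : dconj f (γ * γ') = dconj f γ * dconj f γ' := (dconjHom f hf).map_mul γ γ'
    unfold hfun
    have e1 : ∀ r : (O ⧸ Ideal.span {f})ˣ, C (dconj f (γ * γ')) (dg r * a) =
        C (dconj f γ) (dg r * a) + C (dconj f γ') ((red f (dconj f γ))⁻¹ * (dg r * a)) := by
      intro r
      rw [hm, hC.coc]
    rw [finsum_congr e1, finsum_add_distrib (Set.toFinite _) (Set.toFinite _)]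
    congr 1
    exact compat_finsum_diag _ (red_dconj f γ).1 (red_dconj f γ).2 (fun y => C (dconj f γ') y)
      (fun u y => sc_left hC hscal _ u y) a
  refine ⟨fun x y => hadd x y, fun g hg => ?_⟩
  have hfo : IsOfFinOrder (dconj f g) := by
    have := MonoidHom.isOfFinOrder (dconjHom f hf) (x := (g : Gam0 (f ^ 2))) hg
    exact this
  obtain ⟨-, h2, -, -, h5⟩ := dconj_spec f g
  exact fino hroot f hfu hf3 χ hscal C hC (dconj f g) (by rw [h2]; exact Dvd.intro _ rfl) h5 hfo a

omit [IsPrincipalIdealRing O] [Ring.HasFiniteQuotients O] in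
/-- the steps of the conjugated frame. -/
theorem step_dconj (f π : O) (hf : f ≠ 0) {X : Type} (t : X → Gam0 (f ^ 2))
    (FD : Frame π X) (hFD : ∀ x, FD.s x = dconj f (t x)) (γ : Gam0 (f ^ 2)) (x y : X)
    (g : Gam0 (f ^ 2))
    (h : γ.val.val * (t x).val.val * PM π = (t y).val.val * PM π * g.val.val) :
    FD.Step (dconj f γ) x y (dconj f g) := by
  unfold Frame.Step
  rw [hFD, hFD]
  obtain ⟨a1, a2, a3, a4, -⟩ := dconj_spec f γ
  obtain ⟨b1, b2, b3, b4, -⟩ := dconj_spec f (t x)
  obtain ⟨c1, c2, c3, c4, -⟩ := dconj_spec f (t y)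
  obtain ⟨d1, d2, d3, d4, -⟩ := dconj_spec f g
  have h00 := congrFun (congrFun h 0) 0
  have h01 := congrFun (congrFun h 0) 1
  have h10 := congrFun (congrFun h 1) 0
  have h11 := congrFun (congrFun h 1) 1
  simp only [Matrix.mul_apply, Fin.sum_univ_two, PM, Matrix.of_apply, Matrix.cons_val',
    Matrix.cons_val_zero, Matrix.cons_val_one, Matrix.cons_val_fin_one, mul_zero, mul_one,
    add_zero, zero_add] at h00 h01 h10 h11
  apply Matrix.ext
  intro i j
  fin_cases i <;> fin_cases j <;>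
    simp only [Matrix.mul_apply, Fin.sum_univ_two, PM, Matrix.of_apply, Matrix.cons_val',
      Matrix.cons_val_zero, Matrix.cons_val_one, Matrix.cons_val_fin_one, mul_zero, mul_one,
      add_zero, zero_add, Fin.zero_eta, Fin.mk_one, Fin.isValue]
  · rw [a1, a2, b1, c1, c2, d1]
    rw [b3, d3] at h00
    linear_combination h00
  · rw [a1, a2, b2, b4, c1, c2, d2, d4]
    linear_combination f * h01
  · apply mul_left_cancel₀ hf
    rw [a3, b3, c3, d3] at h10
    rw [a4, b1, c4, d1]
    linear_combination h10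
  · rw [a4, b2, b4, c4, d2, d4]
    rw [a3, c3] at h11
    linear_combination h11

omit [IsPrincipalIdealRing O] in
theorem hfun_hecke (f π : O) (hf : f ≠ 0) (hπ : Prime π)
    (ϖ : (O ⧸ Ideal.span {f})ˣ)
    (χ : (Ti (O ⧸ Ideal.span {f}))ˣ →* FFˣ) (hscal : ∀ u, χ (tiC u) = 1)
    (C : GL (Fin 2) O → GL (Fin 2) (O ⧸ Ideal.span {f}) → FF) (hC : IsCoc f χ C)
    (a : GL (Fin 2) (O ⧸ Ideal.span {f})) {X : Type} [Fintype X] (t : X → Gam0 (f ^ 2))
    (F FD : Frame π X) (hF : ∀ x, F.s x = (t x).val) (hFD : ∀ x, FD.s x = dconj f (t x))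
    (h : HY (f ^ 2)) (hh : ∀ γ : Gam0 (f ^ 2), h.val (toG γ) = hfun f C a γ) (γ : Gam0 (f ^ 2)) :
    (T (f ^ 2) π hπ.ne_zero h).val (toG γ) = hfun f (heckeC FD f ϖ C) a γ := by
  have : Finite (O ⧸ Ideal.span {f}) := fin_quot hf
  have : Finite (O ⧸ Ideal.span {f})ˣ := inferInstance
  have hstep := fun x => F.step_act hπ.ne_zero γ.val x
  have hmem : ∀ x, F.gam γ.val x ∈ Gam0 (f ^ 2) := by
    intro x
    have hs := hstep x
    unfold Frame.Step at hs
    -- `m = s_y⁻¹ γ s_x` is in `Γ₀(f²)` and `m diag(π,1) = diag(π,1) g'`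
    set y := F.act γ.val x with hy
    set m : Gam0 (f ^ 2) := (t y)⁻¹ * γ * t x with hm
    have e1 : m.val.val * PM π = PM π * (F.gam γ.val x).val := by
      have e2 : (F.s y)⁻¹.val * (F.s y).val = 1 := by
        rw [← Units.val_mul]; simp
      calc m.val.val * PM π = (F.s y)⁻¹.val * (γ.val.val * (F.s x).val * PM π) := by
            rw [hm, hF, hF]; simp only [Subgroup.coe_mul, Units.val_mul, mul_assoc,
              Subgroup.coe_inv]
        _ = (F.s y)⁻¹.val * ((F.s y).val * PM π * (F.gam γ.val x).val) := by rw [hs]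
        _ = PM π * (F.gam γ.val x).val := by
            rw [mul_assoc (F.s y).val, ← mul_assoc (F.s y)⁻¹.val, e2, one_mul]
    have h10 := congrFun (congrFun e1 1) 0
    simp only [Matrix.mul_apply, Fin.sum_univ_two, PM, Matrix.of_apply, Matrix.cons_val',
      Matrix.cons_val_zero, Matrix.cons_val_one, Matrix.cons_val_fin_one, mul_zero, zero_mul,
      one_mul, add_zero, zero_add] at h10
    rw [mem_Gam0, ← h10]
    exact Dvd.dvd.mul_right (mem_Gam0.mp m.2) _
  have hst : ∀ x, γ.val.val * (t x).val.val * PM π =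
      (t (F.act γ.val x)).val.val * PM π *
        ((⟨F.gam γ.val x, hmem x⟩ : Gam0 (f ^ 2))).val.val := by
    intro x
    have hs := hstep x
    unfold Frame.Step at hs
    rw [hF, hF] at hs
    exact hs
  rw [hecke_formula (f ^ 2) π hπ.ne_zero t
    (fun g => by
      obtain ⟨x, hx⟩ := F.cover g.val
      refine ⟨x, ?_⟩
      rw [hF] at hx
      exact hx)
    (fun x y hxy => by
      apply F.sep
      rw [hF, hF]
      exact hxy)
    h γ (F.act γ.val) (fun x => ⟨F.gam γ.val x, hmem x⟩) hst]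
  simp only [hh]
  have hact : ∀ x, FD.act (dconj f γ) x = F.act γ.val x ∧
      FD.gam (dconj f γ) x = dconj f ⟨F.gam γ.val x, hmem x⟩ := by
    intro x
    exact FD.act_eq hπ.ne_zero (step_dconj f π hf t FD hFD γ x _ _ (hst x))
  unfold hfun heckeC
  rw [finsum_sum_comm]
  · apply Finset.sum_congr rfl
    intro x _
    rw [(hact x).1, (hact x).2, hFD]
    have hd := red_dconj f (t (F.act γ.val x))
    symm
    apply compat_finsum_diag (red f (dconj f (t (F.act γ.val x))) * dgl ϖ) ?_ ?_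
      (fun y => C (dconj f ⟨F.gam γ.val x, hmem x⟩) y)
      (fun u y => sc_left hC hscal _ u y) a
    · simp only [Units.val_mul, Matrix.mul_apply, Fin.sum_univ_two, hd.1, dgl]
      simp
    · simp only [Units.val_mul, Matrix.mul_apply, Fin.sum_univ_two, hd.2, dgl]
      simp
  · intro x _
    exact Set.toFinite _

end compat

end SerreT
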