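import Pool.Agent.SerreT.PORT2

/-!
# From a twisted cocycle to an eigenform: conclusion
-/

open Matrix
open scoped QuadraticAlgebra

namespace SerreT

open SerreE (mk2 sc dg dgl up low red Gam0 GamUp mem_Gam0 mem_GamUp PM Frame theta_spec dconj
  dconj_spec dconjHom mk2_10 heckeC heckeC_add heckeC_smul)

section core

variable {O : Type} [CommRing O]

/-- the data attached to a good prime. -/
structure HData (f π : O) where
  X : Type
  fin : Fintype X
  t : X → Gam0 (f ^ 2)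
  F : Frame π X
  FD : Frame π X
  hF : ∀ x, F.s x = (t x).val
  hFD : ∀ x, FD.s x = dconj f (t x)
  ϖ : (O ⧸ Ideal.span {f})ˣ
  hϖ : (ϖ : O ⧸ Ideal.span {f}) = Ideal.Quotient.mk _ π

theorem not_dvd_f {f π : O} (hπ : ¬ π ∣ 3 * f ^ 2) : ¬ π ∣ f := fun h =>
  hπ (Dvd.dvd.mul_left (Dvd.dvd.trans h (Dvd.intro_left f (by ring))) _)

variable (f : O) (χ : (Ti (O ⧸ Ideal.span {f}))ˣ →* FFˣ)

/-- the space of twisted cocycles -/
def Hsp : Submodule FF (GL (Fin 2) O → GL (Fin 2) (O ⧸ Ideal.span {f}) → FF) where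
  carrier := {C | IsCoc f χ C}
  add_mem' := by
    intro a b ha hb
    refine ⟨fun γ γ' y => ?_, fun u y => ?_, fun γ y t => ?_⟩
    · simp only [Pi.add_apply]; rw [ha.coc, hb.coc]; ring
    · simp only [Pi.add_apply]; rw [ha.scal, hb.scal, add_zero]
    · simp only [Pi.add_apply]; rw [ha.equi, hb.equi]; ring
  zero_mem' := ⟨fun _ _ _ => by simp, fun _ _ => rfl, fun _ _ _ => by simp⟩
  smul_mem' := by
    intro c a ha
    refine ⟨fun γ γ' y => ?_, fun u y => ?_, fun γ y t => ?_⟩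
    · simp only [Pi.smul_apply, smul_eq_mul]; rw [ha.coc]; ring
    · simp only [Pi.smul_apply, smul_eq_mul]; rw [ha.scal, mul_zero]
    · simp only [Pi.smul_apply, smul_eq_mul]; rw [ha.equi]; ring

/-- evaluation at `u` -/
def evalAt (u : GL (Fin 2) O) : Hsp f χ →ₗ[FF] FF where
  toFun C := C.val u 1
  map_add' _ _ := rfl
  map_smul' _ _ := rfl

variable [IsDomain O] [IsPrincipalIdealRing O] [Ring.HasFiniteQuotients O]

omit [Ring.HasFiniteQuotients O] in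
theorem unit_of_good (π : O) (hp : Prime π) (h : ¬ π ∣ f) :
    ∃ ϖ : (O ⧸ Ideal.span {f})ˣ, (ϖ : O ⧸ Ideal.span {f}) = Ideal.Quotient.mk _ π := by
  have hc : IsCoprime π f := (Prime.coprime_iff_not_dvd hp).mpr h
  exact ⟨(SerreE.isUnit_mk_of_coprime hc).unit, rfl⟩

theorem hdata_nonempty (hf : f ≠ 0) (π : GP (f ^ 2)) : Nonempty (HData f π.el) := by
  obtain ⟨X, fin, t, F, FD, hF, hFD⟩ := frames_exist f π.el hf π.prime (not_dvd_f π.not_dvd)
  obtain ⟨ϖ, hϖ⟩ := unit_of_good f π.el π.prime (not_dvd_f π.not_dvd)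
  exact ⟨⟨X, fin, t, F, FD, hF, hFD, ϖ, hϖ⟩⟩

/-- chosen data -/
noncomputable def hdata (hf : f ≠ 0) (π : GP (f ^ 2)) : HData f π.el :=
  Classical.choice (hdata_nonempty f hf π)

/-- the Hecke operator on twisted cocycles -/
noncomputable def heckeH (hf : f ≠ 0) (π : GP (f ^ 2)) : Module.End FF (Hsp f χ) where
  toFun C := letI := (hdata f hf π).fin
    ⟨heckeC (hdata f hf π).FD f (hdata f hf π).ϖ C.val,
      heckeC_isCoc _ π.ne f _ (hdata f hf π).hϖ χ C.val C.2⟩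
  map_add' a b := by
    apply Subtype.ext
    exact @heckeC_add _ _ _ _ (hdata f hf π).fin _ _ _ _ _ _ _
  map_smul' c a := by
    apply Subtype.ext
    exact @heckeC_smul _ _ _ _ (hdata f hf π).fin _ _ _ _ _ _ _

theorem heckeH_val (hf : f ≠ 0) (π : GP (f ^ 2)) (C : Hsp f χ) :
    (heckeH f χ hf π C).val =
      @heckeC _ _ _ _ _ _ (hdata f hf π).fin (hdata f hf π).FD f (hdata f hf π).ϖ C.val := rfl

/-- `h_a` as a linear map -/
noncomputable def hLin (hroot : ∀ z : O, z ^ 2 + z + 1 ≠ 0) (hf : f ≠ 0) (hfu : ¬ IsUnit f)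
    (hf3 : IsCoprime f 3) (hscal : ∀ u, χ (tiC u) = 1)
    (a : GL (Fin 2) (O ⧸ Ideal.span {f})) : Hsp f χ →ₗ[FF] HY (f ^ 2) where
  toFun C := ⟨fun g : G (f ^ 2) => hfun f C.val a g,
    hfun_isCls hroot f hf hfu hf3 χ hscal C.val C.2 a⟩
  map_add' C C' := by
    apply Subtype.ext
    funext g
    have : Finite (O ⧸ Ideal.span {f}) := fin_quot hf
    letI := Fintype.ofFinite (O ⧸ Ideal.span {f})ˣ
    change hfun f (C.val + C'.val) a g = hfun f C.val a g + hfun f C'.val a g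
    simp only [hfun, finsum_eq_sum_of_fintype, Pi.add_apply, Finset.sum_add_distrib]
  map_smul' c C := by
    apply Subtype.ext
    funext g
    have : Finite (O ⧸ Ideal.span {f}) := fin_quot hf
    letI := Fintype.ofFinite (O ⧸ Ideal.span {f})ˣ
    change hfun f (c • C.val) a g = c * hfun f C.val a g
    simp only [hfun, finsum_eq_sum_of_fintype, Pi.smul_apply, smul_eq_mul, Finset.mul_sum]

theorem hLin_val (hroot : ∀ z : O, z ^ 2 + z + 1 ≠ 0) (hf : f ≠ 0) (hfu : ¬ IsUnit f)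
    (hf3 : IsCoprime f 3) (hscal : ∀ u, χ (tiC u) = 1)
    (a : GL (Fin 2) (O ⧸ Ideal.span {f})) (C : Hsp f χ) (γ : Gam0 (f ^ 2)) :
    (hLin f χ hroot hf hfu hf3 hscal a C).val (toG γ) = hfun f C.val a γ := rfl

theorem hLin_hecke (hroot : ∀ z : O, z ^ 2 + z + 1 ≠ 0) (hf : f ≠ 0) (hfu : ¬ IsUnit f)
    (hf3 : IsCoprime f 3) (hscal : ∀ u, χ (tiC u) = 1)
    (a : GL (Fin 2) (O ⧸ Ideal.span {f})) (π : GP (f ^ 2)) (C : Hsp f χ) :
    hLin f χ hroot hf hfu hf3 hscal a (heckeH f χ hf π C) =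
      T (f ^ 2) π.el π.ne (hLin f χ hroot hf hfu hf3 hscal a C) := by
  letI := (hdata f hf π).fin
  apply Subtype.ext
  funext g
  obtain ⟨γ, rfl⟩ := toG_surj g
  exact (hfun_hecke f π.el hf π.prime (hdata f hf π).ϖ χ
    hscal C.val C.2 a (hdata f hf π).t (hdata f hf π).F (hdata f hf π).FD (hdata f hf π).hF
    (hdata f hf π).hFD (hLin f χ hroot hf hfu hf3 hscal a C)
    (hLin_val f χ hroot hf hfu hf3 hscal a C) γ).symm

omit [IsPrincipalIdealRing O] [Ring.HasFiniteQuotients O] in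
theorem dconj_surj (hf : f ≠ 0) (γ : GL (Fin 2) O) (h1 : f ∣ γ.val 0 1) (h2 : f ∣ γ.val 1 0) :
    ∃ γ' : Gam0 (f ^ 2), dconj f γ' = γ := by
  obtain ⟨b, hb⟩ := h1
  obtain ⟨c, hc⟩ := h2
  have hdet : γ.val 0 0 * γ.val 1 1 - b * (f * γ.val 1 0) =
      (Matrix.GeneralLinearGroup.det γ : O) := by
    rw [Matrix.GeneralLinearGroup.val_det_apply, Matrix.det_fin_two, hb]; ring
  refine ⟨⟨mk2 (γ.val 0 0) b (f * γ.val 1 0) (γ.val 1 1) (Matrix.GeneralLinearGroup.det γ) hdet,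
    ?_⟩, ?_⟩
  · rw [mem_Gam0, mk2_10, hc]
    exact ⟨c, by ring⟩
  · set g' : Gam0 (f ^ 2) := ⟨mk2 (γ.val 0 0) b (f * γ.val 1 0) (γ.val 1 1)
      (Matrix.GeneralLinearGroup.det γ) hdet, by
        rw [mem_Gam0, mk2_10, hc]; exact ⟨c, by ring⟩⟩
    obtain ⟨e1, e2, e3, e4, -⟩ := dconj_spec f g'
    apply Matrix.GeneralLinearGroup.ext
    intro i j
    fin_cases i <;> fin_cases j
    · exact e1
    · exact e2.trans hb.symm
    · apply mul_left_cancel₀ hf
      exact e3.symm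
    · exact e4

variable {f χ}

omit [IsDomain O] [IsPrincipalIdealRing O] [Ring.HasFiniteQuotients O] in
theorem isUnit_redTi {w : Ti O} (h : IsCoprime w.norm f) : IsUnit (redTi f w) := by
  rw [QuadraticAlgebra.isUnit_iff_norm_isUnit]
  obtain ⟨a, b, hab⟩ := h
  have e : (redTi f w).norm = Ideal.Quotient.mk _ w.norm := by
    simp [redTi, QuadraticAlgebra.norm_def]
  rw [e]
  refine IsUnit.of_mul_eq_one (Ideal.Quotient.mk _ a) ?_
  rw [← map_mul, ← map_one (Ideal.Quotient.mk (Ideal.span {f})), Ideal.Quotient.eq,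
    Ideal.mem_span_singleton]
  exact ⟨-b, by linear_combination hab⟩

omit [IsDomain O] [Ring.HasFiniteQuotients O] in
theorem coprime_norm [IsDomain O] {w : Ti O} {π : O} (hp : Prime π) (h : ¬ π ∣ f)
    (hw : Associated w.norm π) : IsCoprime w.norm f := by
  have hc : IsCoprime π f := (Prime.coprime_iff_not_dvd hp).mpr h
  obtain ⟨u, hu⟩ := hw
  obtain ⟨a, b, hab⟩ := hc
  exact ⟨a * u, b, by linear_combination hab + a * hu⟩

open Classical in
/-- the eigenvalue -/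
noncomputable def ap (χ : (Ti (O ⧸ Ideal.span {f}))ˣ →* FFˣ) (π : GP (f ^ 2)) : FF :=
  if h : ∃ (w : Ti O) (t : (Ti (O ⧸ Ideal.span {f}))ˣ), Associated w.norm π.el ∧
    t.val = redTi f w then (χ h.choose_spec.choose : FF) + ((χ h.choose_spec.choose)⁻¹ : FFˣ)
  else 0

theorem heckeH_eig (htsq : ∀ π : O, Prime π → ¬ π ∣ 3 → ∀ l, π ∣ l ^ 2 + l + 1 →
      ∃ w : Ti O, Associated w.norm π) (hf : f ≠ 0) (hscal : ∀ u, χ (tiC u) = 1)
    (hJ : ∀ t, iota t = red f th → χ t = 1)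
    (u : GL (Fin 2) O) (hu : u * th = th * u) (tu : (Ti (O ⧸ Ideal.span {f}))ˣ)
    (htu : iota tu = red f u) (hχu : χ tu = 1) (π : GP (f ^ 2)) (C : Hsp f χ) :
    (heckeH f χ hf π C).val u 1 = ap χ π * C.val u 1 := by
  have h3 : ¬ π.el ∣ 3 := fun hd => π.not_dvd (Dvd.dvd.mul_right hd _)
  letI := (hdata f hf π).fin
  rw [heckeH_val]
  by_cases h : ∃ (w : Ti O) (t : (Ti (O ⧸ Ideal.span {f}))ˣ), Associated w.norm π.el ∧
    t.val = redTi f w
  · have e : ap χ π = (χ h.choose_spec.choose : FF) + ((χ h.choose_spec.choose)⁻¹ : FFˣ) := by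
      unfold ap; rw [dif_pos h]
    rw [e]
    exact eig_split (hdata f hf π).FD π.prime h3 f _ (hdata f hf π).hϖ χ hscal hJ C.val C.2 u hu
      tu htu hχu h.choose h.choose_spec.choose_spec.1 _ h.choose_spec.choose_spec.2
  · have e : ap χ π = 0 := by unfold ap; rw [dif_neg h]
    rw [e, zero_mul]
    refine eig_inert (hdata f hf π).FD π.prime f _ (hdata f hf π).hϖ χ hJ C.val C.2 u hu tu
      htu hχu ?_
    intro l hl
    obtain ⟨w, hw⟩ := htsq π.el π.prime h3 l hl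
    exact h ⟨w, (isUnit_redTi (coprime_norm π.prime (not_dvd_f π.not_dvd) hw)).unit, hw, rfl⟩

/-- A twisted cocycle with a non-zero value at an element of the torus gives an eigenform with the
eigenvalues of the dihedral representation. -/
theorem core (hroot : ∀ z : O, z ^ 2 + z + 1 ≠ 0)
    (htsq : ∀ π : O, Prime π → ¬ π ∣ 3 → ∀ l, π ∣ l ^ 2 + l + 1 →
      ∃ w : Ti O, Associated w.norm π) (hf : f ≠ 0) (hfu : ¬ IsUnit f)
    (hf3 : IsCoprime f 3) (hscal : ∀ u, χ (tiC u) = 1)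
    (hJ : ∀ t, iota t = red f th → χ t = 1)
    (hprim : ∀ 𝔞 : Ideal (O ⧸ Ideal.span {f}), 𝔞 ≠ ⊥ →
      ∃ t : (Ti (O ⧸ Ideal.span {f}))ˣ, t.val.re - 1 ∈ 𝔞 ∧ t.val.im ∈ 𝔞 ∧ χ t ^ 2 ≠ 1)
    (hne : χ ^ 2 ≠ 1)
    (u : GL (Fin 2) O) (hu : u * th = th * u) (tu : (Ti (O ⧸ Ideal.span {f}))ˣ)
    (htu : iota tu = red f u) (hχu : χ tu = 1)
    (C : GL (Fin 2) O → GL (Fin 2) (O ⧸ Ideal.span {f}) → FF) (hC : IsCoc f χ C)
    (hCu : C u 1 ≠ 0) :
    ∃ Φ : Eigenform (f ^ 2), ∀ π : GP (f ^ 2),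
      (∀ (w : Ti O) (t : (Ti (O ⧸ Ideal.span {f}))ˣ), Associated w.norm π.el →
        t.val = redTi f w → Φ.ev π = (χ t : FF) + ((χ t)⁻¹ : FFˣ)) ∧
      ((∀ l : O, ¬ π.el ∣ l ^ 2 + l + 1) → Φ.ev π = 0) := by
  have hfin : Finite (O ⧸ Ideal.span {f}) := fin_quot hf
  have hV : PropV (O ⧸ Ideal.span {f}) FF := propV_quot_of (fun g hg => fin_quot hg) f hf hf3
  obtain ⟨Φ, hΦ⟩ := exists_eigen (k := FF) (H := HY (f ^ 2)) (V := Hsp f χ)
    (fun π : GP (f ^ 2) => T (f ^ 2) π.el π.ne)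
    (fun π => heckeH f χ hf π) (fun a => hLin f χ hroot hf hfu hf3 hscal a)
    (fun a π C => hLin_hecke f χ hroot hf hfu hf3 hscal a π C) (evalAt f χ u) (ap χ)
    (fun π C => heckeH_eig htsq hf hscal hJ u hu tu htu hχu π C)
    (fun C hC0 => by
      refine inj f hf hV χ hscal hprim hne C.val C.2 ?_ u tu htu hχu
      intro a γ h1 h2
      obtain ⟨γ', hγ'⟩ := dconj_surj f hf γ h1 h2
      have e1 := congrArg (fun h : HY (f ^ 2) => h.val (toG γ')) (hC0 a)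
      simp only [hLin_val] at e1
      rw [hfun, hγ'] at e1
      exact e1) ⟨C, hC⟩ hCu
  refine ⟨Φ, fun π => ?_⟩
  have hev : Eigenform.ev Φ π = ap χ π := hΦ π
  letI := (hdata f hf π).fin
  have h3 : ¬ π.el ∣ 3 := fun hd => π.not_dvd (Dvd.dvd.mul_right hd _)
  constructor
  · intro w t hw ht
    rw [hev]
    have h1 := heckeH_eig htsq hf hscal hJ u hu tu htu hχu π ⟨C, hC⟩
    rw [heckeH_val, eig_split (hdata f hf π).FD π.prime h3 f _ (hdata f hf π).hϖ χ hscal hJ C hC u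
      hu tu htu hχu w hw t ht] at h1
    exact (mul_right_cancel₀ hCu h1).symm
  · intro hl
    rw [hev]
    have h1 := heckeH_eig htsq hf hscal hJ u hu tu htu hχu π ⟨C, hC⟩
    rw [heckeH_val, eig_inert (hdata f hf π).FD π.prime f _ (hdata f hf π).hϖ χ hJ C hC u
      hu tu htu hχu hl] at h1
    exact (mul_eq_zero.mp h1.symm).resolve_right hCu

end core

end SerreT
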