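import Pool.Agent.SerreT.Defs

open Matrix
open scoped QuadraticAlgebra

namespace SerreT

open SerreE (sc red)

section
variable {O : Type*} [CommRing O] {k : Type*} [Field k]

open Classical in
/-- the cocycle on the induced module attached to `a`. -/
noncomputable def shapC (f : O) (χ : (Ti (O ⧸ Ideal.span {f}))ˣ →* kˣ) (a : GL (Fin 2) O → k)
    (γ : GL (Fin 2) O) (y : GL (Fin 2) (O ⧸ Ideal.span {f})) : k :=
  if h : ∃ (s : GL (Fin 2) O) (t : (Ti (O ⧸ Ideal.span {f}))ˣ), y = red f s * iota t then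
    ((χ h.choose_spec.choose)⁻¹ : kˣ) * (a (h.choose⁻¹ * γ) - a (h.choose⁻¹)) else 0

theorem shapC_eq (f : O) (χ : (Ti (O ⧸ Ideal.span {f}))ˣ →* kˣ) (a : GL (Fin 2) O → k)
    (ha : ∀ (γ : GL (Fin 2) O) t, iota t = red f γ →
      ∀ A, a (γ * A) - χ t * a A = a γ - χ t * a 1)
    (γ s : GL (Fin 2) O) (t : (Ti (O ⧸ Ideal.span {f}))ˣ)
    (y : GL (Fin 2) (O ⧸ Ideal.span {f})) (hy : y = red f s * iota t) :
    shapC f χ a γ y = ((χ t)⁻¹ : kˣ) * (a (s⁻¹ * γ) - a s⁻¹) := by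
  have h : ∃ (s : GL (Fin 2) O) (t : (Ti (O ⧸ Ideal.span {f}))ˣ), y = red f s * iota t :=
    ⟨s, t, hy⟩
  unfold shapC
  rw [dif_pos h]
  set s' := h.choose with hs'
  set t' := h.choose_spec.choose with ht'
  have hy' : y = red f s' * iota t' := h.choose_spec.choose_spec
  have h0 : iota (t' * t⁻¹) = red f (s'⁻¹ * s) := by
    rw [map_mul, map_mul, map_inv, map_inv]
    rw [hy] at hy'
    rw [eq_inv_mul_iff_mul_eq, ← mul_assoc, ← hy', mul_assoc, mul_inv_cancel, mul_one]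
  have h1 := ha (s'⁻¹ * s) (t' * t⁻¹) h0 (s⁻¹ * γ)
  have h2 := ha (s'⁻¹ * s) (t' * t⁻¹) h0 s⁻¹
  have e1 : s'⁻¹ * s * (s⁻¹ * γ) = s'⁻¹ * γ := by group
  have e2 : s'⁻¹ * s * s⁻¹ = s'⁻¹ := by group
  rw [e1] at h1
  rw [e2] at h2
  have h3 : a (s'⁻¹ * γ) - a s'⁻¹ =
      ((χ (t' * t⁻¹) : kˣ) : k) * (a (s⁻¹ * γ) - a s⁻¹) := by
    linear_combination h1 - h2
  rw [h3, map_mul, map_inv]
  have h4 : ((χ t' : kˣ) : k) ≠ 0 := (χ t').ne_zero
  rw [Units.val_mul, Units.val_inv_eq_inv_val, Units.val_inv_eq_inv_val]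
  field_simp

theorem shap (f : O) (χ : (Ti (O ⧸ Ideal.span {f}))ˣ →* kˣ) (a : GL (Fin 2) O → k)
    (hs : ∀ A (u : Oˣ), a (A * sc u) = a A)
    (ha : ∀ (γ : GL (Fin 2) O) t, iota t = red f γ →
      ∀ A, a (γ * A) - χ t * a A = a γ - χ t * a 1) :
    ∃ C : GL (Fin 2) O → GL (Fin 2) (O ⧸ Ideal.span {f}) → k,
      IsCoc f χ C ∧ ∀ γ, C γ 1 = a γ - a 1 := by
  refine ⟨shapC f χ a, ⟨?_, ?_, ?_⟩, ?_⟩
  · intro γ γ' y
    by_cases h : ∃ (s : GL (Fin 2) O) (t : (Ti (O ⧸ Ideal.span {f}))ˣ), y = red f s * iota t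
    · obtain ⟨s, t, hy⟩ := h
      rw [shapC_eq f χ a ha (γ * γ') s t y hy, shapC_eq f χ a ha γ s t y hy,
        shapC_eq f χ a ha γ' (γ⁻¹ * s) t ((red f γ)⁻¹ * y)
          (by rw [hy, map_mul, map_inv, mul_assoc])]
      have e1 : (γ⁻¹ * s)⁻¹ * γ' = s⁻¹ * (γ * γ') := by group
      have e2 : (γ⁻¹ * s)⁻¹ = s⁻¹ * γ := by group
      rw [e1, e2]
      ring
    · have h' : ¬ ∃ (s : GL (Fin 2) O) (t : (Ti (O ⧸ Ideal.span {f}))ˣ),
          (red f γ)⁻¹ * y = red f s * iota t := by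
        rintro ⟨s, t, hy⟩
        exact h ⟨γ * s, t, by rw [map_mul, mul_assoc, ← hy, mul_inv_cancel_left]⟩
      unfold shapC
      rw [dif_neg h, dif_neg h, dif_neg h', add_zero]
  · intro u y
    by_cases h : ∃ (s : GL (Fin 2) O) (t : (Ti (O ⧸ Ideal.span {f}))ˣ), y = red f s * iota t
    · obtain ⟨s, t, hy⟩ := h
      rw [shapC_eq f χ a ha _ s t y hy, hs, sub_self, mul_zero]
    · unfold shapC
      rw [dif_neg h]
  · intro γ y t'
    by_cases h : ∃ (s : GL (Fin 2) O) (t : (Ti (O ⧸ Ideal.span {f}))ˣ), y = red f s * iota t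
    · obtain ⟨s, t, hy⟩ := h
      rw [shapC_eq f χ a ha _ s t y hy, shapC_eq f χ a ha _ s (t * t') (y * iota t')
        (by rw [hy, map_mul, mul_assoc])]
      rw [map_mul, mul_inv, Units.val_mul]
      ring
    · have h' : ¬ ∃ (s : GL (Fin 2) O) (t : (Ti (O ⧸ Ideal.span {f}))ˣ),
          y * iota t' = red f s * iota t := by
        rintro ⟨s, t, hy⟩
        exact h ⟨s, t * t'⁻¹, by rw [map_mul, ← mul_assoc, ← hy, map_inv, mul_inv_cancel_right]⟩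
      unfold shapC
      rw [dif_neg h, dif_neg h', mul_zero]
  · intro γ
    rw [shapC_eq f χ a ha γ 1 1 1 (by simp)]
    simp
end

end SerreT
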