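import Pool.Agent.SerreT.TSQM3
import Pool.Agent.SerreT.PIDM3

/-!
# TSQT3: the tables for the eight fields
-/

namespace SerreT

/-- the norm of `(c + d ω) + (e + f ω) ζ`: real part -/
def uRe (a c d e f : ℤ) : ℤ :=
  c * c + a * (d * d) - (c * e + a * (d * f)) + (e * e + a * (f * f))

/-- `ω`-part -/
def uIm (b c d e f : ℤ) : ℤ :=
  2 * (c * d) + b * (d * d) - (c * f + d * e + b * (d * f)) + (2 * (e * f) + b * (f * f))

theorem norm3_re (a b c d e f : ℤ) :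
    ((⟨⟨c, d⟩, ⟨e, f⟩⟩ : Ti (OD a b)).norm).re = uRe a c d e f := by
  simp [QuadraticAlgebra.norm_def, uRe]
  ring

theorem norm3_im (a b c d e f : ℤ) :
    ((⟨⟨c, d⟩, ⟨e, f⟩⟩ : Ti (OD a b)).norm).im = uIm b c d e f := by
  simp [QuadraticAlgebra.norm_def, uIm]
  ring

/-- the absolute norm -/
def uN (a b c d e f : ℤ) : ℤ :=
  uRe a c d e f * uRe a c d e f + b * (uRe a c d e f * uIm b c d e f)
    - a * (uIm b c d e f * uIm b c d e f)

theorem nrm3_norm (a b c d e f : ℤ) :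
    nrm3 ((⟨⟨c, d⟩, ⟨e, f⟩⟩ : Ti (OD a b)).norm) = uN a b c d e f := by
  rw [nrm3, norm3_re, norm3_im, uN]
  ring

/-- a visible divisor -/
def cmp3 (p : ℕ) : Bool :=
  p < 2 || [2, 3, 5, 7, 11, 13, 17, 19, 23, 29, 31, 37, 41].any fun d => p % d == 0 && p != d

theorem cmp3_spec {p : ℕ} (h : cmp3 p = true) : ¬ p.Prime := by
  intro hp
  rw [cmp3, Bool.or_eq_true] at h
  rcases h with h | h
  · have := hp.two_le
    simp at h
    omega
  · rw [List.any_eq_true] at h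
    obtain ⟨d, hd, h⟩ := h
    rw [Bool.and_eq_true, beq_iff_eq, bne_iff_ne] at h
    obtain ⟨h1, h2⟩ := h
    have h3 : d ∣ p := Nat.dvd_of_mod_eq_zero h1
    rcases (Nat.dvd_prime hp).mp h3 with h4 | h4
    · subst h4
      revert hd
      decide
    · exact h2 h4.symm

/-- `x` is a root modulo `p` of `x² - b x + m` -/
def isRt (m b p x : ℕ) : Bool :=
  (x * x + b * ((p - 1) * x) + m) % p == 0

theorem isRt_iff (m b p x : ℕ) (hp : p ≠ 0) :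
    isRt m b p x = true ↔ (p : ℤ) ∣ (x : ℤ) ^ 2 - b * x - (-(m : ℤ)) := by
  rw [isRt, beq_iff_eq, ← Nat.dvd_iff_mod_eq_zero, ← Int.natCast_dvd_natCast]
  have h1 : ((p - 1 : ℕ) : ℤ) = (p : ℤ) - 1 := by
    have : 1 ≤ p := Nat.one_le_iff_ne_zero.mpr hp
    push_cast [Nat.cast_sub this]
    ring
  push_cast [h1]
  have h2 : (x : ℤ) * x + (b : ℤ) * (((p : ℤ) - 1) * x) + m
      = ((x : ℤ) ^ 2 - b * x - (-(m : ℤ))) + p * (b * x) := by
    ring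
  rw [h2]
  exact Int.dvd_add_left (dvd_mul_right _ _)

/-- no root modulo `p` -/
def noRoot3 (m b p : ℕ) : Bool :=
  p != 0 && (List.range p).all fun x => !(isRt m b p x)

theorem noRoot3_spec {m b p : ℕ} (h : noRoot3 m b p = true) (x : ℤ) :
    ¬ (p : ℤ) ∣ x ^ 2 - b * x - (-(m : ℤ)) := by
  rw [noRoot3, Bool.and_eq_true, bne_iff_ne, List.all_eq_true] at h
  obtain ⟨h0, h⟩ := h
  intro hx
  have hp0 : (p : ℤ) ≠ 0 := by exact_mod_cast h0
  have hpos : (0 : ℤ) < p := by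
    have := Nat.pos_of_ne_zero h0
    exact_mod_cast this
  have e1 : ((x % p).toNat : ℤ) = x % p := Int.toNat_of_nonneg (Int.emod_nonneg _ hp0)
  have e2 : (x % p).toNat < p := by
    have := Int.emod_lt_of_pos x hpos
    omega
  have e3 := h (x % p).toNat (List.mem_range.mpr e2)
  rw [Bool.not_eq_true', ← Bool.not_eq_true] at e3
  apply e3
  rw [isRt_iff _ _ _ _ h0, e1]
  have e4 : x = x % p + p * (x / p) := (Int.emod_add_mul_ediv x p).symm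
  set r := x % p with hr
  set k := x / p with hk
  rw [e4] at hx
  have e5 : (r + p * k) ^ 2 - b * (r + p * k) - (-(m : ℤ))
      = (r ^ 2 - b * r - (-(m : ℤ))) + p * (2 * r * k + p * k ^ 2 - b * k) := by ring
  rw [e5] at hx
  exact (Int.dvd_add_left (dvd_mul_right _ _)).mp hx

/-- check for split primes -/
def chkS3 (m b : ℕ) (B : ℕ) (tab : List (ℕ × ℤ × ℤ × ℤ × ℤ)) : Bool :=
  (List.range (B + 1)).all fun p =>
    cmp3 p || (p != 3 && p % 3 != 1) || tab.any (fun t => t.1 == p) || noRoot3 m b p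

/-- the entries are correct -/
def okS3 (m b : ℕ) (tab : List (ℕ × ℤ × ℤ × ℤ × ℤ)) : Bool :=
  tab.all fun t => uN (-(m : ℤ)) b t.2.1 t.2.2.1 t.2.2.2.1 t.2.2.2.2 == (t.1 : ℤ)

theorem hs3_of (m b : ℕ) (B : ℕ) (tab : List (ℕ × ℤ × ℤ × ℤ × ℤ)) (h1 : chkS3 m b B tab = true)
    (h2 : okS3 m b tab = true) :
    ∀ p : ℕ, p.Prime → p ≤ B → (p = 3 ∨ p % 3 = 1) →
      (∃ x : ℤ, (p : ℤ) ∣ x ^ 2 - b * x - (-(m : ℤ))) →
        ∃ w : Ti (OD (-(m : ℤ)) b), nrm3 w.norm = p := by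
  intro p hp hB h4 ⟨x, hx⟩
  rw [chkS3, List.all_eq_true] at h1
  have h := h1 p (List.mem_range.mpr (by omega))
  rw [Bool.or_eq_true, Bool.or_eq_true, Bool.or_eq_true] at h
  rcases h with ((h | h) | h) | h
  · exact absurd hp (cmp3_spec h)
  · rw [Bool.and_eq_true, bne_iff_ne, bne_iff_ne] at h
    rcases h4 with h4 | h4
    · exact absurd h4 h.1
    · exact absurd h4 h.2
  · rw [List.any_eq_true] at h
    obtain ⟨t, ht, h⟩ := h
    rw [beq_iff_eq] at h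
    rw [okS3, List.all_eq_true] at h2
    have h3 := h2 t ht
    rw [beq_iff_eq] at h3
    refine ⟨⟨⟨t.2.1, t.2.2.1⟩, ⟨t.2.2.2.1, t.2.2.2.2⟩⟩, ?_⟩
    rw [nrm3_norm, h3, h]
  · exact absurd hx (noRoot3_spec h x)

/-- check for inert primes -/
def chkI3 (m b : ℕ) (B : ℕ) (tab : List (ℕ × ℤ × ℤ × ℤ × ℤ)) : Bool :=
  (List.range (B + 1)).all fun q =>
    cmp3 q || B < q ^ 2 || tab.any (fun t => t.1 == q) ||
      (q != 0 && (List.range q).any fun x => isRt m b q x)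

/-- the entries are correct -/
def okI3 (m b : ℕ) (tab : List (ℕ × ℤ × ℤ × ℤ × ℤ)) : Bool :=
  tab.all fun t => uIm b t.2.1 t.2.2.1 t.2.2.2.1 t.2.2.2.2 == 0 &&
    (uRe (-(m : ℤ)) t.2.1 t.2.2.1 t.2.2.2.1 t.2.2.2.2 == (t.1 : ℤ) ||
      uRe (-(m : ℤ)) t.2.1 t.2.2.1 t.2.2.2.1 t.2.2.2.2 == -(t.1 : ℤ))

theorem hi3_of (m b : ℕ) (B : ℕ) (tab : List (ℕ × ℤ × ℤ × ℤ × ℤ)) (h1 : chkI3 m b B tab = true)
    (h2 : okI3 m b tab = true) :
    ∀ q : ℕ, q.Prime → q ^ 2 ≤ B → (∀ x : ℤ, ¬ (q : ℤ) ∣ x ^ 2 - b * x - (-(m : ℤ))) →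
      ∃ w : Ti (OD (-(m : ℤ)) b), w.norm = q ∨ w.norm = -(q : OD (-(m : ℤ)) b) := by
  intro q hq hB hx
  rw [chkI3, List.all_eq_true] at h1
  have hle : q ≤ B := by nlinarith [hq.two_le]
  have h := h1 q (List.mem_range.mpr (by omega))
  rw [Bool.or_eq_true, Bool.or_eq_true, Bool.or_eq_true] at h
  rcases h with ((h | h) | h) | h
  · exact absurd hq (cmp3_spec h)
  · rw [decide_eq_true_eq] at h
    omega
  · rw [List.any_eq_true] at h
    obtain ⟨t, ht, h⟩ := h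
    rw [beq_iff_eq] at h
    rw [okI3, List.all_eq_true] at h2
    have h3 := h2 t ht
    rw [Bool.and_eq_true, Bool.or_eq_true, beq_iff_eq, beq_iff_eq, beq_iff_eq] at h3
    obtain ⟨h4, h5⟩ := h3
    refine ⟨⟨⟨t.2.1, t.2.2.1⟩, ⟨t.2.2.2.1, t.2.2.2.2⟩⟩, ?_⟩
    rcases h5 with h5 | h5
    · left
      apply QuadraticAlgebra.ext
      · rw [norm3_re, h5, h]
        simp
      · rw [norm3_im, h4]
        simp
    · right
      apply QuadraticAlgebra.ext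
      · rw [norm3_re, h5, h]
        simp
      · rw [norm3_im, h4]
        simp
  · rw [Bool.and_eq_true, bne_iff_ne, List.any_eq_true] at h
    obtain ⟨h0, y, _, h⟩ := h
    exact absurd ((isRt_iff m b q y h0).mp h) (hx y)

theorem hB3_of (m : ℕ) (B : ℕ) (s : ℝ) (hs : 0 ≤ s) (h1 : (m : ℝ) ≤ s ^ 2)
    (h2 : 9 * (2 * s + 1) ^ 2 < B + 1) :
    9 * (2 * Real.sqrt (-((-(m : ℤ) : ℤ) : ℝ)) + 1) ^ 2 < B + 1 := by
  have h5 : (-((-(m : ℤ) : ℤ) : ℝ)) = m := by push_cast; ring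
  rw [h5]
  have h3 : Real.sqrt (m : ℝ) ≤ s := Real.sqrt_le_iff.mpr ⟨hs, h1⟩
  have h4 : 0 ≤ Real.sqrt (m : ℝ) := Real.sqrt_nonneg _
  nlinarith

theorem tsq3_tab (i : Fin 8) (m b : ℕ) (ha : fA i = -(m : ℤ)) (hb : fB i = b)
    (B : ℕ) (s : ℝ) (tabS tabI : List (ℕ × ℤ × ℤ × ℤ × ℤ))
    (hs : 0 ≤ s) (h1 : (m : ℝ) ≤ s ^ 2) (h2 : 9 * (2 * s + 1) ^ 2 < B + 1)
    (c1 : chkS3 m b B tabS = true) (c2 : okS3 m b tabS = true)
    (c3 : chkI3 m b B tabI = true) (c4 : okI3 m b tabI = true) :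
    ∀ π : OD (fA i) (fB i), Prime π → ∀ l, π ∣ l ^ 2 + l + 1 →
      ∃ w : Ti (OD (fA i) (fB i)), Associated w.norm π := by
  have := pid3 i
  have e1 := hB3_of m B s hs h1 h2
  have e2 := hs3_of m b B tabS c1 c2
  have e3 := hi3_of m b B tabI c3 c4
  rw [← ha] at e1 e2 e3
  rw [← hb] at e2 e3
  exact tsq3_of_table (fA i) (fB i) (fB01 i) (fAB3 i) B e1
    (table3_of_rational (fA i) (fB i) (fAB3 i) B e2 e3)

/-- split primes for `i = 0` -/
def tabSt0 : List (ℕ × ℤ × ℤ × ℤ × ℤ) :=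
  [(13, -2, -1, -2, 2), (37, 2, -1, -1, -1), (61, 3, -2, 0, -2), (73, 0, -2, -2, 1)]

/-- inert primes for `i = 0` -/
def tabIt0 : List (ℕ × ℤ × ℤ × ℤ × ℤ) :=
  [(3, 1, 0, -1, 0), (7, 1, 0, 3, 0)]

theorem tsq3_0 : ∀ π : OD (fA 0) (fB 0), Prime π → ∀ l, π ∣ l ^ 2 + l + 1 →
    ∃ w : Ti (OD (fA 0) (fB 0)), Associated w.norm π :=
  tsq3_tab 0 1 0 (by decide) (by decide) 81 1 tabSt0 tabIt0
    (by norm_num) (by norm_num) (by norm_num) (by decide +kernel) (by decide +kernel)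
    (by decide +kernel) (by decide +kernel)

/-- split primes for `i = 1` -/
def tabSt1 : List (ℕ × ℤ × ℤ × ℤ × ℤ) :=
  [(3, -3, 2, 1, 3), (19, 3, 1, 2, -1), (43, 1, 2, 1, 1), (67, -3, 1, 1, 2), (73, -2, -2, -3,
   -1), (97, -2, -2, -1, 0)]

/-- inert primes for `i = 1` -/
def tabIt1 : List (ℕ × ℤ × ℤ × ℤ × ℤ) :=
  [(5, 1, 1, 1, -1), (7, 1, 0, 3, 0)]

theorem tsq3_1 : ∀ π : OD (fA 1) (fB 1), Prime π → ∀ l, π ∣ l ^ 2 + l + 1 →
    ∃ w : Ti (OD (fA 1) (fB 1)), Associated w.norm π :=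
  tsq3_tab 1 2 0 (by decide) (by decide) 131 1.41422 tabSt1 tabIt1
    (by norm_num) (by norm_num) (by norm_num) (by decide +kernel) (by decide +kernel)
    (by decide +kernel) (by decide +kernel)

/-- split primes for `i = 2` -/
def tabSt2 : List (ℕ × ℤ × ℤ × ℤ × ℤ) :=
  [(7, 0, -2, -3, 0), (37, -1, 2, 1, 2), (43, 0, 2, 1, 0), (67, 1, -2, -2, -2), (79, 1, 0, 0,
   -2), (109, 1, 2, 2, -1), (127, -1, -3, -3, 0)]

/-- inert primes for `i = 2` -/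
def tabIt2 : List (ℕ × ℤ × ℤ × ℤ × ℤ) :=
  [(3, 1, 0, -1, 0), (5, 3, -2, -1, -2)]

theorem tsq3_2 : ∀ π : OD (fA 2) (fB 2), Prime π → ∀ l, π ∣ l ^ 2 + l + 1 →
    ∃ w : Ti (OD (fA 2) (fB 2)), Associated w.norm π :=
  tsq3_tab 2 2 1 (by decide) (by decide) 131 1.41422 tabSt2 tabIt2
    (by norm_num) (by norm_num) (by norm_num) (by decide +kernel) (by decide +kernel)
    (by decide +kernel) (by decide +kernel)

/-- split primes for `i = 3` -/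
def tabSt3 : List (ℕ × ℤ × ℤ × ℤ × ℤ) :=
  [(3, -1, 1, 1, 1), (31, 0, -1, 2, 0), (37, 0, -2, 2, -1), (67, 1, 1, 1, -1), (97, 2, -2, -3,
   -1), (103, -2, -2, 1, -2), (157, -3, -1, 1, -1), (163, 0, 2, -1, 0)]

/-- inert primes for `i = 3` -/
def tabIt3 : List (ℕ × ℤ × ℤ × ℤ × ℤ) :=
  [(2, 1, -1, 0, -1), (7, 1, 0, 3, 0), (13, 1, 0, 4, 0)]

theorem tsq3_3 : ∀ π : OD (fA 3) (fB 3), Prime π → ∀ l, π ∣ l ^ 2 + l + 1 →
    ∃ w : Ti (OD (fA 3) (fB 3)), Associated w.norm π :=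
  tsq3_tab 3 3 1 (by decide) (by decide) 179 1.7321 tabSt3 tabIt3
    (by norm_num) (by norm_num) (by norm_num) (by decide +kernel) (by decide +kernel)
    (by decide +kernel) (by decide +kernel)

/-- split primes for `i = 4` -/
def tabSt4 : List (ℕ × ℤ × ℤ × ℤ × ℤ) :=
  [(7, -1, -1, 1, -1), (19, 3, -2, -2, -2), (43, -2, 0, 1, -1), (61, -2, -1, 2, -1), (73, 4, 2,
   -2, 3), (139, 2, -1, -2, 0), (157, -3, -2, 3, -2), (163, -1, -2, 2, -2), (199, 0, -2, -1, -1),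
   (229, 4, 2, -4, 3)]

/-- inert primes for `i = 4` -/
def tabIt4 : List (ℕ × ℤ × ℤ × ℤ × ℤ) :=
  [(2, -1, 2, 3, 1), (3, 1, 0, -1, 0), (13, 1, 0, 4, 0)]

theorem tsq3_4 : ∀ π : OD (fA 4) (fB 4), Prime π → ∀ l, π ∣ l ^ 2 + l + 1 →
    ∃ w : Ti (OD (fA 4) (fB 4)), Associated w.norm π :=
  tsq3_tab 4 5 1 (by decide) (by decide) 269 2.2361 tabSt4 tabIt4
    (by norm_num) (by norm_num) (by norm_num) (by decide +kernel) (by decide +kernel)
    (by decide +kernel) (by decide +kernel)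

/-- split primes for `i = 5` -/
def tabSt5 : List (ℕ × ℤ × ℤ × ℤ × ℤ) :=
  [(13, -2, 1, 2, 1), (31, 8, 3, -6, 4), (43, 7, -6, -13, -4), (67, 1, -1, -1, -1), (79, -3, -2,
   4, -2), (97, 4, -5, -12, -3), (103, 4, -3, -6, -2), (109, 3, 1, -1, 1), (127, 2, 0, -1, 1),
   (139, 2, -2, -4, -1), (181, -6, -4, 9, -4), (193, -3, 3, 6, 2), (229, -5, -3, 7, -3), (271, 1,
   1, -2, 0), (283, -3, -1, 3, -1), (307, -10, -4, 8, -5), (337, -2, 2, 3, 1), (367, -5, 2, 4,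
   2), (379, 5, -5, -11, -3), (397, 3, 2, -3, 2), (439, 2, -1, -4, -1), (487, 9, 6, -14, 6)]

/-- inert primes for `i = 5` -/
def tabIt5 : List (ℕ × ℤ × ℤ × ℤ × ℤ) :=
  [(2, 1, -2, -5, -1), (3, 1, 0, -1, 0), (5, -3, -2, 5, -2), (7, 1, 0, 3, 0), (19, 2, 0, 5, 0)]

theorem tsq3_5 : ∀ π : OD (fA 5) (fB 5), Prime π → ∀ l, π ∣ l ^ 2 + l + 1 →
    ∃ w : Ti (OD (fA 5) (fB 5)), Associated w.norm π :=
  tsq3_tab 5 11 1 (by decide) (by decide) 524 3.3167 tabSt5 tabIt5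
    (by norm_num) (by norm_num) (by norm_num) (by decide +kernel) (by decide +kernel)
    (by decide +kernel) (by decide +kernel)

/-- split primes for `i = 6` -/
def tabSt6 : List (ℕ × ℤ × ℤ × ℤ × ℤ) :=
  [(19, 5, -5, -15, -3), (37, -2, -1, 2, -1), (67, -25, 12, 28, 10), (73, -4, 3, 8, 2), (103,
   -4, -2, 5, -2), (127, -3, -1, 3, -1), (151, 2, -2, -6, -1), (157, 1, -1, -3, -1), (163, 6, 3,
   -8, 3), (181, -10, 5, 12, 4), (193, -20, 12, 31, 9), (199, 1, -1, -1, -1), (211, 8, -6, -17,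
   -4), (223, -15, 7, 16, 6), (241, 45, -19, -41, -17), (277, 8, 4, -11, 4), (283, 2, 0, -1, 1),
   (307, 2, -1, -4, -1), (349, -5, 2, 5, 2), (397, 22, -11, -26, -9), (421, -4, 0, 1, -1), (439,
   6, -4, -11, -3), (457, -14, -5, 12, -6), (523, -22, -4, 6, -7), (571, -8, -2, 3, -3), (601,
   -10, -5, 14, -5), (607, -21, -6, 13, -8), (613, 21, -9, -20, -8), (619, 5, 2, -4, 2), (643, 6,
   -2, -5, -2), (691, -1, 1, 5, 1), (709, -41, -12, 27, -16), (751, 4, 1, -2, 2)]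

/-- inert primes for `i = 6` -/
def tabIt6 : List (ℕ × ℤ × ℤ × ℤ × ℤ) :=
  [(2, 3, -1, -2, -1), (3, 1, 0, -1, 0), (5, -13, -2, 2, -4), (7, 1, 0, 3, 0), (11, -15, -8, 23,
   -8), (13, 1, 0, 4, 0)]

theorem tsq3_6 : ∀ π : OD (fA 6) (fB 6), Prime π → ∀ l, π ∣ l ^ 2 + l + 1 →
    ∃ w : Ti (OD (fA 6) (fB 6)), Associated w.norm π :=
  tsq3_tab 6 17 1 (by decide) (by decide) 769 4.1232 tabSt6 tabIt6
    (by norm_num) (by norm_num) (by norm_num) (by decide +kernel) (by decide +kernel)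
    (by decide +kernel) (by decide +kernel)

/-- split primes for `i = 7` -/
def tabSt7 : List (ℕ × ℤ × ℤ × ℤ × ℤ) :=
  [(43, 23, -9, -37, -7), (61, 2, 3, -16, 2), (97, 5, -1, -3, -1), (151, -302, 88, 318, 79),
   (163, 205, 106, 706, 18), (199, -15, 0, -7, -2), (223, -3, -1, 3, -1), (307, -69, 20, -141,
   2), (313, 146, 25, -76, 34), (367, 0, -2, 11, -1), (373, -164, 11, -132, -16), (379, 10, 3,
   -12, 3), (397, -23, -5, 18, -6), (409, -422, -70, -629, 27), (421, 232, 52, -189, 61), (439,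
   2, -11, 62, -6), (457, 2, 1, -6, 1), (487, 33, 52, -275, 34), (499, 5, -1, -1, -1), (523, 19,
   43, 250, 16), (547, 6, -5, -24, -3), (577, 828, -27, 508, 97), (607, -430, 27, -336, -43),
   (661, -100, -36, 157, -34), (673, -51, -9, -79, 3), (691, 55, -29, -130, -20), (709, -93, -13,
   -125, 7), (733, -534, 36, -431, -52), (739, 30, 14, -65, 12), (787, 26, -8, -30, -7), (829, 0,
   2, -10, 1), (853, -2, -1, 2, -1), (877, 9, -2, -5, -2), (919, -65, -25, 111, -23), (967, 17,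
   3, -10, 4), (1021, 6, 106, -587, 61), (1033, -69, 13, 33, 15), (1039, -114, -52, 240, -45),
   (1063, -11, -8, 40, -6), (1069, 0, -1, 4, -1), (1093, 16, -4, -13, -4), (1123, 6, -3, -14,
   -2), (1129, -227, -25, -268, 20), (1201, 2, -1, -6, -1), (1231, 4, 1, -6, 1), (1237, -245, 11,
   -167, -27), (1291, -14, -2, 4, -3), (1297, -13, 5, 20, 4), (1381, -9, -12, 63, -8), (1399, 25,
   1, 6, 4), (1423, -26, -6, 22, -7), (1447, 1, -1, -1, -1), (1459, -8, 2, 5, 2), (1471, -105,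
   -70, 344, -54), (1483, -27, -4, -38, 2), (1489, 30, 21, -104, 16), (1531, -5, -2, 10, -2),
   (1567, 39, -34, -167, -20), (1627, -2, 0, 1, -1), (1663, -76, -10, 23, -16), (1669, -64, 3,
   -44, -7), (1699, 3, 1, -7, 1)]

/-- inert primes for `i = 7` -/
def tabIt7 : List (ℕ × ℤ × ℤ × ℤ × ℤ) :=
  [(2, -9, 18, 95, 9), (3, 1, 0, -1, 0), (5, -2, 4, -23, 2), (7, 1, 0, 3, 0), (11, -51, -16, 67,
   -16), (13, 1, 0, 4, 0), (17, 223, 70, -293, 70), (19, 2, 0, 5, 0), (23, -13, -4, -30, 0), (29,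
   9, -2, -7, -2), (31, 1, 0, 6, 0), (37, 3, 0, 7, 0)]

theorem tsq3_7 : ∀ π : OD (fA 7) (fB 7), Prime π → ∀ l, π ∣ l ^ 2 + l + 1 →
    ∃ w : Ti (OD (fA 7) (fB 7)), Associated w.norm π :=
  tsq3_tab 7 41 1 (by decide) (by decide) 1715 6.4032 tabSt7 tabIt7
    (by norm_num) (by norm_num) (by norm_num) (by decide +kernel) (by decide +kernel)
    (by decide +kernel) (by decide +kernel)

theorem tsq3 (i : Fin 8) :
    ∀ π : OD (fA i) (fB i), Prime π → ∀ l, π ∣ l ^ 2 + l + 1 →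
      ∃ w : Ti (OD (fA i) (fB i)), Associated w.norm π := by
  match i with
  | 0 => exact tsq3_0
  | 1 => exact tsq3_1
  | 2 => exact tsq3_2
  | 3 => exact tsq3_3
  | 4 => exact tsq3_4
  | 5 => exact tsq3_5
  | 6 => exact tsq3_6
  | 7 => exact tsq3_7

end SerreT
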