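import Pool.Agent.SerreT.DICHK3
import Pool.Agent.SerreT.PORT3
import Pool.Agent.SerreT.TSQT3
import Pool.Agent.SerreT.SHAP3

/-!
# TFINAL: the final theorem for `p = 3`
-/

open Matrix
open scoped QuadraticAlgebra

namespace SerreT

open SerreK (V InC Hit Gen6 act ImQ)
open SerreE (sc red)

section
variable {O : Type} [CommRing O]

theorem redTi_surj (f : O) : Function.Surjective (redTi f) := by
  intro t
  obtain ⟨a, ha⟩ := Ideal.Quotient.mk_surjective t.re
  obtain ⟨b, hb⟩ := Ideal.Quotient.mk_surjective t.im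
  exact ⟨⟨a, b⟩, QuadraticAlgebra.ext ha hb⟩

theorem redTi_eq {f : O} {w z : Ti O} (h : redTi f w = redTi f z) : Cong f w z := by
  have h1 := congrArg QuadraticAlgebra.re h
  have h2 := congrArg QuadraticAlgebra.im h
  have h1' : Ideal.Quotient.mk (Ideal.span {f}) w.re = Ideal.Quotient.mk (Ideal.span {f}) z.re := h1
  have h2' : Ideal.Quotient.mk (Ideal.span {f}) w.im = Ideal.Quotient.mk (Ideal.span {f}) z.im := h2
  rw [Ideal.Quotient.eq, Ideal.mem_span_singleton] at h1' h2'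
  exact ⟨h1', h2'⟩

/-- a lift -/
noncomputable def lft (f : O) (t : Ti (O ⧸ Ideal.span {f})) : Ti O :=
  Function.surjInv (redTi_surj f) t

theorem lft_spec (f : O) (t : Ti (O ⧸ Ideal.span {f})) : redTi f (lft f t) = t :=
  Function.surjInv_eq (redTi_surj f) t

theorem nm_eq (w : Ti O) : nm w = w.norm := by
  unfold nm
  rw [QuadraticAlgebra.norm_def]
  ring

theorem nm_mul_star (w : Ti O) : w * star w = ⟨nm w, 0⟩ := by
  ext
  · simp [nm]; ring
  · simp; ring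

variable {f : O} {χ : Ti O → FF} (h : RingClassChar f χ)

include h in
theorem chi_one : χ 1 = 1 := h.unit 1 isUnit_one

/-- the character of `(O[ζ]/f)ˣ` given by a ring class character. -/
noncomputable def toHom : (Ti (O ⧸ Ideal.span {f}))ˣ →* FFˣ :=
  MonoidHom.toHomUnits
    { toFun := fun t => χ (lft f t.val)
      map_one' := by
        rw [← chi_one h]
        apply h.congr
        apply redTi_eq
        rw [lft_spec, map_one, Units.val_one]
      map_mul' := fun a b => by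
        rw [← h.mul]
        apply h.congr
        apply redTi_eq
        rw [lft_spec, map_mul, lft_spec, lft_spec, Units.val_mul] }

theorem toHom_apply (t : (Ti (O ⧸ Ideal.span {f}))ˣ) (w : Ti O) (hw : redTi f w = t.val) :
    ((toHom h t : FFˣ) : FF) = χ w := by
  change χ (lft f t.val) = χ w
  apply h.congr
  apply redTi_eq
  rw [lft_spec, hw]

theorem toHom_eq_one (t : (Ti (O ⧸ Ideal.span {f}))ˣ) (w : Ti O) (hw : redTi f w = t.val)
    (h1 : χ w = 1) : toHom h t = 1 := by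
  apply Units.ext
  rw [toHom_apply h t w hw, h1, Units.val_one]

theorem toHom_scal (u : (O ⧸ Ideal.span {f})ˣ) : toHom h (tiC u) = 1 := by
  obtain ⟨a, ha⟩ := Ideal.Quotient.mk_surjective (u : O ⧸ Ideal.span {f})
  refine toHom_eq_one h _ ⟨a, 0⟩ ?_ (h.base a ?_)
  · ext
    · simpa [tiC] using ha
    · simp [tiC]
  · obtain ⟨b, hb⟩ := Ideal.Quotient.mk_surjective ((u⁻¹ : (O ⧸ Ideal.span {f})ˣ) :
      O ⧸ Ideal.span {f})
    have h1 : Ideal.Quotient.mk (Ideal.span {f}) (a * b) = Ideal.Quotient.mk _ 1 := by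
      rw [map_mul, ha, hb, Units.mul_inv, map_one]
    rw [Ideal.Quotient.eq, Ideal.mem_span_singleton] at h1
    obtain ⟨c, hc⟩ := h1
    exact ⟨b, -c, by linear_combination hc⟩

/-- the reduction of a unit -/
theorem toHom_iota (w : (Ti O)ˣ) (t : (Ti (O ⧸ Ideal.span {f}))ˣ) (ht : iota t = red f (iota w)) :
    toHom h t = 1 := by
  refine toHom_eq_one h t w.val ?_ (h.unit _ w.isUnit)
  rw [red_iota] at ht
  have := iota_inj _ ht
  rw [this]
  rfl

theorem toHom_th (t : (Ti (O ⧸ Ideal.span {f}))ˣ) (ht : iota t = red f th) : toHom h t = 1 := by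
  rw [← iota_tzz O] at ht
  exact toHom_iota h _ t ht

end

section
variable {O : Type} [CommRing O] [IsDomain O] [IsPrincipalIdealRing O]
  {f : O} {χ : Ti O → FF} (h : RingClassChar f χ)

omit [IsDomain O] [IsPrincipalIdealRing O] in
theorem toHom_ne : (toHom h) ^ 2 ≠ 1 := by
  intro h1
  obtain ⟨w, hw, hw'⟩ := h.ne
  rw [nm_eq] at hw
  obtain ⟨t, ht⟩ := isUnit_redTi hw
  apply hw'
  have h2 := DFunLike.congr_fun h1 t
  rw [MonoidHom.pow_apply, MonoidHom.one_apply] at h2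
  have h3 := congrArg (fun u : FFˣ => (u : FF)) h2
  simp only [Units.val_pow_eq_pow_val, Units.val_one] at h3
  rwa [toHom_apply h t w ht.symm] at h3

omit [IsDomain O] in
theorem toHom_prim (𝔞 : Ideal (O ⧸ Ideal.span {f})) (h𝔞 : 𝔞 ≠ ⊥) :
    ∃ t : (Ti (O ⧸ Ideal.span {f}))ˣ, t.val.re - 1 ∈ 𝔞 ∧ t.val.im ∈ 𝔞 ∧ toHom h t ^ 2 ≠ 1 := by
  obtain ⟨g, hg⟩ := IsPrincipalIdealRing.principal
    (𝔞.comap (Ideal.Quotient.mk (Ideal.span {f})))
  rw [Ideal.submodule_span_eq] at hg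
  have hmem : ∀ x, Ideal.Quotient.mk (Ideal.span {f}) x ∈ 𝔞 ↔ g ∣ x := by
    intro x
    rw [← Ideal.mem_comap, hg, Ideal.mem_span_singleton]
  have hgf : g ∣ f := by
    rw [← hmem, Ideal.Quotient.eq_zero_iff_mem.mpr (Ideal.mem_span_singleton_self f)]
    exact 𝔞.zero_mem
  have hfg : ¬ f ∣ g := by
    intro hd
    apply h𝔞
    rw [Submodule.eq_bot_iff]
    intro x hx
    obtain ⟨y, rfl⟩ := Ideal.Quotient.mk_surjective x
    rw [Ideal.Quotient.eq_zero_iff_mem, Ideal.mem_span_singleton]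
    exact hd.trans ((hmem y).mp hx)
  obtain ⟨w, hw1, hw2, hw3⟩ := h.cond g hgf hfg
  rw [nm_eq] at hw1
  obtain ⟨t, ht⟩ := isUnit_redTi hw1
  refine ⟨t, ?_, ?_, ?_⟩
  · rw [ht]
    have : (redTi f w).re - 1 = Ideal.Quotient.mk (Ideal.span {f}) (w.re - (1 : Ti O).re) := by
      rw [redTi_re, map_sub, QuadraticAlgebra.re_one, map_one]
    rw [this, hmem]
    exact hw2.1
  · rw [ht]
    have : (redTi f w).im = Ideal.Quotient.mk (Ideal.span {f}) (w.im - (1 : Ti O).im) := by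
      rw [redTi_im, map_sub, QuadraticAlgebra.im_one, map_zero, sub_zero]
    rw [this, hmem]
    exact hw2.2
  · intro h1
    apply hw3
    have h3 := congrArg (fun u : FFˣ => (u : FF)) h1
    simp only [Units.val_pow_eq_pow_val, Units.val_one] at h3
    rwa [toHom_apply h t w ht.symm] at h3

include h in
theorem final_aux [Ring.HasFiniteQuotients O] (σ : O →+* ℂ) (hσ : ImQ σ)
    (hnt : ∃ w : (Ti O)ˣ, ab1 σ w ≠ 1)
    (hroot : ∀ z : O, z ^ 2 + z + 1 ≠ 0)
    (htsq : ∀ π : O, Prime π → ¬ π ∣ 3 → ∀ l, π ∣ l ^ 2 + l + 1 →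
      ∃ w : Ti O, Associated w.norm π) (h30 : ¬ IsUnit (3 : O)) (hf3 : IsCoprime f 3) :
    ∃ Φ : Eigenform (f ^ 2), Attached Φ χ := by
  have hf : f ≠ 0 := by
    rintro rfl
    exact h30 (isCoprime_zero_left.mp hf3)
  have hfu : ¬ IsUnit f := by
    intro hu
    obtain ⟨w, -, hw'⟩ := h.ne
    apply hw'
    have : χ w = 1 := by
      rw [← chi_one h]
      exact h.congr _ _ ⟨hu.dvd, hu.dvd⟩
    rw [this, one_pow]
  obtain ⟨η, hη1, hη2⟩ := unit_structure σ hσ hnt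
  obtain ⟨χ', hχ', a, ha1, ha2, ha3⟩ := dichK3 σ hσ η hη1 hη2 f hfu hf3 (toHom h) (toHom_scal h)
    (toHom_th h) (fun t ht => toHom_iota h η t ht)
  obtain ⟨C, hC, hC1⟩ := shap f χ' a ha1 ha2
  -- properties of `χ'`
  have hinv : ∀ t, toHom h t = 1 → χ' t = 1 := by
    intro t ht
    rcases hχ' with e | e
    · rw [e, ht]
    · rw [e, MonoidHom.inv_apply, ht, inv_one]
  have hinv2 : ∀ t, χ' t ^ 2 = 1 → toHom h t ^ 2 = 1 := by
    intro t ht
    rcases hχ' with e | e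
    · rw [← e, ht]
    · rw [e, MonoidHom.inv_apply, inv_pow, inv_eq_one] at ht
      exact ht
  have hprim : ∀ 𝔞 : Ideal (O ⧸ Ideal.span {f}), 𝔞 ≠ ⊥ →
      ∃ t : (Ti (O ⧸ Ideal.span {f}))ˣ, t.val.re - 1 ∈ 𝔞 ∧ t.val.im ∈ 𝔞 ∧ χ' t ^ 2 ≠ 1 := by
    intro 𝔞 h𝔞
    obtain ⟨t, h1, h2, h3⟩ := toHom_prim h 𝔞 h𝔞
    exact ⟨t, h1, h2, fun h4 => h3 (hinv2 t h4)⟩
  have hne : χ' ^ 2 ≠ 1 := by
    intro h1
    apply toHom_ne h
    ext t
    have h2 := DFunLike.congr_fun h1 t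
    rw [MonoidHom.pow_apply, MonoidHom.one_apply] at h2
    rw [MonoidHom.pow_apply, hinv2 t h2]
    rfl
  have hsum : ∀ t, (χ' t : FF) + ((χ' t)⁻¹ : FFˣ) =
      (toHom h t : FF) + ((toHom h t)⁻¹ : FFˣ) := by
    intro t
    rcases hχ' with e | e
    · rw [e]
    · rw [e, MonoidHom.inv_apply, inv_inv, add_comm]
  obtain ⟨u, hu, tu, htu, hχu, hCu⟩ : ∃ u : GL (Fin 2) O, u * th = th * u ∧
      ∃ tu : (Ti (O ⧸ Ideal.span {f}))ˣ, iota tu = red f u ∧ χ' tu = 1 ∧ C u 1 ≠ 0 := by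
    rcases ha3 with h1 | h1
    · obtain ⟨t, ht⟩ := (mem_GT f th).mp (th_mem_GT f)
      exact ⟨th, rfl, t, ht, hinv t (toHom_th h t ht), by rw [hC1]; exact sub_ne_zero.mpr h1⟩
    · obtain ⟨t, ht⟩ := (mem_GT f (iota η)).mp (iota_mem_GT f η)
      refine ⟨iota η, ?_, t, ht, hinv t (toHom_iota h η t ht), by
        rw [hC1]; exact sub_ne_zero.mpr h1⟩
      rw [← iota_tzz, ← map_mul, ← map_mul, mul_comm]
  obtain ⟨Φ, hΦ⟩ := core hroot htsq hf hfu hf3 (fun u => hinv _ (toHom_scal h u))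
    (fun t ht => hinv t (toHom_th h t ht)) hprim hne u hu tu htu hχu C hC hCu
  refine ⟨Φ, fun π => ⟨fun w hw => ?_, (hΦ π).2⟩⟩
  rw [nm_eq] at hw
  have hcop := coprime_norm π.prime (not_dvd_f π.not_dvd) hw
  obtain ⟨t, ht⟩ := isUnit_redTi hcop
  rw [(hΦ π).1 w t hw ht, hsum t, toHom_apply h t w ht.symm]
  congr 1
  have h1 : χ w * χ (star w) = 1 := by
    rw [← h.mul, nm_mul_star]
    apply h.base
    rw [nm_eq]
    exact hcop
  rw [Units.val_inv_eq_inv_val, toHom_apply h t w ht.symm]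
  exact (eq_inv_of_mul_eq_one_right h1).symm

end

theorem three_not_unit (a b : ℤ) : ¬ IsUnit (3 : OD a b) := by
  intro h
  rw [QuadraticAlgebra.isUnit_iff_norm_isUnit, QuadraticAlgebra.norm_def] at h
  have h1 : (3 : OD a b).re = 3 := rfl
  have h2 : (3 : OD a b).im = 0 := rfl
  rw [h1, h2] at h
  rw [Int.isUnit_iff] at h
  omega

theorem final3 (i : Fin 8) (f : OD (fA i) (fB i)) (hf3 : IsCoprime f 3)
    (χ : Ti (OD (fA i) (fB i)) → FF) (h : RingClassChar f χ) :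
    ∃ Φ : Eigenform (f ^ 2), Attached Φ χ := by
  have := pid3 i
  exact final_aux h (sig (fA i) (fB i)) (sig_imQ _ _) (exists_unit _ _ (fAB3 i))
    (noroot _ _ (fAB3 i)) (fun π hπ _ l hl => tsq3 i π hπ l hl) (three_not_unit _ _) hf3

end SerreT
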