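import Pool.Agent.SerreT.PELL3

/-!
# TSQM3: primes modulo which `l² + l + 1` has a root are relative norms from `O[ζ]`
(1) pigeonhole: `π ∣ l² + l + 1` gives `x² - x y + y² = π κ` with `κ ≠ 0` of bounded norm.
(2) descent by the prime divisors of `κ`.
-/

open scoped QuadraticAlgebra

namespace SerreT

variable (a b : ℤ) [hD : Fact (b ^ 2 + 4 * a < 0)]

/-- absolute norm -/
def nrm3 {a b : ℤ} (x : OD a b) : ℤ := x.re ^ 2 + b * x.re * x.im - a * x.im ^ 2

section basic
variable {a b}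

omit hD in
theorem nrm3_eq (x : OD a b) : nrm3 x = QuadraticAlgebra.norm x := by
  rw [QuadraticAlgebra.norm_def]
  unfold nrm3
  ring

omit hD in
theorem nrm3_mul (x y : OD a b) : nrm3 (x * y) = nrm3 x * nrm3 y := by
  rw [nrm3_eq, nrm3_eq, nrm3_eq, map_mul]

omit hD in
theorem four_nrm3 (x : OD a b) :
    4 * nrm3 x = (2 * x.re + b * x.im) ^ 2 + (-(b ^ 2 + 4 * a)) * x.im ^ 2 := by
  unfold nrm3
  ring

theorem Dpos : 0 < -(b ^ 2 + 4 * a) := by
  have := hD.out
  omega

theorem nrm3_nonneg (x : OD a b) : 0 ≤ nrm3 x := by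
  have h := four_nrm3 x
  have h1 : 0 ≤ (-(b ^ 2 + 4 * a)) * x.im ^ 2 := mul_nonneg Dpos.le (sq_nonneg _)
  nlinarith [sq_nonneg (2 * x.re + b * x.im)]

theorem nrm3_eq_zero {x : OD a b} : nrm3 x = 0 ↔ x = 0 := by
  constructor
  · intro h
    have h0 := four_nrm3 x
    rw [h] at h0
    have h1 : 0 ≤ (-(b ^ 2 + 4 * a)) * x.im ^ 2 := mul_nonneg Dpos.le (sq_nonneg _)
    have h2 : (-(b ^ 2 + 4 * a)) * x.im ^ 2 = 0 := by
      nlinarith [sq_nonneg (2 * x.re + b * x.im)]
    have h3 : x.im = 0 := by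
      rcases mul_eq_zero.1 h2 with h | h
      · exfalso
        have := Dpos (a := a) (b := b)
        omega
      · exact pow_eq_zero_iff (two_ne_zero) |>.1 h
    have h4 : x.re = 0 := by
      rw [h3] at h0
      have : (2 * x.re) ^ 2 = 0 := by nlinarith
      have := pow_eq_zero_iff (two_ne_zero) |>.1 this
      omega
    exact QuadraticAlgebra.ext h4 h3
  · rintro rfl
    simp [nrm3]

theorem nrm3_pos {x : OD a b} (hx : x ≠ 0) : 0 < nrm3 x :=
  lt_of_le_of_ne (nrm3_nonneg x) fun h => hx (nrm3_eq_zero.1 h.symm)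

theorem nrm3_isUnit {x : OD a b} : IsUnit x ↔ nrm3 x = 1 := by
  rw [QuadraticAlgebra.isUnit_iff_norm_isUnit, ← nrm3_eq, Int.isUnit_iff]
  have := nrm3_nonneg x
  omega

omit hD in
theorem mul_star_eq3 (x : OD a b) : x * star x = ((nrm3 x : ℤ) : OD a b) := by
  rw [nrm3_eq, ← QuadraticAlgebra.algebraMap_norm_eq_mul_star]
  rfl

omit hD in
theorem nrm3_star (x : OD a b) : nrm3 (star x) = nrm3 x := by
  rw [nrm3_eq, nrm3_eq, QuadraticAlgebra.norm_star]

omit hD in
theorem nrm3_intCast (k : ℤ) : nrm3 (k : OD a b) = k ^ 2 := by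
  rw [nrm3_eq, QuadraticAlgebra.norm_intCast, Int.cast_id]

omit hD in
theorem nrm3_natCast (k : ℕ) : nrm3 (k : OD a b) = (k : ℤ) ^ 2 := by
  rw [nrm3_eq, QuadraticAlgebra.norm_natCast]

theorem ti_norm {R : Type*} [CommRing R] (w : Ti R) :
    w.norm = w.re * w.re - w.re * w.im + w.im * w.im := by
  rw [QuadraticAlgebra.norm_def]
  ring

/-- the triangle inequality for `x² - x y + y²` -/
theorem nrm3_sq_add (x y : OD a b) (M : ℝ) (hM : 0 ≤ M) (hx : (nrm3 x : ℝ) ≤ M)
    (hy : (nrm3 y : ℝ) ≤ M) : (nrm3 (x * x - x * y + y * y) : ℝ) ≤ 9 * M ^ 2 := by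
  have key : ∀ z : OD a b, (nrm3 z : ℝ) = ‖sig a b z‖ ^ 2 := by
    intro z
    rw [← Complex.normSq_eq_norm_sq, sig_normSq]
    rfl
  have hx1 : ‖sig a b x‖ ≤ Real.sqrt M := by
    apply Real.le_sqrt_of_sq_le
    rw [← key]
    exact hx
  have hy1 : ‖sig a b y‖ ≤ Real.sqrt M := by
    apply Real.le_sqrt_of_sq_le
    rw [← key]
    exact hy
  have hs : Real.sqrt M * Real.sqrt M = M := Real.mul_self_sqrt hM
  have hs0 : 0 ≤ Real.sqrt M := Real.sqrt_nonneg _
  have e1 : ‖sig a b (x * x)‖ ≤ M := by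
    rw [map_mul, norm_mul, ← hs]
    exact mul_le_mul hx1 hx1 (norm_nonneg _) hs0
  have e2 : ‖sig a b (x * y)‖ ≤ M := by
    rw [map_mul, norm_mul, ← hs]
    exact mul_le_mul hx1 hy1 (norm_nonneg _) hs0
  have e3 : ‖sig a b (y * y)‖ ≤ M := by
    rw [map_mul, norm_mul, ← hs]
    exact mul_le_mul hy1 hy1 (norm_nonneg _) hs0
  have e4 : ‖sig a b (x * x - x * y + y * y)‖ ≤ 3 * M := by
    rw [map_add, map_sub]
    have h1 := norm_add_le (sig a b (x * x) - sig a b (x * y)) (sig a b (y * y))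
    have h2 := norm_sub_le (sig a b (x * x)) (sig a b (x * y))
    linarith
  rw [key]
  calc ‖sig a b (x * x - x * y + y * y)‖ ^ 2 ≤ (3 * M) ^ 2 :=
        pow_le_pow_left₀ (norm_nonneg _) e4 2
    _ = 9 * M ^ 2 := by ring

omit hD in
theorem sq_eq_zero_of3 (h3 : ¬ (3 : ℤ) ∣ b ^ 2 + 4 * a) (u v : ℤ)
    (h : u ^ 2 = 3 * (-(b ^ 2 + 4 * a)) * v ^ 2) : u = 0 := by
  by_cases hv : v = 0
  · rw [hv] at h
    simpa using h
  · exfalso
    have h1 : v ^ 2 ∣ u ^ 2 := ⟨3 * (-(b ^ 2 + 4 * a)), by rw [h]; ring⟩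
    obtain ⟨k, rfl⟩ := (Int.pow_dvd_pow_iff (two_ne_zero)).1 h1
    have h2 : k ^ 2 = 3 * (-(b ^ 2 + 4 * a)) := by
      have h3 : v ^ 2 * (k ^ 2 - 3 * (-(b ^ 2 + 4 * a))) = 0 := by
        rw [mul_sub, ← mul_pow, h]; ring
      rcases mul_eq_zero.1 h3 with h4 | h4
      · exact absurd (pow_eq_zero_iff (two_ne_zero) |>.1 h4) hv
      · linarith
    have h4 : (3 : ℤ) ∣ k := Int.Prime.dvd_pow' Nat.prime_three (n := k) (k := 2)
      (by exact_mod_cast (Dvd.intro _ h2.symm))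
    obtain ⟨j, rfl⟩ := h4
    exact h3 ⟨-j ^ 2, by linarith⟩

theorem sq3_ne_zero (h3 : ¬ (3 : ℤ) ∣ b ^ 2 + 4 * a) {x y : OD a b} (h : x ≠ 0 ∨ y ≠ 0) :
    x * x - x * y + y * y ≠ 0 := by
  intro h0
  -- `t = (2 x - y) * star y` satisfies `t² = - 3 N(y)²`
  have ht : ((2 * x - y) * star y) * ((2 * x - y) * star y) =
      ((-3 * (nrm3 y) ^ 2 : ℤ) : OD a b) := by
    have e : ((-3 * (nrm3 y) ^ 2 : ℤ) : OD a b) = -3 * (y * star y) * (y * star y) := by
      rw [mul_star_eq3]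
      push_cast
      ring
    rw [e]
    linear_combination (4 * star y * star y) * h0
  set t : OD a b := (2 * x - y) * star y with htdef
  have hre := congrArg QuadraticAlgebra.re ht
  have him := congrArg QuadraticAlgebra.im ht
  rw [QuadraticAlgebra.re_mul, QuadraticAlgebra.re_intCast, Int.cast_id] at hre
  rw [QuadraticAlgebra.im_mul, QuadraticAlgebra.im_intCast] at him
  have him' : t.im * (2 * t.re + b * t.im) = 0 := by linarith
  have hy0 : nrm3 y = 0 := by
    rcases mul_eq_zero.1 him' with h1 | h1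
    · rw [h1] at hre
      have h2 : 0 ≤ (nrm3 y) ^ 2 := sq_nonneg _
      have h4 : 0 ≤ t.re * t.re := mul_self_nonneg _
      have h5 : (nrm3 y) ^ 2 = 0 := by nlinarith
      exact pow_eq_zero_iff (two_ne_zero) |>.1 h5
    · have h2 : (6 * nrm3 y) ^ 2 = 3 * (-(b ^ 2 + 4 * a)) * t.im ^ 2 := by
        have h4 : 2 * t.re = - (b * t.im) := by linarith
        have h5 : (2 * t.re) ^ 2 = (b * t.im) ^ 2 := by rw [h4]; ring
        nlinarith
      have := sq_eq_zero_of3 h3 _ _ h2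
      omega
  have hy : y = 0 := nrm3_eq_zero.1 hy0
  rw [hy] at h0
  have hx : x = 0 := by
    have : x * x = 0 := by simpa using h0
    exact mul_self_eq_zero.1 this
  rcases h with h | h
  · exact h hx
  · exact h hy

end basic

/-- (2) descent -/
theorem descent3 [IsPrincipalIdealRing (OD a b)] (B : ℕ)
    (htab : ∀ ρ : OD a b, Prime ρ → nrm3 ρ ≤ B → (∃ l, ρ ∣ l ^ 2 + l + 1) →
      ∃ w : Ti (OD a b), Associated w.norm ρ) (π : OD a b) (hπ : Prime π) (l : OD a b)
    (hl : π ∣ l ^ 2 + l + 1) :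
    ∀ (m : ℕ) (x y κ : OD a b), κ ≠ 0 → nrm3 κ = m → nrm3 κ ≤ B →
      x * x - x * y + y * y = π * κ → ∃ w : Ti (OD a b), Associated w.norm π := by
  intro m
  induction m using Nat.strong_induction_on with
  | _ m ih =>
    intro x y κ hκ hm hB hxy
    by_cases hu : IsUnit κ
    · obtain ⟨u, rfl⟩ := hu
      refine ⟨⟨x, y⟩, ?_⟩
      rw [ti_norm]
      change Associated (x * x - x * y + y * y) π
      rw [hxy]
      exact (associated_mul_unit_left π _ u.isUnit)
    · obtain ⟨ρ, hρi, κ', rfl⟩ := WfDvdMonoid.exists_irreducible_factor hu hκ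
      have hρ : Prime ρ := hρi.prime
      have hκ' : κ' ≠ 0 := right_ne_zero_of_mul hκ
      have hNρ : 1 < nrm3 ρ := by
        have h1 := nrm3_pos hρ.ne_zero
        have h2 : nrm3 ρ ≠ 1 := fun h => hρ.not_isUnit (nrm3_isUnit.2 h)
        omega
      have hNκ' : 0 < nrm3 κ' := nrm3_pos hκ'
      have hlt : nrm3 κ' < nrm3 (ρ * κ') := by
        rw [nrm3_mul]
        nlinarith
      have hρB : nrm3 ρ ≤ B := by
        refine le_trans ?_ hB
        rw [nrm3_mul]
        nlinarith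
      by_cases hboth : ρ ∣ x ∧ ρ ∣ y
      · obtain ⟨⟨x', rfl⟩, ⟨y', rfl⟩⟩ := hboth
        have h1 : ρ * (x' * x' - x' * y' + y' * y') = π * κ' := by
          apply mul_left_cancel₀ hρ.ne_zero
          calc ρ * (ρ * (x' * x' - x' * y' + y' * y')) =
              ρ * x' * (ρ * x') - ρ * x' * (ρ * y') + ρ * y' * (ρ * y') := by ring
            _ = π * (ρ * κ') := hxy
            _ = ρ * (π * κ') := by ring
        rcases hρ.dvd_or_dvd (Dvd.intro _ h1) with h2 | ⟨κ'', rfl⟩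
        · -- `ρ` is associated to `π`
          have hass : Associated ρ π := hρ.associated_of_dvd hπ h2
          obtain ⟨u, hu'⟩ := hass
          have hN : nrm3 π = nrm3 ρ := by
            rw [← hu', nrm3_mul, nrm3_isUnit.1 u.isUnit, mul_one]
          exact htab π hπ (by rw [hN]; exact hρB) ⟨l, hl⟩
        · have hκ'' : κ'' ≠ 0 := right_ne_zero_of_mul hκ'
          have hN3 : nrm3 κ'' < nrm3 (ρ * κ'') := by
            rw [nrm3_mul]
            have := nrm3_pos hκ''
            nlinarith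
          have h4 : x' * x' - x' * y' + y' * y' = π * κ'' := by
            apply mul_left_cancel₀ hρ.ne_zero
            rw [h1]
            ring
          have h5 : nrm3 κ'' = ((nrm3 κ'').toNat : ℤ) :=
            (Int.toNat_of_nonneg (nrm3_nonneg _)).symm
          refine ih (nrm3 κ'').toNat ?_ x' y' κ'' hκ'' h5 ?_ h4
          · have := nrm3_nonneg κ''
            omega
          · omega
      · -- `l² + l + 1` has a root modulo `ρ`
        have hρxy : ρ ∣ x * x - x * y + y * y := by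
          rw [hxy]
          exact ⟨π * κ', by ring⟩
        have hy : ¬ ρ ∣ y := by
          intro hy
          refine hboth ⟨?_, hy⟩
          have h1 : ρ ∣ x * x := by
            have e : x * x = (x * x - x * y + y * y) - y * (y - x) := by ring
            rw [e]
            exact dvd_sub hρxy (hy.mul_right _)
          exact (hρ.dvd_or_dvd h1).elim id id
        have hcop : IsCoprime ρ y := (hρi.coprime_iff_not_dvd).2 hy
        obtain ⟨c, d, hab⟩ := hcop
        have hsq : ρ ∣ (-(d * x)) ^ 2 + (-(d * x)) + 1 := by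
          have e : (-(d * x)) ^ 2 + (-(d * x)) + 1 = d ^ 2 * (x * x - x * y + y * y) +
              ρ * (c * (c * ρ + d * y + d * y) - d * x * c) := by
            have e1 : (1 : OD a b) = (c * ρ + d * y) ^ 2 := by rw [hab]; ring
            calc (-(d * x)) ^ 2 + (-(d * x)) + 1
                = (d * x) ^ 2 - (d * x) * (c * ρ + d * y) + (c * ρ + d * y) ^ 2 := by
                  rw [← e1, hab]; ring
              _ = _ := by ring
          rw [e]
          exact dvd_add (hρxy.mul_left _) (Dvd.intro _ rfl)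
        obtain ⟨v, hv⟩ := htab ρ hρ hρB ⟨_, hsq⟩
        rw [ti_norm] at hv
        obtain ⟨u, hu'⟩ := hv
        set r := v.re with hr
        set s := v.im with hs
        have hrs : r * r - r * s + s * s = ρ * (u⁻¹ : (OD a b)ˣ) := by
          rw [← hu', mul_assoc, Units.mul_inv, mul_one]
        have hρrs : ρ ∣ r * r - r * s + s * s := ⟨_, hrs⟩
        have hprod : ρ ∣ (y * r - x * s) * (y * r + x * s - y * s) := by
          have e : (y * r - x * s) * (y * r + x * s - y * s) =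
              (r * r - r * s + s * s) * (y * y) - (x * x - x * y + y * y) * (s * s) := by ring
          rw [e]
          exact dvd_sub (hρrs.mul_right _) (hρxy.mul_right _)
        -- the common end of both cases
        have hend : ∀ p q : OD a b, p * p - p * q + q * q =
            (x * x - x * y + y * y) * (r * r - r * s + s * s) → ρ ∣ q →
            ∃ w : Ti (OD a b), Associated w.norm π := by
          rintro p q hpq hq
          have h1 : ρ ∣ p := by
            have h2 : ρ ∣ p * p := by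
              have h3 : ρ ∣ p * p - p * q + q * q := by
                rw [hpq]
                exact hρxy.mul_right _
              have e : p * p = (p * p - p * q + q * q) - q * (q - p) := by ring
              rw [e]
              exact dvd_sub h3 (hq.mul_right _)
            exact (hρ.dvd_or_dvd h2).elim id id
          obtain ⟨p', rfl⟩ := h1
          obtain ⟨q', rfl⟩ := hq
          have h4 : p' * p' - p' * q' + q' * q' = π * (κ' * (u⁻¹ : (OD a b)ˣ)) := by
            apply mul_left_cancel₀ (mul_ne_zero hρ.ne_zero hρ.ne_zero)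
            calc ρ * ρ * (p' * p' - p' * q' + q' * q') =
                ρ * p' * (ρ * p') - ρ * p' * (ρ * q') + ρ * q' * (ρ * q') := by ring
              _ = (x * x - x * y + y * y) * (r * r - r * s + s * s) := hpq
              _ = _ := by rw [hxy, hrs]; ring
          have hN : nrm3 (κ' * ((u⁻¹ : (OD a b)ˣ) : OD a b)) = nrm3 κ' := by
            rw [nrm3_mul, nrm3_isUnit.1 (Units.isUnit _), mul_one]
          have h5 : nrm3 (κ' * ((u⁻¹ : (OD a b)ˣ) : OD a b)) = ((nrm3 κ').toNat : ℤ) := by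
            rw [hN]
            exact (Int.toNat_of_nonneg (nrm3_nonneg _)).symm
          refine ih (nrm3 κ').toNat ?_ p' q' (κ' * ((u⁻¹ : (OD a b)ˣ) : OD a b))
            (mul_ne_zero hκ' (Units.ne_zero _)) h5 ?_ h4
          · omega
          · omega
        rcases hρ.dvd_or_dvd hprod with h | h
        · exact hend (x * r - x * s + y * s) (y * r - x * s) (by ring) h
        · exact hend (x * r - y * s) (y * r + x * s - y * s) (by ring) h

/-- the number of residue classes -/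
theorem card_quot3 [IsPrincipalIdealRing (OD a b)] (π : OD a b) :
    Nat.card (OD a b ⧸ Ideal.span {π}) = (nrm3 π).natAbs := by
  have h1 : Ideal.absNorm (Ideal.span {π}) = (Algebra.norm ℤ π).natAbs :=
    Ideal.absNorm_span_singleton π
  rw [Ideal.absNorm_apply, Submodule.cardQuot_apply] at h1
  rw [h1, nrm3_eq, ← QuadraticAlgebra.det_toLinearMap_eq_norm, Algebra.norm_apply]
  rfl

/-- (1) pigeonhole -/
theorem exists_small3 (hb : b = 0 ∨ b = 1) [IsPrincipalIdealRing (OD a b)] (π l : OD a b)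
    (hπ : π ≠ 0) :
    ∃ x y : OD a b, (x ≠ 0 ∨ y ≠ 0) ∧ π ∣ x - l * y ∧
      (nrm3 x : ℝ) ≤ (2 * Real.sqrt (-a) + 1) * Real.sqrt (nrm3 π) ∧
      (nrm3 y : ℝ) ≤ (2 * Real.sqrt (-a) + 1) * Real.sqrt (nrm3 π) := by
  have ha : (0 : ℝ) < -a := by
    have h1 := hD.out
    have h2 : a < 0 := by nlinarith [sq_nonneg b]
    have h3 : (a : ℝ) < 0 := by exact_mod_cast h2
    linarith
  have hm : 0 < nrm3 π := nrm3_pos hπ
  have hmR : (0 : ℝ) < nrm3 π := by exact_mod_cast hm
  set m : ℝ := (nrm3 π : ℝ) with hmdef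
  set t : ℝ := Real.sqrt (-a) with ht
  have htpos : 0 < t := Real.sqrt_pos.2 ha
  have htt : t * t = -a := Real.mul_self_sqrt ha.le
  have hsm : 0 < Real.sqrt m := Real.sqrt_pos.2 hmR
  set α : ℝ := Real.sqrt (Real.sqrt m * t) with hα
  set β : ℝ := Real.sqrt (Real.sqrt m / t) with hβ
  have hα0 : 0 ≤ α := Real.sqrt_nonneg _
  have hβ0 : 0 ≤ β := Real.sqrt_nonneg _
  have hαα : α * α = Real.sqrt m * t := Real.mul_self_sqrt (by positivity)
  have hββ : β * β = Real.sqrt m / t := Real.mul_self_sqrt (by positivity)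
  have hαβ : α * β = Real.sqrt m := by
    rw [hα, hβ, ← Real.sqrt_mul (by positivity)]
    rw [show Real.sqrt m * t * (Real.sqrt m / t) = Real.sqrt m * Real.sqrt m by field_simp]
    exact Real.sqrt_mul_self hsm.le
  set A : ℕ := ⌊α⌋₊ + 1 with hA
  set C : ℕ := ⌊β⌋₊ + 1 with hC
  have hAα : α < A := by
    rw [hA]
    push_cast
    exact Nat.lt_floor_add_one α
  have hCβ : β < C := by
    rw [hC]
    push_cast
    exact Nat.lt_floor_add_one β
  have hAle : (A : ℝ) - 1 ≤ α := by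
    rw [hA]
    push_cast
    have := Nat.floor_le hα0
    linarith
  have hCle : (C : ℝ) - 1 ≤ β := by
    rw [hC]
    push_cast
    have := Nat.floor_le hβ0
    linarith
  -- more pairs than residue classes
  have hcard : Nat.card (OD a b ⧸ Ideal.span {π}) < A * C * (A * C) := by
    rw [card_quot3]
    have h1 : Real.sqrt m < (A : ℝ) * C := by
      rw [← hαβ]
      exact mul_lt_mul'' hAα hCβ hα0 hβ0
    have h2 : m < (A : ℝ) * C * (A * C) := by
      calc m = Real.sqrt m * Real.sqrt m := (Real.mul_self_sqrt hmR.le).symm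
        _ < _ := mul_lt_mul'' h1 h1 hsm.le hsm.le
    have h3 : (nrm3 π : ℝ) = ((nrm3 π).natAbs : ℝ) := by
      rw [Nat.cast_natAbs, abs_of_pos hm]
    rw [hmdef, h3] at h2
    exact_mod_cast h2
  have hfin : Finite (OD a b ⧸ Ideal.span {π}) := by
    apply Nat.finite_of_card_ne_zero
    rw [card_quot3]
    omega
  have hft : Fintype (OD a b ⧸ Ideal.span {π}) := Fintype.ofFinite _
  let F : (Fin A × Fin C) × (Fin A × Fin C) → OD a b ⧸ Ideal.span {π} := fun z =>
    Ideal.Quotient.mk _ ((⟨(z.1.1 : ℤ), (z.1.2 : ℤ)⟩ : OD a b) - l * ⟨(z.2.1 : ℤ), (z.2.2 : ℤ)⟩)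
  obtain ⟨z, z', hne, hF⟩ := Fintype.exists_ne_map_eq_of_card_lt F (by
    rw [← Nat.card_eq_fintype_card]
    simpa using hcard)
  have hbound : ∀ (c c' : Fin A) (d d' : Fin C),
      (nrm3 (⟨(c : ℤ) - c', (d : ℤ) - d'⟩ : OD a b) : ℝ) ≤ (2 * t + 1) * Real.sqrt m := by
    intro c c' d d'
    set u : ℝ := (c : ℝ) - (c' : ℝ) with hu
    set v : ℝ := (d : ℝ) - (d' : ℝ) with hv
    have hcast : (nrm3 (⟨(c : ℤ) - c', (d : ℤ) - d'⟩ : OD a b) : ℝ) =
        u ^ 2 + b * u * v + (-a) * v ^ 2 := by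
      unfold nrm3
      push_cast
      rw [← hu, ← hv]
      ring
    have hfin1 : ∀ (k : ℕ) (i j : Fin k), |((i : ℕ) : ℝ) - ((j : ℕ) : ℝ)| ≤ (k : ℝ) - 1 := by
      intro k i j
      have h1 : ((i : ℕ) : ℝ) + 1 ≤ k := by exact_mod_cast i.2
      have h2 : ((j : ℕ) : ℝ) + 1 ≤ k := by exact_mod_cast j.2
      have h3 : (0 : ℝ) ≤ ((i : ℕ) : ℝ) := Nat.cast_nonneg _
      have h4 : (0 : ℝ) ≤ ((j : ℕ) : ℝ) := Nat.cast_nonneg _
      rw [abs_le]
      constructor <;> linarith
    have hu1 : |u| ≤ α := (hfin1 A c c').trans hAle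
    have hv1 : |v| ≤ β := (hfin1 C d d').trans hCle
    have e1 : u ^ 2 ≤ α * α := by
      rw [← sq_abs, pow_two]
      exact mul_le_mul hu1 hu1 (abs_nonneg _) hα0
    have e2 : v ^ 2 ≤ β * β := by
      rw [← sq_abs, pow_two]
      exact mul_le_mul hv1 hv1 (abs_nonneg _) hβ0
    have e3 : b * u * v ≤ α * β := by
      rcases hb with hb | hb
      · rw [hb]
        push_cast
        have := mul_nonneg hα0 hβ0
        linarith
      · rw [hb]
        push_cast
        calc 1 * u * v ≤ |1 * u * v| := le_abs_self _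
          _ = |u| * |v| := by rw [one_mul, abs_mul]
          _ ≤ _ := mul_le_mul hu1 hv1 (abs_nonneg _) hα0
    have e4 : (-(a : ℝ)) * v ^ 2 ≤ (-a) * (β * β) := mul_le_mul_of_nonneg_left e2 ha.le
    have e5 : (-(a : ℝ)) * (β * β) = t * Real.sqrt m := by
      rw [hββ, ← htt]
      field_simp
    rw [hcast]
    calc u ^ 2 + b * u * v + (-a) * v ^ 2 ≤ α * α + α * β + (-a) * (β * β) := by linarith
      _ = (2 * t + 1) * Real.sqrt m := by rw [e5, hαα, hαβ]; ring
  refine ⟨⟨(z.1.1 : ℤ) - z'.1.1, (z.1.2 : ℤ) - z'.1.2⟩, ⟨(z.2.1 : ℤ) - z'.2.1,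
    (z.2.2 : ℤ) - z'.2.2⟩, ?_, ?_, hbound _ _ _ _, hbound _ _ _ _⟩
  · by_contra hcon
    rw [not_or, not_not, not_not] at hcon
    obtain ⟨h1, h2⟩ := hcon
    have e1 := congrArg QuadraticAlgebra.re h1
    have e2 := congrArg QuadraticAlgebra.im h1
    have e3 := congrArg QuadraticAlgebra.re h2
    have e4 := congrArg QuadraticAlgebra.im h2
    simp only [QuadraticAlgebra.re_zero, QuadraticAlgebra.im_zero] at e1 e2 e3 e4
    apply hne
    refine Prod.ext (Prod.ext (Fin.ext ?_) (Fin.ext ?_)) (Prod.ext (Fin.ext ?_) (Fin.ext ?_))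
    · omega
    · omega
    · omega
    · omega
  · have h1 : Ideal.Quotient.mk (Ideal.span {π})
        (((⟨(z.1.1 : ℤ), (z.1.2 : ℤ)⟩ : OD a b) - l * ⟨(z.2.1 : ℤ), (z.2.2 : ℤ)⟩) -
        ((⟨(z'.1.1 : ℤ), (z'.1.2 : ℤ)⟩ : OD a b) - l * ⟨(z'.2.1 : ℤ), (z'.2.2 : ℤ)⟩)) = 0 := by
      rw [map_sub, sub_eq_zero]
      exact hF
    rw [Ideal.Quotient.eq_zero_iff_mem, Ideal.mem_span_singleton] at h1
    convert h1 using 1
    have e1 : (⟨(z.1.1 : ℤ) - z'.1.1, (z.1.2 : ℤ) - z'.1.2⟩ : OD a b) =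
        ⟨(z.1.1 : ℤ), (z.1.2 : ℤ)⟩ - ⟨(z'.1.1 : ℤ), (z'.1.2 : ℤ)⟩ := rfl
    have e2 : (⟨(z.2.1 : ℤ) - z'.2.1, (z.2.2 : ℤ) - z'.2.2⟩ : OD a b) =
        ⟨(z.2.1 : ℤ), (z.2.2 : ℤ)⟩ - ⟨(z'.2.1 : ℤ), (z'.2.2 : ℤ)⟩ := rfl
    rw [e1, e2]
    ring

theorem tsq3_of_table (hb : b = 0 ∨ b = 1) (h3 : ¬ (3 : ℤ) ∣ b ^ 2 + 4 * a)
    [IsPrincipalIdealRing (OD a b)] (B : ℕ)
    (hB : 9 * (2 * Real.sqrt (-a) + 1) ^ 2 < B + 1)
    (htab : ∀ ρ : OD a b, Prime ρ → nrm3 ρ ≤ B → (∃ l, ρ ∣ l ^ 2 + l + 1) →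
      ∃ w : Ti (OD a b), Associated w.norm ρ) :
    ∀ π : OD a b, Prime π → ∀ l, π ∣ l ^ 2 + l + 1 → ∃ w : Ti (OD a b), Associated w.norm π := by
  intro π hπ l hl
  obtain ⟨x, y, hxy, hdvd, hx, hy⟩ := exists_small3 a b hb π (-l) hπ.ne_zero
  have h1 : π ∣ x * x - x * y + y * y := by
    have e : x * x - x * y + y * y =
        (x - -l * y) * (x - l * y - y) + (l ^ 2 + l + 1) * (y * y) := by ring
    rw [e]
    exact dvd_add (hdvd.mul_right _) (hl.mul_right _)
  obtain ⟨κ, hκ⟩ := h1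
  have hne := sq3_ne_zero h3 hxy
  have hκ0 : κ ≠ 0 := by
    rintro rfl
    rw [mul_zero] at hκ
    exact hne hκ
  have hm : 0 < nrm3 π := nrm3_pos hπ.ne_zero
  have hmR : (0 : ℝ) < nrm3 π := by exact_mod_cast hm
  have hNR : (nrm3 π : ℝ) * nrm3 κ ≤
      9 * ((2 * Real.sqrt (-a) + 1) * Real.sqrt (nrm3 π)) ^ 2 := by
    have h2 := nrm3_sq_add x y ((2 * Real.sqrt (-a) + 1) * Real.sqrt (nrm3 π)) (by positivity) hx hy
    rw [hκ, nrm3_mul] at h2
    exact_mod_cast h2
  have h6 : (nrm3 κ : ℝ) < B + 1 := by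
    refine lt_of_le_of_lt ?_ hB
    have h7 : (nrm3 π : ℝ) * nrm3 κ ≤ nrm3 π * (9 * (2 * Real.sqrt (-a) + 1) ^ 2) := by
      calc (nrm3 π : ℝ) * nrm3 κ ≤ _ := hNR
        _ = (9 * (2 * Real.sqrt (-a) + 1) ^ 2) * (Real.sqrt (nrm3 π) ^ 2) := by ring
        _ = _ := by rw [Real.sq_sqrt hmR.le]; ring
    exact le_of_mul_le_mul_left h7 hmR
  have h8 : nrm3 κ ≤ B := by
    have : nrm3 κ < (B : ℤ) + 1 := by exact_mod_cast h6
    omega
  exact descent3 a b B htab π hπ l hl (nrm3 κ).toNat x y κ hκ0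
    (Int.toNat_of_nonneg (nrm3_nonneg _)).symm h8 hκ

/-- a prime divides a rational prime -/
theorem exists_rat_prime3 {a b : ℤ} [hD : Fact (b ^ 2 + 4 * a < 0)] {ρ : OD a b} (hρ : Prime ρ) :
    ∃ p : ℕ, p.Prime ∧ ρ ∣ (p : OD a b) := by
  have key : ∀ k : ℕ, k ≠ 0 → ρ ∣ (k : OD a b) → ∃ p : ℕ, p.Prime ∧ ρ ∣ (p : OD a b) := by
    intro k
    induction k using induction_on_primes with
    | zero => exact fun h => absurd rfl h
    | one =>
      intro _ h
      rw [Nat.cast_one] at h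
      exact absurd (isUnit_of_dvd_one h) hρ.not_isUnit
    | prime_mul p a hp ih =>
      intro h0 h
      rw [Nat.cast_mul] at h
      rcases hρ.dvd_or_dvd h with h | h
      · exact ⟨p, hp, h⟩
      · exact ih (right_ne_zero_of_mul h0) h
  refine key (nrm3 ρ).natAbs ?_ ?_
  · have := nrm3_pos hρ.ne_zero
    omega
  · refine ⟨star ρ, ?_⟩
    rw [mul_star_eq3]
    have : (((nrm3 ρ).natAbs : ℕ) : ℤ) = nrm3 ρ := Int.natAbs_of_nonneg (nrm3_nonneg _)
    conv_rhs => rw [← this]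
    rw [Int.cast_natCast]

theorem mod_three_of_dvd {p : ℕ} (hp : p.Prime) {L : ℤ} (h : (p : ℤ) ∣ L ^ 2 + L + 1) :
    p = 3 ∨ p % 3 = 1 := by
  have : Fact p.Prime := ⟨hp⟩
  have h7 : ((L : ℤ) : ZMod p) ^ 2 + L + 1 = 0 := by
    have := (ZMod.intCast_zmod_eq_zero_iff_dvd (L ^ 2 + L + 1) p).2 h
    push_cast at this
    exact this
  have h8 : ((L : ℤ) : ZMod p) ^ 3 = 1 := by
    linear_combination ((L : ZMod p) - 1) * h7
  by_cases h1 : ((L : ℤ) : ZMod p) = 1
  · left
    rw [h1] at h7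
    have h9 : ((3 : ℕ) : ZMod p) = 0 := by
      push_cast
      linear_combination h7
    rw [ZMod.natCast_eq_zero_iff] at h9
    exact (Nat.prime_dvd_prime_iff_eq hp Nat.prime_three).1 h9
  · right
    have h9 : orderOf ((L : ℤ) : ZMod p) = 3 := orderOf_eq_prime h8 h1
    have h10 : ((L : ℤ) : ZMod p) ≠ 0 := by
      intro h0
      rw [h0] at h8
      simp at h8
    have h11 : 3 ∣ p - 1 := h9 ▸ ZMod.orderOf_dvd_card_sub_one h10
    have := hp.two_le
    omega

/-- reduction of the table to rational primes: `hs` for `p = 3` and the primes `p ≡ 1 mod 3` which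
split or ramify, with an explicit `w` of absolute norm `p`; `hi` for inert `q`, `q² ≤ B`. -/
theorem table3_of_rational (h3 : ¬ (3 : ℤ) ∣ b ^ 2 + 4 * a) [IsPrincipalIdealRing (OD a b)]
    (B : ℕ)
    (hs : ∀ p : ℕ, p.Prime → p ≤ B → (p = 3 ∨ p % 3 = 1) →
      (∃ x : ℤ, (p : ℤ) ∣ x ^ 2 - b * x - a) → ∃ w : Ti (OD a b), nrm3 w.norm = p)
    (hi : ∀ q : ℕ, q.Prime → q ^ 2 ≤ B → (∀ x : ℤ, ¬ (q : ℤ) ∣ x ^ 2 - b * x - a) →
      ∃ w : Ti (OD a b), w.norm = q ∨ w.norm = -(q : OD a b)) :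
    ∀ ρ : OD a b, Prime ρ → nrm3 ρ ≤ B → (∃ l, ρ ∣ l ^ 2 + l + 1) →
      ∃ w : Ti (OD a b), Associated w.norm ρ := by
  rintro ρ hρ hB ⟨l, hl⟩
  obtain ⟨p, hp, hρp⟩ := exists_rat_prime3 hρ
  have hpZ : Prime (p : ℤ) := Nat.prime_iff_prime_int.1 hp
  have hρ1 : nrm3 ρ ≠ 1 := fun h => hρ.not_isUnit (nrm3_isUnit.2 h)
  obtain ⟨τ, hτ⟩ := hρp
  have hN : (p : ℤ) ^ 2 = nrm3 ρ * nrm3 τ := by
    rw [← nrm3_mul, ← hτ, nrm3_natCast]
  have hcases : nrm3 ρ = p ∨ nrm3 ρ = (p : ℤ) ^ 2 := by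
    have h1 : (nrm3 ρ).natAbs ∣ p ^ 2 := by
      have h2 : (nrm3 ρ) ∣ ((p ^ 2 : ℕ) : ℤ) := ⟨nrm3 τ, by push_cast; exact hN⟩
      exact Int.natAbs_dvd_natAbs.2 h2 |>.trans (by simp)
    obtain ⟨i, hi2, hi3⟩ := (Nat.dvd_prime_pow hp).1 h1
    have h3 : nrm3 ρ = ((nrm3 ρ).natAbs : ℤ) := (Int.natAbs_of_nonneg (nrm3_nonneg _)).symm
    rw [hi3] at h3
    interval_cases i
    · exact absurd (by simpa using h3) hρ1
    · left; simpa using h3
    · right; simpa using h3
  rcases hcases with h1 | h2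
  · -- split or ramified
    obtain ⟨c, d⟩ := ρ
    have hnab : c ^ 2 + b * c * d - a * d ^ 2 = p := h1
    have hpb : ¬ (p : ℤ) ∣ d := by
      intro hd
      have h2 : (p : ℤ) ∣ c ^ 2 := by
        have e : c ^ 2 = p - d * (b * c - a * d) := by rw [← hnab]; ring
        rw [e]
        exact dvd_sub dvd_rfl (hd.mul_right _)
      have hc : (p : ℤ) ∣ c := hpZ.dvd_of_dvd_pow h2
      obtain ⟨c', rfl⟩ := hc
      obtain ⟨d', rfl⟩ := hd
      have e : (p : ℤ) * (p * (c' ^ 2 + b * c' * d' - a * d' ^ 2)) = p * 1 := by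
        rw [mul_one]
        conv_rhs => rw [← hnab]
        ring
      have e2 := mul_left_cancel₀ hpZ.ne_zero e
      exact hpZ.not_isUnit (IsUnit.of_mul_eq_one _ e2)
    have hcop : IsCoprime d (p : ℤ) :=
      ((hpZ.irreducible.coprime_iff_not_dvd).2 hpb).symm
    obtain ⟨e, v, hev⟩ := hcop
    set x : ℤ := -c * e with hx
    have hroot : (p : ℤ) ∣ x ^ 2 - b * x - a := by
      refine ⟨e ^ 2 + b * e * c * v - a * (2 * v - v ^ 2 * p), ?_⟩
      have e1 : e * d = 1 - v * p := by linarith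
      calc x ^ 2 - b * x - a = e ^ 2 * c ^ 2 + b * (e * c) - a := by rw [hx]; ring
        _ = e ^ 2 * (c ^ 2 + b * c * d - a * d ^ 2) + b * (e * c) * (1 - e * d) -
            a * (1 - (e * d) ^ 2) := by ring
        _ = _ := by rw [hnab, e1]; ring
    -- `ω` is congruent to `x`
    have hom : (⟨c, d⟩ : OD a b) ∣ ((⟨0, 1⟩ : OD a b) - (x : OD a b)) := by
      have e : ((⟨0, 1⟩ : OD a b) - (x : OD a b)) =
          (e : OD a b) * ⟨c, d⟩ + (p : OD a b) * ((v : OD a b) * ⟨0, 1⟩) := by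
        apply QuadraticAlgebra.ext
        · simp only [QuadraticAlgebra.re_sub, QuadraticAlgebra.re_intCast, Int.cast_id,
            QuadraticAlgebra.re_add, QuadraticAlgebra.re_mul, QuadraticAlgebra.im_intCast,
            QuadraticAlgebra.re_natCast, QuadraticAlgebra.im_natCast, QuadraticAlgebra.im_mul]
          rw [hx]
          ring
        · simp only [QuadraticAlgebra.im_sub, QuadraticAlgebra.re_intCast, Int.cast_id,
            QuadraticAlgebra.im_add, QuadraticAlgebra.re_mul, QuadraticAlgebra.im_intCast,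
            QuadraticAlgebra.re_natCast, QuadraticAlgebra.im_natCast, QuadraticAlgebra.im_mul]
          linear_combination -hev
      rw [e, hτ]
      exact dvd_add (Dvd.intro_left _ rfl) ⟨τ * ((v : OD a b) * ⟨0, 1⟩), by ring⟩
    have hp4 : p = 3 ∨ p % 3 = 1 := by
      set L : ℤ := l.re + l.im * x with hL
      have h3 : (⟨c, d⟩ : OD a b) ∣ l - (L : OD a b) := by
        have e : l - (L : OD a b) = ((⟨0, 1⟩ : OD a b) - (x : OD a b)) * (l.im : OD a b) := by
          apply QuadraticAlgebra.ext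
          · simp only [QuadraticAlgebra.re_sub, QuadraticAlgebra.re_intCast, Int.cast_id,
              QuadraticAlgebra.re_mul, QuadraticAlgebra.im_intCast, QuadraticAlgebra.im_sub]
            rw [hL]
            ring
          · simp only [QuadraticAlgebra.im_sub, QuadraticAlgebra.re_intCast, Int.cast_id,
              QuadraticAlgebra.re_sub, QuadraticAlgebra.im_intCast, QuadraticAlgebra.im_mul]
            ring
        rw [e]
        exact hom.mul_right _
      have h4 : (⟨c, d⟩ : OD a b) ∣ ((L ^ 2 + L + 1 : ℤ) : OD a b) := by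
        have e : ((L ^ 2 + L + 1 : ℤ) : OD a b) =
            (l ^ 2 + l + 1) - (l - (L : OD a b)) * (l + (L : OD a b) + 1) := by
          push_cast
          ring
        rw [e]
        exact dvd_sub hl (h3.mul_right _)
      have h5 : (p : ℤ) ∣ L ^ 2 + L + 1 := by
        obtain ⟨z, hz⟩ := h4
        have h6 : (L ^ 2 + L + 1) ^ 2 = p * nrm3 z := by
          rw [← nrm3_intCast (a := a) (b := b), hz, nrm3_mul, h1]
        exact hpZ.dvd_of_dvd_pow ⟨nrm3 z, h6⟩
      exact mod_three_of_dvd hp h5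
    have hpB : p ≤ B := by
      have : nrm3 (⟨c, d⟩ : OD a b) ≤ B := hB
      rw [h1] at this
      exact_mod_cast this
    obtain ⟨w, hw⟩ := hs p hp hpB hp4 ⟨x, hroot⟩
    have hdvd : (⟨c, d⟩ : OD a b) ∣ w.norm * star w.norm := by
      rw [mul_star_eq3, hw]
      refine ⟨star ⟨c, d⟩, ?_⟩
      rw [mul_star_eq3, h1]
    have hass : ∀ σ : OD a b, nrm3 σ = p → (⟨c, d⟩ : OD a b) ∣ σ → Associated σ ⟨c, d⟩ := by
      rintro σ hσ ⟨u, rfl⟩
      have h3 : nrm3 u = 1 := by
        rw [nrm3_mul, h1] at hσ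
        exact mul_left_cancel₀ hpZ.ne_zero (by rw [hσ, mul_one])
      exact associated_mul_unit_left _ _ (nrm3_isUnit.2 h3)
    rcases hρ.dvd_or_dvd hdvd with h | h
    · exact ⟨w, hass _ hw h⟩
    · refine ⟨⟨star w.re, star w.im⟩, ?_⟩
      have e : (⟨star w.re, star w.im⟩ : Ti (OD a b)).norm = star w.norm := by
        rw [ti_norm, ti_norm, star_add, star_sub, star_mul, star_mul, star_mul]
        ring
      rw [e]
      exact hass _ (by rw [nrm3_star, hw]) h
  · -- inert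
    have hτ1 : nrm3 τ = 1 := by
      rw [h2] at hN
      exact (mul_left_cancel₀ (pow_ne_zero 2 hpZ.ne_zero) (by rw [← hN, mul_one])).symm
    have hass : Associated (p : OD a b) ρ := by
      rw [hτ]
      exact associated_mul_unit_left _ _ (nrm3_isUnit.2 hτ1)
    have hpp : Prime (p : OD a b) := hass.prime_iff.2 hρ
    have hinert : ∀ x : ℤ, ¬ (p : ℤ) ∣ x ^ 2 - b * x - a := by
      rintro x ⟨k, hk⟩
      have h3 : (p : OD a b) ∣ (⟨x, -1⟩ : OD a b) * star ⟨x, -1⟩ := by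
        rw [mul_star_eq3]
        refine ⟨(k : OD a b), ?_⟩
        have e : nrm3 (⟨x, -1⟩ : OD a b) = (p : ℤ) * k := by
          rw [← hk]
          unfold nrm3
          ring
        rw [e]
        push_cast
        ring
      have him : ∀ z : OD a b, (p : OD a b) ∣ z → (p : ℤ) ∣ z.im := by
        rintro z ⟨u, rfl⟩
        refine ⟨u.im, ?_⟩
        simp [QuadraticAlgebra.im_mul]
      rcases hpp.dvd_or_dvd h3 with h | h
      · have := him _ h
        change (p : ℤ) ∣ -1 at this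
        exact hpZ.not_isUnit (isUnit_of_dvd_unit this (by norm_num))
      · have := him _ h
        rw [QuadraticAlgebra.im_star] at this
        change (p : ℤ) ∣ - -1 at this
        exact hpZ.not_isUnit (isUnit_of_dvd_unit this (by norm_num))
    have hpB : p ^ 2 ≤ B := by
      rw [h2] at hB
      exact_mod_cast hB
    obtain ⟨w, hw | hw⟩ := hi p hp hpB hinert
    · exact ⟨w, by rw [hw]; exact hass⟩
    · exact ⟨w, by rw [hw]; exact hass.neg_left⟩

end SerreT
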