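import Pool.Agent.SerreT.VLOC
import Pool.Agent.Serre.VPROD

/-!
# Products and transport of the joint injectivity statement
-/

open Matrix
open scoped QuadraticAlgebra

namespace SerreT

open SerreE (mk2 sc dg dgl up low prM prGL prGL_val prGL_surj dg_prod det_prGL)

section
variable {k : Type*} [Field k]

theorem propV_subsingleton (R : Type*) [CommRing R] [Subsingleton R] : PropV R k := by
  intro χ _ _ v _ hsum
  funext y
  have h1 := hsum 1 y (map_one _)
  rw [finsum_unique] at h1
  rw [Pi.zero_apply, ← h1]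
  congr 1
  exact Subsingleton.elim _ _

end

section prod

variable {R S : Type*} [CommRing R] [CommRing S]

/-- pairs of elements of the quadratic algebras -/
def gpM (x : Ti R) (y : Ti S) : Ti (R × S) := ⟨(x.re, y.re), (x.im, y.im)⟩

theorem gpM_mul (x x' : Ti R) (y y' : Ti S) :
    gpM x y * gpM x' y' = gpM (x * x') (y * y') := by
  ext <;> simp [gpM]

theorem gpM_one : gpM (1 : Ti R) (1 : Ti S) = 1 := by
  ext <;> simp [gpM]

/-- pairs of units of the quadratic algebras -/
def gpU : (Ti R)ˣ × (Ti S)ˣ →* (Ti (R × S))ˣ where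
  toFun p := ⟨gpM p.1.val p.2.val, gpM p.1⁻¹.val p.2⁻¹.val, by
    rw [gpM_mul, Units.mul_inv, Units.mul_inv, gpM_one], by
    rw [gpM_mul, Units.inv_mul, Units.inv_mul, gpM_one]⟩
  map_one' := Units.ext gpM_one
  map_mul' p q := Units.ext (gpM_mul _ _ _ _).symm

theorem gpU_val (x : (Ti R)ˣ) (y : (Ti S)ˣ) : (gpU (x, y)).val = gpM x.val y.val := rfl

theorem gpU_surj (t : (Ti (R × S))ˣ) : ∃ x y, gpU (x, y) = t := by
  let p₁ : Ti (R × S) →* Ti R :=
    { toFun := fun z => ⟨z.re.1, z.im.1⟩
      map_one' := by ext <;> simp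
      map_mul' := fun z w => by ext <;> simp }
  let p₂ : Ti (R × S) →* Ti S :=
    { toFun := fun z => ⟨z.re.2, z.im.2⟩
      map_one' := by ext <;> simp
      map_mul' := fun z w => by ext <;> simp }
  refine ⟨Units.map p₁ t, Units.map p₂ t, ?_⟩
  apply Units.ext
  ext <;> rfl

theorem iota_gpU (x : (Ti R)ˣ) (y : (Ti S)ˣ) : iota (gpU (x, y)) = prGL (iota x, iota y) := by
  apply Units.ext
  rw [prGL_val, iota_val, gpU_val]
  ext i j <;> fin_cases i <;> fin_cases j <;> rfl

theorem tiC_prod (u : (R × S)ˣ) : tiC u =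
    gpU (tiC (MulEquiv.prodUnits u).1, tiC (MulEquiv.prodUnits u).2) := by
  apply Units.ext
  rw [gpU_val]
  ext <;> rfl

end prod

section
variable {k : Type*} [Field k]

theorem propV_prod (R S : Type*) [CommRing R] [CommRing S] [Finite R] [Finite S]
    (hR : PropV R k) (hS : PropV S k) : PropV (R × S) k := by
  classical
  intro χ hscal hprim v hequi hsum
  have := Fintype.ofFinite Rˣ
  have := Fintype.ofFinite Sˣ
  have := Fintype.ofFinite (R × S)ˣ
  -- the two components of `χ`
  let χR : (Ti R)ˣ →* kˣ := χ.comp (gpU.comp (MonoidHom.inl _ _))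
  let χS : (Ti S)ˣ →* kˣ := χ.comp (gpU.comp (MonoidHom.inr _ _))
  have eR : ∀ t, χR t = χ (gpU (t, 1)) := fun t => rfl
  have eS : ∀ t, χS t = χ (gpU (1, t)) := fun t => rfl
  have hscalR : ∀ u : Rˣ, χR (tiC u) = 1 := by
    intro u
    rw [eR, ← hscal (MulEquiv.prodUnits.symm (u, 1)), tiC_prod, MulEquiv.apply_symm_apply]
    congr 3
  have hscalS : ∀ u : Sˣ, χS (tiC u) = 1 := by
    intro u
    rw [eS, ← hscal (MulEquiv.prodUnits.symm (1, u)), tiC_prod, MulEquiv.apply_symm_apply]
    congr 3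
  have hprimR : ∀ 𝔞 : Ideal R, 𝔞 ≠ ⊥ →
      ∃ t : (Ti R)ˣ, t.val.re - 1 ∈ 𝔞 ∧ t.val.im ∈ 𝔞 ∧ χR t ^ 2 ≠ 1 := by
    intro 𝔞 h𝔞
    obtain ⟨t, ht1, ht2, ht3⟩ := hprim (Ideal.prod 𝔞 ⊥) (by
      intro h0
      apply h𝔞
      rw [Submodule.eq_bot_iff] at h0 ⊢
      intro x hx
      have := h0 (x, 0) ⟨hx, rfl⟩
      exact congrArg Prod.fst this)
    obtain ⟨x, y, rfl⟩ := gpU_surj t
    refine ⟨x, ht1.1, ht2.1, ?_⟩
    rw [eR]
    have h1 : y = 1 := by
      apply Units.ext
      have h2 : y.val.re - 1 = 0 := ht1.2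
      have h3 : y.val.im = 0 := ht2.2
      ext
      · rw [Units.val_one, QuadraticAlgebra.re_one]; exact sub_eq_zero.1 h2
      · rw [Units.val_one, QuadraticAlgebra.im_one]; exact h3
    rwa [h1] at ht3
  have hprimS : ∀ 𝔞 : Ideal S, 𝔞 ≠ ⊥ →
      ∃ t : (Ti S)ˣ, t.val.re - 1 ∈ 𝔞 ∧ t.val.im ∈ 𝔞 ∧ χS t ^ 2 ≠ 1 := by
    intro 𝔞 h𝔞
    obtain ⟨t, ht1, ht2, ht3⟩ := hprim (Ideal.prod ⊥ 𝔞) (by
      intro h0
      apply h𝔞
      rw [Submodule.eq_bot_iff] at h0 ⊢
      intro x hx
      have := h0 (0, x) ⟨rfl, hx⟩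
      exact congrArg Prod.snd this)
    obtain ⟨x, y, rfl⟩ := gpU_surj t
    refine ⟨y, ht1.2, ht2.2, ?_⟩
    rw [eS]
    have h1 : x = 1 := by
      apply Units.ext
      have h2 : x.val.re - 1 = 0 := ht1.1
      have h3 : x.val.im = 0 := ht2.1
      ext
      · rw [Units.val_one, QuadraticAlgebra.re_one]; exact sub_eq_zero.1 h2
      · rw [Units.val_one, QuadraticAlgebra.im_one]; exact h3
    rwa [h1] at ht3
  have hequi' : ∀ (A : GL (Fin 2) R) (B : GL (Fin 2) S) (t : (Ti R)ˣ) (s : (Ti S)ˣ),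
      v (prGL (A * iota t, B * iota s)) = ((χ (gpU (t, s)))⁻¹ : kˣ) * v (prGL (A, B)) := by
    intro A B t s
    rw [← hequi, iota_gpU, ← map_mul, Prod.mk_mul_mk]
  have hsum' : ∀ (g a : GL (Fin 2) R) (g' a' : GL (Fin 2) S),
      Matrix.GeneralLinearGroup.det g = 1 → Matrix.GeneralLinearGroup.det g' = 1 →
      ∑ r : Rˣ, ∑ s : Sˣ, v (prGL (g * dg r * a, g' * dg s * a')) = 0 := by
    intro g a g' a' hg hg'
    have h1 := hsum (prGL (g, g')) (prGL (a, a')) (det_prGL hg hg')
    rw [finsum_eq_sum_of_fintype] at h1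
    rw [← Fintype.sum_prod_type', ← h1]
    refine Fintype.sum_equiv MulEquiv.prodUnits.symm.toEquiv _ _ (fun p => ?_)
    obtain ⟨r, s⟩ := p
    change _ = v (prGL (g, g') * dg (MulEquiv.prodUnits.symm (r, s)) * prGL (a, a'))
    rw [dg_prod, ← map_mul, ← map_mul, Prod.mk_mul_mk, Prod.mk_mul_mk]
  have step1 : ∀ (A : GL (Fin 2) R) (g' a' : GL (Fin 2) S),
      Matrix.GeneralLinearGroup.det g' = 1 →
      ∑ s : Sˣ, v (prGL (A, g' * dg s * a')) = 0 := by
    intro A g' a' hg'
    have h1 := hR χR hscalR hprimR (fun A => ∑ s : Sˣ, v (prGL (A, g' * dg s * a')))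
      (fun y t => by
        rw [Finset.mul_sum]
        refine Finset.sum_congr rfl (fun s _ => ?_)
        have := hequi' y (g' * dg s * a') t 1
        rw [map_one, mul_one] at this
        rw [this, eR])
      (fun g a hg => by
        rw [finsum_eq_sum_of_fintype]
        exact hsum' g a g' a' hg hg')
    exact congrFun h1 A
  funext y
  obtain ⟨A, B, rfl⟩ := prGL_surj y
  have h1 := hS χS hscalS hprimS (fun B => v (prGL (A, B)))
    (fun y t => by
      have := hequi' A y 1 t
      rw [map_one, mul_one] at this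
      rw [this, eS])
    (fun g a hg => by
      rw [finsum_eq_sum_of_fintype]
      exact step1 A g a hg)
  exact congrFun h1 B

/-- the isomorphism of the quadratic algebras induced by an isomorphism of the rings -/
def tiMap {R S : Type*} [CommRing R] [CommRing S] (e : R ≃+* S) : Ti R →* Ti S where
  toFun z := ⟨e z.re, e z.im⟩
  map_one' := by ext <;> simp
  map_mul' z w := by ext <;> simp

theorem propV_equiv (R S : Type*) [CommRing R] [CommRing S] (e : R ≃+* S)
    (hR : PropV R k) : PropV S k := by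
  intro χ hscal hprim v hequi hsum
  let G : GL (Fin 2) R →* GL (Fin 2) S := Matrix.GeneralLinearGroup.map (e : R →+* S)
  let T : (Ti R)ˣ →* (Ti S)ˣ := Units.map (tiMap e)
  have hGT : ∀ t, G (iota t) = iota (T t) := by
    intro t
    apply Units.ext
    ext i j
    fin_cases i <;> fin_cases j
    · rfl
    · exact map_neg e _
    · rfl
    · exact map_sub e _ _
  have hGsurj : Function.Surjective G := by
    intro y
    refine ⟨Matrix.GeneralLinearGroup.map (e.symm : S →+* R) y, ?_⟩
    apply Units.ext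
    ext i j
    exact e.apply_symm_apply _
  have hTsurj : Function.Surjective T := by
    intro t
    refine ⟨Units.map (tiMap e.symm) t, ?_⟩
    apply Units.ext
    ext
    · exact e.apply_symm_apply _
    · exact e.apply_symm_apply _
  have hdet : ∀ g, Matrix.GeneralLinearGroup.det g = 1 →
      Matrix.GeneralLinearGroup.det (G g) = 1 := by
    intro g hg
    apply Units.ext
    have h1 := congrArg Units.val hg
    rw [Matrix.GeneralLinearGroup.val_det_apply, Matrix.det_fin_two, Units.val_one] at h1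
    rw [Matrix.GeneralLinearGroup.val_det_apply, Matrix.det_fin_two, Units.val_one]
    change e _ * e _ - e _ * e _ = 1
    rw [← map_mul, ← map_mul, ← map_sub, h1, map_one]
  have hdg : ∀ r : Rˣ, G (dg r) = dg (Units.mapEquiv e.toMulEquiv r) := by
    intro r
    apply Units.ext
    ext i j
    fin_cases i <;> fin_cases j
    · exact map_one e
    · exact map_zero e
    · exact map_zero e
    · rfl
  have key := hR (χ.comp T) (fun u => by
      have h1 : T (tiC u) = tiC (Units.mapEquiv e.toMulEquiv u) := by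
        apply Units.ext
        ext
        · rfl
        · exact map_zero e
      rw [MonoidHom.comp_apply, h1, hscal])
    (fun 𝔞 h𝔞 => by
      obtain ⟨t, ht1, ht2, ht3⟩ := hprim (𝔞.comap (e.symm : S →+* R)) (by
        intro h0
        apply h𝔞
        rw [Submodule.eq_bot_iff] at h0 ⊢
        intro x hx
        have h1 : e x = 0 := h0 (e x) (by
          rw [Ideal.mem_comap]
          change e.symm (e x) ∈ 𝔞
          rwa [e.symm_apply_apply])
        exact (map_eq_zero_iff e e.injective).1 h1)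
      obtain ⟨t, rfl⟩ := hTsurj t
      refine ⟨t, ?_, ?_, ht3⟩
      · rw [Ideal.mem_comap] at ht1
        have h1 : e.symm (e t.val.re - 1) ∈ 𝔞 := ht1
        rwa [map_sub, map_one, e.symm_apply_apply] at h1
      · rw [Ideal.mem_comap] at ht2
        have h1 : e.symm (e t.val.im) ∈ 𝔞 := ht2
        rwa [e.symm_apply_apply] at h1)
    (fun y => v (G y))
    (fun y t => by
      rw [map_mul, hGT, hequi]
      rfl)
    (fun g a hg => by
      rw [← hsum (G g) (G a) (hdet g hg)]
      rw [← finsum_comp_equiv (Units.mapEquiv e.toMulEquiv).toEquiv]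
      refine finsum_congr (fun r => ?_)
      rw [map_mul, map_mul, hdg]
      rfl)
  funext y
  obtain ⟨y, rfl⟩ := hGsurj y
  exact congrFun key y

end

end SerreT
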